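import Pool.Agent.LP.Defs

/-!
# LP / Cmz: the lower central series of `N` acts deeply on `V`

PROOF of `cmn_Z`: write `M i = cmn N i ⊔ W`; descending (`cmn N (i+1) ≤ cmn N i` by induction).
For `g ∈ N` and `v ∈ M i`, `(g • v) * v⁻¹ ∈ M (i + 1)`: for `v ∈ cmn N i` by
definition; for `v ∈ W`, `(g • v) * v⁻¹ ∈ W`; the set of such `v` is a subgroup, because
`(g • (v v')) (v v')⁻¹ = ((g • v) v⁻¹) ((g • v') v'⁻¹)`. So `M i` is invariant under `N`. Let
`Z i = {g ∈ N | ∀ j, ∀ v ∈ M j, (g • v) * v⁻¹ ∈ M (j + i + 1)}`. It is a subgroup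
(`(g h • v) v⁻¹ = g • ((h • v) v⁻¹) * ((g • v) v⁻¹)`, and `g • w = ((g • w) w⁻¹) w`), `Z 0 = N`, and
`⁅Z i, N⁆ ≤ Z (i + 1)`: for `x ∈ Z i`, `y ∈ N`, `v ∈ M j` put `v' = (x⁻¹ y⁻¹) • v ∈ M j`, so
`v = (y x) • v'` and `(⁅x, y⁆ • v) v⁻¹ = ((x y) • v') ((y x) • v')⁻¹`, which equals
`X(Y v') * (Y(X v'))⁻¹` where `X w = (x • w) w⁻¹`, `Y w = (y • w) w⁻¹` (additively
`xy - yx = (x-1)(y-1) - (y-1)(x-1)`), an element of `M (j + i + 2)`. Hence
`N.lowerCentralSeries i ≤ Z i` (induction, `Subgroup.commutator_le`). Take `j = 0`.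
-/

set_option autoImplicit false

open scoped commutatorElement

namespace Pool.Agent.LP

variable {G V : Type} [Group G] [CommGroup V] [MulDistribMulAction G V]

private theorem cmz_step (N : Subgroup G) (i : ℕ) {g : G} (hg : g ∈ N) {v : V}
    (hv : v ∈ cmn (V := V) N i) : (g • v) * v⁻¹ ∈ cmn (V := V) N (i + 1) :=
  Subgroup.subset_closure ⟨g, hg, v, hv, rfl⟩

private theorem cmz_anti (N : Subgroup G) (i : ℕ) :
    cmn (V := V) N (i + 1) ≤ cmn N i := by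
  induction i with
  | zero => exact le_top
  | succ i ih =>
    refine (Subgroup.closure_le _).2 ?_
    rintro w ⟨g, hg, v, hv, rfl⟩
    exact cmz_step N i hg (ih hv)

private theorem cmz_M (N : Subgroup G) (W : Subgroup V) (hW : GInv G W) (i : ℕ) {g : G}
    (hg : g ∈ N) {v : V} (hv : v ∈ cmn N i ⊔ W) : (g • v) * v⁻¹ ∈ cmn N (i + 1) ⊔ W := by
  obtain ⟨a, ha, b, hb, rfl⟩ := Subgroup.mem_sup.1 hv
  have h : (g • (a * b)) * (a * b)⁻¹ = ((g • a) * a⁻¹) * ((g • b) * b⁻¹) := by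
    rw [smul_mul', mul_inv]
    exact mul_mul_mul_comm _ _ _ _
  rw [h]
  exact Subgroup.mul_mem_sup (cmz_step N i hg ha) (W.mul_mem (hW g b hb) (W.inv_mem hb))

private theorem cmz_inv (N : Subgroup G) (W : Subgroup V) (hW : GInv G W) (i : ℕ) {g : G}
    (hg : g ∈ N) {v : V} (hv : v ∈ cmn N i ⊔ W) : g • v ∈ cmn N i ⊔ W := by
  have h1 := cmz_M N W hW i hg hv
  have h2 : (g • v) * v⁻¹ ∈ cmn N i ⊔ W := sup_le_sup_right (cmz_anti N i) W h1
  have h3 := (cmn N i ⊔ W).mul_mem h2 hv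
  rwa [inv_mul_cancel_right] at h3

/-- the elements of `N` which act with depth `i` -/
private def cmzZ (N : Subgroup G) (W : Subgroup V) (hW : GInv G W) (i : ℕ) : Subgroup G where
  carrier := {g | g ∈ N ∧ ∀ j, ∀ v ∈ cmn N j ⊔ W, (g • v) * v⁻¹ ∈ cmn N (j + i + 1) ⊔ W}
  one_mem' := by
    refine ⟨N.one_mem, fun j v _ => ?_⟩
    rw [one_smul, mul_inv_cancel]
    exact Subgroup.one_mem _
  mul_mem' := by
    rintro a b ⟨ha, ha'⟩ ⟨hb, hb'⟩
    refine ⟨N.mul_mem ha hb, fun j v hv => ?_⟩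
    have h : ((a * b) • v) * v⁻¹ = (a • ((b • v) * v⁻¹)) * ((a • v) * v⁻¹) := by
      rw [smul_mul', smul_inv', mul_smul]
      group
    rw [h]
    exact Subgroup.mul_mem _ (cmz_inv N W hW _ ha (hb' j v hv)) (ha' j v hv)
  inv_mem' := by
    rintro a ⟨ha, ha'⟩
    refine ⟨N.inv_mem ha, fun j v hv => ?_⟩
    have h : (a⁻¹ • v) * v⁻¹ = (a⁻¹ • ((a • v) * v⁻¹))⁻¹ := by
      rw [smul_mul', smul_inv', inv_smul_smul]
      group
    rw [h]
    exact Subgroup.inv_mem _ (cmz_inv N W hW _ (N.inv_mem ha) (ha' j v hv))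

private theorem cmz_le (N : Subgroup G) (W : Subgroup V) (hW : GInv G W) (i : ℕ) :
    N.lowerCentralSeries i ≤ cmzZ N W hW i := by
  induction i with
  | zero =>
    intro g hg
    exact ⟨hg, fun j v hv => cmz_M N W hW j hg hv⟩
  | succ i ih =>
    rw [Subgroup.lowerCentralSeries_succ]
    refine (Subgroup.commutator_le).2 ?_
    intro x hx y hy
    obtain ⟨hx1, hx2⟩ := ih hx
    have hc : ⁅x, y⁆ ∈ N := by
      rw [commutatorElement_def]
      exact N.mul_mem (N.mul_mem (N.mul_mem hx1 hy) (N.inv_mem hx1)) (N.inv_mem hy)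
    refine ⟨hc, fun j v hv => ?_⟩
    have hv' : (x⁻¹ * y⁻¹) • v ∈ cmn N j ⊔ W :=
      cmz_inv N W hW j (N.mul_mem (N.inv_mem hx1) (N.inv_mem hy)) hv
    obtain ⟨v', hv'e⟩ : ∃ v', v' = (x⁻¹ * y⁻¹) • v := ⟨_, rfl⟩
    rw [← hv'e] at hv'
    have hv2 : v = (y * x) • v' := by
      rw [hv'e, ← mul_smul]
      have : y * x * (x⁻¹ * y⁻¹) = 1 := by group
      rw [this, one_smul]
    have key : (⁅x, y⁆ • v) * v⁻¹ =
        ((x • ((y • v') * v'⁻¹)) * ((y • v') * v'⁻¹)⁻¹) *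
          ((y • ((x • v') * v'⁻¹)) * ((x • v') * v'⁻¹)⁻¹)⁻¹ := by
      have e1 : ⁅x, y⁆ • v = x • y • v' := by
        rw [hv'e, commutatorElement_def, ← mul_smul, ← mul_smul]
        congr 1
        group
      rw [e1, hv2, mul_smul]
      simp only [smul_mul', smul_inv', mul_inv_rev, inv_inv]
      generalize x • y • v' = A
      generalize y • x • v' = B
      generalize x • v' = C
      generalize y • v' = D
      have : A * C⁻¹ * (v' * D⁻¹) * (v'⁻¹ * C * (D * B⁻¹)) = A * B⁻¹ := by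
        have h1 : A * C⁻¹ * (v' * D⁻¹) * (v'⁻¹ * C * (D * B⁻¹))
          = A * B⁻¹ * (C⁻¹ * C) * (D⁻¹ * D) * (v' * v'⁻¹) := by
          simp only [mul_assoc, mul_comm, mul_left_comm]
        rw [h1]; simp
      rw [← this]
      simp only [mul_assoc, mul_comm, mul_left_comm]
    rw [key]
    have k1 := hx2 (j + 1) _ (cmz_M N W hW j hy hv')
    have k2 := cmz_M N W hW (j + i + 1) hy (hx2 j v' hv')
    have e : j + 1 + i + 1 = j + (i + 1) + 1 := by ring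
    rw [e] at k1
    exact Subgroup.mul_mem _ k1 (Subgroup.inv_mem _ k2)

theorem cmn_Z (N : Subgroup G) (W : Subgroup V) (hW : GInv G W) (i : ℕ) (g : G)
    (hg : g ∈ N.lowerCentralSeries i) (v : V) : (g • v) * v⁻¹ ∈ cmn N (i + 1) ⊔ W := by
  have h := (cmz_le N W hW i hg).2 0 v (Subgroup.mem_sup_left (Subgroup.mem_top v))
  rwa [Nat.zero_add] at h

end Pool.Agent.LP
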