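import Pool.Agent.LP.Defs

/-!
# LP / Nil: a finite p-group acts nilpotently on a finite commutative p-group (proved, helper52)
-/

set_option autoImplicit false

open scoped commutatorElement

namespace Pool.Agent.LP

variable {p : ℕ} {G V : Type} [Group G] [CommGroup V] [MulDistribMulAction G V]

theorem EE_finite [Finite G] [Finite V] : Finite (EE G V) := by
  exact Finite.of_equiv (V × G) SemidirectProduct.equivProd.symm

theorem EE_pgroup (hp : p.Prime) [Finite G] [Finite V] (hG : IsPGroup p G) (hV : IsPGroup p V) :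
    IsPGroup p (EE G V) := by
  haveI : Fact p.Prime := ⟨hp⟩
  obtain ⟨a, ha⟩ := hG.exists_card_eq
  obtain ⟨b, hb⟩ := hV.exists_card_eq
  refine IsPGroup.of_card (n := b + a) ?_
  rw [SemidirectProduct.card, ha, hb, pow_add]

theorem cmn_lcs (N : Subgroup G) (j : ℕ) (v : V) (hv : v ∈ cmn N j) :
    (SemidirectProduct.inl v : EE G V) ∈ (⊤ : Subgroup (EE G V)).lowerCentralSeries j := by
  induction j generalizing v with
  | zero => exact Subgroup.mem_top _
  | succ j ih =>
    have h1 : cmn N (j + 1) ≤ ((⊤ : Subgroup (EE G V)).lowerCentralSeries (j + 1)).comap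
        (SemidirectProduct.inl : V →* EE G V) := by
      show Subgroup.closure _ ≤ _
      rw [Subgroup.closure_le]
      rintro w ⟨g, _, u, hu, rfl⟩
      show (SemidirectProduct.inl ((g • u) * u⁻¹) : EE G V) ∈
        (⊤ : Subgroup (EE G V)).lowerCentralSeries (j + 1)
      have h2 : (SemidirectProduct.inl ((g • u) * u⁻¹) : EE G V) =
          ⁅(SemidirectProduct.inl u : EE G V), (SemidirectProduct.inr g : EE G V)⁆⁻¹ := by
        rw [commutatorElement_inv, commutatorElement_def, map_mul, map_inv]
        congr 1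
        have h3 := SemidirectProduct.inl_aut (φ := MulDistribMulAction.toMulAut G V) g u
        rw [MulDistribMulAction.toMulAut_apply] at h3
        rw [← map_inv]
        exact h3
      rw [h2, Subgroup.lowerCentralSeries_succ]
      exact Subgroup.inv_mem _ (Subgroup.commutator_mem_commutator (ih u hu) (Subgroup.mem_top _))
    exact h1 hv

theorem cmn_nil (hp : p.Prime) [Finite G] [Finite V] (hG : IsPGroup p G) (hV : IsPGroup p V)
    (N : Subgroup G) : ∃ j, cmn N j = (⊥ : Subgroup V) := by
  haveI : Fact p.Prime := ⟨hp⟩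
  haveI : Finite (EE G V) := EE_finite
  have h1 : Group.IsNilpotent (EE G V) := (EE_pgroup hp hG hV).isNilpotent
  obtain ⟨n, hn⟩ := Subgroup.nilpotent_iff_lowerCentralSeries.1 h1
  refine ⟨n, ?_⟩
  rw [eq_bot_iff]
  intro v hv
  have h2 := cmn_lcs N n v hv
  rw [hn, Subgroup.mem_bot] at h2
  rw [Subgroup.mem_bot]
  exact SemidirectProduct.inl_injective (h2.trans (map_one SemidirectProduct.inl).symm)

end Pool.Agent.LP
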