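import Pool.Agent.LP.Gam
import Pool.Agent.LP.Cmz
import Pool.Agent.LP.Nil

/-!
# LP / Aac: `(V ⋊ N) / (W ⋊ C_N(V/W))` is a Lazard group if `[V; _m N] ≤ W`, `m ≤ p - 1`

PROOF of `AA_laz`. Finite; a `p`-group (`EE_pgroup`, subgroup, quotient). Class: write
`M i = cmn N i ⊔ W` and let `B i` be the subgroup of `V ⋊ N` (i.e. of `EN N`) of all `x` with
`x.left ∈ M i` and `x.right ∈ N.lowerCentralSeries i` (a subgroup because `M i` is invariant under
`N`: for `g ∈ N`, `v ∈ M i`, `(g • v) v⁻¹ ∈ M i`, see the header of `Cmz`). `B 0 = ⊤` and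
`⁅B i, ⊤⁆ ≤ B (i + 1)`: `⁅(v, g), (v', g')⁆` has `right = ⁅g, g'⁆ ∈ N.lowerCentralSeries (i + 1)` and
`left` is a product of images under `N` of `(g • v') v'⁻¹ ∈ M (i + 1)` (`cmn_Z`) and
`(g' • v) v⁻¹ ∈ M (i + 1)` and of their inverses: additively
`left ((v,g)(v',g')) - left ((v',g')(v,g)) = v + g v' - v' - g' v`, and
`⁅a, b⁆ = (a b) (b a)⁻¹` so `left ⁅a, b⁆ = left(ab) * (⁅g, g'⁆ • left(ba))⁻¹`
`= (left(ab) * left(ba)⁻¹) * ((⁅g, g'⁆ • left(ba)) * left(ba)⁻¹)⁻¹`, where the last factor is in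
`M (i + 2) ≤ M (i + 1)` by `cmn_Z` for `⁅g, g'⁆ ∈ N.lowerCentralSeries (i + 1)`. So
`lowerCentralSeries ⊤ i ≤ B i` (inside `EN N`), and `B m` is contained in
`W ⋊ C_N(V/W)`: `M m = W` as `cmn N m ≤ W`, and for `g ∈ N.lowerCentralSeries m`:
`(g • v) v⁻¹ ∈ M (m + 1) = W` (`cmn_Z`), so `g ∈ CW W`. So the quotient has
`lowerCentralSeries ⊤ m = ⊥` (`Subgroup.map_lowerCentralSeries` for the quotient map) and
`m ≤ p - 1` (`lowerCentralSeries_antitone`).
-/

set_option autoImplicit false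

open scoped commutatorElement

namespace Pool.Agent.LP

variable {p : ℕ} {G V : Type} [Group G] [CommGroup V] [MulDistribMulAction G V]

private theorem cmn_step (N : Subgroup G) (i : ℕ) :
    (cmn N (i + 1) : Subgroup V) ≤ cmn N i := by
  induction i with
  | zero => exact le_top
  | succ i ih =>
    refine Subgroup.closure_mono ?_
    rintro w ⟨g, hg, v, hv, rfl⟩
    exact ⟨g, hg, v, ih hv, rfl⟩

private theorem M_act (N : Subgroup G) (W : Subgroup V) (hW : GInv G W) (i : ℕ) (g : G)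
    (hg : g ∈ N) (v : V) (hv : v ∈ cmn N i ⊔ W) : (g • v) * v⁻¹ ∈ cmn N (i + 1) ⊔ W := by
  obtain ⟨a, ha, w, hw, rfl⟩ := Subgroup.mem_sup.1 hv
  have h1 : (g • (a * w)) * (a * w)⁻¹ = ((g • a) * a⁻¹) * ((g • w) * w⁻¹) := by
    rw [smul_mul', mul_inv, mul_mul_mul_comm]
  rw [h1]
  refine Subgroup.mul_mem_sup ?_ ?_
  · exact Subgroup.subset_closure ⟨g, hg, a, ha, rfl⟩
  · exact W.mul_mem (hW g w hw) (W.inv_mem hw)

private theorem M_step (N : Subgroup G) (W : Subgroup V) (i : ℕ) :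
    (cmn N (i + 1) ⊔ W : Subgroup V) ≤ cmn N i ⊔ W := sup_le_sup_right (cmn_step N i) W

private theorem M_inv (N : Subgroup G) (W : Subgroup V) (hW : GInv G W) (i : ℕ) (g : G)
    (hg : g ∈ N) (v : V) (hv : v ∈ cmn N i ⊔ W) : g • v ∈ cmn N i ⊔ W := by
  have h := (cmn N i ⊔ W).mul_mem (M_step N W i (M_act N W hW i g hg v hv)) hv
  rwa [inv_mul_cancel_right] at h

/-- The terms of the descending series. -/
private def BB (N : Subgroup G) (W : Subgroup V) (hW : GInv G W) (i : ℕ) :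
    Subgroup (EE G V) where
  carrier := {x | x.left ∈ cmn N i ⊔ W ∧ x.right ∈ N.lowerCentralSeries i}
  one_mem' := by
    refine ⟨?_, ?_⟩
    · rw [SemidirectProduct.one_left]; exact Subgroup.one_mem _
    · rw [SemidirectProduct.one_right]; exact Subgroup.one_mem _
  mul_mem' := by
    rintro a b ⟨ha, ha'⟩ ⟨hb, hb'⟩
    refine ⟨?_, ?_⟩
    · rw [SemidirectProduct.mul_left]
      exact Subgroup.mul_mem _ ha
        (M_inv N W hW i a.right (N.lowerCentralSeries_le_self i ha') _ hb)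
    · rw [SemidirectProduct.mul_right]
      exact Subgroup.mul_mem _ ha' hb'
  inv_mem' := by
    rintro a ⟨ha, ha'⟩
    refine ⟨?_, ?_⟩
    · rw [SemidirectProduct.inv_left]
      exact M_inv N W hW i _ (N.lowerCentralSeries_le_self i (Subgroup.inv_mem _ ha')) _
        (Subgroup.inv_mem _ ha)
    · rw [SemidirectProduct.inv_right]
      exact Subgroup.inv_mem _ ha'

private theorem mem_BB (N : Subgroup G) (W : Subgroup V) (hW : GInv G W) (i : ℕ) (x : EE G V) :
    x ∈ BB N W hW i ↔ x.left ∈ cmn N i ⊔ W ∧ x.right ∈ N.lowerCentralSeries i := Iff.rfl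

private theorem BB_comm (N : Subgroup G) (W : Subgroup V) (hW : GInv G W) (i : ℕ)
    (a b : EE G V) (ha : a ∈ BB N W hW i) (hb : b.right ∈ N) : ⁅a, b⁆ ∈ BB N W hW (i + 1) := by
  obtain ⟨ha1, ha2⟩ := ha
  have hr : ⁅a, b⁆.right = ⁅a.right, b.right⁆ := by
    have := map_commutatorElement (SemidirectProduct.rightHom : EE G V →* G) a b
    exact this
  have hr' : ⁅a.right, b.right⁆ ∈ N.lowerCentralSeries (i + 1) :=
    Subgroup.commutator_mem_commutator ha2 hb
  refine ⟨?_, ?_⟩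
  · have h1 : ⁅a, b⁆ * (b * a) = a * b := by
      rw [commutatorElement_def]
      group
    have h2 := congrArg SemidirectProduct.left h1
    rw [SemidirectProduct.mul_left, hr] at h2
    have h3 : ∀ x y : EE G V, (x * y).left = x.left * (x.right • y.left) := fun x y => rfl
    have h4 : ⁅a, b⁆.left * (⁅a.right, b.right⁆ • (b * a).left) = (a * b).left := h2
    have h5 : ⁅a, b⁆.left = (((a.right • b.left) * b.left⁻¹) *
        ((b.right • a.left) * a.left⁻¹)⁻¹) *
        ((⁅a.right, b.right⁆ • (b * a).left) * ((b * a).left)⁻¹)⁻¹ := by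
      rw [eq_mul_inv_iff_mul_eq, ← mul_assoc, h4, h3, h3, mul_inv, mul_inv, inv_inv]
      rw [mul_comm a.left (a.right • b.left), mul_mul_mul_comm, mul_assoc, mul_assoc]
      congr 1
      rw [mul_comm (b.right • a.left)⁻¹ a.left, mul_left_comm]
    rw [h5]
    refine Subgroup.mul_mem _ (Subgroup.mul_mem _ ?_ (Subgroup.inv_mem _ ?_))
      (Subgroup.inv_mem _ ?_)
    · exact cmn_Z N W hW i a.right ha2 b.left
    · exact M_act N W hW i b.right hb a.left ha1
    · exact M_step N W (i + 1) (cmn_Z N W hW (i + 1) _ hr' _)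
  · rw [hr]
    exact hr'

private theorem lcs_le_BB (N : Subgroup G) (W : Subgroup V) (hW : GInv G W) (i : ℕ) :
    (EN (V := V) N).lowerCentralSeries i ≤ BB N W hW i := by
  induction i with
  | zero =>
    intro x hx
    refine ⟨?_, hx⟩
    rw [cmn, top_sup_eq]
    exact Subgroup.mem_top _
  | succ i ih =>
    rw [Subgroup.lowerCentralSeries_succ, Subgroup.commutator_le]
    intro a ha b hb
    exact BB_comm N W hW i a b (ih ha) hb

theorem AA_laz (hp : p.Prime) [Finite G] [Finite V] (hG : IsPGroup p G) (hV : IsPGroup p V)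
    (N : Subgroup G) (W : Subgroup V) (hW : GInv G W) (m : ℕ) (hm : m ≤ p - 1)
    (h : cmn N m ≤ W) : Laz p (AA N W hW) := by
  have hfin : Finite (EE G V) := EE_finite
  refine ⟨hp, inferInstance, ((EE_pgroup hp hG hV).to_subgroup (EN N)).to_quotient _, ?_⟩
  have h1 : BB N W hW m ≤ MW W hW := by
    rintro x ⟨hx1, hx2⟩
    refine ⟨?_, ?_⟩
    · rwa [sup_eq_right.2 h] at hx1
    · rw [mem_CW]
      intro u
      have h2 := cmn_Z N W hW m x.right hx2 u
      rwa [sup_eq_right.2 ((cmn_step N m).trans h)] at h2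
  have h2 : (⊤ : Subgroup ↥(EN (V := V) N)).lowerCentralSeries m ≤
      (MW W hW).subgroupOf (EN (V := V) N) := by
    intro x hx
    have h3 := Subgroup.mem_map_of_mem (EN (V := V) N).subtype hx
    rw [Subgroup.top_subtype_lowerCentralSeries] at h3
    exact h1 (lcs_le_BB N W hW m h3)
  have h3 : (⊤ : Subgroup (AA N W hW)).lowerCentralSeries m = ⊥ := by
    have h4 := Subgroup.map_lowerCentralSeries (⊤ : Subgroup ↥(EN (V := V) N))
      (QuotientGroup.mk' ((MW W hW).subgroupOf (EN (V := V) N))) m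
    rw [Subgroup.map_top_of_surjective _ (QuotientGroup.mk'_surjective _)] at h4
    rw [← h4, eq_bot_iff, Subgroup.map_le_iff_le_comap]
    intro x hx
    rw [Subgroup.mem_comap, Subgroup.mem_bot, QuotientGroup.mk'_apply,
      QuotientGroup.eq_one_iff]
    exact h2 hx
  rw [eq_bot_iff, ← h3]
  exact Subgroup.lowerCentralSeries_antitone _ hm

end Pool.Agent.LP
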