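import Pool.Agent.LP.Defs

/-!
# LP / Aam: maps between the groups `AA N W`

`pN N W hW x = mk ⟨inr x, _⟩`, `pV N W hW v = mk ⟨inl v, _⟩`.

PROOFS. `pN_eq`: `pN x = pN y ↔ ⟨inr x, _⟩⁻¹ * ⟨inr y, _⟩ ∈ (MW W hW).subgroupOf _` (`QuotientGroup.eq`)
`↔ inr (x⁻¹ y) ∈ MW W hW ↔ x⁻¹ y ∈ CW W hW`. `pV_eq_one`: similarly `↔ v ∈ W`.
`pN_comm_pV`: `inr x * inl u * (inr x)⁻¹ = inl (x • u)`, so
`Commute (pN x) (pV u) ↔ pV ((x • u) * u⁻¹) = 1 ↔ (x • u) * u⁻¹ ∈ W`; more precisely
`⁅pN x, pV u⁆ = pV ((x • u) * u⁻¹)`.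
`range_pV_normal`: the conjugate of `pV u` by the class of `(v, g)` is `pV (g • u)`. The quotient
`AA N W / range pV`: not needed here.
`AAmap`: for `N' ≤ N`, `W' ≤ W` the inclusion `V ⋊ N' → V ⋊ N` maps `W' ⋊ C(V/W')` into
`W ⋊ C(V/W)` because `CW W' ≤ CW W`: `QuotientGroup.map`. If `W' = W` it is injective:
an element of `V ⋊ N'` which is in `MW W hW` is in `(MW W hW).subgroupOf _`.
`AA_surj`: every element of `AA N W` is `pV v * pN x` (`(v, g) = inl v * inr g`,
`SemidirectProduct.inl_left_mul_inr_right`).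
-/

set_option autoImplicit false

open scoped commutatorElement

namespace Pool.Agent.LP

variable {G V : Type} [Group G] [CommGroup V] [MulDistribMulAction G V]

private theorem inr_mem_MW (W : Subgroup V) (hW : GInv G W) (g : G) :
    (SemidirectProduct.inr g : EE G V) ∈ MW W hW ↔ g ∈ CW W hW := by
  constructor
  · intro h
    exact h.2
  · intro h
    exact ⟨W.one_mem, h⟩

private theorem inl_mem_MW (W : Subgroup V) (hW : GInv G W) (v : V) :
    (SemidirectProduct.inl v : EE G V) ∈ MW W hW ↔ v ∈ W := by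
  constructor
  · intro h
    exact h.1
  · intro h
    exact ⟨h, (CW W hW).one_mem⟩

theorem pN_eq (N : Subgroup G) (W : Subgroup V) (hW : GInv G W) (x y : N) :
    pN N W hW x = pN N W hW y ↔ (x : G)⁻¹ * y ∈ CW W hW := by
  have h1 : pN N W hW x = pN N W hW y ↔
      (QuotientGroup.mk (⟨SemidirectProduct.inr (x : G), x.2⟩ : EN (V := V) N) : AA N W hW) =
        QuotientGroup.mk ⟨SemidirectProduct.inr (y : G), y.2⟩ := Iff.rfl
  rw [h1, QuotientGroup.eq, Subgroup.mem_subgroupOf, ← inr_mem_MW W hW, map_mul, map_inv]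
  rfl

theorem pV_eq_one (N : Subgroup G) (W : Subgroup V) (hW : GInv G W) (v : V) :
    pV N W hW v = 1 ↔ v ∈ W := by
  have h1 : pV N W hW v = 1 ↔
      (QuotientGroup.mk (⟨SemidirectProduct.inl v, N.one_mem⟩ : EN (V := V) N) : AA N W hW) = 1 :=
    Iff.rfl
  rw [h1, QuotientGroup.eq_one_iff, Subgroup.mem_subgroupOf, ← inl_mem_MW W hW]

theorem pN_pV (N : Subgroup G) (W : Subgroup V) (hW : GInv G W) (x : N) (u : V) :
    ⁅pN N W hW x, pV N W hW u⁆ = pV N W hW (((x : G) • u) * u⁻¹) := by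
  rw [commutatorElement_def, map_mul (pV N W hW), map_inv]
  congr 1
  have h1 : (SemidirectProduct.inr (x : G) : EE G V) * SemidirectProduct.inl u *
      (SemidirectProduct.inr (x : G))⁻¹ = SemidirectProduct.inl ((x : G) • u) := by
    have := SemidirectProduct.inl_aut (φ := MulDistribMulAction.toMulAut G V) (x : G) u
    rw [map_inv] at this
    exact this.symm
  have h2 : pN N W hW x * pV N W hW u * (pN N W hW x)⁻¹ =
      (QuotientGroup.mk ((⟨SemidirectProduct.inr (x : G), x.2⟩ : EN (V := V) N) *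
        ⟨SemidirectProduct.inl u, N.one_mem⟩ * (⟨SemidirectProduct.inr (x : G), x.2⟩)⁻¹) :
        AA N W hW) := rfl
  rw [h2]
  show _ = (QuotientGroup.mk (⟨SemidirectProduct.inl ((x : G) • u), N.one_mem⟩ : EN (V := V) N) :
    AA N W hW)
  congr 1
  apply Subtype.ext
  exact h1

theorem pN_comm_pV (N : Subgroup G) (W : Subgroup V) (hW : GInv G W) (x : N) (u : V) :
    Commute (pN N W hW x) (pV N W hW u) ↔ ((x : G) • u) * u⁻¹ ∈ W := by
  rw [← commutatorElement_eq_one_iff_commute, pN_pV, pV_eq_one]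

theorem range_pV_normal (N : Subgroup G) (W : Subgroup V) (hW : GInv G W) :
    (pV N W hW).range.Normal := by
  constructor
  rintro _ ⟨u, rfl⟩ g
  induction g using QuotientGroup.induction_on with
  | H a =>
    refine ⟨a.1.right • u, ?_⟩
    have h2 : (QuotientGroup.mk a : AA N W hW) * pV N W hW u * (QuotientGroup.mk a : AA N W hW)⁻¹ =
        (QuotientGroup.mk (a * ⟨SemidirectProduct.inl u, N.one_mem⟩ * a⁻¹) : AA N W hW) := rfl
    have h3 : (a.1 : EE G V) * SemidirectProduct.inl u * a.1⁻¹ =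
        SemidirectProduct.inl (a.1.right • u) := by
      apply SemidirectProduct.ext
      · simp only [SemidirectProduct.mul_left, SemidirectProduct.mul_right,
          SemidirectProduct.inv_left, SemidirectProduct.left_inl, SemidirectProduct.right_inl,
          mul_one, MulDistribMulAction.toMulAut_apply, MulDistribMulAction.toMulEquiv_apply,
          smul_inv_smul]
        rw [mul_comm a.1.left, mul_assoc, mul_inv_cancel, mul_one]
      · simp [SemidirectProduct.mul_right, SemidirectProduct.inv_right]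
    rw [h2]
    show (QuotientGroup.mk (⟨SemidirectProduct.inl (a.1.right • u), N.one_mem⟩ : EN (V := V) N) :
      AA N W hW) = _
    congr 1
    apply Subtype.ext
    exact h3.symm

theorem AA_surj (N : Subgroup G) (W : Subgroup V) (hW : GInv G W) (a : AA N W hW) :
    ∃ (v : V) (x : N), a = pV N W hW v * pN N W hW x := by
  induction a using QuotientGroup.induction_on with
  | H y =>
    refine ⟨y.1.left, ⟨y.1.right, y.2⟩, ?_⟩
    have h2 : pV N W hW y.1.left * pN N W hW ⟨y.1.right, y.2⟩ =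
        (QuotientGroup.mk ((⟨SemidirectProduct.inl y.1.left, N.one_mem⟩ : EN (V := V) N) *
          ⟨SemidirectProduct.inr y.1.right, y.2⟩) : AA N W hW) := rfl
    rw [h2]
    congr 1
    apply Subtype.ext
    exact (SemidirectProduct.inl_left_mul_inr_right y.1).symm

theorem AAmap (N' N : Subgroup G) (W' W : Subgroup V) (hW' : GInv G W') (hW : GInv G W)
    (hN : N' ≤ N) (hWW : W' ≤ W) :
    ∃ f : AA N' W' hW' →* AA N W hW, (∀ x : N', f (pN N' W' hW' x) = pN N W hW ⟨x, hN x.2⟩) ∧
      (∀ v : V, f (pV N' W' hW' v) = pV N W hW v) ∧ (W' = W → Function.Injective f) := by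
  have hE : EN (V := V) N' ≤ EN (V := V) N := fun x hx => hN hx
  have hM : MW W' hW' ≤ MW W hW := by
    rintro x ⟨h1, h2⟩
    refine ⟨hWW h1, ?_⟩
    rw [mem_CW] at h2 ⊢
    exact fun u => hWW (h2 u)
  have hle : (MW W' hW').subgroupOf (EN (V := V) N') ≤
      ((MW W hW).subgroupOf (EN (V := V) N)).comap (Subgroup.inclusion hE) := by
    intro x hx
    rw [Subgroup.mem_comap, Subgroup.mem_subgroupOf]
    exact hM hx
  refine ⟨QuotientGroup.map _ _ (Subgroup.inclusion hE) hle, fun x => rfl, fun v => rfl, ?_⟩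
  intro hWe
  subst hWe
  rw [injective_iff_map_eq_one]
  intro a ha
  induction a using QuotientGroup.induction_on with
  | H y =>
    rw [QuotientGroup.map_mk, QuotientGroup.eq_one_iff, Subgroup.mem_subgroupOf] at ha
    rw [QuotientGroup.eq_one_iff, Subgroup.mem_subgroupOf]
    exact ha

end Pool.Agent.LP
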