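import Pool.Agent.LP.Defs

/-!
# LP / Avg: averaging over pencils

PROOF of `AVG`. Sum over `u1`: `Σ_{u1} |badT p Good u0 u1| = Σ_{t < p} #{u1 | u1 * u0 ^ t ∉ Good}`
(`Finset.sum_card_bipartiteAbove_eq_sum_card_bipartiteBelow` or `Finset.sum_comm`), and for each `t`
the map `u1 ↦ u1 * u0 ^ t` is a bijection, so each term is `|Goodᶜ|`.

-/

set_option autoImplicit false

namespace Pool.Agent.LP

theorem AVG {p : ℕ} {V : Type} [CommGroup V] [Finite V] (Good : Set V) (u0 : V) (R : ℕ)
    (h : ∀ u1 : V, (badT p Good u0 u1).card ≤ R) :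
    p * Nat.card ↥(Goodᶜ) ≤ R * Nat.card V := by
  classical
  have : Fintype V := Fintype.ofFinite V
  have h1 : ∑ u1 : V, (badT p Good u0 u1).card = p * Nat.card ↥(Goodᶜ) := by
    have h2 : ∀ u1 : V, (badT p Good u0 u1).card =
        ∑ t ∈ Finset.range p, if u1 * u0 ^ t ∉ Good then 1 else 0 := by
      intro u1
      rw [← Finset.card_filter]
      congr 1
    simp only [h2]
    rw [Finset.sum_comm]
    have h3 : ∀ t ∈ Finset.range p, (∑ u1 : V, if u1 * u0 ^ t ∉ Good then 1 else 0) =
        Nat.card ↥(Goodᶜ) := by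
      intro t _
      rw [Fintype.sum_equiv (Equiv.mulRight (u0 ^ t)) (fun u1 : V => if u1 * u0 ^ t ∉ Good then 1 else 0)
        (fun v : V => if v ∉ Good then 1 else 0) (fun x => by
          simp only [Equiv.coe_mulRight]
          by_cases hx : x * u0 ^ t ∈ Good
          · simp [hx]
          · simp [hx]),
        ← Finset.card_filter, Nat.card_eq_fintype_card, Fintype.card_subtype]
      congr 1
    rw [Finset.sum_congr rfl h3, Finset.sum_const, Finset.card_range, smul_eq_mul]
  rw [← h1]
  calc ∑ u1 : V, (badT p Good u0 u1).card ≤ ∑ _u1 : V, R := Finset.sum_le_sum fun u1 _ => h u1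
    _ = R * Nat.card V := by
      rw [Finset.sum_const, Finset.card_univ, smul_eq_mul, Nat.card_eq_fintype_card, mul_comm]

end Pool.Agent.LP
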