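import Pool.Agent.LP.Defs

/-!
# LP / Bas: basic facts on `theta`, `J`, `Pol`
-/

set_option autoImplicit false

open scoped commutatorElement

namespace Pool.Agent.LP

theorem theta_apply {H : Type} [Group H] (g : H) (m t : ℕ) : theta g m t = g ^ (t ^ m) := rfl

theorem theta_one_apply {H : Type} [Group H] (g : H) (t : ℕ) : theta g 1 t = g ^ t := by
  rw [theta_apply, pow_one]

theorem theta_id {H : Type} [Group H] (m : ℕ) : theta (1 : H) m = 1 := by
  funext t
  rw [theta_apply, one_pow]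
  rfl

theorem theta_inv {H : Type} [Group H] (g : H) (m : ℕ) : (theta g m)⁻¹ = theta g⁻¹ m := by
  funext t
  rw [Pi.inv_apply, theta_apply, theta_apply, inv_pow]

theorem theta_comp {H : Type} [Group H] (g : H) (m k : ℕ) :
    (fun t => theta g m (t ^ k)) = theta g (k * m) := by
  funext t
  rw [theta_apply, theta_apply, pow_mul]

theorem theta_mem {H : Type} [Group H] {F : ℕ → Subgroup H} {k m : ℕ} {g : H} (hk : k ≤ m)
    (hg : g ∈ F m) : theta g m ∈ J F k := Subgroup.subset_closure ⟨m, g, hk, hg, rfl⟩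

theorem J_anti {H : Type} [Group H] (F : ℕ → Subgroup H) {i j : ℕ} (h : i ≤ j) :
    J F j ≤ J F i := by
  rw [J, Subgroup.closure_le]
  rintro _ ⟨m, g, hm, hg, rfl⟩
  exact theta_mem (h.trans hm) hg

theorem J_bot {H : Type} [Group H] {F : ℕ → Subgroup H} {c : ℕ} (hF : Fil F c) {k : ℕ}
    (hk : c < k) : J F k = ⊥ := by
  rw [J, Subgroup.closure_eq_bot_iff]
  rintro _ ⟨m, g, hm, hg, rfl⟩
  have h1 : F m ≤ F (c + 1) := hF.anti (by omega)
  have h2 := h1 hg
  rw [hF.top, Subgroup.mem_bot] at h2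
  rw [h2, theta_id]
  exact Set.mem_singleton _

theorem Fil.bot {H : Type} [Group H] {F : ℕ → Subgroup H} {c : ℕ} (hF : Fil F c) {k : ℕ}
    (hk : c < k) {g : H} (hg : g ∈ F k) : g = 1 := by
  have h1 : F k ≤ F (c + 1) := hF.anti (by omega)
  have h2 := h1 hg
  rwa [hF.top, Subgroup.mem_bot] at h2

/-- `i ↦ F (k * i)` is again a filtration. -/
theorem Fil.mul {H : Type} [Group H] {F : ℕ → Subgroup H} {c : ℕ} (hF : Fil F c) {k : ℕ}
    (hk : 1 ≤ k) : Fil (fun i => F (k * i)) c where
  normal i := hF.normal _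
  anti := fun i j h => hF.anti (Nat.mul_le_mul_left k h)
  comm i j := by
    have := hF.comm (k * i) (k * j)
    rwa [← mul_add] at this
  top := by
    have h1 : F (k * (c + 1)) ≤ F (c + 1) := hF.anti (Nat.le_mul_of_pos_left _ hk)
    rw [hF.top] at h1
    exact le_bot_iff.1 h1

theorem Pol_values {H X ι : Type} [Group H] {F : ℕ → Subgroup H} {sh : ι → X → X} {w : ι → ℕ}
    {n k : ℕ} {q : X → H} (h : Pol F sh w n k q) (x : X) : q x ∈ F k := by
  cases n with
  | zero => exact h x
  | succ n => exact h.1 x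

end Pool.Agent.LP
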