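import Pool.Agent.LP.Bas

/-!
# LP / Bin: binomial coefficients as polynomials modulo the order of a finite p-group

PROOF. Let `M = Nat.card H`, a power of `p`, so `g ^ k` depends only on `k` modulo `M`
(`pow_card_eq_one'`). As `i < p`, `i !` is prime to `M`: there is `j` with `i ! * j ≡ 1 [MOD M]`.
`i ! * s.choose i = s.descFactorial i = (descPochhammer ℤ i).eval s` (`Nat.descFactorial_eq_...`,
`descPochhammer_eval_eq_descFactorial`), a polynomial `Σ_{m=1}^{i} S_m s^m` with integer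
coefficients, degree `≤ i`, and zero constant term (`i ≥ 1`). Let `c m` be the natural number
`(j * S_m) mod M`. Then `s.choose i ≡ j * i ! * s.choose i ≡ Σ_{m=1}^{i} c m * s^m [MOD M]`.
-/

set_option autoImplicit false

namespace Pool.Agent.LP

theorem BIN {H : Type} [Group H] [Finite H] {p : ℕ} (hp : p.Prime) (hH : IsPGroup p H) (i : ℕ)
    (hi : 1 ≤ i) (hip : i < p) :
    ∃ c : ℕ → ℕ, ∀ (g : H) (s : ℕ), g ^ (s.choose i) = g ^ (∑ m ∈ Finset.Icc 1 i, c m * s ^ m) := by
  have hpf : Fact p.Prime := ⟨hp⟩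
  obtain ⟨r, hr⟩ := IsPGroup.iff_card.1 hH
  have hM0 : Nat.card H ≠ 0 := Nat.card_pos.ne'
  obtain ⟨M, hM⟩ : ∃ M, M = Nat.card H := ⟨_, rfl⟩
  have hMne : NeZero M := ⟨by rw [hM]; exact hM0⟩
  have hcop : Nat.Coprime (Nat.factorial i) M := by
    rw [hM, hr]
    refine Nat.Coprime.pow_right r ?_
    rw [Nat.coprime_comm, hp.coprime_iff_not_dvd, hp.dvd_factorial]
    omega
  obtain ⟨v, hv⟩ : ∃ v : ZMod M, v * (Nat.factorial i : ZMod M) = 1 := by
    refine ⟨((ZMod.unitOfCoprime _ hcop)⁻¹ : (ZMod M)ˣ), ?_⟩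
    rw [← ZMod.coe_unitOfCoprime _ hcop]
    exact Units.inv_mul _
  refine ⟨fun m => (v * ((descPochhammer ℤ i).coeff m : ZMod M)).val, fun g s => ?_⟩
  have hdeg : (descPochhammer ℤ i).natDegree < i + 1 := by
    rw [descPochhammer_natDegree]
    exact Nat.lt_succ_self i
  have h1 : ((s.descFactorial i : ℕ) : ℤ) =
      ∑ m ∈ Finset.Icc 1 i, (descPochhammer ℤ i).coeff m * (s : ℤ) ^ m := by
    rw [← descPochhammer_eval_eq_descFactorial ℤ s i, Polynomial.eval_eq_sum_range' hdeg]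
    have h2 : Finset.range (i + 1) = insert 0 (Finset.Icc 1 i) := by
      ext m
      simp only [Finset.mem_range, Finset.mem_insert, Finset.mem_Icc]
      omega
    rw [h2, Finset.sum_insert (by simp), Polynomial.coeff_zero_eq_eval_zero,
      descPochhammer_ne_zero_eval_zero ℤ (by omega), zero_mul, zero_add]
  have h2 : ((s.choose i : ℕ) : ZMod M) = ((∑ m ∈ Finset.Icc 1 i,
      (v * ((descPochhammer ℤ i).coeff m : ZMod M)).val * s ^ m : ℕ) : ZMod M) := by
    have h3 : ((s.choose i : ℕ) : ZMod M) = v * ((s.descFactorial i : ℕ) : ZMod M) := by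
      rw [Nat.descFactorial_eq_factorial_mul_choose]
      push_cast
      rw [← mul_assoc, hv, one_mul]
    have h4 : ((s.descFactorial i : ℕ) : ZMod M) =
        ∑ m ∈ Finset.Icc 1 i, ((descPochhammer ℤ i).coeff m : ZMod M) * (s : ZMod M) ^ m := by
      have h5 := congrArg (fun z : ℤ => (z : ZMod M)) h1
      push_cast at h5
      exact h5
    rw [h3, h4, Finset.mul_sum]
    push_cast
    refine Finset.sum_congr rfl fun m _ => ?_
    rw [ZMod.natCast_zmod_val, mul_assoc]
  have h3 := (ZMod.natCast_eq_natCast_iff _ _ M).1 h2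
  rw [pow_eq_pow_iff_modEq]
  exact h3.of_dvd (hM ▸ orderOf_dvd_natCard g)

end Pool.Agent.LP
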