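import Pool.Agent.LP.Defs

/-!
# LP / Bse: the initial state

PROOF of `BASE`. `W = ⊤`, `Good = univ`, `R = 0`, `N = ⊤`: `TS ⊤ _ u = ⊤`, `badT p univ u0 u1 = ∅`,
`cmn ⊤ K ≤ ⊤`. `Sec p r ⊤ ⊤ _ u0 u1 = univ` because `MW ⊤ _ = ⊤`, so the group `AA ⊤ ⊤ _` is
trivial (`Subsingleton`) and everything commutes; its cardinality is `|G| ^ (r + 1)`.
-/

set_option autoImplicit false

namespace Pool.Agent.LP

variable {p r K : ℕ} {G V : Type} [Group G] [CommGroup V] [MulDistribMulAction G V]

theorem BASE (H : Hyp p r K G V) (hW : GInv G (⊤ : Subgroup V)) :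
    State p r K (⊤ : Subgroup V) hW 0 (⊤ : Subgroup G) (Set.univ : Set V) := by
  haveI := H.finG
  haveI := H.finV
  have hTS : ∀ u : V, TS (⊤ : Subgroup V) hW u = ⊤ := by
    intro u
    ext g
    simp [mem_TS]
  have hbad : ∀ u0 u1 : V, badT p (Set.univ : Set V) u0 u1 = ∅ := by
    intro u0 u1
    ext t
    simp [mem_badT]
  have hCW : CW (⊤ : Subgroup V) hW = ⊤ := by
    ext g
    simp [mem_CW]
  have hMW : MW (⊤ : Subgroup V) hW = ⊤ := by
    ext x
    constructor
    · intro _; trivial
    · intro _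
      refine ⟨trivial, ?_⟩
      rw [hCW]; trivial
  have hsub : Subsingleton (AA (⊤ : Subgroup G) (⊤ : Subgroup V) hW) := by
    have h1 : (MW (⊤ : Subgroup V) hW).subgroupOf (EN (V := V) (⊤ : Subgroup G)) = ⊤ := by
      rw [hMW]
      exact Subgroup.top_subgroupOf _
    unfold AA
    rw [h1]
    exact QuotientGroup.subsingleton_quotient_top
  have hSec : ∀ u0 u1 : V, Sec p r (⊤ : Subgroup G) (⊤ : Subgroup V) hW u0 u1 = Set.univ := by
    intro u0 u1
    ext x
    simp only [Set.mem_univ, iff_true]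
    exact ⟨fun d => trivial, fun t _ => Subsingleton.elim _ _⟩
  refine
    { nonempty := Set.univ_nonempty
      normal := inferInstance
      inv := fun _ _ _ => trivial
      card := ?_
      le := fun _ _ => le_top
      small := le_top
      few := ?_
      sec := ?_ }
  · intro u _
    rw [hTS, pow_zero, mul_one]
    exact Subgroup.card_top
  · intro u0 _ u1
    rw [hbad]
    simp
  · intro u0 _ u1 B hB _
    rw [hbad] at hB
    have hB' : B = ∅ := Finset.subset_empty.1 hB
    subst hB'
    rw [hSec]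
    simp only [Finset.card_empty, pow_zero, mul_one, mul_zero]
    rw [Nat.card_congr (Equiv.Set.univ _), Nat.card_fun, Nat.card_eq_fintype_card (α := Fin (r + 1)),
      Fintype.card_fin]

end Pool.Agent.LP
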