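import Pool.Agent.LP.Nil

/-!
# LP / Chn: `G`-invariant subgroups of index `p`

PROOF of `CHN`. Let `W1 = closure {(g • v) v⁻¹ | g ∈ G, v ∈ W} ≤ W`. `W1 ≠ W`: `G` acts nilpotently on `V` (`cmn_nil`, Nil.lean): if `W1 = W` then `W ≤ cmn ⊤ j` for all `j`
(induction on `j`: `W ≤ ⊤`; `W = W1 ≤ cmn ⊤ (j+1)`), which is `⊥` for large `j`. So `W1` is a proper
subgroup of the finite commutative `p`-group `W`, contained in a subgroup `W'` of `W` of index `p`
(`Sylow.exists_subgroup_card_pow_prime_le`). Any subgroup between `W1` and `W` is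
`G`-invariant: `g • v = ((g • v) v⁻¹) v`.

-/

set_option autoImplicit false

namespace Pool.Agent.LP

variable {p r K : ℕ} {G V : Type} [Group G] [CommGroup V] [MulDistribMulAction G V]

theorem CHN (H : Hyp p r K G V) (W : Subgroup V) (hW : GInv G W) (hne : W ≠ ⊥) :
    ∃ W' : Subgroup V, GInv G W' ∧ W' ≤ W ∧ Nat.card W = p * Nat.card W' := by
  classical
  have := H.finG
  have := H.finV
  have : Fact p.Prime := ⟨H.prime⟩
  set W1 : Subgroup V := Subgroup.closure {w | ∃ g : G, ∃ v ∈ W, w = (g • v) * v⁻¹} with hW1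
  have h1 : W1 ≤ W := by
    rw [hW1, Subgroup.closure_le]
    rintro w ⟨g, v, hv, rfl⟩
    exact W.mul_mem (hW g v hv) (W.inv_mem hv)
  have h2 : W1 ≠ W := by
    intro he
    have h3 : ∀ j, W ≤ cmn (⊤ : Subgroup G) j := by
      intro j
      induction j with
      | zero => exact le_top
      | succ j ih =>
        calc W = W1 := he.symm
          _ ≤ _ := by
            rw [hW1]
            apply Subgroup.closure_mono
            rintro w ⟨g, v, hv, rfl⟩
            exact ⟨g, trivial, v, ih hv, rfl⟩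
    obtain ⟨j, hj⟩ := cmn_nil H.prime H.pG H.pV (⊤ : Subgroup G)
    exact hne (le_bot_iff.1 (hj ▸ h3 j))
  have hpW : IsPGroup p W := H.pV.to_subgroup W
  have hpW1 : IsPGroup p (W1.subgroupOf W) := hpW.to_subgroup _
  obtain ⟨k, hk⟩ := IsPGroup.iff_card.1 hpW
  obtain ⟨n, hn⟩ := IsPGroup.iff_card.1 hpW1
  have hlt : Nat.card (W1.subgroupOf W) < Nat.card W := by
    rw [Nat.card_congr (Subgroup.subgroupOfEquivOfLe h1).toEquiv]
    exact Set.ncard_lt_ncard (SetLike.coe_ssubset_coe.2 (lt_of_le_of_ne h1 h2)) (Set.toFinite _)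
  have hnk : n < k := by
    rw [hk, hn] at hlt
    exact (Nat.pow_lt_pow_iff_right H.prime.one_lt).1 hlt
  obtain ⟨k', rfl⟩ : ∃ k', k = k' + 1 := ⟨k - 1, by omega⟩
  obtain ⟨L, hL1, hL2⟩ := Sylow.exists_subgroup_card_pow_prime_le p (n := n) (m := k')
    (by rw [hk]; exact pow_dvd_pow p (Nat.le_succ _)) (W1.subgroupOf W) hn (by omega)
  refine ⟨L.map W.subtype, ?_, ?_, ?_⟩
  · rintro g v hv
    obtain ⟨⟨w, hw⟩, hwL, rfl⟩ := hv
    have h4 : (g • w) * w⁻¹ ∈ W1 := Subgroup.subset_closure ⟨g, w, hw, rfl⟩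
    have h5 : (g • w) * w⁻¹ ∈ W := h1 h4
    have h6 : (⟨(g • w) * w⁻¹, h5⟩ : W) ∈ L := hL2 (by
      rw [Subgroup.mem_subgroupOf]
      exact h4)
    refine ⟨⟨(g • w) * w⁻¹, h5⟩ * ⟨w, hw⟩, L.mul_mem h6 hwL, ?_⟩
    simp
  · rintro v ⟨w, _, rfl⟩
    exact w.2
  · rw [hk, Subgroup.card_map_of_injective (Subgroup.subtype_injective W), hL1, pow_succ, mul_comm]

end Pool.Agent.LP
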