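import Pool.Agent.Helper74.MX.CYC

/-!
# LP / Clp: Clifford theory for a centraliser of index `p`

Notation of Pool/Agent/Helper74/MX/Defs.lean (`Irr`, `Inv`, `sub`); `central_scalar` is in CYC.lean.

PROOF of `CLP`. For central `z`, `ρ z` is a scalar `χ z` (Schur, `central_scalar`), and `χ z = 1` only
for `z = 1` (`hinj`). For `g : H` and `v ∈ V0 = eigenspace (ρ a) μ`:
`ρ a (ρ g v) = ρ (⁅a, g⁆ g a) v = χ ⁅a, g⁆ μ ρ g v` (`a g = ⁅a, g⁆ g a`). So `ρ g` maps `V0` into the
eigenspace for `χ ⁅a, g⁆ μ`; for `g ∈ C` into `V0`: `V0` is `C`-invariant. `μ ≠ 0` (`ρ a` is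
invertible, `V0 ≠ ⊥`). Choose `b ∉ C` (`C.index = p ≥ 2`; `C` is the kernel of the homomorphism
`g ↦ ⁅a, g⁆ ∈ center`, so it is normal and `H ⧸ C` is cyclic of order `p`, generated by `b`), and
`ζ = χ ⁅a, b⁆`: `⁅a, b ^ i⁆ = ⁅a, b⁆ ^ i`, so `χ ⁅a, b ^ i⁆ = ζ ^ i`, with `ζ ^ i ≠ 1` for
`0 < i < p` (as `b ^ i ∉ C`). The spaces `ρ (b ^ i) V0`, `i < p`, lie in the eigenspaces of `ρ a` for
the distinct eigenvalues `ζ ^ i μ`, so they are independent
(`Module.End.eigenspaces_iSupIndep`); each has dimension `dim V0` (`ρ (b ^ i)` is invertible).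
IRREDUCIBILITY and DIMENSION: for a `C`-invariant subspace `X ≤ V0` let
`Y = ⨆ i < p, ρ (b ^ i) X`. It is invariant under `b` (`b ^ p ∈ C`) and under `C` (normal), hence
under `H`; so `Y = ⊥` or `Y = ⊤`. If `X ≠ ⊥`, `Y = ⊤`; then `dim V = p dim X` by independence, and the
same with `X = V0` gives `dim V = p dim V0`, so `X = V0`.
-/

set_option autoImplicit false

open scoped commutatorElement
open Pool.Agent.Helper74.MX

namespace Pool.Agent.LP

open Module in
private lemma clp_finrank {V : Type} [AddCommGroup V] [Module ℂ V] [FiniteDimensional ℂ V]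
    {p : ℕ} (A : Fin p → Submodule ℂ V) (hA : iSupIndep A) (htop : iSup A = ⊤) (d : ℕ)
    (hd : ∀ i, finrank ℂ (A i) = d) : finrank ℂ V = p * d := by
  have h := DirectSum.isInternal_submodule_of_iSupIndep_of_iSup_eq_top hA htop
  have h1 := (LinearEquiv.ofBijective (DirectSum.coeLinearMap A) h).finrank_eq
  rw [finrank_directSum] at h1
  rw [← h1, Finset.sum_congr rfl fun i _ => hd i]
  simp

theorem CLP {p : ℕ} (hp : p.Prime) {H : Type} [Group H] [Finite H] {V : Type} [AddCommGroup V]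
    [Module ℂ V] [FiniteDimensional ℂ V] (ρ : H →* Module.End ℂ V) (hρ : Irr ρ) (a : H)
    (C : Subgroup H) (hC : ∀ g : H, g ∈ C ↔ a * g = g * a)
    (ha : ∀ g : H, ⁅a, g⁆ ∈ Subgroup.center H) (hidx : C.index = p)
    (hinj : ∀ z ∈ Subgroup.center H, ρ z = 1 → z = 1) (μ : ℂ)
    (hμ : Module.End.eigenspace (ρ a) μ ≠ ⊥) :
    ∃ hInv : Inv (ρ.comp C.subtype) (Module.End.eigenspace (ρ a) μ),
      Irr (sub (ρ.comp C.subtype) (Module.End.eigenspace (ρ a) μ) hInv) ∧
      Module.finrank ℂ V = p * Module.finrank ℂ (Module.End.eigenspace (ρ a) μ) := by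
  classical
  have hφ1 : ∀ g h : H, ⁅a, g * h⁆ = ⁅a, g⁆ * ⁅a, h⁆ := by
    intro g h
    have h1 : ⁅a, g * h⁆ = ⁅a, g⁆ * (g * ⁅a, h⁆ * g⁻¹) := by
      simp only [commutatorElement_def]
      group
    rw [h1, Subgroup.mem_center_iff.1 (ha h) g, mul_inv_cancel_right]
  let φ : H →* H := MonoidHom.mk' (fun g => ⁅a, g⁆) hφ1
  have hφ : ∀ g, φ g = ⁅a, g⁆ := fun _ => rfl
  have hker : φ.ker = C := by
    ext g
    rw [MonoidHom.mem_ker, hC, hφ]
    exact commutatorElement_eq_one_iff_mul_comm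
  have hcard : Nat.card φ.range = p := by rw [← Subgroup.index_ker, hker, hidx]
  obtain ⟨b, hb⟩ : ∃ b, b ∉ C := by
    by_contra h
    push Not at h
    have h1 : C = ⊤ := by
      ext g
      simp [h g]
    rw [h1, Subgroup.index_top] at hidx
    exact hp.one_lt.ne hidx
  have hzc : ∀ g, φ g ∈ Subgroup.center H := ha
  have hz1 : φ b ≠ 1 := fun h => hb (by rw [← hker]; exact h)
  have horder : orderOf (φ b) = p := by
    have h1 : orderOf (φ b) ∣ p := by
      rw [← hcard]
      exact Subgroup.orderOf_dvd_natCard φ.range ⟨b, rfl⟩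
    rcases (Nat.dvd_prime hp).1 h1 with h | h
    · exact absurd (orderOf_eq_one_iff.1 h) hz1
    · exact h
  have hrange : Subgroup.zpowers (φ b) = φ.range := by
    refine Subgroup.eq_of_le_of_card_ge ?_ ?_
    · rw [Subgroup.zpowers_le]
      exact ⟨b, rfl⟩
    · rw [hcard, Nat.card_zpowers, horder]
  have hrep : ∀ g : H, ∃ i < p, (φ b) ^ i = φ g := by
    intro g
    have h1 : φ g ∈ Subgroup.zpowers (φ b) := by
      rw [hrange]
      exact ⟨g, rfl⟩
    rw [mem_zpowers_iff_mem_range_orderOf, horder] at h1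
    simpa using h1
  obtain ⟨ζ, hζ⟩ := central_scalar ρ hρ (φ b) (fun x =>
    Subgroup.mem_center_iff.1 (hzc b) x)
  have hζi : ∀ (i : ℕ) (v : V), ρ ((φ b) ^ i) v = ζ ^ i • v := by
    intro i
    induction i with
    | zero => intro v; simp
    | succ i ih =>
      intro v
      rw [pow_succ, map_mul, Module.End.mul_apply, hζ, map_smul, ih, smul_smul, pow_succ, mul_comm]
  have := hρ.1
  have hζ0 : ζ ≠ 0 := by
    rintro rfl
    obtain ⟨v, hv⟩ := exists_ne (0 : V)
    apply hv
    have h1 : ρ ((φ b)⁻¹) (ρ (φ b) v) = v := by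
      rw [← Module.End.mul_apply, ← map_mul, inv_mul_cancel, map_one, Module.End.one_apply]
    rw [hζ, zero_smul, map_zero] at h1
    exact h1.symm
  have hζp : ∀ i : ℕ, ζ ^ i = 1 → p ∣ i := by
    intro i hi
    rw [← horder]
    refine orderOf_dvd_of_pow_eq_one (hinj _ (Subgroup.pow_mem _ (hzc b) i) ?_)
    ext v
    rw [hζi, hi, one_smul, Module.End.one_apply]
  have hμ0 : μ ≠ 0 := by
    rintro rfl
    apply hμ
    rw [Submodule.eq_bot_iff]
    intro v hv
    rw [Module.End.mem_eigenspace_iff, zero_smul] at hv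
    have h1 : ρ (a⁻¹) (ρ a v) = v := by
      rw [← Module.End.mul_apply, ← map_mul, inv_mul_cancel, map_one, Module.End.one_apply]
    rw [hv, map_zero] at h1
    exact h1.symm
  have hinjf : Function.Injective (fun i : Fin p => ζ ^ (i : ℕ) * μ) := by
    intro i j hij
    have h1 : ζ ^ (i : ℕ) = ζ ^ (j : ℕ) := mul_right_cancel₀ hμ0 hij
    have key : ∀ i j : ℕ, i ≤ j → j < p → ζ ^ i = ζ ^ j → i = j := by
      intro i j hle hj h
      have h2 : ζ ^ (j - i) = 1 := by
        have h3 : ζ ^ i * ζ ^ (j - i) = ζ ^ i * 1 := by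
          rw [← pow_add, Nat.add_sub_cancel' hle, mul_one, h]
        exact mul_left_cancel₀ (pow_ne_zero i hζ0) h3
      have h4 := hζp _ h2
      have h5 : j - i = 0 := Nat.eq_zero_of_dvd_of_lt h4 (by omega)
      omega
    rcases le_total (i : ℕ) (j : ℕ) with h | h
    · exact Fin.ext (key i j h j.2 h1)
    · exact (Fin.ext (key j i h i.2 h1.symm)).symm
  -- the operator of `a` on the translates
  have hmap : ∀ (i : ℕ), ∀ v ∈ Module.End.eigenspace (ρ a) μ,
      ρ (b ^ i) v ∈ Module.End.eigenspace (ρ a) (ζ ^ i * μ) := by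
    intro i v hv
    rw [Module.End.mem_eigenspace_iff] at hv ⊢
    have h1 : a * b ^ i = (φ b) ^ i * b ^ i * a := by
      rw [← map_pow, hφ, commutatorElement_def]
      group
    rw [← Module.End.mul_apply, ← map_mul, h1, mul_assoc, map_mul, Module.End.mul_apply, hζi,
      map_mul, Module.End.mul_apply, hv, map_smul, smul_smul]
  have hInv : Inv (ρ.comp C.subtype) (Module.End.eigenspace (ρ a) μ) := by
    intro g v hv
    rw [Module.End.mem_eigenspace_iff] at hv ⊢
    have h1 : a * (g : H) = g * a := (hC g).1 g.2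
    show ρ a (ρ (g : H) v) = μ • ρ (g : H) v
    rw [← Module.End.mul_apply, ← map_mul, h1, map_mul, Module.End.mul_apply, hv, map_smul]
  -- main dimension count
  have hdim : ∀ X : Submodule ℂ V, X ≤ Module.End.eigenspace (ρ a) μ → X ≠ ⊥ →
      (∀ g ∈ C, ∀ x ∈ X, ρ g x ∈ X) → Module.finrank ℂ V = p * Module.finrank ℂ X := by
    intro X hX hX0 hXC
    have hpos := hp.pos
    have hinv : Inv ρ (⨆ i : Fin p, X.map (ρ (b ^ (i : ℕ)))) := by
      intro g
      have h1 : (⨆ i : Fin p, X.map (ρ (b ^ (i : ℕ)))) ≤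
          (⨆ i : Fin p, X.map (ρ (b ^ (i : ℕ)))).comap (ρ g) := by
        refine iSup_le fun i => ?_
        rintro _ ⟨x, hx, rfl⟩
        obtain ⟨j, hj, hjg⟩ := hrep (g * b ^ (i : ℕ))
        have hc : (b ^ j)⁻¹ * (g * b ^ (i : ℕ)) ∈ C := by
          rw [← hker, MonoidHom.mem_ker, map_mul, map_inv, map_pow, ← hjg, inv_mul_cancel]
        rw [Submodule.mem_comap, ← Module.End.mul_apply, ← map_mul]
        have h2 : g * b ^ (i : ℕ) = b ^ j * ((b ^ j)⁻¹ * (g * b ^ (i : ℕ))) := by group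
        rw [h2, map_mul, Module.End.mul_apply]
        refine (le_iSup (fun i : Fin p => X.map (ρ (b ^ (i : ℕ)))) ⟨j, hj⟩) ?_
        exact ⟨_, hXC _ hc x hx, rfl⟩
      intro v hv
      exact h1 hv
    have htop : (⨆ i : Fin p, X.map (ρ (b ^ (i : ℕ)))) = ⊤ := by
      rcases hρ.2 _ hinv with h | h
      · exfalso
        apply hX0
        rw [eq_bot_iff, ← h]
        refine le_trans ?_ (le_iSup (fun i : Fin p => X.map (ρ (b ^ (i : ℕ)))) ⟨0, hpos⟩)
        intro x hx
        exact ⟨x, hx, by simp⟩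
      · exact h
    have hind : iSupIndep fun i : Fin p => X.map (ρ (b ^ (i : ℕ))) := by
      refine ((Module.End.eigenspaces_iSupIndep (ρ a)).comp hinjf).mono fun i => ?_
      rintro _ ⟨x, hx, rfl⟩
      exact hmap i x (hX hx)
    refine clp_finrank _ hind htop _ fun i => ?_
    have hinjρ : Function.Injective (ρ (b ^ (i : ℕ))) := by
      intro v w hvw
      have h3 : ∀ u : V, ρ ((b ^ (i : ℕ))⁻¹) (ρ (b ^ (i : ℕ)) u) = u := by
        intro u
        rw [← Module.End.mul_apply, ← map_mul, inv_mul_cancel, map_one, Module.End.one_apply]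
      rw [← h3 v, ← h3 w, hvw]
    exact (Submodule.equivMapOfInjective (ρ (b ^ (i : ℕ))) hinjρ X).finrank_eq.symm
  have hV0 := hdim _ le_rfl hμ (fun g hg x hx => hInv ⟨g, hg⟩ x hx)
  refine ⟨hInv, ⟨?_, ?_⟩, hV0⟩
  · exact Submodule.nontrivial_iff_ne_bot.2 hμ
  · intro W hW
    by_cases hW0 : W = ⊥
    · exact Or.inl hW0
    · right
      have h1 := hdim (W.map (Module.End.eigenspace (ρ a) μ).subtype) (Submodule.map_subtype_le _ _)
        (by
          intro hbot
          apply hW0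
          rw [Submodule.eq_bot_iff]
          intro w hw
          have h2 : (Module.End.eigenspace (ρ a) μ).subtype w ∈
              W.map (Module.End.eigenspace (ρ a) μ).subtype := ⟨w, hw, rfl⟩
          rw [hbot, Submodule.mem_bot] at h2
          exact Subtype.ext h2) (by
          rintro g hg _ ⟨w, hw, rfl⟩
          exact ⟨_, hW ⟨g, hg⟩ w hw, rfl⟩)
      rw [← (Submodule.equivMapOfInjective (Module.End.eigenspace (ρ a) μ).subtype
        Subtype.val_injective W).finrank_eq, hV0] at h1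
      exact Submodule.eq_top_of_finrank_eq (Nat.eq_of_mul_eq_mul_left hp.pos h1.symm)

end Pool.Agent.LP
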