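import Pool.Agent.LP.Bas

/-!
# LP / Gam: the lower central series is a filtration; subgroups, quotients, images

PROOFS. `gam_fil`: `gam H i = (⊤ : Subgroup H).lowerCentralSeries (i - 1)`. Normality:
`Subgroup.lowerCentralSeries_normal`; antitone: `lowerCentralSeries_antitone`. Commutators: if
`i = 0` or `j = 0` or ... in general show `⁅lcs a, lcs b⁆ ≤ lcs (a + b + 1)` for all `a b` by
induction on `b` (for all `a`): `b = 0` is the definition. Step:
`⁅lcs a, ⁅lcs b, ⊤⁆⁆ ≤ lcs (a + b + 2)` by the three subgroups lemma modulo the normal subgroup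
`M = lcs (a + b + 2)` (`Subgroup.commutator_commutator_eq_bot_of_rotate` in `H ⧸ M`, see how
Mathlib/GroupTheory/Commutator uses it), since `⁅⁅⊤, lcs a⁆, lcs b⁆ ≤ ⁅lcs (a+1), lcs b⁆` and
`⁅⁅lcs a, lcs b⁆, ⊤⁆ ≤ ⁅lcs (a+b+1), ⊤⁆` are in `M`. For `i, j ≥ 1`:
`(i-1) + (j-1) + 1 = (i + j) - 1`. For `i = 0`: `⁅⊤, F j⁆ ≤ F j` by normality. `top`:
`gam H (p - 1 + 1) = lcs (p - 1) = ⊥`.
`gam_map`: `Subgroup.map_lowerCentralSeries` and `lowerCentralSeries_mono`.
`Laz.subgroup`: `Subgroup.top_subtype_lowerCentralSeries`, `lowerCentralSeries_mono`.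
`Laz.of_surj`: `map_lowerCentralSeries`, `IsPGroup.of_surjective`.
-/

set_option autoImplicit false

open scoped commutatorElement

namespace Pool.Agent.LP

private theorem three_sub {H : Type} [Group H] (A B C M : Subgroup H) [M.Normal]
    (h1 : ⁅⁅B, C⁆, A⁆ ≤ M) (h2 : ⁅⁅C, A⁆, B⁆ ≤ M) : ⁅⁅A, B⁆, C⁆ ≤ M := by
  have key : ∀ X Y Z : Subgroup H, ⁅⁅X, Y⁆, Z⁆ ≤ M ↔
      ⁅⁅X.map (QuotientGroup.mk' M), Y.map (QuotientGroup.mk' M)⁆,
        Z.map (QuotientGroup.mk' M)⁆ = ⊥ := by
    intro X Y Z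
    rw [← Subgroup.map_commutator, ← Subgroup.map_commutator, Subgroup.map_eq_bot_iff,
      QuotientGroup.ker_mk']
  rw [key] at h1 h2 ⊢
  exact Subgroup.commutator_commutator_eq_bot_of_rotate h1 h2

private theorem lcs_comm {H : Type} [Group H] : ∀ b a : ℕ,
    ⁅(⊤ : Subgroup H).lowerCentralSeries a, (⊤ : Subgroup H).lowerCentralSeries b⁆ ≤
      (⊤ : Subgroup H).lowerCentralSeries (a + b + 1) := by
  intro b
  induction b with
  | zero => intro a; exact le_of_eq rfl
  | succ b ih =>
    intro a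
    rw [Subgroup.lowerCentralSeries_succ, Subgroup.commutator_comm]
    refine three_sub _ _ _ _ ?_ ?_
    · refine le_trans (Subgroup.commutator_mono (le_of_eq (Subgroup.commutator_comm _ _)) le_rfl) ?_
      rw [← Subgroup.lowerCentralSeries_succ]
      refine (ih (a + 1)).trans (le_of_eq ?_)
      congr 1
      omega
    · refine (Subgroup.commutator_mono (ih a) le_rfl).trans (le_of_eq ?_)
      rw [← Subgroup.lowerCentralSeries_succ]
      congr 1

theorem gam_fil {p : ℕ} {H : Type} [Group H] (h : Laz p H) : Fil (gam H) (p - 1) := by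
  have hnorm : ∀ i, (gam H i).Normal := by
    intro i
    unfold gam
    infer_instance
  refine ⟨hnorm, ?_, ?_, ?_⟩
  · intro i j hij
    exact Subgroup.lowerCentralSeries_antitone _ (Nat.sub_le_sub_right hij 1)
  · intro i j
    haveI := hnorm i
    haveI := hnorm j
    rcases Nat.eq_zero_or_pos i with rfl | hi
    · rw [zero_add]
      exact Subgroup.commutator_le_right _ _
    · rcases Nat.eq_zero_or_pos j with rfl | hj
      · rw [add_zero]
        exact Subgroup.commutator_le_left _ _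
      · refine (lcs_comm (j - 1) (i - 1)).trans (le_of_eq ?_)
        unfold gam
        congr 1
        omega
  · unfold gam
    rw [Nat.add_sub_cancel]
    exact h.cls

theorem gam_map {H H' : Type} [Group H] [Group H'] (φ : H →* H') (i : ℕ) {x : H}
    (hx : x ∈ gam H i) : φ x ∈ gam H' i := by
  have h1 : φ x ∈ (gam H i).map φ := Subgroup.mem_map_of_mem φ hx
  unfold gam at h1 ⊢
  rw [Subgroup.map_lowerCentralSeries] at h1
  exact Subgroup.lowerCentralSeries_mono _ le_top h1

theorem Laz.subgroup {p : ℕ} {H : Type} [Group H] (h : Laz p H) (K : Subgroup H) : Laz p K := by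
  haveI := h.fin
  refine ⟨h.prime, inferInstance, h.pgroup.to_subgroup K, ?_⟩
  have h1 : ((⊤ : Subgroup K).lowerCentralSeries (p - 1)).map K.subtype = ⊥ := by
    rw [Subgroup.top_subtype_lowerCentralSeries, eq_bot_iff, ← h.cls]
    exact Subgroup.lowerCentralSeries_mono _ le_top
  rwa [Subgroup.map_eq_bot_iff_of_injective _ K.subtype_injective] at h1

theorem Laz.of_surj {p : ℕ} {H H' : Type} [Group H] [Group H'] (h : Laz p H) (φ : H →* H')
    (hφ : Function.Surjective φ) : Laz p H' := by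
  haveI := h.fin
  refine ⟨h.prime, Finite.of_surjective φ hφ, h.pgroup.of_surjective φ hφ, ?_⟩
  have h1 := Subgroup.map_lowerCentralSeries (⊤ : Subgroup H) φ (p - 1)
  rw [h.cls, Subgroup.map_bot, Subgroup.map_top_of_surjective φ hφ] at h1
  exact h1.symm

theorem Laz.of_inj {p : ℕ} {H H' : Type} [Group H] [Group H'] (h : Laz p H') (φ : H →* H')
    (hφ : Function.Injective φ) : Laz p H := by
  haveI := h.fin
  refine ⟨h.prime, Finite.of_injective φ hφ, h.pgroup.of_injective φ hφ, ?_⟩
  have h1 : ((⊤ : Subgroup H).lowerCentralSeries (p - 1)).map φ = ⊥ := by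
    rw [Subgroup.map_lowerCentralSeries, eq_bot_iff, ← h.cls]
    exact Subgroup.lowerCentralSeries_mono _ le_top
  rwa [Subgroup.map_eq_bot_iff_of_injective _ hφ] at h1

theorem Laz.of_comm {p : ℕ} (hp : p.Prime) {H : Type} [CommGroup H] [Finite H]
    (hH : IsPGroup p H) (h2 : 2 ≤ p) : Laz p H := by
  refine ⟨hp, inferInstance, hH, ?_⟩
  rw [eq_bot_iff]
  have h1 : (⊤ : Subgroup H).lowerCentralSeries (p - 1) ≤
      (⊤ : Subgroup H).lowerCentralSeries 1 :=
    Subgroup.lowerCentralSeries_antitone _ (by omega)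
  refine h1.trans ?_
  rw [Subgroup.lowerCentralSeries_succ, Subgroup.commutator_le]
  intro a _ b _
  rw [Subgroup.mem_bot, commutatorElement_eq_one_iff_mul_comm]
  exact mul_comm a b

end Pool.Agent.LP
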