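import Pool.Agent.LP.Vv
import Pool.Agent.LP.Cmz
import Pool.Agent.LP.Gam

/-!
# LP / Cls: `Γ` is a Lazard group

PROOF. (`K ≥ 1`: `2 K + 1 = p` and `p ≥ 2`.) Write `γ i = Γ.lowerCentralSeries i`.
(1) `γ (K - 1) ≤ A`: for `g ∈ γ (K - 1)`, `cmn_Z` with `W = ⊥` gives `(g • v) v⁻¹ ∈ cmn Γ K ⊔ ⊥ = ⊥`
for all `v : VV A`, so `g • v = v`; by `VV_triv` `g` commutes with `A`, so `g ∈ A` (`hself`).
(2) For `j ≤ K` and `x ∈ γ (K - 1 + j)`: `x ∈ A` and `v.ev x = 1` for all `v ∈ cmn Γ (K - j)`.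
Induction on `j`: `j = 0`: `cmn Γ K = ⊥`. Step: the set of such `x` is a subgroup, so we may take
`x = ⁅y, g⁆`, `y ∈ γ (K - 1 + j)`, `g ∈ Γ` (`x ∈ γ (K-1) ≤ A` by antitonicity). As
`⁅y, g⁆ = y * (g y⁻¹ g⁻¹)`, `v.ev ⁅y, g⁆ = v.ev y * ((g⁻¹ • v).ev y)⁻¹ = (((g⁻¹ • v) v⁻¹).ev y)⁻¹`,
and for `v ∈ cmn Γ (K - j - 1)`, `(g⁻¹ • v) v⁻¹ ∈ cmn Γ (K - j)`, so this is `1` by induction.
(3) `j = K`: `cmn Γ 0 = ⊤`, so `x = 1` by `VV_sep`: `γ (2 K - 1) = ⊥`. As `p - 1 = 2 K ≥ 2 K - 1`,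
`Γ.lowerCentralSeries (p - 1) = ⊥`, and
`(⊤ : Subgroup Γ).lowerCentralSeries (p - 1) = ⊥` by `Subgroup.top_subtype_lowerCentralSeries`.
-/

set_option autoImplicit false

open scoped commutatorElement

namespace Pool.Agent.LP

/-- the elements of `A` on which all characters in `M` vanish -/
private def clsAnn {G : Type} [Group G] (A : Subgroup G) (M : Subgroup (VV A)) : Subgroup G where
  carrier := {x | ∃ hx : x ∈ A, ∀ v ∈ M, v.ev ⟨x, hx⟩ = 1}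
  one_mem' := ⟨A.one_mem, fun v _ => map_one v.ev⟩
  mul_mem' := by
    rintro a b ⟨ha, ha'⟩ ⟨hb, hb'⟩
    refine ⟨A.mul_mem ha hb, fun v hv => ?_⟩
    have h := map_mul v.ev ⟨a, ha⟩ ⟨b, hb⟩
    rw [ha' v hv, hb' v hv, one_mul] at h
    exact h
  inv_mem' := by
    rintro a ⟨ha, ha'⟩
    refine ⟨A.inv_mem ha, fun v hv => ?_⟩
    have h := map_inv v.ev ⟨a, ha⟩
    rw [ha' v hv, inv_one] at h
    exact h

private theorem clsAnn_step {G : Type} [Group G] (A : Subgroup G) [A.Normal] (Γ : Subgroup G)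
    (i : ℕ) {y g : G} (hy : y ∈ clsAnn A (cmn Γ (i + 1))) (hg : g ∈ Γ) :
    ⁅y, g⁆ ∈ clsAnn A (cmn Γ i) := by
  obtain ⟨hyA, hy'⟩ := hy
  have hconj : g * y⁻¹ * g⁻¹ ∈ A := Subgroup.Normal.conj_mem inferInstance _ (A.inv_mem hyA) g
  have hmem : ⁅y, g⁆ ∈ A := by
    rw [commutatorElement_def]
    have h1 := A.mul_mem hyA hconj
    rwa [← mul_assoc, ← mul_assoc] at h1
  refine ⟨hmem, fun v hv => ?_⟩
  have h1 := hy' ((g⁻¹ • v) * v⁻¹) (Subgroup.subset_closure ⟨g⁻¹, Γ.inv_mem hg, v, hv, rfl⟩)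
  rw [VV.ev_mul, VV.ev_inv, VV.smul_ev, inv_inv] at h1
  have h2 : (⟨⁅y, g⁆, hmem⟩ : A) = ⟨y, hyA⟩ * (MulAut.conjNormal g ⟨y, hyA⟩ : A)⁻¹ := by
    apply Subtype.ext
    show ⁅y, g⁆ = y * ((MulAut.conjNormal g ⟨y, hyA⟩ : A) : G)⁻¹
    rw [MulAut.conjNormal_apply, commutatorElement_def]
    group
  rw [h2, map_mul, map_inv]
  rw [mul_inv_eq_one] at h1
  rw [h1, mul_inv_cancel]

theorem CLSG {p K : ℕ} (hp : p.Prime) (hK : 2 * K + 1 = p) {G : Type} [Group G] [Finite G]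
    (hG : IsPGroup p G) (A : Subgroup G) [A.Normal] (hA : ∀ x ∈ A, ∀ y ∈ A, x * y = y * x)
    (hself : ∀ g : G, (∀ a ∈ A, g * a = a * g) → g ∈ A) (Γ : Subgroup G)
    (h : cmn Γ K = (⊥ : Subgroup (VV A))) : Laz p Γ := by
  have hK1 : 1 ≤ K := by
    have := hp.two_le
    omega
  have hW : GInv G (⊥ : Subgroup (VV A)) := by
    intro g v hv
    rw [Subgroup.mem_bot] at hv ⊢
    rw [hv, smul_one]
  have h1 : Γ.lowerCentralSeries (K - 1) ≤ A := by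
    intro g hg
    refine hself g fun a ha => VV_triv A hA g (fun v => ?_) a ha
    have h2 := cmn_Z Γ (⊥ : Subgroup (VV A)) hW (K - 1) g hg v
    rw [show K - 1 + 1 = K by omega, h, sup_idem, Subgroup.mem_bot, mul_inv_eq_one] at h2
    exact h2
  have h3 : ∀ j, j ≤ K → Γ.lowerCentralSeries (K - 1 + j) ≤ clsAnn A (cmn Γ (K - j)) := by
    intro j
    induction j with
    | zero =>
      intro _ x hx
      refine ⟨h1 hx, fun v hv => ?_⟩
      rw [Nat.sub_zero, h, Subgroup.mem_bot] at hv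
      rw [hv, VV.ev_one]
    | succ j ih =>
      intro hj
      rw [← add_assoc, Subgroup.lowerCentralSeries_succ, Subgroup.commutator_le]
      intro y hy g hg
      have h4 := ih (by omega) hy
      rw [show K - j = K - (j + 1) + 1 by omega] at h4
      exact clsAnn_step A Γ _ h4 hg
  have h5 : Γ.lowerCentralSeries (K - 1 + K) = ⊥ := by
    rw [eq_bot_iff]
    intro x hx
    obtain ⟨hxA, hx'⟩ := h3 K le_rfl hx
    rw [Nat.sub_self] at hx'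
    have h6 := VV_sep A hA ⟨x, hxA⟩ fun u => hx' u (Subgroup.mem_top u)
    rw [Subgroup.mem_bot]
    exact congrArg Subtype.val h6
  have h7 : Γ.lowerCentralSeries (p - 1) = ⊥ := by
    rw [eq_bot_iff, ← h5]
    exact Subgroup.lowerCentralSeries_antitone _ (by omega)
  refine ⟨hp, inferInstance, hG.to_subgroup Γ, ?_⟩
  have h8 : ((⊤ : Subgroup Γ).lowerCentralSeries (p - 1)).map Γ.subtype = ⊥ := by
    rw [Subgroup.top_subtype_lowerCentralSeries, h7]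
  rwa [Subgroup.map_eq_bot_iff_of_injective _ Γ.subtype_injective] at h8

end Pool.Agent.LP
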