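import Pool.Agent.LP.Defs

/-!
# LP / Cti: the counting inequality

PROOF of `CNTI`. For `u ∈ Good` put `τ = |T u| = |G| / p^R` (the same number for all `u ∈ Good`).
For `x : G` let `k x = #{i < K | x ∉ D0 i}`. Let
`S = Σ_{u ∈ Good} Σ_{x ∈ T u} k x = Σ_{i < K} Σ_{u ∈ Good} #{x ∈ T u | x ∉ D0 i}`.
Lower bound: if `u ∈ Good` and `¬ T u ≤ D0 i` then `T u ⊓ D0 i` is a proper subgroup of the
`p`-group `T u`, so `p * |T u ⊓ D0 i| ≤ |T u|` and `p * #{x ∈ T u | x ∉ D0 i} ≥ (p - 1) τ`. The
number of such `u` times `p` is at least `(p - R) |V|` (`hD`). So `p² S ≥ K (p - R) (p - 1) |V| τ`.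
Upper bound: `k x ≤ R + (if R < k x then K else 0)`; `Σ_{u ∈ Good} Σ_{x ∈ T u} R ≤ R |V| τ`, and
the number of pairs `(u, x)`, `u ∈ Good`, `x ∈ T u`, `k x ≥ R + 1` is at most
`Σ_{x : k x ≥ R + 1, x ∈ some T u0, u0 ∈ Good} #{u | x ∈ T u} ≤ |G| |V| / p^(R+1) = τ |V| / p` (`hk`).
So `p S ≤ p R |V| τ + K |V| τ`. Multiply by `p`, compare, and cancel `|V| τ > 0`
(`V` is nonempty as `Good` is).
-/

set_option autoImplicit false

namespace Pool.Agent.LP

theorem cti_split {G : Type} [Group G] [Finite G] (A D : Subgroup G) :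
    Nat.card {x : G // x ∈ A ∧ x ∈ D} + Nat.card {x : G // x ∈ A ∧ x ∉ D} = Nat.card A := by
  classical
  haveI := Fintype.ofFinite G
  have h1 : Nat.card {x : G // x ∈ A ∧ x ∈ D} =
      ((Finset.univ.filter (fun x : G => x ∈ A)).filter (fun x => x ∈ D)).card := by
    rw [Finset.filter_filter, Nat.card_eq_fintype_card, Fintype.card_subtype]
  have h2 : Nat.card {x : G // x ∈ A ∧ x ∉ D} =
      ((Finset.univ.filter (fun x : G => x ∈ A)).filter (fun x => ¬ x ∈ D)).card := by
    rw [Finset.filter_filter, Nat.card_eq_fintype_card, Fintype.card_subtype]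
  have h3 : Nat.card A = (Finset.univ.filter (fun x : G => x ∈ A)).card := by
    rw [Nat.card_eq_fintype_card]
    exact Fintype.card_subtype _
  rw [h1, h2, h3]
  exact Finset.card_filter_add_card_filter_not _

theorem cti_inf {G : Type} [Group G] [Finite G] {p : ℕ} (hp : p.Prime) (hG : IsPGroup p G)
    (A D : Subgroup G) (h : ¬ A ≤ D) :
    p * Nat.card {x : G // x ∈ A ∧ x ∈ D} ≤ Nat.card A := by
  haveI : Fact p.Prime := ⟨hp⟩
  obtain ⟨n, hn⟩ := (hG.to_subgroup A).index (D.subgroupOf A)
  have h1 : n ≠ 0 := by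
    rintro rfl
    rw [pow_zero, Subgroup.index_eq_one, Subgroup.subgroupOf_eq_top] at hn
    exact h hn
  have h2 := Subgroup.card_mul_index (D.subgroupOf A)
  have h3 : Nat.card (D.subgroupOf A) = Nat.card {x : G // x ∈ A ∧ x ∈ D} := by
    refine Nat.card_congr ⟨fun x => ⟨x.1.1, x.1.2, x.2⟩, fun x => ⟨⟨x.1, x.2.1⟩, x.2.2⟩, ?_, ?_⟩
    · intro x; rfl
    · intro x; rfl
  rw [h3, hn] at h2
  rw [← h2, mul_comm]
  refine Nat.mul_le_mul_left _ ?_
  calc p = p ^ 1 := (pow_one p).symm
    _ ≤ p ^ n := Nat.pow_le_pow_right hp.pos (Nat.one_le_iff_ne_zero.2 h1)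

theorem cti_low {G : Type} [Group G] [Finite G] {p : ℕ} (hp : p.Prime) (hG : IsPGroup p G)
    (A D : Subgroup G) (h : ¬ A ≤ D) :
    (p - 1) * Nat.card A ≤ p * Nat.card {x : G // x ∈ A ∧ x ∉ D} := by
  have h1 := cti_inf hp hG A D h
  have h2 := cti_split A D
  obtain ⟨q, rfl⟩ : ∃ q, p = q + 1 := ⟨p - 1, by have := hp.pos; omega⟩
  rw [Nat.add_sub_cancel]
  rw [← h2] at h1 ⊢
  nlinarith [h1]

open Classical in
theorem CNTI {G V : Type} [Group G] [Finite G] [Finite V] {p : ℕ} (hp : p.Prime)
    (hG : IsPGroup p G) (R K : ℕ) (hR : R < p) (Good : Set V) (hne : Good.Nonempty)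
    (T : V → Subgroup G) (D0 : ℕ → Subgroup G)
    (hT : ∀ u ∈ Good, Nat.card (T u) * p ^ R = Nat.card G)
    (hD : ∀ i < K, p * Nat.card {u : V // ¬ (u ∈ Good ∧ ¬ T u ≤ D0 i)} ≤ R * Nat.card V)
    (hk : ∀ u0 ∈ Good, ∀ x ∈ T u0,
      p ^ ((Finset.range K).filter (fun i => x ∉ D0 i)).card * Nat.card {u : V // x ∈ T u} ≤
        Nat.card V) :
    K * (p - R) * (p - 1) ≤ p ^ 2 * R + p * K := by
  haveI := Fintype.ofFinite G
  haveI := Fintype.ofFinite V
  obtain ⟨uu, huu⟩ := hne
  set τ := Nat.card (T uu) with hτ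
  set m := Nat.card V with hm
  have hτu : ∀ u ∈ Good, Nat.card (T u) = τ := by
    intro u hu
    have h1 := hT u hu
    have h2 := hT uu huu
    exact Nat.eq_of_mul_eq_mul_right (pow_pos hp.pos R) (h1.trans h2.symm)
  have hτ0 : 0 < τ := Nat.card_pos
  have hm0 : 0 < m := by
    haveI : Nonempty V := ⟨uu⟩
    exact Nat.card_pos
  let GG : Finset V := Finset.univ.filter (fun u => u ∈ Good)
  let TT : V → Finset G := fun u => Finset.univ.filter (fun x => x ∈ T u)
  let k : G → ℕ := fun x => ((Finset.range K).filter (fun i => x ∉ D0 i)).card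
  have hTT : ∀ u ∈ Good, (TT u).card = τ := by
    intro u hu
    rw [← hτu u hu, Nat.card_eq_fintype_card]
    exact (Fintype.card_subtype _).symm
  have hmf : m = (Finset.univ : Finset V).card := by
    rw [hm, Nat.card_eq_fintype_card, Finset.card_univ]
  -- the double count
  have hS : ∑ u ∈ GG, ∑ x ∈ TT u, k x =
      ∑ i ∈ Finset.range K, ∑ u ∈ GG, ((TT u).filter (fun x => x ∉ D0 i)).card := by
    rw [Finset.sum_comm]
    refine Finset.sum_congr rfl fun u _ => ?_
    simp only [k, Finset.card_filter]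
    rw [Finset.sum_comm]
  -- lower bound
  have hlow : ∀ i ∈ Finset.range K, (p - R) * (p - 1) * (m * τ) ≤
      p ^ 2 * ∑ u ∈ GG, ((TT u).filter (fun x => x ∉ D0 i)).card := by
    intro i hi
    have hi' := hD i (Finset.mem_range.1 hi)
    let U : Finset V := Finset.univ.filter (fun u => u ∈ Good ∧ ¬ T u ≤ D0 i)
    have hU1 : Nat.card {u : V // ¬ (u ∈ Good ∧ ¬ T u ≤ D0 i)} =
        (Finset.univ.filter (fun u : V => ¬ (u ∈ Good ∧ ¬ T u ≤ D0 i))).card := by
      rw [Nat.card_eq_fintype_card, Fintype.card_subtype]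
    have hU2 : U.card + (Finset.univ.filter (fun u : V => ¬ (u ∈ Good ∧ ¬ T u ≤ D0 i))).card =
        m := by
      rw [hmf]
      exact Finset.card_filter_add_card_filter_not _
    rw [hU1] at hi'
    have hU3 : (p - R) * m ≤ p * U.card := by
      obtain ⟨q, hq⟩ : ∃ q, p = R + q := ⟨p - R, by omega⟩
      have h3 : p - R = q := by omega
      rw [h3]
      rw [hq] at hi' ⊢
      nlinarith [hi', hU2]
    have hsub : U ⊆ GG := by
      intro u hu
      simp only [U, GG, Finset.mem_filter, Finset.mem_univ, true_and] at hu ⊢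
      exact hu.1
    have h4 : U.card * ((p - 1) * τ) ≤
        p * ∑ u ∈ GG, ((TT u).filter (fun x => x ∉ D0 i)).card := by
      calc U.card * ((p - 1) * τ) = ∑ u ∈ U, (p - 1) * τ := by
            rw [Finset.sum_const, smul_eq_mul]
        _ ≤ ∑ u ∈ U, p * ((TT u).filter (fun x => x ∉ D0 i)).card := by
            refine Finset.sum_le_sum fun u hu => ?_
            simp only [U, Finset.mem_filter, Finset.mem_univ, true_and] at hu
            have h5 := cti_low hp hG (T u) (D0 i) hu.2
            rw [hτu u hu.1] at h5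
            have h6 : Nat.card {x : G // x ∈ T u ∧ x ∉ D0 i} =
                ((TT u).filter (fun x => x ∉ D0 i)).card := by
              simp only [TT]
              rw [Finset.filter_filter, Nat.card_eq_fintype_card, Fintype.card_subtype]
            rw [← h6]
            exact h5
        _ = p * ∑ u ∈ U, ((TT u).filter (fun x => x ∉ D0 i)).card := by
            rw [Finset.mul_sum]
        _ ≤ p * ∑ u ∈ GG, ((TT u).filter (fun x => x ∉ D0 i)).card :=
            Nat.mul_le_mul_left _ (Finset.sum_le_sum_of_subset hsub)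
    calc (p - R) * (p - 1) * (m * τ) = ((p - R) * m) * ((p - 1) * τ) := by ring
      _ ≤ (p * U.card) * ((p - 1) * τ) := Nat.mul_le_mul_right _ hU3
      _ = p * (U.card * ((p - 1) * τ)) := by ring
      _ ≤ p * (p * ∑ u ∈ GG, ((TT u).filter (fun x => x ∉ D0 i)).card) :=
          Nat.mul_le_mul_left _ h4
      _ = p ^ 2 * ∑ u ∈ GG, ((TT u).filter (fun x => x ∉ D0 i)).card := by ring
  have hLow : K * (p - R) * (p - 1) * (m * τ) ≤ p ^ 2 * ∑ u ∈ GG, ∑ x ∈ TT u, k x := by
    rw [hS, Finset.mul_sum]
    calc K * (p - R) * (p - 1) * (m * τ) =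
          ∑ _i ∈ Finset.range K, (p - R) * (p - 1) * (m * τ) := by
          rw [Finset.sum_const, smul_eq_mul, Finset.card_range]
          ring
      _ ≤ _ := Finset.sum_le_sum hlow
  -- pairs with large `k`
  have hP1 : ∑ u ∈ GG, ((TT u).filter (fun x => R < k x)).card =
      ∑ x : G, if R < k x then (GG.filter (fun u => x ∈ T u)).card else 0 := by
    simp only [TT, Finset.card_filter, Finset.sum_filter]
    rw [Finset.sum_comm]
    refine Finset.sum_congr rfl fun x _ => ?_
    by_cases h : R < k x
    · simp only [h, if_true]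
    · simp only [h, if_false, ite_self, Finset.sum_const_zero]
  have hP2 : p ^ (R + 1) * ∑ u ∈ GG, ((TT u).filter (fun x => R < k x)).card ≤
      Nat.card G * m := by
    rw [hP1, Finset.mul_sum]
    calc ∑ x : G, p ^ (R + 1) * (if R < k x then (GG.filter (fun u => x ∈ T u)).card else 0)
        ≤ ∑ _x : G, m := by
          refine Finset.sum_le_sum fun x _ => ?_
          by_cases h : R < k x
          · simp only [h, if_true]
            by_cases hx : ∃ u0 ∈ Good, x ∈ T u0
            · obtain ⟨u0, hu0, hxu⟩ := hx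
              have h7 := hk u0 hu0 x hxu
              have h8 : (GG.filter (fun u => x ∈ T u)).card ≤ Nat.card {u : V // x ∈ T u} := by
                rw [Nat.card_eq_fintype_card, Fintype.card_subtype]
                refine Finset.card_le_card ?_
                intro u hu
                simp only [Finset.mem_filter, Finset.mem_univ, true_and] at hu ⊢
                exact hu.2
              calc p ^ (R + 1) * (GG.filter (fun u => x ∈ T u)).card
                  ≤ p ^ (k x) * Nat.card {u : V // x ∈ T u} :=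
                    Nat.mul_le_mul (Nat.pow_le_pow_right hp.pos h) h8
                _ ≤ m := h7
            · have h9 : (GG.filter (fun u => x ∈ T u)).card = 0 := by
                rw [Finset.card_eq_zero, Finset.filter_eq_empty_iff]
                intro u hu hxu
                simp only [GG, Finset.mem_filter, Finset.mem_univ, true_and] at hu
                exact hx ⟨u, hu, hxu⟩
              rw [h9, mul_zero]
              exact Nat.zero_le _
          · simp only [h, if_false, mul_zero]
            exact Nat.zero_le _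
      _ = Nat.card G * m := by
          rw [Finset.sum_const, smul_eq_mul, Finset.card_univ, Nat.card_eq_fintype_card]
  have hP3 : p * ∑ u ∈ GG, ((TT u).filter (fun x => R < k x)).card ≤ m * τ := by
    rw [← hT uu huu] at hP2
    have hpR : 0 < p ^ R := pow_pos hp.pos R
    refine Nat.le_of_mul_le_mul_left ?_ hpR
    calc p ^ R * (p * ∑ u ∈ GG, ((TT u).filter (fun x => R < k x)).card) =
          p ^ (R + 1) * ∑ u ∈ GG, ((TT u).filter (fun x => R < k x)).card := by ring
      _ ≤ τ * p ^ R * m := hP2
      _ = p ^ R * (m * τ) := by ring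
  -- upper bound
  have hup : ∑ u ∈ GG, ∑ x ∈ TT u, k x ≤
      R * (m * τ) + K * ∑ u ∈ GG, ((TT u).filter (fun x => R < k x)).card := by
    have h1 : ∀ u ∈ GG, ∑ x ∈ TT u, k x ≤
        R * τ + K * ((TT u).filter (fun x => R < k x)).card := by
      intro u hu
      simp only [GG, Finset.mem_filter, Finset.mem_univ, true_and] at hu
      calc ∑ x ∈ TT u, k x ≤ ∑ x ∈ TT u, (R + if R < k x then K else 0) := by
            refine Finset.sum_le_sum fun x _ => ?_
            by_cases h : R < k x
            · simp only [h, if_true]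
              have : k x ≤ K := by
                have := Finset.card_filter_le (Finset.range K) (fun i => x ∉ D0 i)
                rw [Finset.card_range] at this
                exact this
              omega
            · simp only [h, if_false]
              omega
        _ = R * τ + K * ((TT u).filter (fun x => R < k x)).card := by
            rw [Finset.sum_add_distrib, Finset.sum_const, smul_eq_mul, hTT u hu,
              ← Finset.sum_filter, Finset.sum_const, smul_eq_mul]
            ring
    calc ∑ u ∈ GG, ∑ x ∈ TT u, k x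
        ≤ ∑ u ∈ GG, (R * τ + K * ((TT u).filter (fun x => R < k x)).card) :=
          Finset.sum_le_sum h1
      _ = GG.card * (R * τ) + K * ∑ u ∈ GG, ((TT u).filter (fun x => R < k x)).card := by
          rw [Finset.sum_add_distrib, Finset.sum_const, smul_eq_mul, Finset.mul_sum]
      _ ≤ m * (R * τ) + K * ∑ u ∈ GG, ((TT u).filter (fun x => R < k x)).card := by
          have h2 : GG.card ≤ m := by
            rw [hmf]
            exact Finset.card_le_univ _
          exact Nat.add_le_add_right (Nat.mul_le_mul_right _ h2) _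
      _ = _ := by ring
  have hfin : K * (p - R) * (p - 1) * (m * τ) ≤ (p ^ 2 * R + p * K) * (m * τ) := by
    calc K * (p - R) * (p - 1) * (m * τ) ≤ p ^ 2 * ∑ u ∈ GG, ∑ x ∈ TT u, k x := hLow
      _ ≤ p ^ 2 * (R * (m * τ) +
            K * ∑ u ∈ GG, ((TT u).filter (fun x => R < k x)).card) :=
          Nat.mul_le_mul_left _ hup
      _ = p ^ 2 * R * (m * τ) +
            p * K * (p * ∑ u ∈ GG, ((TT u).filter (fun x => R < k x)).card) := by ring
      _ ≤ p ^ 2 * R * (m * τ) + p * K * (m * τ) :=
          Nat.add_le_add_left (Nat.mul_le_mul_left _ hP3) _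
      _ = (p ^ 2 * R + p * K) * (m * τ) := by ring
  exact Nat.le_of_mul_le_mul_right hfin (Nat.mul_pos hm0 hτ0)

end Pool.Agent.LP
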