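import Pool.Agent.LP.Kap

/-!
# LP / Ps3: sections and subgroups

PROOF of `PSI`. For `ξ ∈ PS ⊥` and `t ∈ T`, `pev ξ t ∈ XN` by `hT`; `VDM` in `X` with `Q = XN`.

PROOF of `PSF`. Let `A = PS p n b0 b1 ⊥ ⊓ XP n XN`, `A' = PS p n b0 b1 ⊥ ⊓ XP n XD ≤ A`. The map
`A → (Fin n → XN ⧸ XD.subgroupOf XN)` has kernel `A'`, and its image is contained in the set of `c`
with `pev c t = 1` for all `t ∈ T` (`pev ξ t ∈ XN` and `b1 (pev ξ t) * b0 (pev ξ t) ^ t = 1`, so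
`pev ξ t ∈ XD` by `hT`), which has `p ^ (n - T.card)` elements (`VCT` for the group
`XN ⧸ XD.subgroupOf XN` of order `p`).
-/

set_option autoImplicit false

namespace Pool.Agent.LP

variable {p : ℕ} {X Y : Type} [CommGroup X] [CommGroup Y] [Finite X] [Finite Y]

theorem PSI (hp : p.Prime) (hX : IsPGroup p X) (b0 b1 : X →* Y) (n : ℕ) (XN : Subgroup X)
    (T : Finset ℕ) (hTp : ∀ t ∈ T, t < p) (hTn : n ≤ T.card)
    (hT : ∀ t ∈ T, ∀ ξ : X, b1 ξ * b0 ξ ^ t = 1 → ξ ∈ XN) :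
    PS p n b0 b1 ⊥ ≤ XP n XN := by
  intro ξ hξ
  exact VDM hp hX n ξ XN T hTp hTn
    (fun t ht => hT t ht _ (Subgroup.mem_bot.1 (hξ t (hTp t ht))))

theorem PSF (hp : p.Prime) (hX : IsPGroup p X) (b0 b1 : X →* Y) (n : ℕ) (hn : n ≤ p)
    (XN XD : Subgroup X) (hDN : XD ≤ XN) (hidx : XD.relIndex XN = p) (T : Finset ℕ)
    (hTp : ∀ t ∈ T, t < p) (hTn : T.card ≤ n)
    (hT : ∀ t ∈ T, ∀ ξ ∈ XN, b1 ξ * b0 ξ ^ t = 1 → ξ ∈ XD) :
    Nat.card ↥(PS p n b0 b1 ⊥ ⊓ XP n XN) ≤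
      Nat.card ↥(PS p n b0 b1 ⊥ ⊓ XP n XD) * p ^ (n - T.card) := by
  classical
  have hcard : Nat.card (XN ⧸ XD.subgroupOf XN) = p := hidx
  have hpg : IsPGroup p (XN ⧸ XD.subgroupOf XN) := IsPGroup.of_card (n := 1) (by rw [hcard, pow_one])
  let f : ↥(PS p n b0 b1 ⊥ ⊓ XP n XN) →* (Fin n → XN ⧸ XD.subgroupOf XN) :=
    { toFun := fun ξ d => QuotientGroup.mk' (XD.subgroupOf XN) ⟨ξ.1 d, ξ.2.2 d⟩
      map_one' := by
        funext d
        exact map_one (QuotientGroup.mk' (XD.subgroupOf XN))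
      map_mul' := fun a b => by
        funext d
        exact map_mul (QuotientGroup.mk' (XD.subgroupOf XN)) ⟨a.1 d, a.2.2 d⟩ ⟨b.1 d, b.2.2 d⟩ }
  have hf : ∀ ξ d, f ξ d = QuotientGroup.mk' (XD.subgroupOf XN) ⟨ξ.1 d, ξ.2.2 d⟩ :=
    fun ξ d => rfl
  have hker : Nat.card f.ker ≤ Nat.card ↥(PS p n b0 b1 ⊥ ⊓ XP n XD) := by
    refine Nat.card_le_card_of_injective (fun ξ => ⟨ξ.1.1, ξ.1.2.1, fun d => ?_⟩) ?_
    · have h1 := congrFun (MonoidHom.mem_ker.1 ξ.2) d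
      rw [hf, Pi.one_apply, QuotientGroup.mk'_apply, QuotientGroup.eq_one_iff,
        Subgroup.mem_subgroupOf] at h1
      exact h1
    · intro a b hab
      apply Subtype.ext
      apply Subtype.ext
      exact (Subtype.ext_iff.1 hab :)
  have hran : Nat.card f.range ≤
      Nat.card {c : Fin n → XN ⧸ XD.subgroupOf XN // ∀ t ∈ T, pev c t = 1} := by
    refine Nat.card_le_card_of_injective (fun c => ⟨c.1, fun t ht => ?_⟩) ?_
    · obtain ⟨ξ, hξ⟩ := c.2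
      have hmem : pev ξ.1 t ∈ XN :=
        Subgroup.prod_mem _ (fun d _ => XN.pow_mem (ξ.2.2 d) _)
      have h1 : pev c.1 t = QuotientGroup.mk' (XD.subgroupOf XN) ⟨pev ξ.1 t, hmem⟩ := by
        have h2 : (⟨pev ξ.1 t, hmem⟩ : XN) = ∏ d, (⟨ξ.1 d, ξ.2.2 d⟩ : XN) ^ (t ^ (d : ℕ)) := by
          apply Subtype.ext
          rw [Subgroup.val_finsetProd]
          rfl
        rw [h2, map_prod, ← hξ]
        refine Finset.prod_congr rfl fun d _ => ?_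
        rw [hf, map_pow]
      rw [h1, QuotientGroup.mk'_apply, QuotientGroup.eq_one_iff, Subgroup.mem_subgroupOf]
      exact hT t ht _ hmem (Subgroup.mem_bot.1 (ξ.2.1 t (hTp t ht)))
    · intro a b hab
      apply Subtype.ext
      exact (Subtype.ext_iff.1 hab :)
  have hV := VCT hp hpg n T hTp hTn hn
  rw [hcard] at hV
  have hV' : Nat.card {c : Fin n → XN ⧸ XD.subgroupOf XN // ∀ t ∈ T, pev c t = 1} =
      p ^ (n - T.card) := by
    have h1 : p ^ n = p ^ (n - T.card) * p ^ T.card := by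
      rw [← pow_add, Nat.sub_add_cancel hTn]
    rw [h1] at hV
    exact Nat.eq_of_mul_eq_mul_right (Nat.pow_pos hp.pos) hV
  rw [hV'] at hran
  rw [← Subgroup.card_mul_index f.ker, Subgroup.index_ker]
  exact Nat.mul_le_mul hker hran

end Pool.Agent.LP
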