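import Pool.Agent.LP.Sle
import Pool.Agent.LP.Ps3

/-!
# LP / Flag: the stabilisers of most `u` are not contained in `D0`

PROOF. Let `Bad = badT p {u | u ∈ Good ∧ ¬ TS W hW u ≤ D0} u0 u1` and suppose `|Bad| > R`; choose
`B1 ⊆ Bad` with `|B1| = R + 1 ≤ r + 1`. Split `B1 = B ∪ T`, `B = B1 ∩ badT p Good u0 u1`, `T` the rest:
for `t ∈ T`, `u = u1 u0^t ∈ Good` and `TS W u ≤ D0`. Lie data `X, π, β` for `N, W` (`PDX`,
`m = K + 1`), `XN = ⊤`, `XD` the subgroup of `X` belonging to `D0` (`PD.sub`; index `p` in `X`: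
`PD_cardD` for `D0` and for `N`, with `relIndex`). `b0, b1` as in `St1`.
`PSF` (n = r + 1, `XN = ⊤`): hypothesis: for `t ∈ T`, `ξ = π x` with `β ξ u = 1`: `x ∈ TS W u ≤ D0`,
`ξ ∈ XD`. So `|PS ⊥| ≤ |PS ⊥ ⊓ XP XD| * p^(r + 1 - |T|)`. `PSU` with `XD`:
`|PS ⊥ ⊓ XP XD| ≤ |ker b0 ⊓ XD|^(r+1)`, and `|ker b0 ⊓ XD| * |C| = |TS W u0 ⊓ D0|` (`PD_cardD`).
`|Sec p r N W u0 u1| = |PS ⊥| * |C|^(r+1)` (`PD_card`, `PDX`). As `TS W u0` is not contained in `D0`
and `G` is a `p`-group: `p * |TS W u0 ⊓ D0| ≤ |TS W u0|`. Hence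
`|Sec| * p^((r+1)(R+1)) ≤ |TS W u0|^(r+1) p^((r+1)R) p^(r+1-|T|) = |G|^(r+1) p^(r+1-|T|)`.
`sec` for `B`: `|G|^(r+1) p^|B| ≤ |Sec| p^((r+2)R)`. So
`p^|B| p^((r+1)(R+1)) ≤ p^((r+2)R) p^(r+1-|T|)`, i.e. `|B| + (r+1)(R+1) ≤ (r+2)R + r + 1 - |T|`, i.e.
`|B| + |T| ≤ R`: contradiction with `|B| + |T| = R + 1`.
-/

set_option autoImplicit false

namespace Pool.Agent.LP

variable {p r K : ℕ} {G V : Type} [Group G] [CommGroup V] [MulDistribMulAction G V]

theorem flag_inf [Finite G] (hp : p.Prime) (hG : IsPGroup p G)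
    (A D : Subgroup G) (h : ¬ A ≤ D) : p * Nat.card ↥(A ⊓ D) ≤ Nat.card A := by
  haveI : Fact p.Prime := ⟨hp⟩
  obtain ⟨n, hn⟩ := (hG.to_subgroup A).index (D.subgroupOf A)
  have h1 : n ≠ 0 := by
    rintro rfl
    rw [pow_zero, Subgroup.index_eq_one, Subgroup.subgroupOf_eq_top] at hn
    exact h hn
  have h2 := Subgroup.card_mul_index (D.subgroupOf A)
  have h3 : Nat.card (D.subgroupOf A) = Nat.card ↥(A ⊓ D) := by
    refine Nat.card_congr ⟨fun x => ⟨x.1.1, x.1.2, x.2⟩, fun x => ⟨⟨x.1, x.2.1⟩, x.2.2⟩, ?_, ?_⟩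
    · intro x; rfl
    · intro x; rfl
  rw [h3, hn] at h2
  rw [← h2, mul_comm]
  refine Nat.mul_le_mul_left _ ?_
  calc p = p ^ 1 := (pow_one p).symm
    _ ≤ p ^ n := Nat.pow_le_pow_right hp.pos (Nat.one_le_iff_ne_zero.2 h1)

theorem FLAG (H : Hyp p r K G V) {W : Subgroup V} (hW : GInv G W) {R : ℕ} {N : Subgroup G}
    {Good : Set V} (hS : State p r (K + 1) W hW R N Good) (D0 : Subgroup G)
    (hC : CW W hW ≤ D0) (hD0 : D0 ≤ N) (hidx : D0.relIndex N = p) (u0 : V) (h0 : u0 ∈ Good)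
    (hu0 : ¬ TS W hW u0 ≤ D0) (u1 : V) :
    (badT p {u : V | u ∈ Good ∧ ¬ TS W hW u ≤ D0} u0 u1).card ≤ R := by
  classical
  haveI := H.finG
  haveI := H.finV
  have hp := H.prime
  have h3 := H.three
  have hK := H.hK
  have hRr : R ≤ r := State_R_le H hS
  by_contra hcon
  rw [not_le] at hcon
  obtain ⟨B1, hB1, hB1c⟩ := Finset.exists_subset_card_eq (Nat.succ_le_of_lt hcon)
  have hCN : CW W hW ≤ N := hC.trans hD0
  obtain ⟨X, hXg, π, β, hPD, hSec, -⟩ := PDX hp H.pG H.pV N W hW (K + 1) (by omega) hS.small hCN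
  haveI := hPD.fin
  have hWW : W.map (QuotientGroup.mk' W) = ⊥ := QuotientGroup.map_mk'_self W
  set b0 : X →* V ⧸ W := β.flip u0 with hb0
  set b1 : X →* V ⧸ W := β.flip u1 with hb1
  have hβ : ∀ (ξ : X) (t : ℕ), β ξ (u1 * u0 ^ t) = b1 ξ * b0 ξ ^ t := by
    intro ξ t
    rw [map_mul, map_pow]
    rfl
  -- the action modulo `W`
  have hact : ∀ x ∈ N, ∀ u : V, (β (π x) u = 1 ↔ x ∈ TS W hW u) := by
    intro x hx u
    have h := hPD.act W hW le_rfl x hx u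
    rw [hWW, Subgroup.mem_bot] at h
    rw [mem_TS]
    exact h
  -- the number of sections
  have hcard : Nat.card (Sec p r N W hW u0 u1) =
      Nat.card ↥(PS p (r + 1) b0 b1 ⊥) * Nat.card (CW W hW) ^ (r + 1) := by
    have h4 := PD_card hPD hCN (r + 1) (PS p (r + 1) b0 b1 ⊥ : Set (Fin (r + 1) → X))
    have h5 : Sec p r N W hW u0 u1 = {x : Fin (r + 1) → G | (∀ d, x d ∈ N) ∧
        (fun d => π (x d)) ∈ (PS p (r + 1) b0 b1 ⊥ : Set (Fin (r + 1) → X))} := by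
      ext x
      rw [hSec r W hW le_rfl u0 u1 x, hWW, Set.mem_setOf_eq, SetLike.mem_coe, mem_PS]
      simp only [hβ]
    rw [h5]
    exact h4
  obtain ⟨XD, hXD⟩ := hPD.sub D0 hC hD0
  have hD0c : Nat.card D0 = Nat.card XD * Nat.card (CW W hW) :=
    PD_cardD hPD D0 hC hD0 XD hXD
  have hNc : Nat.card N = Nat.card (⊤ : Subgroup X) * Nat.card (CW W hW) :=
    PD_cardD hPD N hCN le_rfl ⊤ (fun x hx => by simp [hx])
  have hCpos : 0 < Nat.card (CW W hW) := Nat.card_pos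
  have hDpos : 0 < Nat.card XD := Nat.card_pos
  have hidx2 : XD.relIndex ⊤ = p := by
    rw [Subgroup.relIndex_top_right]
    have h6 := Subgroup.card_mul_index XD
    have h7 : Nat.card D0 * D0.relIndex N = Nat.card N := by
      have h8 := Subgroup.card_mul_index (D0.subgroupOf N)
      have h9 : Nat.card (D0.subgroupOf N) = Nat.card D0 :=
        Nat.card_congr (Subgroup.subgroupOfEquivOfLe hD0).toEquiv
      rw [h9] at h8
      exact h8
    rw [hidx, hD0c, hNc, Subgroup.card_top, ← h6] at h7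
    have h10 : Nat.card XD * Nat.card (CW W hW) * p =
        Nat.card XD * Nat.card (CW W hW) * XD.index := by
      rw [h7]; ring
    exact (Nat.eq_of_mul_eq_mul_left (Nat.mul_pos hDpos hCpos) h10).symm
  set B : Finset ℕ := B1.filter (fun t => t ∈ badT p Good u0 u1) with hB
  set T : Finset ℕ := B1.filter (fun t => ¬ t ∈ badT p Good u0 u1) with hT
  have hBT : B.card + T.card = R + 1 := by
    rw [hB, hT, Finset.card_filter_add_card_filter_not]
    exact hB1c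
  have hTp : ∀ t ∈ T, t < p := by
    intro t ht
    exact ((mem_badT _ _ _ _ _).1 (hB1 (Finset.mem_filter.1 ht).1)).1
  have hT2 : ∀ t ∈ T, ∀ ξ ∈ (⊤ : Subgroup X), b1 ξ * b0 ξ ^ t = 1 → ξ ∈ XD := by
    intro t ht ξ _ hξ
    obtain ⟨x, hx, rfl⟩ := hPD.surj ξ
    have h11 := (mem_badT _ _ _ _ _).1 (hB1 (Finset.mem_filter.1 ht).1)
    have h12 : u1 * u0 ^ t ∈ Good := by
      by_contra h13
      exact (Finset.mem_filter.1 ht).2 ((mem_badT _ _ _ _ _).2 ⟨h11.1, h13⟩)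
    have h14 : TS W hW (u1 * u0 ^ t) ≤ D0 := by
      by_contra h15
      exact h11.2 ⟨h12, h15⟩
    rw [← hβ, hact x hx] at hξ
    exact (hXD x hx).2 (h14 hξ)
  have hPSF := PSF hp hPD.pg b0 b1 (r + 1) (by omega) ⊤ XD le_top hidx2 T hTp (by omega) hT2
  have hXPtop : XP (r + 1) (⊤ : Subgroup X) = ⊤ := by
    ext ξ
    simp [mem_XP]
  rw [hXPtop, inf_top_eq] at hPSF
  have hPSU := PSU hp (H.pV.to_quotient W) b0 b1 XD (r + 1) (by omega)
  have hker : Nat.card ↥(TS W hW u0 ⊓ D0) =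
      Nat.card ↥(b0.ker ⊓ XD) * Nat.card (CW W hW) := by
    refine PD_cardD hPD (TS W hW u0 ⊓ D0) (le_inf (iInf_le _ u0) hC)
      (inf_le_right.trans hD0) (b0.ker ⊓ XD) ?_
    intro x hx
    rw [Subgroup.mem_inf, Subgroup.mem_inf, hXD x hx, MonoidHom.mem_ker, ← hact x hx u0]
    rfl
  have hinf := flag_inf hp H.pG (TS W hW u0) D0 hu0
  have hTG := hS.card u0 h0
  -- upper bound for the number of sections
  have hup : Nat.card (Sec p r N W hW u0 u1) * p ^ ((r + 1) * (R + 1)) ≤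
      Nat.card G ^ (r + 1) * p ^ (r + 1 - T.card) := by
    have h16 : Nat.card (Sec p r N W hW u0 u1) ≤
        Nat.card ↥(TS W hW u0 ⊓ D0) ^ (r + 1) * p ^ (r + 1 - T.card) := by
      rw [hcard, hker]
      calc Nat.card ↥(PS p (r + 1) b0 b1 ⊥) * Nat.card (CW W hW) ^ (r + 1)
          ≤ (Nat.card ↥(PS p (r + 1) b0 b1 ⊥ ⊓ XP (r + 1) XD) * p ^ (r + 1 - T.card)) *
            Nat.card (CW W hW) ^ (r + 1) := Nat.mul_le_mul_right _ hPSF
        _ ≤ (Nat.card ↥(b0.ker ⊓ XD) ^ (r + 1) * p ^ (r + 1 - T.card)) *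
            Nat.card (CW W hW) ^ (r + 1) :=
              Nat.mul_le_mul_right _ (Nat.mul_le_mul_right _ hPSU)
        _ = _ := by rw [mul_pow]; ring
    calc Nat.card (Sec p r N W hW u0 u1) * p ^ ((r + 1) * (R + 1))
        ≤ (Nat.card ↥(TS W hW u0 ⊓ D0) ^ (r + 1) * p ^ (r + 1 - T.card)) *
          p ^ ((r + 1) * (R + 1)) := Nat.mul_le_mul_right _ h16
      _ = ((p * Nat.card ↥(TS W hW u0 ⊓ D0)) * p ^ R) ^ (r + 1) *
          p ^ (r + 1 - T.card) := by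
          rw [mul_pow, mul_pow, ← pow_mul, show (r + 1) * (R + 1) = (r + 1) + R * (r + 1) by ring,
            pow_add]
          ring
      _ ≤ (Nat.card ↥(TS W hW u0) * p ^ R) ^ (r + 1) * p ^ (r + 1 - T.card) :=
          Nat.mul_le_mul_right _ (Nat.pow_le_pow_left (Nat.mul_le_mul_right _ hinf) _)
      _ = _ := by rw [hTG]
  have hsec := hS.sec u0 h0 u1 B (fun t ht => (Finset.mem_filter.1 ht).2) (by omega)
  have hG0 : 0 < Nat.card G ^ (r + 1) := pow_pos Nat.card_pos _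
  have hfin : Nat.card G ^ (r + 1) * p ^ (B.card + (r + 1) * (R + 1)) ≤
      Nat.card G ^ (r + 1) * p ^ (r + 1 - T.card + (r + 2) * R) := by
    calc Nat.card G ^ (r + 1) * p ^ (B.card + (r + 1) * (R + 1)) =
          (Nat.card G ^ (r + 1) * p ^ B.card) * p ^ ((r + 1) * (R + 1)) := by
          rw [pow_add]; ring
      _ ≤ (Nat.card (Sec p r N W hW u0 u1) * p ^ ((r + 2) * R)) * p ^ ((r + 1) * (R + 1)) :=
          Nat.mul_le_mul_right _ hsec
      _ = (Nat.card (Sec p r N W hW u0 u1) * p ^ ((r + 1) * (R + 1))) * p ^ ((r + 2) * R) := by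
          ring
      _ ≤ (Nat.card G ^ (r + 1) * p ^ (r + 1 - T.card)) * p ^ ((r + 2) * R) :=
          Nat.mul_le_mul_right _ hup
      _ = _ := by rw [pow_add]; ring
  have hexp := (Nat.pow_le_pow_iff_right hp.one_lt).1 (Nat.le_of_mul_le_mul_left hfin hG0)
  have hT1 : T.card ≤ r + 1 := by omega
  have e1 : (r + 1) * (R + 1) = r * R + r + R + 1 := by ring
  have e2 : (r + 2) * R = r * R + 2 * R := by ring
  rw [e1, e2] at hexp
  omega

end Pool.Agent.LP
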