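import Pool.Agent.LP.Defs
import Pool.Agent.Helper89.MD.MAXL

/-!
# LP / Mxs: subgroups of index `p`

PROOF: `Pool.Agent.Helper89.MD.eq_of_no_max` (contrapositive) and `Subgroup.relIndex` computed from
cardinalities (`Subgroup.card_mul_index`, `Subgroup.relIndex`).
-/

set_option autoImplicit false

namespace Pool.Agent.LP

/-- A proper subgroup of a subgroup `N` of a finite `p`-group lies in a subgroup of index `p`. -/
theorem MAXS {p : ℕ} (hp : p.Prime) {G : Type} [Group G] [Finite G] (hG : IsPGroup p G) (N D : Subgroup G) (hle : D ≤ N)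
    (hne : D ≠ N) : ∃ D0 : Subgroup G, D ≤ D0 ∧ D0 ≤ N ∧ D0.relIndex N = p := by
  haveI : Fact p.Prime := ⟨hp⟩
  by_contra hc
  push Not at hc
  refine hne (Helper89.MD.eq_of_no_max hG D N hle fun M h1 h2 h3 => ?_)
  refine hc M h1 h2 ?_
  have h4 := Subgroup.card_mul_index (M.subgroupOf N)
  have h5 : Nat.card (M.subgroupOf N) = Nat.card M :=
    Nat.card_congr (Subgroup.subgroupOfEquivOfLe h2).toEquiv
  have h6 : 0 < Nat.card M := Nat.card_pos
  rw [h5, h3] at h4
  have h7 : Nat.card M * (M.subgroupOf N).index = Nat.card M * p := by rw [h4]; ring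
  exact Nat.eq_of_mul_eq_mul_left h6 h7

end Pool.Agent.LP
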