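import Pool.Agent.LP.Rk
import Pool.Agent.LP.Nil

/-!
# LP / Prp: the subgroups `Dset` are proper

Notation `F i = cmn N i ⊔ W`.
PROOF of `PROPER`. `Dn i = {x ∈ N | ∀ v ∈ F i, (x • v) v⁻¹ ∈ F (i + 2)}` is a subgroup
(`Dsub`). If `Dsub i = N` for some `i < K` then `F (i + 1) ≤ F (i + 2)` (`cmn N (i + 1)` is generated
by the `(g • v) v⁻¹`, `g ∈ N`, `v ∈ cmn N i ≤ F i`), so by induction `F (i + 1) ≤ F j` for all
`j ≥ i + 1`. By `cmn_nil` (Nil.lean) `cmn N j = ⊥` for some `j`, and `cmn N` is descending, so we may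
take `j ≥ i + 1`. So `F (i + 1) ≤ W`, `cmn N K ≤ F K ≤ F (i + 1) ≤ W`, contradiction.
-/

set_option autoImplicit false

namespace Pool.Agent.LP

variable {p : ℕ} {G V : Type} [Group G] [CommGroup V] [MulDistribMulAction G V]

private theorem prp_anti (N : Subgroup G) (j : ℕ) :
    (cmn N (j + 1) : Subgroup V) ≤ cmn N j := by
  induction j with
  | zero => exact le_top
  | succ j ih =>
    refine (Subgroup.closure_le _).2 ?_
    rintro w ⟨g, hg, v, hv, rfl⟩
    exact Subgroup.subset_closure ⟨g, hg, v, ih hv, rfl⟩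

private theorem prp_anti' (N : Subgroup G) {a b : ℕ} (h : a ≤ b) :
    (cmn N b : Subgroup V) ≤ cmn N a :=
  antitone_nat_of_succ_le (fun j => prp_anti (V := V) N j) h

private theorem prp_smul (N : Subgroup G) (W : Subgroup V) (hW : GInv G W) (j : ℕ) (g : G)
    (hg : g ∈ N) (v : V) (hv : v ∈ cmn N j ⊔ W) : (g • v) * v⁻¹ ∈ cmn N (j + 1) ⊔ W := by
  obtain ⟨a, ha, w, hw, rfl⟩ := Subgroup.mem_sup.1 hv
  have e : (g • (a * w)) * (a * w)⁻¹ = ((g • a) * a⁻¹) * ((g • w) * w⁻¹) := by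
    rw [smul_mul', mul_inv]
    exact mul_mul_mul_comm _ _ _ _
  rw [e]
  refine Subgroup.mul_mem _ (Subgroup.mem_sup_left ?_) (Subgroup.mem_sup_right ?_)
  · exact Subgroup.subset_closure ⟨g, hg, a, ha, rfl⟩
  · exact W.mul_mem (hW g w hw) (W.inv_mem hw)

private theorem prp_bot (N : Subgroup G) (J : ℕ) (hJ : cmn N J = (⊥ : Subgroup V)) (n : ℕ) :
    cmn N (J + n) = (⊥ : Subgroup V) := by
  refine le_bot_iff.1 ?_
  rw [← hJ]
  exact prp_anti' N (Nat.le_add_right J n)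

theorem PROPER (hp : p.Prime) [Finite G] [Finite V] (hG : IsPGroup p G) (hV : IsPGroup p V)
    (N : Subgroup G) (W : Subgroup V) (hW : GInv G W) (K : ℕ) (h : ¬ cmn N K ≤ W) (i : ℕ)
    (hi : i < K) (D : Subgroup G) (hD : (D : Set G) = Dset N W i) : D ≠ N := by
  intro hDN
  apply h
  subst hDN
  -- every element of `N` maps `F i` into `F (i + 2)`
  have h0 : ∀ x ∈ D, ∀ v ∈ cmn D i ⊔ W, (x • v) * v⁻¹ ∈ cmn D (i + 2) ⊔ W := by
    intro x hx
    have : x ∈ (D : Set G) := hx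
    rw [hD] at this
    exact this.2
  have h1 : (cmn D (i + 1) : Subgroup V) ⊔ W ≤ cmn D (i + 2) ⊔ W := by
    refine sup_le ((Subgroup.closure_le _).2 ?_) le_sup_right
    rintro w ⟨g, hg, v, hv, rfl⟩
    exact h0 g hg v (Subgroup.mem_sup_left hv)
  have h2 : ∀ n : ℕ, (cmn D (i + 1) : Subgroup V) ⊔ W ≤ cmn D (i + 1 + n) ⊔ W := by
    intro n
    induction n with
    | zero => exact le_rfl
    | succ n ih =>
      refine h1.trans (sup_le ((Subgroup.closure_le _).2 ?_) le_sup_right)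
      rintro w ⟨g, hg, v, hv, rfl⟩
      exact prp_smul D W hW (i + 1 + n) g hg v (ih (Subgroup.mem_sup_left hv))
  obtain ⟨J, hJ⟩ := cmn_nil hp hG hV D
  have h3 := h2 J
  have h4 : cmn D (i + 1 + J) = (⊥ : Subgroup V) := by
    rw [add_comm]
    exact prp_bot D J hJ (i + 1)
  rw [h4, bot_sup_eq] at h3
  exact (prp_anti' D (by omega : i + 1 ≤ K)).trans (le_sup_left.trans h3)

end Pool.Agent.LP
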