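import Pool.Agent.LP.Sle
import Pool.Agent.LP.Ps3

/-!
# LP / St2: replace `N` by the subgroup generated by the stabilisers

PROOF. Let `N' = ⨆ u ∈ Good, TS W hW u ≤ N`. Normal: `Good` is `G`-invariant and
`g TS(u) g⁻¹ = TS(g • u)` (`TS_conj_mem`). `le`: clear. `small`: `cmn_mono`. `nonempty, inv, card, few`
unchanged. `sec`: for `u0 ∈ Good` show `Sec p r N W u0 u1 = Sec p r N' W u0 u1`: by `PDX` (third part)
it suffices that `x ∈ Sec p r N W u0 u1 → ∀ d, x d ∈ N'`. Lie data `X, π, β` for `N, W`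
(`CW W ≤ TS W u ≤ N'`), `XN` the subgroup of `X` belonging to `N'` (`PD.sub`). Let
`T = range p \ badT p Good u0 u1`, `|T| ≥ p - R ≥ r + 1`. For `t ∈ T` and `ξ = π x` with
`β ξ (u1 u0^t) = 1`: `x ∈ TS W (u1 u0^t) ≤ N'` (`PD.act` with `W2 = W`), so `ξ ∈ XN`. `PSI`
(n = r + 1): all `π (x d) ∈ XN`, i.e. `x d ∈ N'`.
-/

set_option autoImplicit false

namespace Pool.Agent.LP

variable {p r K : ℕ} {G V : Type} [Group G] [CommGroup V] [MulDistribMulAction G V]

theorem STEP2 (H : Hyp p r K G V) {W : Subgroup V} (hW : GInv G W) {R : ℕ} {N : Subgroup G}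
    {Good : Set V} (hS : State p r (K + 1) W hW R N Good) :
    State p r (K + 1) W hW R (⨆ u ∈ Good, TS W hW u) Good := by
  classical
  have hfG := H.finG
  have hfV := H.finV
  obtain ⟨N', hN'⟩ : ∃ N' : Subgroup G, N' = ⨆ u ∈ Good, TS W hW u := ⟨_, rfl⟩
  rw [← hN']
  have hle : ∀ u ∈ Good, TS W hW u ≤ N' := by
    intro u hu
    rw [hN']
    exact le_iSup₂_of_le u hu le_rfl
  have hN'N : N' ≤ N := by
    rw [hN']
    exact iSup₂_le hS.le
  have hnorm : N'.Normal := by
    refine ⟨fun n hn g => ?_⟩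
    have h1 : N' ≤ N'.comap (MulAut.conj g).toMonoidHom := by
      conv_lhs => rw [hN']
      refine iSup₂_le fun u hu x hx => ?_
      rw [Subgroup.mem_comap]
      exact hle _ (hS.inv g u hu) (TS_conj_mem W hW g x u hx)
    exact h1 hn
  have hsmall : cmn N' (K + 1) ≤ W := (cmn_mono hN'N (K + 1)).trans hS.small
  refine ⟨hS.nonempty, hnorm, hS.inv, hS.card, hle, hsmall, hS.few, ?_⟩
  intro u0 hu0 u1 B hB hBc
  have key : Sec p r N' W hW u0 u1 = Sec p r N W hW u0 u1 := by
    have hp := H.prime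
    have h3 := H.three
    have hK := H.hK
    have hR := State_R_le H hS
    have hCN : CW W hW ≤ N := CW_le le_rfl hS
    have hCN' : CW W hW ≤ N' := (iInf_le _ u0).trans (hle u0 hu0)
    obtain ⟨X, _, π, β, hPD, hSec, hSecN⟩ := PDX hp H.pG H.pV N W hW (K + 1) (by omega)
      hS.small hCN
    have hfX := hPD.fin
    obtain ⟨XN, hXN⟩ := hPD.sub N' hCN' hN'N
    have hbot : W.map (QuotientGroup.mk' W) = ⊥ := by
      rw [Subgroup.map_eq_bot_iff, QuotientGroup.ker_mk']
    have hβ : ∀ (ξ : X) (t : ℕ), β.flip u1 ξ * β.flip u0 ξ ^ t = β ξ (u1 * u0 ^ t) := by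
      intro ξ t
      rw [MonoidHom.flip_apply, MonoidHom.flip_apply, map_mul, map_pow]
    have hPSI := PSI hp hPD.pg (β.flip u0) (β.flip u1) (r + 1) XN
      (Finset.range p \ badT p Good u0 u1)
      (fun t ht => Finset.mem_range.1 (Finset.mem_sdiff.1 ht).1)
      (by
        have h1 := Finset.le_card_sdiff (badT p Good u0 u1) (Finset.range p)
        have h2 := hS.few u0 hu0 u1
        rw [Finset.card_range] at h1
        omega)
      (by
        intro t ht ξ hξ
        obtain ⟨ht1, ht2⟩ := Finset.mem_sdiff.1 ht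
        obtain ⟨x, hx, rfl⟩ := hPD.surj ξ
        rw [hβ] at hξ
        have h1 := (hPD.act W hW le_rfl x hx (u1 * u0 ^ t)).1 (by
          rw [hbot, hξ]
          exact Subgroup.one_mem _)
        have hgood : u1 * u0 ^ t ∈ Good := by
          by_contra h
          exact ht2 ((mem_badT p Good u0 u1 t).2 ⟨Finset.mem_range.1 ht1, h⟩)
        exact (hXN x hx).2 (hle _ hgood h1))
    ext x
    rw [hSecN N' hN'N]
    constructor
    · exact fun h => h.2
    · intro h
      refine ⟨?_, h⟩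
      obtain ⟨hxN, hxt⟩ := (hSec r W hW le_rfl u0 u1 x).1 h
      have hmem : (fun d => π (x d)) ∈ PS p (r + 1) (β.flip u0) (β.flip u1) ⊥ := by
        rw [mem_PS]
        intro t ht
        rw [hβ, ← hbot]
        exact hxt t ht
      intro d
      exact (hXN (x d) (hxN d)).1 (hPSI hmem d)
  rw [key]
  exact hS.sec u0 hu0 u1 B hB hBc

end Pool.Agent.LP
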