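import Pool.Agent.LP.St1
import Pool.Agent.LP.St2
import Pool.Agent.LP.Flag
import Pool.Agent.LP.Avg
import Pool.Agent.LP.Cti
import Pool.Agent.LP.Prp
import Pool.Agent.LP.Mxs
import Pool.Agent.LP.Chn
import Pool.Agent.LP.Bse

/-!
# LP / Cnt: assembly of the counting part (helper73)
-/

set_option autoImplicit false

namespace Pool.Agent.LP

variable {p r K : ℕ} {G V : Type} [Group G] [CommGroup V] [MulDistribMulAction G V]

theorem cnt_num {p R K : ℕ} (h3 : 3 * R + 3 ≤ p) (hK : 2 * K + 1 = p) :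
    ¬ (K * (p - R) * (p - 1) ≤ p ^ 2 * R + p * K) := by
  intro h
  obtain ⟨d, hd⟩ : ∃ d, p = 3 * R + 3 + d := ⟨p - (3 * R + 3), by omega⟩
  have h1 : p - R = 2 * R + 3 + d := by omega
  have h2 : p - 1 = 2 * K := by omega
  rw [h1, h2] at h
  have h4 : (2 * K : ℤ) = 3 * R + 2 + d := by omega
  have h5 : (p : ℤ) = 3 * R + 3 + d := by omega
  have h6 : ((K * (2 * R + 3 + d) * (2 * K) : ℕ) : ℤ) ≤ ((p ^ 2 * R + p * K : ℕ) : ℤ) := by
    exact_mod_cast h
  push_cast at h6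
  have h7 : (2 * K : ℤ) * (2 * R + 3 + d) * (2 * K) ≤ 2 * (p ^ 2 * R) + p * (2 * K) := by
    nlinarith
  rw [h4, h5] at h7
  have hR : (0 : ℤ) ≤ R := Int.natCast_nonneg R
  have hd0 : (0 : ℤ) ≤ d := Int.natCast_nonneg d
  nlinarith [mul_nonneg hR hR, mul_nonneg hR hd0, mul_nonneg hd0 hd0,
    mul_nonneg (mul_nonneg hR hR) hR, mul_nonneg (mul_nonneg hR hR) hd0,
    mul_nonneg (mul_nonneg hR hd0) hd0, mul_nonneg (mul_nonneg hd0 hd0) hd0]

theorem STEP (H : Hyp p r K G V) {W' W : Subgroup V} (hW' : GInv G W') (hW : GInv G W)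
    (hle : W' ≤ W) (hcard : Nat.card W = p * Nat.card W') {R : ℕ} {N : Subgroup G}
    {Good : Set V} (hS : State p r K W hW R N Good) :
    ∃ (R' : ℕ) (N' : Subgroup G) (Good' : Set V), State p r K W' hW' R' N' Good' := by
  classical
  have hp := H.prime
  have := H.finG
  have := H.finV
  obtain ⟨R', Good', hS1⟩ := STEP1 H hW' hW hle hcard hS
  have hS2 := STEP2 H hW' hS1
  set N' : Subgroup G := ⨆ u ∈ Good', TS W' hW' u with hN'
  refine ⟨R', N', Good', hS2.nonempty, hS2.normal, hS2.inv, hS2.card, hS2.le, ?_, hS2.few,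
    hS2.sec⟩
  have hR' : R' ≤ r := State_R_le H hS2
  by_contra hcon
  have key : ∀ i : ℕ, ∃ D0 : Subgroup G, i < K →
      (CW W' hW' ≤ D0 ∧ D0 ≤ N' ∧ D0.relIndex N' = p ∧ ∀ x ∈ Dset N' W' i, x ∈ D0) := by
    intro i
    by_cases hi : i < K
    · obtain ⟨D, hD⟩ := Dset_subgroup N' W' hW' i
      have hDN : D ≤ N' := by
        intro x hx
        have : x ∈ Dset N' W' i := by rw [← hD]; exact hx
        exact this.1
      have hne : D ≠ N' := PROPER hp H.pG H.pV N' W' hW' K hcon i hi D hD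
      obtain ⟨D0, h1, h2, h3⟩ := MAXS hp H.pG N' D hDN hne
      refine ⟨D0, fun _ => ⟨?_, h2, h3, ?_⟩⟩
      · intro x hx
        apply h1
        have hx2 : x ∈ Dset N' W' i := by
          refine ⟨CW_le le_rfl hS2 hx, fun v _ => ?_⟩
          exact Subgroup.mem_sup_right ((mem_CW W' hW' x).1 hx v)
        rw [← hD] at hx2
        exact hx2
      · intro x hx
        apply h1
        rw [← hD] at hx
        exact hx
    · exact ⟨⊥, fun h => absurd h hi⟩
  choose D0 hD0 using key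
  refine cnt_num (p := p) (R := R') (K := K) (by have := H.three; omega) H.hK ?_
  refine CNTI hp H.pG R' K (by have := H.three; omega) Good' hS2.nonempty (TS W' hW') D0 hS2.card
    ?_ ?_
  · intro i hi
    obtain ⟨h1, h2, h3, h4⟩ := hD0 i hi
    have hex : ∃ u0 ∈ Good', ¬ TS W' hW' u0 ≤ D0 i := by
      by_contra hno
      push Not at hno
      have h5 : N' ≤ D0 i := by
        rw [hN']
        exact iSup₂_le hno
      have h6 : (D0 i).relIndex N' = 1 := Subgroup.relIndex_eq_one.2 h5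
      rw [h3] at h6
      exact hp.one_lt.ne' h6
    obtain ⟨u0, hu0, hu0'⟩ := hex
    have hav := AVG (p := p) {u : V | u ∈ Good' ∧ ¬ TS W' hW' u ≤ D0 i} u0 R'
      (fun u1 => FLAG H hW' hS2 (D0 i) h1 h2 h3 u0 hu0 hu0' u1)
    have hcard2 : Nat.card ↥({u : V | u ∈ Good' ∧ ¬ TS W' hW' u ≤ D0 i}ᶜ) =
        Nat.card {u : V // ¬ (u ∈ Good' ∧ ¬ TS W' hW' u ≤ D0 i)} := rfl
    rw [hcard2] at hav
    exact hav
  · intro u0 hu0 x hx
    have hxN : x ∈ N' := hS2.le u0 hu0 hx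
    have := RANK hp H.pV N' W' hW' x hxN ((Finset.range K).filter (fun i => x ∉ D0 i))
      (fun i hi hxi => by
        rw [Finset.mem_filter, Finset.mem_range] at hi
        exact hi.2 ((hD0 i hi.1).2.2.2 x hxi))
    exact this

theorem CNT_bot (H : Hyp p r K G V) (n : ℕ) : ∀ (W : Subgroup V) (hW : GInv G W),
    Nat.card W ≤ n → (∃ (R : ℕ) (N : Subgroup G) (Good : Set V), State p r K W hW R N Good) →
    ∃ (hB : GInv G (⊥ : Subgroup V)) (R : ℕ) (N : Subgroup G) (Good : Set V),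
      State p r K (⊥ : Subgroup V) hB R N Good := by
  have := H.finV
  induction n with
  | zero =>
    intro W hW hcard
    have : 0 < Nat.card W := Nat.card_pos
    omega
  | succ n ih =>
    rintro W hW hcard ⟨R, N, Good, hS⟩
    by_cases hne : W = ⊥
    · subst hne
      exact ⟨hW, R, N, Good, hS⟩
    · obtain ⟨W', hW', hle, hc⟩ := CHN H W hW hne
      obtain ⟨R', N', Good', hS'⟩ := STEP H hW' hW hle hc hS
      refine ih W' hW' ?_ ⟨R', N', Good', hS'⟩
      have h1 : 0 < Nat.card W' := Nat.card_pos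
      have h2 := H.prime.one_lt
      have h3 : 2 * Nat.card W' ≤ p * Nat.card W' := Nat.mul_le_mul_right _ h2
      omega

theorem CNT (H : Hyp p r K G V) : ∃ (Γ : Subgroup G) (Good : Set V), Γ.Normal ∧
    Good.Nonempty ∧ (∀ u ∈ Good, MulAction.stabilizer G u ≤ Γ) ∧ cmn Γ K = (⊥ : Subgroup V) ∧
    p * Nat.card ↥(Goodᶜ) ≤ r * Nat.card V := by
  have := H.finG
  have := H.finV
  have hT : GInv G (⊤ : Subgroup V) := fun _ _ _ => Subgroup.mem_top _
  obtain ⟨hB, R, N, Good, hS⟩ := CNT_bot H (Nat.card (⊤ : Subgroup V)) ⊤ hT le_rfl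
    ⟨0, ⊤, Set.univ, BASE H hT⟩
  refine ⟨N, Good, hS.normal, hS.nonempty, fun u hu => ?_, le_bot_iff.1 hS.small, ?_⟩
  · rw [← TS_bot hB u]
    exact hS.le u hu
  · obtain ⟨u0, hu0⟩ := hS.nonempty
    refine (AVG (p := p) Good u0 R (fun u1 => hS.few u0 hu0 u1)).trans ?_
    exact Nat.mul_le_mul_right _ (State_R_le H hS)

end Pool.Agent.LP
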