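import Mathlib

/-!
# LP / Defs: faithfulness of the irreducible characters of maximal degree, `p ≥ 3e + 3`
(MP_895f30_al).  Blueprint: /team-store/lp_blueprint.md

Part 1: filtrations, polynomial maps, `theta`, `J`, Lazard-lite operations `ladd`, `lbr`.
Part 2: a finite group `G` acting on a finite commutative group `V`.
Part 3: characters of the Lazard group.
-/

set_option autoImplicit false

open scoped commutatorElement

namespace Pool.Agent.LP

/-! ## Part 1 -/

/-- A filtration by normal subgroups: descending, `⁅F i, F j⁆ ≤ F (i + j)`, `F (c + 1) = ⊥`. -/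
structure Fil {H : Type} [Group H] (F : ℕ → Subgroup H) (c : ℕ) : Prop where
  normal : ∀ i, (F i).Normal
  anti : Antitone F
  comm : ∀ i j, ⁅F i, F j⁆ ≤ F (i + j)
  top : F (c + 1) = ⊥

/-- Polynomial maps `X → H`: `sh d` are the shifts, `w d` their weights. `Pol F sh w n k q`: the
values of `q` lie in `F k`, those of its differences `x ↦ q (sh d x) * (q x)⁻¹` in `F (k + w d)`,
and so on, `n` times. -/
def Pol {H X ι : Type} [Group H] (F : ℕ → Subgroup H) (sh : ι → X → X) (w : ι → ℕ) :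
    ℕ → ℕ → (X → H) → Prop
  | 0, k, q => ∀ x, q x ∈ F k
  | n + 1, k, q => (∀ x, q x ∈ F k) ∧ ∀ d, Pol F sh w n (k + w d) (fun x => q (sh d x) * (q x)⁻¹)

/-- one variable: shift of `ℕ` -/
def sh1 : Unit → ℕ → ℕ := fun _ s => s + 1

/-- one variable, weight `κ` -/
def w1 (κ : ℕ) : Unit → ℕ := fun _ => κ

/-- two variables: shifts of `ℕ × ℕ` (`true`: first coordinate, `false`: second coordinate) -/
def sh2 : Bool → ℕ × ℕ → ℕ × ℕ := fun b x => bif b then (x.1 + 1, x.2) else (x.1, x.2 + 1)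

/-- two variables, weights `α` (first coordinate), `β` (second coordinate) -/
def w2 (α β : ℕ) : Bool → ℕ := fun b => bif b then α else β

/-- `t ↦ g ^ (t ^ m)` -/
def theta {H : Type} [Group H] (g : H) (m : ℕ) : ℕ → H := fun t => g ^ (t ^ m)

/-- The group generated by the `theta g m`, `m ≥ k`, `g ∈ F m`. -/
def J {H : Type} [Group H] (F : ℕ → Subgroup H) (k : ℕ) : Subgroup (ℕ → H) :=
  Subgroup.closure {q | ∃ (m : ℕ) (g : H), k ≤ m ∧ g ∈ F m ∧ q = theta g m}

/-- `gam H i` is the lower central series `γ_i`, with `gam H 0 = gam H 1 = ⊤`. -/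
def gam (H : Type) [Group H] (i : ℕ) : Subgroup H := (⊤ : Subgroup H).lowerCentralSeries (i - 1)

/-- Finite `p`-groups of class `< p`. -/
structure Laz (p : ℕ) (H : Type) [Group H] : Prop where
  prime : p.Prime
  fin : Finite H
  pgroup : IsPGroup p H
  cls : (⊤ : Subgroup H).lowerCentralSeries (p - 1) = ⊥

/-- The Lazard sum (meaningful when `Laz p H`). -/
noncomputable def ladd {H : Type} [Group H] (x y : H) : H :=
  Classical.epsilon (fun w : H => (theta w 1)⁻¹ * (theta x 1 * theta y 1) ∈ J (gam H) 2)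

/-- The Lazard bracket (meaningful when `Laz p H`). -/
noncomputable def lbr {H : Type} [Group H] (x y : H) : H :=
  Classical.epsilon (fun w : H => w ∈ gam H 2 ∧
    (theta w 2)⁻¹ * ⁅theta x 1, theta y 1⁆ ∈ J (gam H) 3)

/-- `Σ_d t^d x_d` for the Lazard sum. -/
noncomputable def lev {H : Type} [Group H] {n : ℕ} (x : Fin n → H) (t : ℕ) : H :=
  ((List.finRange n).map (fun d => x d ^ (t ^ (d : ℕ)))).foldr ladd 1

/-! ## Part 2 -/

/-- `W` is `G`-invariant. -/
def GInv (G : Type) {V : Type} [Group G] [CommGroup V] [MulDistribMulAction G V]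
    (W : Subgroup V) : Prop := ∀ (g : G), ∀ v ∈ W, g • v ∈ W

/-- `[V; _i N]` -/
def cmn {G V : Type} [Group G] [CommGroup V] [MulDistribMulAction G V] (N : Subgroup G) :
    ℕ → Subgroup V
  | 0 => ⊤
  | i + 1 => Subgroup.closure {w | ∃ g ∈ N, ∃ v ∈ cmn N i, w = (g • v) * v⁻¹}

/-- The stabiliser of `u` modulo `W`. -/
def TS {G V : Type} [Group G] [CommGroup V] [MulDistribMulAction G V] (W : Subgroup V)
    (hW : GInv G W) (u : V) : Subgroup G where
  carrier := {g | (g • u) * u⁻¹ ∈ W}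
  one_mem' := by simp
  mul_mem' := by
    intro a b ha hb
    simp only [Set.mem_ofPred_eq] at ha hb ⊢
    have h : ((a * b) • u) * u⁻¹ = (a • ((b • u) * u⁻¹)) * ((a • u) * u⁻¹) := by
      rw [smul_mul', smul_inv', mul_smul]
      group
    rw [h]
    exact W.mul_mem (hW a _ hb) ha
  inv_mem' := by
    intro a ha
    simp only [Set.mem_ofPred_eq] at ha ⊢
    have h : (a⁻¹ • u) * u⁻¹ = (a⁻¹ • ((a • u) * u⁻¹))⁻¹ := by
      rw [smul_mul', smul_inv', inv_smul_smul]
      group
    rw [h]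
    exact W.inv_mem (hW _ _ ha)

theorem mem_TS {G V : Type} [Group G] [CommGroup V] [MulDistribMulAction G V] (W : Subgroup V)
    (hW : GInv G W) (u : V) (g : G) : g ∈ TS W hW u ↔ (g • u) * u⁻¹ ∈ W := Iff.rfl

/-- The centraliser of `V / W` in `G`. -/
def CW {G V : Type} [Group G] [CommGroup V] [MulDistribMulAction G V] (W : Subgroup V)
    (hW : GInv G W) : Subgroup G := ⨅ u : V, TS W hW u

theorem mem_CW {G V : Type} [Group G] [CommGroup V] [MulDistribMulAction G V] (W : Subgroup V)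
    (hW : GInv G W) (g : G) : g ∈ CW W hW ↔ ∀ u : V, (g • u) * u⁻¹ ∈ W := by
  rw [CW, Subgroup.mem_iInf]
  rfl

/-- The semidirect product `V ⋊ G`. -/
abbrev EE (G V : Type) [Group G] [CommGroup V] [MulDistribMulAction G V] : Type :=
  V ⋊[MulDistribMulAction.toMulAut G V] G

/-- The subgroup `W ⋊ C_G(V / W)` of `V ⋊ G`. -/
def MW {G V : Type} [Group G] [CommGroup V] [MulDistribMulAction G V] (W : Subgroup V)
    (hW : GInv G W) : Subgroup (EE G V) where
  carrier := {x | x.left ∈ W ∧ x.right ∈ CW W hW}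
  one_mem' := by
    refine ⟨?_, ?_⟩
    · rw [SemidirectProduct.one_left]; exact W.one_mem
    · rw [SemidirectProduct.one_right]; exact (CW W hW).one_mem
  mul_mem' := by
    rintro a b ⟨ha, ha'⟩ ⟨hb, hb'⟩
    refine ⟨?_, ?_⟩
    · rw [SemidirectProduct.mul_left]
      exact W.mul_mem ha (hW _ _ hb)
    · rw [SemidirectProduct.mul_right]
      exact (CW W hW).mul_mem ha' hb'
  inv_mem' := by
    rintro a ⟨ha, ha'⟩
    refine ⟨?_, ?_⟩
    · rw [SemidirectProduct.inv_left]
      exact hW _ _ (W.inv_mem ha)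
    · rw [SemidirectProduct.inv_right]
      exact (CW W hW).inv_mem ha'

/-- The subgroup `V ⋊ N` of `V ⋊ G`. -/
def EN {G V : Type} [Group G] [CommGroup V] [MulDistribMulAction G V] (N : Subgroup G) :
    Subgroup (EE G V) := N.comap SemidirectProduct.rightHom

theorem mem_EN {G V : Type} [Group G] [CommGroup V] [MulDistribMulAction G V] (N : Subgroup G)
    (x : EE G V) : x ∈ EN (V := V) N ↔ x.right ∈ N := Iff.rfl

instance MW_normal {G V : Type} [Group G] [CommGroup V] [MulDistribMulAction G V]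
    (W : Subgroup V) (hW : GInv G W) : (MW W hW).Normal := by
  refine ⟨fun n hn g => ?_⟩
  obtain ⟨h1, h2⟩ := hn
  have hright : (g * n * g⁻¹).right = g.right * n.right * g.right⁻¹ := by
    simp [SemidirectProduct.mul_right, SemidirectProduct.inv_right]
  refine ⟨?_, ?_⟩
  · have h3 : (g * n * g⁻¹).left =
        (g.right • n.left) * (((g.right * n.right * g.right⁻¹) • g.left) * g.left⁻¹)⁻¹ := by
      simp only [SemidirectProduct.mul_left, SemidirectProduct.mul_right,
        SemidirectProduct.inv_left, MulDistribMulAction.toMulAut_apply,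
        MulDistribMulAction.toMulEquiv_apply, mul_smul, smul_inv', mul_inv_rev, inv_inv]
      rw [mul_comm g.left (g.right • n.left)]
      rw [mul_assoc, mul_comm g.left]
    rw [h3]
    have h4 := (mem_CW W hW n.right).1 h2 (g.right⁻¹ • g.left)
    have h5 := hW g.right _ h4
    rw [smul_mul', smul_inv', smul_inv_smul, ← mul_smul, ← mul_smul] at h5
    exact W.mul_mem (hW _ _ h1) (W.inv_mem h5)
  · rw [hright]
    rw [mem_CW]
    intro u
    have h4 := (mem_CW W hW n.right).1 h2 (g.right⁻¹ • u)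
    have h5 := hW g.right _ h4
    rw [smul_mul', smul_inv', smul_inv_smul, ← mul_smul, ← mul_smul] at h5
    exact h5

/-- `(V ⋊ N) / (W ⋊ C_N(V / W))` -/
abbrev AA {G V : Type} [Group G] [CommGroup V] [MulDistribMulAction G V] (N : Subgroup G)
    (W : Subgroup V) (hW : GInv G W) : Type :=
  ↥(EN (V := V) N) ⧸ (MW W hW).subgroupOf (EN (V := V) N)

/-- `N → (V ⋊ N) / (W ⋊ C_N(V / W))` -/
def pN {G V : Type} [Group G] [CommGroup V] [MulDistribMulAction G V] (N : Subgroup G)
    (W : Subgroup V) (hW : GInv G W) : N →* AA N W hW where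
  toFun x := QuotientGroup.mk ⟨SemidirectProduct.inr (x : G), x.2⟩
  map_one' := rfl
  map_mul' := by
    intro x y
    rw [← QuotientGroup.mk_mul]
    congr 1
    apply Subtype.ext
    exact map_mul (SemidirectProduct.inr : G →* EE G V) (x : G) (y : G)

/-- `V → (V ⋊ N) / (W ⋊ C_N(V / W))` -/
def pV {G V : Type} [Group G] [CommGroup V] [MulDistribMulAction G V] (N : Subgroup G)
    (W : Subgroup V) (hW : GInv G W) : V →* AA N W hW where
  toFun v := QuotientGroup.mk ⟨SemidirectProduct.inl v, N.one_mem⟩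
  map_one' := rfl
  map_mul' := by
    intro x y
    rw [← QuotientGroup.mk_mul]
    congr 1
    apply Subtype.ext
    exact map_mul (SemidirectProduct.inl : V →* EE G V) x y

/-- Sections of degree `≤ D` along the pencil `u1 * u0 ^ t`: tuples `x` of elements of `N` such
that `x(t) = Σ t^d x_d` (Lazard sum) stabilises `u1 * u0 ^ t` modulo `W` for all `t < p`. -/
def Sec (p D : ℕ) {G V : Type} [Group G] [CommGroup V] [MulDistribMulAction G V]
    (N : Subgroup G) (W : Subgroup V) (hW : GInv G W) (u0 u1 : V) : Set (Fin (D + 1) → G) :=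
  {x | ∃ hx : ∀ d, x d ∈ N, ∀ t < p,
    Commute (lev (fun d => pN N W hW ⟨x d, hx d⟩) t) (pV N W hW (u1 * u0 ^ t))}

/-- `Π_d c_d ^ (t ^ d)` in a commutative group. -/
def pev {X : Type} [CommGroup X] {n : ℕ} (c : Fin n → X) (t : ℕ) : X :=
  ∏ d, c d ^ (t ^ (d : ℕ))

/-- `X ^ n` for a subgroup. -/
def XP {X : Type} [CommGroup X] (n : ℕ) (XD : Subgroup X) : Subgroup (Fin n → X) where
  carrier := {ξ | ∀ d, ξ d ∈ XD}
  one_mem' := fun _ => XD.one_mem
  mul_mem' := fun ha hb d => XD.mul_mem (ha d) (hb d)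
  inv_mem' := fun ha d => XD.inv_mem (ha d)

theorem mem_XP {X : Type} [CommGroup X] (n : ℕ) (XD : Subgroup X) (ξ : Fin n → X) :
    ξ ∈ XP n XD ↔ ∀ d, ξ d ∈ XD := Iff.rfl

theorem pev_one {X : Type} [CommGroup X] {n : ℕ} (t : ℕ) : pev (1 : Fin n → X) t = 1 := by
  simp [pev]

theorem pev_mul {X : Type} [CommGroup X] {n : ℕ} (a b : Fin n → X) (t : ℕ) :
    pev (a * b) t = pev a t * pev b t := by
  simp [pev, mul_pow, Finset.prod_mul_distrib]

theorem pev_inv {X : Type} [CommGroup X] {n : ℕ} (a : Fin n → X) (t : ℕ) :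
    pev a⁻¹ t = (pev a t)⁻¹ := by
  simp [pev, inv_pow]

/-- Polynomial sections with `n` coefficients of the pencil `b1 * b0 ^ t` of homomorphisms
`X → Y`, modulo the subgroup `Y2`. -/
def PS (p n : ℕ) {X Y : Type} [CommGroup X] [CommGroup Y] (b0 b1 : X →* Y) (Y2 : Subgroup Y) :
    Subgroup (Fin n → X) where
  carrier := {ξ | ∀ t < p, b1 (pev ξ t) * b0 (pev ξ t) ^ t ∈ Y2}
  one_mem' := by
    intro t _
    simp only [pev_one, map_one, one_pow, mul_one]
    exact Y2.one_mem
  mul_mem' := by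
    intro a b ha hb t ht
    have h := Y2.mul_mem (ha t ht) (hb t ht)
    rw [pev_mul, map_mul, map_mul, mul_pow]
    rw [mul_mul_mul_comm] at h
    exact h
  inv_mem' := by
    intro a ha t ht
    have h := Y2.inv_mem (ha t ht)
    rw [pev_inv, map_inv, map_inv, inv_pow]
    rw [mul_inv] at h
    exact h

theorem mem_PS (p n : ℕ) {X Y : Type} [CommGroup X] [CommGroup Y] (b0 b1 : X →* Y)
    (Y2 : Subgroup Y) (ξ : Fin n → X) :
    ξ ∈ PS p n b0 b1 Y2 ↔ ∀ t < p, b1 (pev ξ t) * b0 (pev ξ t) ^ t ∈ Y2 := Iff.rfl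

/-- Lie data for `N` acting on `V / W` (`C` is the centraliser of `V / W`): `π` identifies
`N / C` with a finite commutative `p`-group `X` which acts on `V / W` by a bilinear map `β`. -/
structure PD (p : ℕ) {G V : Type} [Group G] [CommGroup V] [MulDistribMulAction G V]
    (N : Subgroup G) (W : Subgroup V) (C : Subgroup G) {X : Type} [CommGroup X] (π : G → X)
    (β : X →* V →* V ⧸ W) : Prop where
  fin : Finite X
  pg : IsPGroup p X
  surj : ∀ ξ : X, ∃ x ∈ N, π x = ξ
  fib : ∀ x ∈ N, ∀ y ∈ N, (π x = π y ↔ x⁻¹ * y ∈ C)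
  sub : ∀ D : Subgroup G, C ≤ D → D ≤ N → ∃ DX : Subgroup X, ∀ x ∈ N, (π x ∈ DX ↔ x ∈ D)
  act : ∀ W2 : Subgroup V, GInv G W2 → W ≤ W2 → ∀ x ∈ N, ∀ u : V,
    (β (π x) u ∈ W2.map (QuotientGroup.mk' W) ↔ (x • u) * u⁻¹ ∈ W2)

open Classical in
/-- The `t < p` with `u1 * u0 ^ t ∉ Good`. -/
noncomputable def badT (p : ℕ) {V : Type} [CommGroup V] (Good : Set V) (u0 u1 : V) : Finset ℕ :=
  (Finset.range p).filter (fun t => u1 * u0 ^ t ∉ Good)

theorem mem_badT (p : ℕ) {V : Type} [CommGroup V] (Good : Set V) (u0 u1 : V) (t : ℕ) :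
    t ∈ badT p Good u0 u1 ↔ t < p ∧ u1 * u0 ^ t ∉ Good := by
  classical
  simp [badT]

/-- The state of the descent at the `G`-invariant subgroup `W` of `V`. -/
structure State (p D K : ℕ) {G V : Type} [Group G] [CommGroup V] [MulDistribMulAction G V]
    (W : Subgroup V) (hW : GInv G W) (R : ℕ) (N : Subgroup G) (Good : Set V) : Prop where
  nonempty : Good.Nonempty
  normal : N.Normal
  inv : ∀ (g : G), ∀ u ∈ Good, g • u ∈ Good
  card : ∀ u ∈ Good, Nat.card (TS W hW u) * p ^ R = Nat.card G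
  le : ∀ u ∈ Good, TS W hW u ≤ N
  small : cmn N K ≤ W
  few : ∀ u0 ∈ Good, ∀ u1 : V, (badT p Good u0 u1).card ≤ R
  sec : ∀ u0 ∈ Good, ∀ u1 : V, ∀ B ⊆ badT p Good u0 u1, B.card ≤ D + 2 →
    Nat.card G ^ (D + 1) * p ^ B.card ≤ Nat.card (Sec p D N W hW u0 u1) * p ^ ((D + 2) * R)

/-- The standing hypotheses of the counting part: all `G`-orbits on `V` have at most `p ^ r`
elements, `3 r + 3 ≤ p`, `K = (p - 1) / 2`. -/
structure Hyp (p r K : ℕ) (G V : Type) [Group G] [CommGroup V] [MulDistribMulAction G V] :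
    Prop where
  prime : p.Prime
  finG : Finite G
  finV : Finite V
  pG : IsPGroup p G
  pV : IsPGroup p V
  orb : ∀ u : V, Nat.card G ≤ Nat.card (MulAction.stabilizer G u) * p ^ r
  three : 3 * r + 3 ≤ p
  hK : 2 * K + 1 = p

end Pool.Agent.LP
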