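import Pool.Agent.LP.Kap

/-!
# LP / Pen: semicontinuity of the rank along a pencil

PROOF. Suppose there are `n + 1` values `t < p` with `|im (a1 * a0 ^ t)| < p ^ n`, i.e.
`≤ p ^ (n-1)` as the order of a `p`-group is a power of `p` (so `n ≥ 1`); let `B` be a set of
exactly `n + 1` of them (`n + 1 ≤ p`). Consider `Φ = kap n a0 a1 : (Fin n → X) →* (Fin (n+1) → Y)`
(Kap.lean, proved), `pev (Φ x) t = (a1 * a0 ^ t) (pev x t)` (`pev_kap`).
Lower bound: `|ker Φ| ≤ |ker a0| ^ n` (induction: the last entry `x_(n-1)` of an element of the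
kernel is in `ker a0`, look at the top coefficient (`kap_last`); if it is `1` the remaining tuple
is in the kernel of the `Φ` for `n - 1` (`kap_snoc_one`); or use `PSU` of Ps1 with `XD = ⊤`, which is
the same statement when `n + 1 ≤ p`). So `|im Φ| = |X| ^ n / |ker Φ| ≥ |im a0| ^ n ≥ p ^ (n * n)`.
Upper bound: `c ↦ (pev c t)_{t ∈ B}` is injective on `Fin (n+1) → Y` (`VDM`, `|B| = n + 1`), and maps
`im Φ` into the product of the `n + 1` groups `im (a1 * a0 ^ t)`, of order `≤ p ^ (n - 1)` each. So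
`|im Φ| ≤ p ^ ((n-1) (n+1)) < p ^ (n * n)`: contradiction.
-/

set_option autoImplicit false

namespace Pool.Agent.LP

variable {X Y : Type} [CommGroup X] [CommGroup Y]

private theorem pen_low [Finite Y] (a0 a1 : X →* Y) (n : ℕ) :
    Nat.card a0.range ^ n ≤ Nat.card (kap n a0 a1).range := by
  induction n with
  | zero => simp
  | succ n ih =>
    have hz : ∀ z : (kap n a0 a1).range, ∃ x, kap n a0 a1 x = z.1 := fun z =>
      MonoidHom.mem_range.1 z.2
    have hy : ∀ y : a0.range, ∃ u, a0 u = y.1 := fun y => MonoidHom.mem_range.1 y.2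
    choose x hx using hz
    choose u hu using hy
    let g : (kap n a0 a1).range × a0.range → (kap (n + 1) a0 a1).range := fun q =>
      ⟨kap (n + 1) a0 a1 (Fin.snoc (x q.1) (u q.2)), ⟨_, rfl⟩⟩
    have hg : Function.Injective g := by
      rintro ⟨z, y⟩ ⟨z', y'⟩ h
      have h1 : kap (n + 1) a0 a1 (Fin.snoc (x z) (u y)) =
          kap (n + 1) a0 a1 (Fin.snoc (x z') (u y')) := Subtype.ext_iff.1 h
      have h2 := congrFun h1 (Fin.last (n + 1))
      rw [kap_last, kap_last, Fin.snoc_last, Fin.snoc_last, hu, hu] at h2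
      have h3 : y = y' := Subtype.ext h2
      subst h3
      have hdec : ∀ v : Fin n → X, (Fin.snoc v (u y) : Fin (n + 1) → X) =
          (Fin.snoc v 1 : Fin (n + 1) → X) * (Fin.snoc (1 : Fin n → X) (u y) : Fin (n + 1) → X) := by
        intro v
        funext d
        refine Fin.lastCases ?_ (fun i => ?_) d
        · rw [Pi.mul_apply, Fin.snoc_last, Fin.snoc_last, Fin.snoc_last, one_mul]
        · rw [Pi.mul_apply, Fin.snoc_castSucc, Fin.snoc_castSucc, Fin.snoc_castSucc,
            Pi.one_apply, mul_one]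
      rw [hdec (x z), hdec (x z'), map_mul, map_mul] at h1
      have h4 := mul_right_cancel h1
      rw [kap_snoc_one, kap_snoc_one, hx, hx] at h4
      have h5 : z.1 = z'.1 := by
        funext i
        have h6 := congrFun h4 i.castSucc
        rwa [Fin.snoc_castSucc, Fin.snoc_castSucc] at h6
      rw [Subtype.ext h5]
    calc Nat.card a0.range ^ (n + 1) = Nat.card a0.range ^ n * Nat.card a0.range := pow_succ _ _
      _ ≤ Nat.card (kap n a0 a1).range * Nat.card a0.range := Nat.mul_le_mul_right _ ih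
      _ = Nat.card ((kap n a0 a1).range × a0.range) := (Nat.card_prod _ _).symm
      _ ≤ Nat.card (kap (n + 1) a0 a1).range := Nat.card_le_card_of_injective g hg

private theorem pen_up [Finite Y] {p : ℕ} (hp : p.Prime) (hY : IsPGroup p Y) (a0 a1 : X →* Y)
    (n : ℕ) (B : Finset ℕ) (hB : ∀ t ∈ B, t < p) (hc : B.card = n + 1) :
    Nat.card (kap n a0 a1).range ≤ ∏ t : B, Nat.card (a1 * a0 ^ (t : ℕ)).range := by
  have hmem : ∀ (c : (kap n a0 a1).range) (t : ℕ), pev c.1 t ∈ (a1 * a0 ^ t).range := by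
    rintro ⟨c, x, rfl⟩ t
    refine ⟨pev x t, ?_⟩
    rw [pev_kap, MonoidHom.mul_apply, MonoidHom.pow_apply]
  let g : (kap n a0 a1).range → ((t : B) → (a1 * a0 ^ (t : ℕ)).range) := fun c t =>
    ⟨pev c.1 t, hmem c t⟩
  have hg : Function.Injective g := by
    intro c c' h
    have h1 : ∀ t ∈ B, pev (c.1 * c'.1⁻¹) t ∈ (⊥ : Subgroup Y) := by
      intro t ht
      have h2 : pev c.1 t = pev c'.1 t := Subtype.ext_iff.1 (congrFun h ⟨t, ht⟩)
      rw [pev_mul, pev_inv, h2, mul_inv_cancel]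
      exact Subgroup.one_mem _
    have h3 := VDM hp hY (n + 1) (c.1 * c'.1⁻¹) ⊥ B hB hc.ge h1
    refine Subtype.ext ?_
    funext d
    have h4 := h3 d
    rw [Subgroup.mem_bot, Pi.mul_apply, Pi.inv_apply] at h4
    exact mul_inv_eq_one.1 h4
  calc Nat.card (kap n a0 a1).range ≤ Nat.card ((t : B) → (a1 * a0 ^ (t : ℕ)).range) :=
        Nat.card_le_card_of_injective g hg
    _ = ∏ t : B, Nat.card (a1 * a0 ^ (t : ℕ)).range := Nat.card_pi

theorem PEN {p : ℕ} {X Y : Type} [CommGroup X] [CommGroup Y] [Finite X] [Finite Y]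
    (hp : p.Prime) (hY : IsPGroup p Y) (a0 a1 : X →* Y) (n : ℕ)
    (h0 : p ^ n ≤ Nat.card a0.range) :
    ((Finset.range p).filter (fun t => Nat.card (a1 * a0 ^ t).range < p ^ n)).card ≤ n := by
  by_contra hcon
  have hcon' : n + 1 ≤ ((Finset.range p).filter
      (fun t => Nat.card (a1 * a0 ^ t).range < p ^ n)).card := by omega
  obtain ⟨B, hBs, hBc⟩ := Finset.exists_subset_card_eq hcon'
  have hBp : ∀ t ∈ B, t < p := fun t ht =>
    Finset.mem_range.1 (Finset.mem_filter.1 (hBs ht)).1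
  have hBl : ∀ t ∈ B, Nat.card (a1 * a0 ^ t).range < p ^ n := fun t ht =>
    (Finset.mem_filter.1 (hBs ht)).2
  have hle : ∀ t ∈ B, 1 ≤ n ∧ Nat.card (a1 * a0 ^ t).range ≤ p ^ (n - 1) := by
    intro t ht
    have := Fact.mk hp
    obtain ⟨k, hk⟩ := IsPGroup.iff_card.1 (hY.to_subgroup (a1 * a0 ^ t).range)
    have h1 := hBl t ht
    rw [hk] at h1 ⊢
    have h2 : k < n := (Nat.pow_lt_pow_iff_right hp.one_lt).1 h1
    exact ⟨by omega, Nat.pow_le_pow_right hp.pos (by omega)⟩
  have hne : B.Nonempty := by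
    rw [← Finset.card_pos, hBc]; omega
  obtain ⟨t0, ht0⟩ := hne
  have hn := (hle t0 ht0).1
  have hup : Nat.card (kap n a0 a1).range ≤ (p ^ (n - 1)) ^ (n + 1) := by
    refine (pen_up hp hY a0 a1 n B hBp hBc).trans ?_
    refine (Finset.prod_le_prod' fun (t : B) _ => (hle t t.2).2).trans ?_
    rw [Finset.prod_const, Finset.card_univ, Fintype.card_coe, hBc]
  have hlow : (p ^ n) ^ n ≤ Nat.card (kap n a0 a1).range :=
    (Nat.pow_le_pow_left h0 n).trans (pen_low a0 a1 n)
  have h5 := hlow.trans hup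
  rw [← pow_mul, ← pow_mul, Nat.pow_le_pow_iff_right hp.one_lt] at h5
  obtain ⟨m, rfl⟩ : ∃ m, n = m + 1 := ⟨n - 1, by omega⟩
  rw [Nat.add_sub_cancel] at h5
  nlinarith

end Pool.Agent.LP
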