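import Pool.Agent.LP.St0

/-!
# LP / Vv: the characters of a normal subgroup `A`, with `G` acting by conjugation

`(g • u) a = u (g⁻¹ a g)`.

PROOFS. `VV_card`, `VV_pgroup`: `Nat.card (A →* ℂˣ) = Nat.card A` for a finite commutative group
(Mathlib: duality of finite abelian groups, `MonoidHom`/`Monoid.exponent` with
`HasEnoughRootsOfUnity`, e.g. `CommGroup.card_monoidHom_of_hasEnoughRootsOfUnity`); here `A` is
commutative by hypothesis `hA`, so use a local `CommGroup` instance on `A`. For `VV_pgroup` it is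
simpler: `u ^ (p ^ k) = 1` if `a ^ (p ^ k) = 1` for all `a ∈ A` (`|A| = p ^ k`).
`VV_finite`: `A →* ℂˣ` embeds into `A → {roots of unity of order dividing |A|}`; or from the duality.
`VV_sep`: characters separate points (same duality: `CommGroup.exists_apply_ne_one_...`,
see also `Pool.Agent.Helper89.MD.SEP`, `EXT_abelian`).
`VV_triv`: if `g • u = u` for all `u` then `u (g⁻¹ a g) = u a` for all `u`, so `g⁻¹ a g = a`
(`VV_sep`).
`VV_fix`: for `g ∈ A`, `g⁻¹ a g = a`.
-/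

set_option autoImplicit false

namespace Pool.Agent.LP

/-- The characters of the subgroup `A`. -/
def VV {G : Type} [Group G] (A : Subgroup G) : Type := ↥A →* ℂˣ

instance {G : Type} [Group G] (A : Subgroup G) : CommGroup (VV A) :=
  inferInstanceAs (CommGroup (↥A →* ℂˣ))

/-- Evaluation. -/
def VV.ev {G : Type} [Group G] {A : Subgroup G} (u : VV A) : ↥A →* ℂˣ := u

theorem VV.ext {G : Type} [Group G] {A : Subgroup G} {u v : VV A} (h : ∀ a, u.ev a = v.ev a) :
    u = v := MonoidHom.ext h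

theorem VV.ev_mul {G : Type} [Group G] {A : Subgroup G} (u v : VV A) (a : A) :
    (u * v).ev a = u.ev a * v.ev a := rfl

theorem VV.ev_inv {G : Type} [Group G] {A : Subgroup G} (u : VV A) (a : A) :
    (u⁻¹).ev a = (u.ev a)⁻¹ := rfl

theorem VV.ev_one {G : Type} [Group G] {A : Subgroup G} (a : A) :
    (1 : VV A).ev a = 1 := rfl

instance {G : Type} [Group G] (A : Subgroup G) [A.Normal] : MulDistribMulAction G (VV A) where
  smul g u := (MonoidHom.comp u.ev (MulAut.conjNormal g⁻¹ : MulAut A).toMonoidHom : ↥A →* ℂˣ)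
  one_smul u := VV.ext fun a => by
    change u.ev ((MulAut.conjNormal (1 : G)⁻¹ : MulAut A) a) = u.ev a
    rw [inv_one, map_one]
    rfl
  mul_smul g h u := VV.ext fun a => by
    change u.ev ((MulAut.conjNormal (g * h)⁻¹ : MulAut A) a) =
      u.ev ((MulAut.conjNormal h⁻¹ : MulAut A) ((MulAut.conjNormal g⁻¹ : MulAut A) a))
    rw [mul_inv_rev, map_mul]
    rfl
  smul_one g := VV.ext fun a => rfl
  smul_mul g u v := VV.ext fun a => rfl

theorem VV.smul_ev {G : Type} [Group G] {A : Subgroup G} [A.Normal] (g : G) (u : VV A) (a : A) :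
    (g • u).ev a = u.ev (MulAut.conjNormal g⁻¹ a) := rfl

theorem VV_comm {C : Type} [CommGroup C] [Finite C] : Finite (C →* ℂˣ) ∧
    Nat.card (C →* ℂˣ) = Nat.card C ∧ ∀ a : C, (∀ u : C →* ℂˣ, u a = 1) → a = 1 := by
  have h0 : Monoid.exponent C ≠ 0 := Monoid.exponent_ne_zero_of_finite
  have : NeZero ((Monoid.exponent C : ℕ) : ℂ) := ⟨by exact_mod_cast h0⟩
  have : HasEnoughRootsOfUnity ℂ (Monoid.exponent C) := inferInstance
  obtain ⟨eqv⟩ := CommGroup.monoidHom_mulEquiv_of_hasEnoughRootsOfUnity C ℂ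
  refine ⟨Finite.of_equiv C eqv.symm.toEquiv, Nat.card_congr eqv.toEquiv, fun a h => ?_⟩
  by_contra ha
  obtain ⟨φ, hφ⟩ := CommGroup.exists_apply_ne_one_of_hasEnoughRootsOfUnity C ℂ ha
  exact hφ (h φ)

theorem VV_aux {C : Type} [Group C] [Finite C] (hc : ∀ x y : C, x * y = y * x) :
    Finite (C →* ℂˣ) ∧ Nat.card (C →* ℂˣ) = Nat.card C ∧
      ∀ a : C, (∀ u : C →* ℂˣ, u a = 1) → a = 1 := by
  let _ : CommGroup C := { (inferInstance : Group C) with mul_comm := hc }
  exact VV_comm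

variable {G : Type} [Group G] [Finite G] {p : ℕ} (A : Subgroup G)

theorem VV_finite (hA : ∀ x ∈ A, ∀ y ∈ A, x * y = y * x) : Finite (VV A) :=
  (VV_aux (C := A) fun x y => Subtype.ext (hA x x.2 y y.2)).1

theorem VV_card (hA : ∀ x ∈ A, ∀ y ∈ A, x * y = y * x) : Nat.card (VV A) = Nat.card A :=
  (VV_aux (C := A) fun x y => Subtype.ext (hA x x.2 y y.2)).2.1

theorem VV_pgroup (hG : IsPGroup p G) : IsPGroup p (VV A) := by
  obtain ⟨n, hn⟩ := isPGroup_iff_exists_pow_pow_eq_one.1 (hG.to_subgroup A)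
  intro u
  refine ⟨n, VV.ext fun a => ?_⟩
  have h1 : (u ^ (p ^ n)).ev a = (u.ev a) ^ (p ^ n) := rfl
  rw [h1, ← map_pow, hn, map_one, VV.ev_one]

theorem VV_sep (hA : ∀ x ∈ A, ∀ y ∈ A, x * y = y * x) (a : A) (h : ∀ u : VV A, u.ev a = 1) :
    a = 1 :=
  (VV_aux (C := A) fun x y => Subtype.ext (hA x x.2 y y.2)).2.2 a h

theorem VV_triv [A.Normal] (hA : ∀ x ∈ A, ∀ y ∈ A, x * y = y * x) (g : G)
    (h : ∀ u : VV A, g • u = u) (a : G) (ha : a ∈ A) : g * a = a * g := by
  have h1 : (MulAut.conjNormal g⁻¹ (⟨a, ha⟩ : A)) * (⟨a, ha⟩ : A)⁻¹ = 1 := by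
    refine VV_sep A hA _ (fun u => ?_)
    have h2 : u.ev (MulAut.conjNormal g⁻¹ (⟨a, ha⟩ : A)) = u.ev ⟨a, ha⟩ := by
      rw [← VV.smul_ev, h u]
    rw [map_mul u.ev, h2, map_inv u.ev, mul_inv_cancel]
  have h2 := congrArg Subtype.val (mul_inv_eq_one.1 h1)
  rw [MulAut.conjNormal_apply, inv_inv] at h2
  have h3 : g⁻¹ * a * g = a := h2
  calc g * a = g * (g⁻¹ * a * g) := by rw [h3]
    _ = a * g := by group

theorem VV_fix [A.Normal] (hA : ∀ x ∈ A, ∀ y ∈ A, x * y = y * x) (g : G) (hg : g ∈ A)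
    (u : VV A) : g • u = u := by
  refine VV.ext fun a => ?_
  rw [VV.smul_ev]
  congr 1
  apply Subtype.ext
  rw [MulAut.conjNormal_apply, inv_inv]
  have h1 := hA (a : G) a.2 g hg
  rw [mul_assoc, h1, inv_mul_cancel_left]

end Pool.Agent.LP
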