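import Pool.Agent.LP.Rad
import Pool.Agent.LP.Vv
import Pool.Agent.LP.Pen
import Pool.Agent.LP.Avg

/-!
# LP / Fc: counting characters of the Lazard group `Γ`

`F = LG p Γ →* ℂˣ`, a finite commutative `p`-group with `|F| = |Γ|` elements (duality of finite
commutative groups).

PROOF of `FC_rad`. `Good = {f | p ^ n ≤ (rad f).index}`, `f0 ∈ Good`. For `f1 : F` and `t < p`:
`f1 * f0 ^ t ∉ Good ↔ |(radh (f1 * f0^t)).range| < p ^ n` (`card_range_radh`), and
`radh (f1 * f0^t) = radh f1 * radh f0 ^ t` (`radh_mul_pow`). `PEN` (`a0 = radh f0`, `a1 = radh f1`)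
gives `|badT p Good f0 f1| ≤ n`, and `AVG` the claim.

PROOF of `FC_one`. `{f | f z = 1}` is the kernel of evaluation at `z`, a subgroup of `F`, proper
because characters separate points (`z ≠ 1`), so of index `≥ p` (`F` is a `p`-group).

PROOF of `FC_res`. The restriction `res : F →* VV A`, `res f a = f (toL p a)` (`A ≤ Γ`, `A` commutative,
`toL_mul_of_comm`) is surjective: `A` is a subgroup of `LG p Γ` (closed under `ladd`, which is the
product on `A`), characters extend (`EXT_abelian` of Helper89/MD/EXT.lean). All fibres have the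
same number of elements `|F| / |VV A|`. So `|{f | res f ∉ S}| * |VV A| = |Sᶜ| * |F|`.
-/

set_option autoImplicit false

namespace Pool.Agent.LP

private theorem fc_roots (Q : Type) [CommGroup Q] [Finite Q] :
    HasEnoughRootsOfUnity ℂ (Monoid.exponent Q) := by
  have h0 : Monoid.exponent Q ≠ 0 := Monoid.exponent_ne_zero_of_finite
  have : NeZero ((Monoid.exponent Q : ℕ) : ℂ) := ⟨by exact_mod_cast h0⟩
  infer_instance

private theorem fc_equiv (Q : Type) [CommGroup Q] [Finite Q] : Nonempty ((Q →* ℂˣ) ≃* Q) := by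
  have := fc_roots Q
  exact CommGroup.monoidHom_mulEquiv_of_hasEnoughRootsOfUnity Q ℂ

private theorem fc_finite (Q : Type) [CommGroup Q] [Finite Q] : Finite (Q →* ℂˣ) := by
  obtain ⟨e⟩ := fc_equiv Q
  exact Finite.of_equiv Q e.symm.toEquiv

private theorem fc_pgroup {p : ℕ} (Q : Type) [CommGroup Q] [Finite Q] (hQ : IsPGroup p Q) :
    IsPGroup p (Q →* ℂˣ) := by
  obtain ⟨e⟩ := fc_equiv Q
  exact hQ.of_equiv e.symm

private theorem fc_fib {F V : Type} [Group F] [Group V] (φ : F →* V)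
    (hφ : Function.Surjective φ) (T : Set V) :
    Nat.card {f : F // φ f ∈ T} * Nat.card V = Nat.card ↥T * Nat.card F := by
  have h1 : ∀ T : Set V, Nat.card {f : F // φ f ∈ T} = Nat.card ↥T * Nat.card φ.ker := by
    intro T
    rw [← Nat.card_prod]
    refine Nat.card_congr ?_
    refine (Equiv.sigmaSubtypeFiberEquivSubtype (p := fun f : F => φ f ∈ T)
      (q := fun y : V => y ∈ T) (φ : F → V) (fun f => Iff.rfl)).symm.trans ?_
    refine (Equiv.sigmaCongrRight (β₂ := fun _ => φ.ker) fun y => ?_).trans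
      (Equiv.sigmaEquivProd _ _)
    exact (MonoidHom.fiberEquivKerOfSurjective hφ y.1)
  have h2 := h1 Set.univ
  have h3 : Nat.card {f : F // φ f ∈ (Set.univ : Set V)} = Nat.card F :=
    Nat.card_congr (Equiv.subtypeUnivEquiv fun f => Set.mem_univ _)
  rw [h3, Nat.card_congr (Equiv.Set.univ V)] at h2
  rw [h1 T, h2]
  ring

variable {p : ℕ} {G : Type} [Group G] [Finite G] (Γ : Subgroup G) [h : Fact (Laz p Γ)]

theorem F_finite : Finite (LG p Γ →* ℂˣ) := fc_finite _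

theorem FC_rad (n : ℕ) (f0 : LG p Γ →* ℂˣ) (h0 : p ^ n ≤ (rad f0).index) :
    p * Nat.card {f : LG p Γ →* ℂˣ // (rad f).index < p ^ n} ≤
      n * Nat.card (LG p Γ →* ℂˣ) := by
  classical
  have hfin : Finite (LG p Γ →* ℂˣ) := F_finite Γ
  have hpg : IsPGroup p (LG p Γ →* ℂˣ) := fc_pgroup _ LG_pgroup
  have hp : p.Prime := h.out.prime
  have h1 := AVG (p := p) {f : LG p Γ →* ℂˣ | p ^ n ≤ (rad f).index} f0 n (fun f1 => by
    have h2 := PEN hp hpg (radh f0) (radh f1) n (by rw [card_range_radh]; exact h0)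
    refine le_trans (Finset.card_le_card fun t ht => ?_) h2
    rw [mem_badT] at ht
    rw [Finset.mem_filter, Finset.mem_range]
    refine ⟨ht.1, ?_⟩
    rw [← radh_mul_pow, card_range_radh]
    exact not_le.1 ht.2)
  have h3 : Nat.card {f : LG p Γ →* ℂˣ // (rad f).index < p ^ n} =
      Nat.card ↥({f : LG p Γ →* ℂˣ | p ^ n ≤ (rad f).index}ᶜ) := by
    refine Nat.card_congr (Equiv.subtypeEquivRight fun f => ?_)
    exact not_le.symm
  rw [h3]
  exact h1

theorem FC_one (z : Γ) (hz : z ≠ 1) :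
    p * Nat.card {f : LG p Γ →* ℂˣ // f (toL p z) = 1} ≤ Nat.card (LG p Γ →* ℂˣ) := by
  classical
  have hfin : Finite (LG p Γ →* ℂˣ) := F_finite Γ
  have hpg : IsPGroup p (LG p Γ →* ℂˣ) := fc_pgroup _ LG_pgroup
  have hp : p.Prime := h.out.prime
  have hpf : Fact p.Prime := ⟨hp⟩
  set K : Subgroup (LG p Γ →* ℂˣ) := (MonoidHom.eval (toL p z)).ker with hK
  have h1 : Nat.card {f : LG p Γ →* ℂˣ // f (toL p z) = 1} = Nat.card K := by
    refine Nat.card_congr (Equiv.subtypeEquivRight fun f => ?_)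
    rw [hK, MonoidHom.mem_ker]
    rfl
  have hne : K.index ≠ 1 := by
    intro hi
    rw [Subgroup.index_eq_one] at hi
    have := fc_roots (LG p Γ)
    have hz' : toL p z ≠ (1 : LG p Γ) := hz
    obtain ⟨f, hf⟩ := CommGroup.exists_apply_ne_one_of_hasEnoughRootsOfUnity (LG p Γ) ℂ hz'
    apply hf
    have h2 : f ∈ K := by rw [hi]; trivial
    exact h2
  obtain ⟨m, hm⟩ := hpg.index K
  have hpi : p ≤ K.index := by
    rw [hm] at hne ⊢
    have hm0 : m ≠ 0 := by
      rintro rfl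
      exact hne (pow_zero p)
    exact Nat.le_self_pow hm0 p
  rw [h1, ← Subgroup.card_mul_index K, mul_comm]
  exact Nat.mul_le_mul_left _ hpi

/-- Restriction of characters to `A`. -/
noncomputable def res (A : Subgroup G) (hAΓ : A ≤ Γ) (hA : ∀ x ∈ A, ∀ y ∈ A, x * y = y * x)
    (f : LG p Γ →* ℂˣ) : VV A :=
  ({ toFun := fun a => f (toL p (⟨a, hAΓ a.2⟩ : Γ))
     map_one' := f.map_one
     map_mul' := fun a b => by
      have h1 : ((⟨(a : G), hAΓ a.2⟩ : Γ) * ⟨(b : G), hAΓ b.2⟩ : Γ) =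
          ⟨(b : G), hAΓ b.2⟩ * ⟨(a : G), hAΓ a.2⟩ := Subtype.ext (hA a a.2 b b.2)
      rw [← map_mul, ← toL_mul_of_comm h1]
      rfl } : ↥A →* ℂˣ)

theorem res_ev (A : Subgroup G) (hAΓ : A ≤ Γ) (hA : ∀ x ∈ A, ∀ y ∈ A, x * y = y * x)
    (f : LG p Γ →* ℂˣ) (a : A) : (res Γ A hAΓ hA f).ev a = f (toL p (⟨a, hAΓ a.2⟩ : Γ)) := rfl

/-- restriction as a homomorphism -/
private noncomputable def resh (A : Subgroup G) (hAΓ : A ≤ Γ)
    (hA : ∀ x ∈ A, ∀ y ∈ A, x * y = y * x) : (LG p Γ →* ℂˣ) →* VV A where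
  toFun := res Γ A hAΓ hA
  map_one' := VV.ext fun _ => rfl
  map_mul' _ _ := VV.ext fun _ => rfl

/-- `A` as a subgroup of the Lazard group -/
private noncomputable def fcA (A : Subgroup G) (hA : ∀ x ∈ A, ∀ y ∈ A, x * y = y * x) :
    Subgroup (LG p Γ) where
  carrier := {q | ((ofL p q : Γ) : G) ∈ A}
  one_mem' := A.one_mem
  mul_mem' := by
    intro a b ha hb
    have h1 : ladd (ofL p a) (ofL p b) = ofL p a * ofL p b :=
      ladd_commute h.out (Subtype.ext (hA _ ha _ hb))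
    change ((ladd (ofL p a) (ofL p b) : Γ) : G) ∈ A
    rw [h1]
    exact A.mul_mem ha hb
  inv_mem' := by
    intro a ha
    exact A.inv_mem ha

private theorem resh_surj (A : Subgroup G) (hAΓ : A ≤ Γ)
    (hA : ∀ x ∈ A, ∀ y ∈ A, x * y = y * x) : Function.Surjective (resh (p := p) Γ A hAΓ hA) := by
  intro u
  let ν : fcA (p := p) Γ A hA →* ℂˣ :=
    { toFun := fun q => u.ev ⟨((ofL p q.1 : Γ) : G), q.2⟩
      map_one' := u.ev.map_one
      map_mul' := by
        intro a b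
        rw [← map_mul]
        congr 1
        apply Subtype.ext
        have h1 : ladd (ofL p a.1) (ofL p b.1) = ofL p a.1 * ofL p b.1 :=
          ladd_commute h.out (Subtype.ext (hA _ a.2 _ b.2))
        change ((ladd (ofL p a.1) (ofL p b.1) : Γ) : G) = _
        rw [h1]
        rfl }
  have := fc_roots (LG p Γ)
  obtain ⟨θ, hθ⟩ := MonoidHom.domRestrict_surjective (M := ℂ) (fcA (p := p) Γ A hA) ν
  refine ⟨θ, VV.ext fun a => ?_⟩
  change θ (toL p (⟨a, hAΓ a.2⟩ : Γ)) = u.ev a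
  exact DFunLike.congr_fun hθ (⟨toL p (⟨a, hAΓ a.2⟩ : Γ), a.2⟩ : fcA (p := p) Γ A hA)

theorem FC_res (A : Subgroup G) (hAΓ : A ≤ Γ) (hA : ∀ x ∈ A, ∀ y ∈ A, x * y = y * x)
    (S : Set (VV A)) :
    Nat.card {f : LG p Γ →* ℂˣ // res Γ A hAΓ hA f ∉ S} * Nat.card (VV A) =
      Nat.card ↥(Sᶜ) * Nat.card (LG p Γ →* ℂˣ) :=
  fc_fib (resh (p := p) Γ A hAΓ hA) (resh_surj Γ A hAΓ hA) Sᶜ

end Pool.Agent.LP
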