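import Pool.Agent.LP.Bas

/-!
# LP / Pol2: powers with binomial exponents are polynomial

PROOF of `Pol_pow1`: induction on `n`, for all `i, k`. Values: `g ^ _ ∈ F (k + κ * i) ≤ F k`.
Difference: `g ^ ((s+1).choose i) * (g ^ (s.choose i))⁻¹` is `1` if `i = 0` (then use that the
constant function `1` is in every `Pol n k`; prove this by induction first), and
`g ^ (s.choose (i-1))` if `i ≥ 1` (`Nat.choose_succ_succ`, powers of `g` commute). As
`k + κ * i = (k + κ) + κ * (i - 1)` the induction hypothesis applies.

PROOF of `Pol_pow2`: the same; in direction `true` the difference is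
`g ^ (x.1.choose (a-1) * x.2.choose b)` (or `1` if `a = 0`), in direction `false` it is
`g ^ (x.1.choose a * x.2.choose (b-1))` (or `1` if `b = 0`).
-/

set_option autoImplicit false

namespace Pool.Agent.LP

variable {H : Type} [Group H] {F : ℕ → Subgroup H} {c : ℕ}

private theorem Pol_one {X ι : Type} (sh : ι → X → X) (w : ι → ℕ) (n k : ℕ) :
    Pol F sh w n k (fun _ => 1) := by
  induction n generalizing k with
  | zero => exact fun _ => (F k).one_mem
  | succ n ih =>
    refine ⟨fun _ => (F k).one_mem, fun d => ?_⟩
    have h : (fun _ : X => (1 : H) * (1 : H)⁻¹) = fun _ => 1 := by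
      funext _
      rw [inv_one, mul_one]
    rw [h]
    exact ih _

theorem Pol_pow1 (hF : Fil F c) (κ n k i : ℕ) (g : H) (hg : g ∈ F (k + κ * i)) :
    Pol F sh1 (w1 κ) n k (fun s => g ^ (s.choose i)) := by
  induction n generalizing k i with
  | zero => exact fun s => (F k).pow_mem (hF.anti (Nat.le_add_right _ _) hg) _
  | succ n ih =>
    refine ⟨fun s => (F k).pow_mem (hF.anti (Nat.le_add_right _ _) hg) _, fun d => ?_⟩
    rcases i with _ | i
    · have h : (fun s : ℕ => g ^ ((sh1 d s).choose 0) * (g ^ (s.choose 0))⁻¹) = fun _ => 1 := by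
        funext s
        rw [Nat.choose_zero_right, Nat.choose_zero_right, mul_inv_cancel]
      rw [h]
      exact Pol_one _ _ _ _
    · have h : (fun s : ℕ => g ^ ((sh1 d s).choose (i + 1)) * (g ^ (s.choose (i + 1)))⁻¹) =
          fun s => g ^ (s.choose i) := by
        funext s
        change g ^ ((s + 1).choose (i + 1)) * (g ^ (s.choose (i + 1)))⁻¹ = _
        rw [Nat.choose_succ_succ, pow_add, mul_inv_cancel_right]
      rw [h]
      refine ih (k + κ) i ?_
      have e : k + κ + κ * i = k + κ * (i + 1) := by ring
      rwa [e]

theorem Pol_pow2 (hF : Fil F c) (α β n k a b : ℕ) (g : H) (hg : g ∈ F (k + α * a + β * b)) :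
    Pol F sh2 (w2 α β) n k (fun x => g ^ (x.1.choose a * x.2.choose b)) := by
  induction n generalizing k a b with
  | zero => exact fun s => (F k).pow_mem (hF.anti (by omega) hg) _
  | succ n ih =>
    refine ⟨fun s => (F k).pow_mem (hF.anti (by omega) hg) _, fun d => ?_⟩
    cases d with
    | true =>
      rcases a with _ | a
      · have h : (fun x : ℕ × ℕ => g ^ ((sh2 true x).1.choose 0 * (sh2 true x).2.choose b) *
            (g ^ (x.1.choose 0 * x.2.choose b))⁻¹) = fun _ => 1 := by
          funext x
          change g ^ ((x.1 + 1).choose 0 * x.2.choose b) *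
            (g ^ (x.1.choose 0 * x.2.choose b))⁻¹ = 1
          rw [Nat.choose_zero_right, Nat.choose_zero_right, mul_inv_cancel]
        rw [h]
        exact Pol_one _ _ _ _
      · have h : (fun x : ℕ × ℕ => g ^ ((sh2 true x).1.choose (a + 1) *
            (sh2 true x).2.choose b) * (g ^ (x.1.choose (a + 1) * x.2.choose b))⁻¹) =
            fun x => g ^ (x.1.choose a * x.2.choose b) := by
          funext x
          change g ^ ((x.1 + 1).choose (a + 1) * x.2.choose b) *
            (g ^ (x.1.choose (a + 1) * x.2.choose b))⁻¹ = _
          rw [Nat.choose_succ_succ, add_mul, pow_add, mul_inv_cancel_right]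
        rw [h]
        refine ih (k + α) a b ?_
        have e : k + α + α * a + β * b = k + α * (a + 1) + β * b := by ring
        rwa [e]
    | false =>
      rcases b with _ | b
      · have h : (fun x : ℕ × ℕ => g ^ ((sh2 false x).1.choose a * (sh2 false x).2.choose 0) *
            (g ^ (x.1.choose a * x.2.choose 0))⁻¹) = fun _ => 1 := by
          funext x
          change g ^ (x.1.choose a * (x.2 + 1).choose 0) *
            (g ^ (x.1.choose a * x.2.choose 0))⁻¹ = 1
          rw [Nat.choose_zero_right, Nat.choose_zero_right, mul_inv_cancel]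
        rw [h]
        exact Pol_one _ _ _ _
      · have h : (fun x : ℕ × ℕ => g ^ ((sh2 false x).1.choose a *
            (sh2 false x).2.choose (b + 1)) * (g ^ (x.1.choose a * x.2.choose (b + 1)))⁻¹) =
            fun x => g ^ (x.1.choose a * x.2.choose b) := by
          funext x
          change g ^ (x.1.choose a * (x.2 + 1).choose (b + 1)) *
            (g ^ (x.1.choose a * x.2.choose (b + 1)))⁻¹ = _
          rw [Nat.choose_succ_succ, mul_add, pow_add, mul_inv_cancel_right]
        rw [h]
        refine ih (k + β) a b ?_
        have e : k + β + α * a + β * b = k + α * a + β * (b + 1) := by ring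
        rwa [e]

end Pool.Agent.LP
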