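import Pool.Agent.LP.Pol1
import Pool.Agent.LP.Pol2

/-!
# LP / Ta2: Taylor expansion of polynomial maps in two variables

KEY. If `Pol F sh2 (w2 α β) n k q`, `a + b ≤ n` and `q x = 1` for all `x` with `x.1 ≤ a`,
`x.2 ≤ b`, `x ≠ (a, b)`, then `q (a, b) ∈ F (k + α * a + β * b)`. Induction on `a + b`: for
`a = b = 0` it is `Pol_values`. If `a = a' + 1` use `D q = fun x => q (x.1+1, x.2) * (q x)⁻¹`
(direction `true`, in `Pol (n-1) (k+α)`): it is `1` at all `x ≤ (a', b)`, `x ≠ (a', b)`, and equals
`q (a, b)` at `(a', b)` (`q (a', b) = 1`). If `a = 0`, `b = b' + 1` use direction `false`.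

PROOF of `TA2`. Show by induction on `(c + 1) - m` (generalising `q`): if moreover `q x = 1`
whenever `x.1 + x.2 < m`, then `q` is in the closure. (`m = 0`... start with `m = 0`.)
* If `c < m`: `q = 1`: strong induction on `x.1 + x.2`: if all smaller values are `1`, the KEY gives
  `q x ∈ F (α * x.1 + β * x.2)` and `α * x.1 + β * x.2 ≥ x.1 + x.2 > c` when `x.1 + x.2 ≥ m`.
* If `m ≤ c`: for `(a, b)` with `a + b = m` put `w a b = q (a, b)`; by the KEY it is in
  `F (α * a + β * b)`. Let `r` be the product, in any order (e.g. a list product over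
  `a ∈ List.range (m+1)`, `b = m - a`), of the functions
  `x ↦ (w a b) ^ (x.1.choose a * x.2.choose b)` for `a, b ≥ 1`, `a + b = m`. It is in the closure
  and in all `Pol n 0`. At `x` with `x.1 + x.2 < m` it is `1`; at `x` with `x.1 + x.2 = m` it is
  `q x` if `x.1, x.2 ≥ 1` (only the factor `(a, b) = x` is not `1`: otherwise `x.1 < a` or
  `x.2 < b`), and if `x.1 = 0` or `x.2 = 0` both `r x = 1` and `q x = 1`. Also `r (s, 0) = 1`,
  `r (0, t) = 1`. Apply the induction hypothesis to `r⁻¹ * q` and `m + 1`.
-/

set_option autoImplicit false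

namespace Pool.Agent.LP

theorem TA2_key {H : Type} [Group H] {F : ℕ → Subgroup H} (α β : ℕ) :
    ∀ (m a b n k : ℕ) (q : ℕ × ℕ → H), a + b = m → m ≤ n → Pol F sh2 (w2 α β) n k q →
      (∀ s t, s ≤ a → t ≤ b → ¬ (s = a ∧ t = b) → q (s, t) = 1) →
      q (a, b) ∈ F (k + α * a + β * b) := by
  intro m
  induction m with
  | zero =>
    intro a b n k q hab hn hq h
    have ha : a = 0 := by omega
    have hb : b = 0 := by omega
    subst ha
    subst hb
    have := Pol_values hq (0, 0)
    simpa using this
  | succ m ih =>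
    intro a b n k q hab hn hq h
    obtain ⟨n', rfl⟩ : ∃ n', n = n' + 1 := ⟨n - 1, by omega⟩
    cases a with
    | succ a' =>
      have hq' : Pol F sh2 (w2 α β) n' (k + α) (fun x => q (x.1 + 1, x.2) * (q x)⁻¹) := hq.2 true
      have h1 := ih a' b n' (k + α) _ (by omega) (by omega) hq' (fun s t hs ht hst => by
        have e1 : q (s + 1, t) = 1 := h (s + 1) t (by omega) ht (by omega)
        have e2 : q (s, t) = 1 := h s t (by omega) ht (by omega)
        show q (s + 1, t) * (q (s, t))⁻¹ = 1
        rw [e1, e2, inv_one, mul_one])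
      have e3 : q (a', b) = 1 := h a' b (by omega) le_rfl (by omega)
      have h2 : q (a' + 1, b) * (q (a', b))⁻¹ ∈ F (k + α + α * a' + β * b) := h1
      rw [e3, inv_one, mul_one] at h2
      have e4 : k + α * (a' + 1) + β * b = k + α + α * a' + β * b := by ring
      rw [e4]
      exact h2
    | zero =>
      obtain ⟨b', rfl⟩ : ∃ b', b = b' + 1 := ⟨b - 1, by omega⟩
      have hq' : Pol F sh2 (w2 α β) n' (k + β) (fun x => q (x.1, x.2 + 1) * (q x)⁻¹) := hq.2 false
      have h1 := ih 0 b' n' (k + β) _ (by omega) (by omega) hq' (fun s t hs ht hst => by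
        have e1 : q (s, t + 1) = 1 := h s (t + 1) hs (by omega) (by omega)
        have e2 : q (s, t) = 1 := h s t hs (by omega) (by omega)
        show q (s, t + 1) * (q (s, t))⁻¹ = 1
        rw [e1, e2, inv_one, mul_one])
      have e3 : q (0, b') = 1 := h 0 b' le_rfl (by omega) (by omega)
      have h2 : q (0, b' + 1) * (q (0, b'))⁻¹ ∈ F (k + β + α * 0 + β * b') := h1
      rw [e3, inv_one, mul_one] at h2
      have e4 : k + α * 0 + β * (b' + 1) = k + β + α * 0 + β * b' := by ring
      rw [e4]
      exact h2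

theorem TA2_prod {H : Type} [Group H] (g : H) (s : ℕ) : ∀ M : ℕ,
    ((List.range M).map (fun a => if a = s then g else 1)).prod = if s < M then g else 1 := by
  intro M
  induction M with
  | zero => simp
  | succ M ih =>
    rw [List.range_succ, List.map_append, List.prod_append, ih]
    rcases lt_trichotomy s M with h | h | h
    · rw [if_pos h, if_pos (by omega)]
      simp [Nat.ne_of_gt h]
    · subst h
      simp
    · rw [if_neg (by omega), if_neg (by omega)]
      simp [Nat.ne_of_lt h]

theorem TA2_polprod {H X ι : Type} [Group H] {F : ℕ → Subgroup H} {c : ℕ} {sh : ι → X → X}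
    {w : ι → ℕ} (hF : Fil F c) {n k : ℕ} (l : List (X → H)) (h : ∀ f ∈ l, Pol F sh w n k f) :
    Pol F sh w n k l.prod := by
  induction l with
  | nil => exact Pol_one n k
  | cons f l ih =>
    rw [List.prod_cons]
    exact Pol_mul hF (h f (by simp)) (ih (fun g hg => h g (by simp [hg])))

theorem TA2 {H : Type} [Group H] {F : ℕ → Subgroup H} {c : ℕ} (hF : Fil F c) (α β : ℕ)
    (hα : 1 ≤ α) (hβ : 1 ≤ β) (q : ℕ × ℕ → H) (hq : ∀ n, Pol F sh2 (w2 α β) n 0 q)
    (h1 : ∀ s, q (s, 0) = 1) (h2 : ∀ t, q (0, t) = 1) :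
    q ∈ Subgroup.closure {r : ℕ × ℕ → H | ∃ (a b : ℕ) (w : H), 1 ≤ a ∧ 1 ≤ b ∧
      w ∈ F (α * a + β * b) ∧ r = fun x => w ^ (x.1.choose a * x.2.choose b)} := by
  set C := Subgroup.closure {r : ℕ × ℕ → H | ∃ (a b : ℕ) (w : H), 1 ≤ a ∧ 1 ≤ b ∧
      w ∈ F (α * a + β * b) ∧ r = fun x => w ^ (x.1.choose a * x.2.choose b)} with hC
  suffices hmain : ∀ (d m : ℕ) (q : ℕ × ℕ → H), c + 1 ≤ d + m →
      (∀ n, Pol F sh2 (w2 α β) n 0 q) → (∀ s, q (s, 0) = 1) → (∀ t, q (0, t) = 1) →
      (∀ s t, s + t < m → q (s, t) = 1) → q ∈ C from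
    hmain (c + 1) 0 q (by omega) hq h1 h2 (fun s t h => absurd h (by omega))
  intro d
  induction d with
  | zero =>
    intro m q hm hq h1 h2 h3
    have h4 : ∀ N s t : ℕ, s + t = N → q (s, t) = 1 := by
      intro N
      induction N using Nat.strong_induction_on with
      | _ N ih =>
        intro s t hst
        by_cases hN : N < m
        · exact h3 s t (by omega)
        · have h5 := TA2_key α β (s + t) s t (s + t) 0 q rfl le_rfl (hq _)
            (fun s' t' hs ht hst' => ih (s' + t') (by omega) s' t' rfl)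
          have h6 : s ≤ α * s := Nat.le_mul_of_pos_left _ hα
          have h7 : t ≤ β * t := Nat.le_mul_of_pos_left _ hβ
          exact hF.bot (by omega) h5
    have h5 : q = 1 := by
      funext x
      exact h4 _ x.1 x.2 rfl
    rw [h5]
    exact Subgroup.one_mem _
  | succ d ih =>
    intro m q hm hq h1 h2 h3
    let f : ℕ → (ℕ × ℕ → H) := fun a x => (q (a, m - a)) ^ (x.1.choose a * x.2.choose (m - a))
    have hkey : ∀ a ≤ m, q (a, m - a) ∈ F (0 + α * a + β * (m - a)) := by
      intro a ha
      exact TA2_key α β m a (m - a) m 0 q (by omega) le_rfl (hq _)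
        (fun s t hs ht hst => h3 s t (by omega))
    set r : ℕ × ℕ → H := ((List.range (m + 1)).map f).prod with hr
    have hrval : ∀ x, r x = ((List.range (m + 1)).map (fun a => f a x)).prod := by
      intro x
      rw [hr, Pi.list_prod_apply, List.map_map]
      rfl
    have hrC : r ∈ C := by
      refine Subgroup.list_prod_mem _ (fun g hg => ?_)
      rw [List.mem_map] at hg
      obtain ⟨a, ha, rfl⟩ := hg
      rw [List.mem_range] at ha
      by_cases hab : 1 ≤ a ∧ 1 ≤ m - a
      · refine Subgroup.subset_closure ⟨a, m - a, q (a, m - a), hab.1, hab.2, ?_, rfl⟩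
        have := hkey a (by omega)
        rwa [zero_add] at this
      · have h5 : q (a, m - a) = 1 := by
          rcases Nat.eq_zero_or_pos a with h | h
          · rw [h]
            exact h2 _
          · have h6 : m - a = 0 := by omega
            rw [h6]
            exact h1 _
        have h7 : f a = 1 := by
          funext x
          show (q (a, m - a)) ^ (x.1.choose a * x.2.choose (m - a)) = 1
          rw [h5, one_pow]
        rw [h7]
        exact Subgroup.one_mem _
    have hrP : ∀ n, Pol F sh2 (w2 α β) n 0 r := by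
      intro n
      refine TA2_polprod hF _ (fun g hg => ?_)
      rw [List.mem_map] at hg
      obtain ⟨a, ha, rfl⟩ := hg
      rw [List.mem_range] at ha
      exact Pol_pow2 hF α β n 0 a (m - a) _ (hkey a (by omega))
    have hr1 : ∀ s, r (s, 0) = 1 := by
      intro s
      rw [hrval]
      refine List.prod_eq_one (fun y hy => ?_)
      rw [List.mem_map] at hy
      obtain ⟨a, ha, rfl⟩ := hy
      rw [List.mem_range] at ha
      show (q (a, m - a)) ^ (s.choose a * (0 : ℕ).choose (m - a)) = 1
      rcases Nat.eq_zero_or_pos (m - a) with h | h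
      · rw [h, h1, one_pow]
      · rw [Nat.choose_eq_zero_of_lt h, mul_zero, pow_zero]
    have hr2 : ∀ t, r (0, t) = 1 := by
      intro t
      rw [hrval]
      refine List.prod_eq_one (fun y hy => ?_)
      rw [List.mem_map] at hy
      obtain ⟨a, ha, rfl⟩ := hy
      show (q (a, m - a)) ^ ((0 : ℕ).choose a * t.choose (m - a)) = 1
      rcases Nat.eq_zero_or_pos a with h | h
      · rw [h, h2, one_pow]
      · rw [Nat.choose_eq_zero_of_lt h, zero_mul, pow_zero]
    have hr3 : ∀ s t, s + t < m → r (s, t) = 1 := by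
      intro s t hst
      rw [hrval]
      refine List.prod_eq_one (fun y hy => ?_)
      rw [List.mem_map] at hy
      obtain ⟨a, ha, rfl⟩ := hy
      show (q (a, m - a)) ^ (s.choose a * t.choose (m - a)) = 1
      rcases Nat.lt_or_ge s a with h | h
      · rw [Nat.choose_eq_zero_of_lt h, zero_mul, pow_zero]
      · have h5 : t < m - a := by omega
        rw [Nat.choose_eq_zero_of_lt h5, mul_zero, pow_zero]
    have hr4 : ∀ s t, s + t = m → r (s, t) = q (s, t) := by
      intro s t hst
      rw [hrval]
      have h5 : (List.range (m + 1)).map (fun a => f a (s, t)) =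
          (List.range (m + 1)).map (fun a => if a = s then q (s, t) else 1) := by
        refine List.map_congr_left (fun a ha => ?_)
        rw [List.mem_range] at ha
        show (q (a, m - a)) ^ (s.choose a * t.choose (m - a)) = _
        rcases lt_trichotomy a s with h | h | h
        · have h6 : t < m - a := by omega
          rw [if_neg (by omega), Nat.choose_eq_zero_of_lt h6, mul_zero, pow_zero]
        · subst h
          have h6 : m - a = t := by omega
          rw [if_pos rfl, h6, Nat.choose_self, Nat.choose_self, mul_one, pow_one]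
        · rw [if_neg (by omega), Nat.choose_eq_zero_of_lt h, zero_mul, pow_zero]
      rw [h5, TA2_prod, if_pos (by omega)]
    have hfin : r⁻¹ * q ∈ C := by
      refine ih (m + 1) (r⁻¹ * q) (by omega) (fun n => Pol_mul hF (Pol_inv hF (hrP n)) (hq n))
        (fun s => ?_) (fun t => ?_) (fun s t hst => ?_)
      · rw [Pi.mul_apply, Pi.inv_apply, hr1, h1, inv_one, mul_one]
      · rw [Pi.mul_apply, Pi.inv_apply, hr2, h2, inv_one, mul_one]
      · rw [Pi.mul_apply, Pi.inv_apply]
        rcases Nat.lt_or_ge (s + t) m with h | h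
        · rw [hr3 s t h, h3 s t h, inv_one, mul_one]
        · rw [hr4 s t (by omega), inv_mul_cancel]
    have hqe : q = r * (r⁻¹ * q) := by rw [mul_inv_cancel_left]
    rw [hqe]
    exact Subgroup.mul_mem _ hrC hfin

end Pool.Agent.LP
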