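import Pool.Agent.LP.Bin
import Pool.Agent.LP.Ta2

/-!
# LP / Jc: `⁅J F i, J F j⁆ ≤ J F (i + j)`

PROOF.
(1) For `g ∈ F m`, `h ∈ F l`, `m, l ≥ 1`: `⁅theta g m, theta h l⁆ ∈ J F (m + l)`. Let
`q (s, t) = ⁅g ^ s, h ^ t⁆` on `ℕ × ℕ`, weights `α = m`, `β = l`. The maps `(s, t) ↦ g ^ s`
(`Pol_pow2` with `a = 1, b = 0`, `k = 0`) and `(s, t) ↦ h ^ t` are in all `Pol n 0`, so is `q`
(`Pol_comm`). `q (s, 0) = q (0, t) = 1`. By `TA2`, `q` is in the closure of the functions
`x ↦ w ^ (x.1.choose a * x.2.choose b)`, `a, b ≥ 1`, `w ∈ F (m * a + l * b)`. Substituting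
`x = (t ^ m, t ^ l)` is a group homomorphism `(ℕ × ℕ → H) →* (ℕ → H)` which sends `q` to
`⁅theta g m, theta h l⁆` and the generator to
`t ↦ w ^ ((t^m).choose a * (t^l).choose b)`. If `w ≠ 1` then `m * a + l * b ≤ c < p`, so
`a, b < p` and `BIN` (applied twice: to `w ^ ((t^l).choose b)` with `a`, and to `w`, or to powers of
`w`) turns this into `w ^ (Σ_{u,v} c_u c'_v t^(m u + l v))`, `1 ≤ u ≤ a`, `1 ≤ v ≤ b`, i.e. a product
of `theta (w ^ (c_u c'_v)) (m u + l v)`, with `m + l ≤ m u + l v ≤ m a + l b`, so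
`w ^ _ ∈ F (m u + l v)`: all factors are in `J F (m + l)`. (A sum in the exponent becomes a product
of commuting powers: induction on the Finset.)
(2) For a generator `x` of `J F 1` and a generator `y` of `J F k` (`k ≥ 1`):
`x * y * x⁻¹ = ⁅x, y⁆ * y ∈ J F k`. By closure induction `J F k` is normalised by `J F 1`
(`J_conj`).
(3) `Subgroup.commutator_le`: for `x ∈ J F i`, `y ∈ J F j` show `⁅x, y⁆ ∈ J F (i + j)`; closure
induction in `x` for `y` a generator (`⁅x x', y⁆ = x ⁅x', y⁆ x⁻¹ ⁅x, y⁆`,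
`⁅x⁻¹, y⁆ = x⁻¹ ⁅x, y⁆⁻¹ x`, and (2) as `J F i ≤ J F 1`), then closure induction in `y`.
-/

set_option autoImplicit false

open scoped commutatorElement

namespace Pool.Agent.LP

variable {H : Type} [Group H] [Finite H] {F : ℕ → Subgroup H} {c p : ℕ}

omit [Finite H] in
/-- a sum in the exponent -/
private theorem jc_sum {ι : Type} (S : Finset ι) (K : Subgroup (ℕ → H)) (w : H) (d e : ι → ℕ)
    (h : ∀ x ∈ S, theta (w ^ d x) (e x) ∈ K) :
    (fun t => w ^ (∑ x ∈ S, d x * t ^ e x)) ∈ K := by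
  classical
  induction S using Finset.induction_on with
  | empty =>
    simp only [Finset.sum_empty, pow_zero]
    exact K.one_mem
  | insert a S ha ih =>
    have h1 : (fun t => w ^ (∑ x ∈ insert a S, d x * t ^ e x)) =
        theta (w ^ d a) (e a) * fun t => w ^ (∑ x ∈ S, d x * t ^ e x) := by
      funext t
      rw [Finset.sum_insert ha, pow_add, Pi.mul_apply, theta_apply, ← pow_mul]
    rw [h1]
    exact K.mul_mem (h a (Finset.mem_insert_self a S))
      (ih fun x hx => h x (Finset.mem_insert_of_mem hx))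

/-- substitution of `(t ^ m, t ^ l)` -/
private def jcSub (H : Type) [Group H] (m l : ℕ) : (ℕ × ℕ → H) →* (ℕ → H) where
  toFun q := fun t => q (t ^ m, t ^ l)
  map_one' := rfl
  map_mul' _ _ := rfl

private theorem jc_theta (hF : Fil F c) (hp : p.Prime) (hH : IsPGroup p H) (hc : c < p)
    {m l : ℕ} (hm : 1 ≤ m) (hl : 1 ≤ l) {g h : H} (hg : g ∈ F m) (hh : h ∈ F l) :
    ⁅theta g m, theta h l⁆ ∈ J F (m + l) := by
  obtain ⟨q, hq⟩ : ∃ q : ℕ × ℕ → H, q = ⁅(fun x : ℕ × ℕ => g ^ x.1), (fun x : ℕ × ℕ => h ^ x.2)⁆ :=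
    ⟨_, rfl⟩
  have hq' : ∀ x, q x = ⁅g ^ x.1, h ^ x.2⁆ := fun x => by rw [hq]; rfl
  have hP : ∀ n, Pol F sh2 (w2 m l) n 0 q := by
    intro n
    have h1 := Pol_pow2 hF m l n 0 1 0 g (by simpa using hg)
    have h2 := Pol_pow2 hF m l n 0 0 1 h (by simpa using hh)
    simp only [Nat.choose_one_right, Nat.choose_zero_right, mul_one, one_mul] at h1 h2
    rw [hq]
    exact Pol_comm hF h1 h2
  have h3 := TA2 hF m l hm hl q hP (fun s => by
    rw [hq']
    simp) (fun t => by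
    rw [hq']
    simp)
  have h4 : jcSub H m l q = ⁅theta g m, theta h l⁆ := by
    funext t
    change q (t ^ m, t ^ l) = _
    rw [hq']
    rfl
  rw [← h4]
  have h5 := Subgroup.mem_map_of_mem (jcSub H m l) h3
  rw [MonoidHom.map_closure] at h5
  refine (Subgroup.closure_le _).2 ?_ h5
  rintro _ ⟨_, ⟨a, b, w, ha, hb, hw, rfl⟩, rfl⟩
  change jcSub H m l (fun x => w ^ (x.1.choose a * x.2.choose b)) ∈ J F (m + l)
  by_cases hcase : c < m * a + l * b
  · have hw1 := hF.bot hcase hw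
    rw [hw1]
    have h6 : jcSub H m l (fun x => (1 : H) ^ (x.1.choose a * x.2.choose b)) = 1 := by
      funext t
      exact one_pow _
    rw [h6]
    exact Subgroup.one_mem _
  · have ha' : a < p := by nlinarith
    have hb' : b < p := by nlinarith
    obtain ⟨c₁, hc₁⟩ := BIN hp hH a ha ha'
    obtain ⟨c₂, hc₂⟩ := BIN hp hH b hb hb'
    have h6 : jcSub H m l (fun x => w ^ (x.1.choose a * x.2.choose b)) =
        fun t => w ^ (∑ x ∈ Finset.Icc 1 a ×ˢ Finset.Icc 1 b,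
          (c₁ x.1 * c₂ x.2) * t ^ (m * x.1 + l * x.2)) := by
      funext t
      change w ^ ((t ^ m).choose a * (t ^ l).choose b) = _
      calc w ^ ((t ^ m).choose a * (t ^ l).choose b)
          = (w ^ ((t ^ l).choose b)) ^ ((t ^ m).choose a) := by rw [← pow_mul, mul_comm]
        _ = (w ^ ((t ^ l).choose b)) ^ (∑ u ∈ Finset.Icc 1 a, c₁ u * (t ^ m) ^ u) := hc₁ _ _
        _ = (w ^ (∑ u ∈ Finset.Icc 1 a, c₁ u * (t ^ m) ^ u)) ^ ((t ^ l).choose b) := by
            rw [← pow_mul, ← pow_mul, mul_comm]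
        _ = (w ^ (∑ u ∈ Finset.Icc 1 a, c₁ u * (t ^ m) ^ u)) ^
            (∑ v ∈ Finset.Icc 1 b, c₂ v * (t ^ l) ^ v) := hc₂ _ _
        _ = w ^ ((∑ u ∈ Finset.Icc 1 a, c₁ u * (t ^ m) ^ u) *
            (∑ v ∈ Finset.Icc 1 b, c₂ v * (t ^ l) ^ v)) := by rw [← pow_mul]
        _ = w ^ (∑ x ∈ Finset.Icc 1 a ×ˢ Finset.Icc 1 b,
            (c₁ x.1 * c₂ x.2) * t ^ (m * x.1 + l * x.2)) := by
            congr 1
            rw [Finset.sum_product, Finset.sum_mul]
            refine Finset.sum_congr rfl fun u _ => ?_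
            rw [Finset.mul_sum]
            refine Finset.sum_congr rfl fun v _ => ?_
            rw [← pow_mul, ← pow_mul, pow_add]
            ring
    rw [h6]
    refine jc_sum _ _ w (fun x : ℕ × ℕ => c₁ x.1 * c₂ x.2)
      (fun x : ℕ × ℕ => m * x.1 + l * x.2) ?_
    intro x hx
    rw [Finset.mem_product, Finset.mem_Icc, Finset.mem_Icc] at hx
    obtain ⟨⟨hx1, hx2⟩, hx3, hx4⟩ := hx
    have h7 : m * x.1 + l * x.2 ≤ m * a + l * b :=
      Nat.add_le_add (Nat.mul_le_mul_left m hx2) (Nat.mul_le_mul_left l hx4)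
    have h8 : m + l ≤ m * x.1 + l * x.2 :=
      Nat.add_le_add (Nat.le_mul_of_pos_right m hx1) (Nat.le_mul_of_pos_right l hx3)
    exact theta_mem h8 (Subgroup.pow_mem _ (hF.anti h7 hw) _)

private theorem jc_conj (hF : Fil F c) (hp : p.Prime) (hH : IsPGroup p H) (hc : c < p) {k : ℕ}
    (hk : 1 ≤ k) {x : ℕ → H} (hx : x ∈ J F 1) :
    (∀ y ∈ J F k, x * y * x⁻¹ ∈ J F k) ∧ (∀ y ∈ J F k, x⁻¹ * y * x ∈ J F k) := by
  have key : ∀ (m : ℕ) (g : H), 1 ≤ m → g ∈ F m → ∀ y ∈ J F k,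
      theta g m * y * (theta g m)⁻¹ ∈ J F k := by
    intro m g hm hg y hy
    unfold J at hy
    induction hy using Subgroup.closure_induction with
    | mem y hy =>
      obtain ⟨l, h, hl, hh, rfl⟩ := hy
      have h1 := jc_theta hF hp hH hc hm (hk.trans hl) hg hh
      have h2 : theta g m * theta h l * (theta g m)⁻¹ = ⁅theta g m, theta h l⁆ * theta h l := by
        rw [commutatorElement_def]
        group
      rw [h2]
      exact Subgroup.mul_mem _ (J_anti F (by omega) h1) (theta_mem hl hh)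
    | one =>
      rw [mul_one, mul_inv_cancel]
      exact Subgroup.one_mem _
    | mul y z _ _ h1 h2 =>
      have h3 : theta g m * (y * z) * (theta g m)⁻¹ =
          (theta g m * y * (theta g m)⁻¹) * (theta g m * z * (theta g m)⁻¹) := by group
      rw [h3]
      exact Subgroup.mul_mem _ h1 h2
    | inv y _ h1 =>
      have h3 : theta g m * y⁻¹ * (theta g m)⁻¹ = (theta g m * y * (theta g m)⁻¹)⁻¹ := by group
      rw [h3]
      exact Subgroup.inv_mem _ h1
  unfold J at hx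
  induction hx using Subgroup.closure_induction with
  | mem x hx =>
    obtain ⟨m, g, hm, hg, rfl⟩ := hx
    refine ⟨key m g hm hg, fun y hy => ?_⟩
    have h1 := key m g⁻¹ hm (Subgroup.inv_mem _ hg) y hy
    rwa [← theta_inv, inv_inv] at h1
  | one => exact ⟨fun y hy => by simpa using hy, fun y hy => by simpa using hy⟩
  | mul x z _ _ h1 h2 =>
    refine ⟨fun y hy => ?_, fun y hy => ?_⟩
    · have h3 : x * z * y * (x * z)⁻¹ = x * (z * y * z⁻¹) * x⁻¹ := by group
      rw [h3]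
      exact h1.1 _ (h2.1 y hy)
    · have h3 : (x * z)⁻¹ * y * (x * z) = z⁻¹ * (x⁻¹ * y * x) * z := by group
      rw [h3]
      exact h2.2 _ (h1.2 y hy)
  | inv x _ h1 =>
    refine ⟨fun y hy => ?_, fun y hy => ?_⟩
    · rw [inv_inv]
      exact h1.2 y hy
    · rw [inv_inv]
      exact h1.1 y hy

theorem J_comm (hF : Fil F c) (hp : p.Prime) (hH : IsPGroup p H) (hc : c < p) {i j : ℕ}
    (hi : 1 ≤ i) (hj : 1 ≤ j) : ⁅J F i, J F j⁆ ≤ J F (i + j) := by
  rw [Subgroup.commutator_le]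
  intro x hx y hy
  have hx1 : x ∈ J F 1 := J_anti F hi hx
  have hgen : ∀ (l : ℕ) (h : H), j ≤ l → h ∈ F l → ∀ x ∈ J F i, ⁅x, theta h l⁆ ∈ J F (i + j) := by
    intro l h hl hh x hx
    have hx' := hx
    unfold J at hx'
    induction hx' using Subgroup.closure_induction with
    | mem x hx' =>
      obtain ⟨m, g, hm, hg, rfl⟩ := hx'
      exact J_anti F (by omega) (jc_theta hF hp hH hc (hi.trans hm) (hj.trans hl) hg hh)
    | one =>
      rw [commutatorElement_one_left]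
      exact Subgroup.one_mem _
    | mul x z hx2 hz2 h1 h2 =>
      have h3 : ⁅x * z, theta h l⁆ = x * ⁅z, theta h l⁆ * x⁻¹ * ⁅x, theta h l⁆ := by
        simp only [commutatorElement_def]
        group
      rw [h3]
      exact Subgroup.mul_mem _ ((jc_conj hF hp hH hc (by omega) (J_anti F hi hx2)).1 _ (h2 hz2))
        (h1 hx2)
    | inv x hx2 h1 =>
      have h3 : ⁅x⁻¹, theta h l⁆ = x⁻¹ * ⁅x, theta h l⁆⁻¹ * x := by
        simp only [commutatorElement_def]
        group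
      rw [h3]
      exact (jc_conj hF hp hH hc (by omega) (J_anti F hi hx2)).2 _ (Subgroup.inv_mem _ (h1 hx2))
  have hy' := hy
  unfold J at hy'
  induction hy' using Subgroup.closure_induction with
  | mem y hy' =>
    obtain ⟨l, h, hl, hh, rfl⟩ := hy'
    exact hgen l h hl hh x hx
  | one =>
    rw [commutatorElement_one_right]
    exact Subgroup.one_mem _
  | mul y z hy2 hz2 h1 h2 =>
    have h3 : ⁅x, y * z⁆ = ⁅x, y⁆ * (y * ⁅x, z⁆ * y⁻¹) := by
      simp only [commutatorElement_def]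
      group
    rw [h3]
    exact Subgroup.mul_mem _ (h1 hy2)
      ((jc_conj hF hp hH hc (by omega) (J_anti F hj hy2)).1 _ (h2 hz2))
  | inv y hy2 h1 =>
    have h3 : ⁅x, y⁻¹⁆ = y⁻¹ * ⁅x, y⁆⁻¹ * y := by
      simp only [commutatorElement_def]
      group
    rw [h3]
    exact (jc_conj hF hp hH hc (by omega) (J_anti F hj hy2)).2 _ (Subgroup.inv_mem _ (h1 hy2))

theorem J_conj (hF : Fil F c) (hp : p.Prime) (hH : IsPGroup p H) (hc : c < p) {k : ℕ}
    (hk : 1 ≤ k) {x y : ℕ → H} (hx : x ∈ J F 1) (hy : y ∈ J F k) : x * y * x⁻¹ ∈ J F k := by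
  exact (jc_conj hF hp hH hc hk hx).1 y hy

end Pool.Agent.LP
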