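import Pool.Agent.LP.Ju

/-!
# LP / Je: the sum defined at level `1` and the sum defined at level `k` agree on `F k`
-/

set_option autoImplicit false

open scoped commutatorElement

namespace Pool.Agent.LP

variable {H : Type} [Group H] [Finite H] {F : ℕ → Subgroup H} {c p : ℕ}

theorem J_exp (hF : Fil F c) (hp : p.Prime) (hH : IsPGroup p H) (hc : c < p) {k : ℕ}
    (hk : 1 ≤ k) {w w' v : H} (hw : w ∈ F k) (hw' : w' ∈ F k) (hv : v ∈ F 1)
    (h : (theta v 1)⁻¹ * (theta w 1 * theta w' 1) ∈ J F 2) :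
    v ∈ F k ∧ (theta v k)⁻¹ * (theta w k * theta w' k) ∈ J F (k + 1) := by
  have hF' := hF.mul hk
  have e1 : ∀ g : H, g ∈ F (k * 1) ↔ g ∈ F k := by
    intro g
    rw [mul_one]
  have hq : theta w 1 * theta w' 1 ∈ J (fun i => F (k * i)) 1 :=
    (J (fun i => F (k * i)) 1).mul_mem (theta_mem le_rfl ((e1 w).2 hw))
      (theta_mem le_rfl ((e1 w').2 hw'))
  obtain ⟨v', hv', h'⟩ := J_rep hF' hp hH hc le_rfl hq
  have hv'k : v' ∈ F k := (e1 v').1 hv'
  have hle : J (fun i => F (k * i)) 2 ≤ J F 2 := by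
    rw [J, Subgroup.closure_le]
    rintro _ ⟨m, g, hm, hg, rfl⟩
    exact theta_mem hm (hF.anti (Nat.le_mul_of_pos_left m hk) hg)
  have hvv : v = v' := by
    refine J_uniq hF hp hH hc le_rfl hv (hF.anti hk hv'k) ?_
    have h2 := (J F 2).mul_mem h ((J F 2).inv_mem (hle h'))
    have e : (theta v 1)⁻¹ * (theta w 1 * theta w' 1) *
      ((theta v' 1)⁻¹ * (theta w 1 * theta w' 1))⁻¹ = (theta v 1)⁻¹ * theta v' 1 := by group
    rw [e] at h2
    exact h2
  subst hvv
  refine ⟨hv'k, ?_⟩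
  let σ : (ℕ → H) →* (ℕ → H) :=
    { toFun := fun q t => q (t ^ k)
      map_one' := rfl
      map_mul' := fun _ _ => rfl }
  have hσ : J (fun i => F (k * i)) (1 + 1) ≤ (J F (k + 1)).comap σ := by
    rw [J, Subgroup.closure_le]
    rintro _ ⟨m, g, hm, hg, rfl⟩
    show (fun t => theta g m (t ^ k)) ∈ J F (k + 1)
    rw [theta_comp]
    refine theta_mem ?_ hg
    have : k * 2 ≤ k * m := Nat.mul_le_mul_left k hm
    omega
  have h3 := hσ h'
  have e2 : ∀ g : H, σ (theta g 1) = theta g k := by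
    intro g
    show (fun t => theta g 1 (t ^ k)) = theta g k
    rw [theta_comp, mul_one]
  have h4 : σ ((theta v 1)⁻¹ * (theta w 1 * theta w' 1)) ∈ J F (k + 1) := h3
  rw [map_mul, map_inv, map_mul, e2, e2, e2] at h4
  exact h4

end Pool.Agent.LP
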