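import Pool.Agent.LP.Pol1
import Pool.Agent.LP.Pol2

/-!
# LP / Ta1: Taylor expansion of polynomial maps in one variable

KEY. If `Pol F sh1 (w1 κ) n k q`, `s ≤ n` and `q t = 1` for all `t < s`, then `q s ∈ F (k + κ * s)`.
Induction on `s` (for all `n, k, q`): `s = 0` is `Pol_values`; for `s + 1` apply the hypothesis to
`D q = fun x => q (x+1) * (q x)⁻¹ ∈ Pol (n-1) (k+κ)`: `D q t = 1` for `t < s`, `D q s = q (s+1)`.

PROOF of `TA1`. Induction on `(c + 1) - i0` (generalising `q`).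
* If `c < i0`: then `q = 1` everywhere: strong induction on `s`: for `s < i0` it is `h0`, for
  `s ≥ i0` the KEY gives `q s ∈ F (κ * s)` and `κ * s ≥ s > c`, so `q s = 1` (`Fil.bot`). So
  `q = 1` is in the closure.
* If `i0 ≤ c`: put `a = q i0`; `a ∈ F (κ * i0)` by the KEY, `a ∈ Q`. Let
  `r = fun s => a ^ (s.choose i0)` and `q' = r⁻¹ * q`. Then `q'` is in all `Pol n 0` (`Pol_pow1`,
  `Pol_inv`, `Pol_mul`), has values in `Q`, and `q' s = 1` for `s < i0 + 1` (`s.choose i0 = 0`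
  for `s < i0`, `i0.choose i0 = 1`). Induction gives `q'` in the closure for `i0 + 1`, which is
  contained in the closure for `i0`; and `q = r * q'`.
-/

set_option autoImplicit false

namespace Pool.Agent.LP

private theorem ta1_key {H : Type} [Group H] {F : ℕ → Subgroup H} (κ : ℕ) :
    ∀ (s n k : ℕ) (q : ℕ → H), Pol F sh1 (w1 κ) n k q → s ≤ n → (∀ t < s, q t = 1) →
      q s ∈ F (k + κ * s) := by
  intro s
  induction s with
  | zero =>
    intro n k q hq _ _
    have h := Pol_values hq 0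
    simpa using h
  | succ s ih =>
    intro n k q hq hn h0
    obtain ⟨n, rfl⟩ : ∃ m, n = m + 1 := ⟨n - 1, by omega⟩
    have h1 := hq.2 ()
    have h2 := ih n (k + w1 κ ()) (fun x => q (sh1 () x) * (q x)⁻¹) h1 (by omega) (by
      intro t ht
      show q (t + 1) * (q t)⁻¹ = 1
      rw [h0 (t + 1) (by omega), h0 t (by omega)]
      simp)
    have h3 : q (sh1 () s) * (q s)⁻¹ = q (s + 1) := by
      show q (s + 1) * (q s)⁻¹ = q (s + 1)
      rw [h0 s (by omega)]
      simp
    have h4 : k + w1 κ () + κ * s = k + κ * (s + 1) := by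
      show k + κ + κ * s = k + κ * (s + 1)
      ring
    rw [← h4]
    have h5 : (fun x => q (sh1 () x) * (q x)⁻¹) s = q (s + 1) := h3
    rw [← h5]
    exact h2

theorem TA1 {H : Type} [Group H] {F : ℕ → Subgroup H} {c : ℕ} (hF : Fil F c) (κ : ℕ)
    (hκ : 1 ≤ κ) (Q : Subgroup H) (q : ℕ → H) (hq : ∀ n, Pol F sh1 (w1 κ) n 0 q)
    (hQ : ∀ s, q s ∈ Q) (i0 : ℕ) (h0 : ∀ s < i0, q s = 1) :
    q ∈ Subgroup.closure {r : ℕ → H | ∃ (i : ℕ) (a : H), i0 ≤ i ∧ a ∈ F (κ * i) ∧ a ∈ Q ∧
      r = fun s => a ^ (s.choose i)} := by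
  obtain ⟨m, hm⟩ : ∃ m, c + 1 - i0 = m := ⟨_, rfl⟩
  induction m generalizing i0 q with
  | zero =>
    have h1 : ∀ s, q s = 1 := by
      intro s
      induction s using Nat.strong_induction_on with
      | _ s ih =>
        by_cases hs : s < i0
        · exact h0 s hs
        · have h2 := ta1_key κ s s 0 q (hq s) le_rfl ih
          refine hF.bot (k := 0 + κ * s) ?_ h2
          have h3 : s ≤ κ * s := Nat.le_mul_of_pos_left _ hκ
          omega
    have h2 : q = 1 := funext h1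
    rw [h2]
    exact Subgroup.one_mem _
  | succ m ih =>
    have ha : q i0 ∈ F (κ * i0) := by
      have := ta1_key κ i0 i0 0 q (hq i0) le_rfl h0
      rwa [zero_add] at this
    have hr : ∀ n, Pol F sh1 (w1 κ) n 0 (fun s => q i0 ^ (s.choose i0)) := by
      intro n
      refine Pol_pow1 hF κ n 0 i0 (q i0) ?_
      rwa [zero_add]
    have hrq : ∀ n, Pol F sh1 (w1 κ) n 0 ((fun s => q i0 ^ (s.choose i0))⁻¹ * q) := fun n =>
      Pol_mul hF (Pol_inv hF (hr n)) (hq n)
    have h1 := ih ((fun s => q i0 ^ (s.choose i0))⁻¹ * q) hrq (by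
      intro s
      show (q i0 ^ (s.choose i0))⁻¹ * q s ∈ Q
      exact Q.mul_mem (Q.inv_mem (Q.pow_mem (hQ i0) _)) (hQ s)) (i0 + 1) (by
      intro s hs
      show (q i0 ^ (s.choose i0))⁻¹ * q s = 1
      rcases Nat.lt_succ_iff_lt_or_eq.1 hs with h | h
      · rw [Nat.choose_eq_zero_of_lt h, h0 s h]
        simp
      · rw [h]
        simp) (by omega)
    have h2 : q = (fun s => q i0 ^ (s.choose i0)) *
        ((fun s => q i0 ^ (s.choose i0))⁻¹ * q) := by
      rw [mul_inv_cancel_left]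
    rw [h2]
    refine Subgroup.mul_mem _ (Subgroup.subset_closure ⟨i0, q i0, le_rfl, ha, hQ i0, rfl⟩) ?_
    refine Subgroup.closure_mono ?_ h1
    rintro r ⟨i, a, hi, h3, h4, h5⟩
    exact ⟨i, a, by omega, h3, h4, h5⟩

end Pool.Agent.LP
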