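import Pool.Agent.LP.Bin
import Pool.Agent.LP.Ta1
import Pool.Agent.LP.Jc

/-!
# LP / Jr: every element of `J F k` is `theta w k` modulo `J F (k + 1)`

PROOF.
CLAIM(l) (`k ≤ l`): for `g ∈ F k`, `b ∈ F l` there is `w ∈ F k` with
`(theta w k)⁻¹ * (theta g k * theta b k) ∈ J F (k + 1)`. Downward induction on `l` (induction on
`c + 1 - l`); for `l > c`, `b = 1` (`Fil.bot`) and `w = g` works. Step: let
`q s = ((g * b) ^ s)⁻¹ * g ^ s * b ^ s` for `s : ℕ`.
* `q` is in all `Pol F sh1 (w1 k) n 0` (`Pol_pow1` with `i = 1`, `κ = k`, for `g * b`, `g`, `b ∈ F k`;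
  `Pol_inv`, `Pol_mul`), `q 0 = q 1 = 1`.
* the values of `q` are in `Q = F (k + l)`: this is a normal subgroup and `⁅g, b⁆ ∈ F (k + l)`, so
  `g`, `b` commute modulo it and `(g b)^s ≡ g^s b^s` (e.g. map to `H ⧸ F (k + l)`).
By `TA1` with `i0 = 2`, `q` is in the closure of the functions `s ↦ a ^ (s.choose i)`, `i ≥ 2`,
`a ∈ F (k * i)`, `a ∈ F (k + l)`. Substituting `s = t ^ k` (a group homomorphism): `a = 1`, or
`k * i ≤ c`, so `i < p` and by `BIN` `a ^ ((t^k).choose i)` is the product over `m = 1..i` of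
`theta (a ^ c_m) (k * m)`; for `m ≥ 2` this is in `J F (k + 1)` (`a ∈ F (k i) ≤ F (k m)`,
`k m ≥ k + 1`), for `m = 1` it is `theta b' k` with `b' ∈ F (k + l)`. So
`theta g k * theta b k = theta (g * b) k * z` with `z` in the closure of
`{theta b' k | b' ∈ F (k + l)} ∪ J F (k + 1)`. Finally, for every `z` in this closure and every
`g' ∈ F k` there is `w ∈ F k` with `(theta w k)⁻¹ * (theta g' k * z) ∈ J F (k + 1)`: closure
induction (right multiplication by generators; `Subgroup.closure_induction_right` or similar) using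
CLAIM(k + l) (`k + l > l`), `theta_inv`, and that `J F (k + 1)` is normalised by `J F 1`
(`J_conj`).
J_rep: closure induction: `q = 1`: `w = 1`. Right multiplication by a generator `theta g m`:
if `m = k` use CLAIM(k) (and `J_conj` to move the error term), if `m > k` it is in `J F (k + 1)`;
inverses of generators: `theta_inv`.
-/

set_option autoImplicit false

open scoped commutatorElement

namespace Pool.Agent.LP

variable {H : Type} [Group H] [Finite H] {F : ℕ → Subgroup H} {c p : ℕ}

omit [Finite H] in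
/-- a sum in the exponent -/
private theorem jr_sum {ι : Type} (S : Finset ι) (K : Subgroup (ℕ → H)) (w : H) (d e : ι → ℕ)
    (h : ∀ x ∈ S, theta (w ^ d x) (e x) ∈ K) :
    (fun t => w ^ (∑ x ∈ S, d x * t ^ e x)) ∈ K := by
  classical
  induction S using Finset.induction_on with
  | empty =>
    simp only [Finset.sum_empty, pow_zero]
    exact K.one_mem
  | insert a S ha ih =>
    have h1 : (fun t => w ^ (∑ x ∈ insert a S, d x * t ^ e x)) =
        theta (w ^ d a) (e a) * fun t => w ^ (∑ x ∈ S, d x * t ^ e x) := by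
      funext t
      rw [Finset.sum_insert ha, pow_add, Pi.mul_apply, theta_apply, ← pow_mul]
    rw [h1]
    exact K.mul_mem (h a (Finset.mem_insert_self a S))
      (ih fun x hx => h x (Finset.mem_insert_of_mem hx))

/-- substitution of `t ^ k` -/
private def jrSub (H : Type) [Group H] (k : ℕ) : (ℕ → H) →* (ℕ → H) where
  toFun q := fun t => q (t ^ k)
  map_one' := rfl
  map_mul' _ _ := rfl

/-- `theta g k * z` is `theta w k` modulo `J F (k + 1)` -/
private def JR (F : ℕ → Subgroup H) (k : ℕ) (z : ℕ → H) : Prop :=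
  ∀ g ∈ F k, ∃ w ∈ F k, (theta w k)⁻¹ * (theta g k * z) ∈ J F (k + 1)

private theorem JR.mul (hF : Fil F c) (hp : p.Prime) (hH : IsPGroup p H) (hc : c < p) {k : ℕ}
    {z z' : ℕ → H} (hz' : z' ∈ J F 1) (h : JR F k z) (h' : JR F k z') : JR F k (z * z') := by
  intro g hg
  obtain ⟨w, hw, h1⟩ := h g hg
  obtain ⟨w', hw', h2⟩ := h' w hw
  refine ⟨w', hw', ?_⟩
  have h3 := J_conj hF hp hH hc (by omega : 1 ≤ k + 1) (Subgroup.inv_mem _ hz') h1
  have h4 : (theta w' k)⁻¹ * (theta g k * (z * z')) =
      ((theta w' k)⁻¹ * (theta w k * z')) *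
        (z'⁻¹ * ((theta w k)⁻¹ * (theta g k * z)) * z'⁻¹⁻¹) := by group
  rw [h4]
  exact Subgroup.mul_mem _ h2 h3

omit [Finite H] in
private theorem JR.of_mem {k : ℕ} {z : ℕ → H} (hz : z ∈ J F (k + 1)) : JR F k z := by
  intro g hg
  refine ⟨g, hg, ?_⟩
  rwa [inv_mul_cancel_left]

private theorem jr_claim (hF : Fil F c) (hp : p.Prime) (hH : IsPGroup p H) (hc : c < p) {k : ℕ}
    (hk : 1 ≤ k) (n : ℕ) : ∀ l, k ≤ l → c + 1 - l ≤ n → ∀ b ∈ F l, JR F k (theta b k) := by
  induction n with
  | zero =>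
    intro l hl hn b hb
    have hb1 := hF.bot (show c < l by omega) hb
    rw [hb1, theta_id]
    exact JR.of_mem (Subgroup.one_mem _)
  | succ n ih =>
    intro l hl hn b hb g hg
    by_cases hlc : c < l
    · have hb1 := hF.bot hlc hb
      rw [hb1, theta_id]
      exact JR.of_mem (Subgroup.one_mem _) g hg
    have hbk : b ∈ F k := hF.anti hl hb
    have hgb : g * b ∈ F k := Subgroup.mul_mem _ hg hbk
    obtain ⟨q, hq⟩ : ∃ q : ℕ → H, q = (fun s : ℕ => (g * b) ^ s)⁻¹ *
        ((fun s : ℕ => g ^ s) * fun s : ℕ => b ^ s) := ⟨_, rfl⟩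
    have hq' : ∀ s, q s = ((g * b) ^ s)⁻¹ * (g ^ s * b ^ s) := fun s => by rw [hq]; rfl
    have hP : ∀ n, Pol F sh1 (w1 k) n 0 q := by
      intro n
      have hpow : ∀ x ∈ F k, Pol F sh1 (w1 k) n 0 (fun s : ℕ => x ^ s) := by
        intro x hx
        have h1 := Pol_pow1 hF k n 0 1 x (by simpa using hx)
        simpa only [Nat.choose_one_right] using h1
      rw [hq]
      exact Pol_mul hF (Pol_inv hF (hpow _ hgb)) (Pol_mul hF (hpow _ hg) (hpow _ hbk))
    have hQ : ∀ s, q s ∈ F (k + l) := by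
      intro s
      have hn' : (F (k + l)).Normal := hF.normal _
      rw [← QuotientGroup.eq_one_iff, hq']
      have hcom : Commute (g : H ⧸ F (k + l)) (b : H ⧸ F (k + l)) := by
        have h1 : ⁅g, b⁆ ∈ F (k + l) := hF.comm k l (Subgroup.commutator_mem_commutator hg hb)
        rw [← QuotientGroup.eq_one_iff, commutatorElement_def] at h1
        have h2 : (g : H ⧸ F (k + l)) * b * (g : H ⧸ F (k + l))⁻¹ * (b : H ⧸ F (k + l))⁻¹ = 1 := h1
        change (g : H ⧸ F (k + l)) * b = b * g
        rw [mul_inv_eq_one, mul_inv_eq_iff_eq_mul] at h2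
        exact h2
      have h3 := hcom.mul_pow s
      change (((g : H ⧸ F (k + l)) * b) ^ s)⁻¹ * ((g : H ⧸ F (k + l)) ^ s * b ^ s) = 1
      rw [h3, inv_mul_cancel]
    have hT := TA1 hF k hk (F (k + l)) q hP hQ 2 (fun s hs => by
      rw [hq']
      interval_cases s
      · simp
      · simp)
    have h4 := Subgroup.mem_map_of_mem (jrSub H k) hT
    rw [MonoidHom.map_closure] at h4
    obtain ⟨Z, hZ⟩ : ∃ Z : Subgroup (ℕ → H), Z = Subgroup.closure
        ({z | ∃ b' ∈ F (k + l), z = theta b' k} ∪ (J F (k + 1) : Set (ℕ → H))) := ⟨_, rfl⟩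
    have h5 : jrSub H k q ∈ Z := by
      refine (Subgroup.closure_le _).2 ?_ h4
      rintro _ ⟨_, ⟨i, a, hi, ha, haQ, rfl⟩, rfl⟩
      change jrSub H k (fun s => a ^ (s.choose i)) ∈ Z
      by_cases hcase : c < k * i
      · have ha1 := hF.bot hcase ha
        have h6 : jrSub H k (fun s => a ^ (s.choose i)) = 1 := by
          funext t
          rw [ha1]
          exact one_pow _
        rw [h6]
        exact Subgroup.one_mem _
      · have hip : i < p := by nlinarith
        obtain ⟨d, hd⟩ := BIN hp hH i (by omega) hip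
        have h6 : jrSub H k (fun s => a ^ (s.choose i)) =
            fun t => a ^ (∑ m ∈ Finset.Icc 1 i, d m * t ^ (k * m)) := by
          funext t
          change a ^ ((t ^ k).choose i) = _
          rw [hd]
          simp only [← pow_mul]
        rw [h6]
        refine jr_sum _ _ a d (fun m => k * m) ?_
        intro m hm
        rw [Finset.mem_Icc] at hm
        rw [hZ]
        apply Subgroup.subset_closure
        rcases Nat.lt_or_ge 1 m with h7 | h7
        · right
          have h8 : k * m ≤ k * i := Nat.mul_le_mul_left k hm.2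
          have h9 : k + 1 ≤ k * m := by nlinarith
          exact theta_mem h9 (Subgroup.pow_mem _ (hF.anti h8 ha) _)
        · left
          have h8 : m = 1 := by omega
          rw [h8, mul_one]
          exact ⟨_, Subgroup.pow_mem _ haQ _, rfl⟩
    have h6 : theta g k * theta b k = theta (g * b) k * jrSub H k q := by
      funext t
      change theta g k t * theta b k t = theta (g * b) k t * q (t ^ k)
      rw [hq', theta_apply, theta_apply, theta_apply, mul_inv_cancel_left]
    have hZ1 : Z ≤ J F 1 := by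
      rw [hZ, Subgroup.closure_le]
      rintro z (⟨b', hb', rfl⟩ | hz)
      · exact theta_mem hk (hF.anti (Nat.le_add_right k l) hb')
      · exact J_anti F (by omega) hz
    have h7 : ∀ z ∈ Z, JR F k z := by
      intro z hz
      rw [hZ] at hz hZ1
      have hgen : ∀ y ∈ ({z | ∃ b' ∈ F (k + l), z = theta b' k} ∪
          (J F (k + 1) : Set (ℕ → H))), JR F k y ∧ JR F k y⁻¹ := by
        rintro y (⟨b', hb', rfl⟩ | hy)
        · refine ⟨ih (k + l) (by omega) (by omega) b' hb', ?_⟩
          rw [theta_inv]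
          exact ih (k + l) (by omega) (by omega) b'⁻¹ (Subgroup.inv_mem _ hb')
        · exact ⟨JR.of_mem hy, JR.of_mem (Subgroup.inv_mem _ hy)⟩
      induction hz using Subgroup.closure_induction_right with
      | one => exact JR.of_mem (Subgroup.one_mem _)
      | mul_right x hx y hy h8 =>
        exact JR.mul hF hp hH hc (hZ1 (Subgroup.subset_closure hy)) h8 (hgen y hy).1
      | mul_inv_cancel x hx y hy h8 =>
        exact JR.mul hF hp hH hc (Subgroup.inv_mem _ (hZ1 (Subgroup.subset_closure hy))) h8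
          (hgen y hy).2
    rw [h6]
    exact h7 _ h5 _ hgb

theorem J_rep (hF : Fil F c) (hp : p.Prime) (hH : IsPGroup p H) (hc : c < p) {k : ℕ}
    (hk : 1 ≤ k) {q : ℕ → H} (hq : q ∈ J F k) :
    ∃ w ∈ F k, (theta w k)⁻¹ * q ∈ J F (k + 1) := by
  have key : ∀ (m : ℕ) (g : H), k ≤ m → g ∈ F m → ∀ x : ℕ → H,
      (∃ w ∈ F k, (theta w k)⁻¹ * x ∈ J F (k + 1)) →
      ∃ w ∈ F k, (theta w k)⁻¹ * (x * theta g m) ∈ J F (k + 1) := by
    rintro m g hm hg x ⟨w, hw, h1⟩
    have hy : theta g m ∈ J F 1 := theta_mem (hk.trans hm) hg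
    rcases Nat.lt_or_ge k m with h2 | h2
    · refine ⟨w, hw, ?_⟩
      rw [← mul_assoc]
      exact Subgroup.mul_mem _ h1 (theta_mem h2 hg)
    · have h3 : m = k := by omega
      rw [h3] at hg hy ⊢
      obtain ⟨w', hw', h4⟩ := jr_claim hF hp hH hc hk (c + 1 - k) k le_rfl le_rfl g hg w hw
      refine ⟨w', hw', ?_⟩
      have h5 := J_conj hF hp hH hc (by omega : 1 ≤ k + 1) (Subgroup.inv_mem _ hy) h1
      have h6 : (theta w' k)⁻¹ * (x * theta g k) =
          ((theta w' k)⁻¹ * (theta w k * theta g k)) *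
            ((theta g k)⁻¹ * ((theta w k)⁻¹ * x) * (theta g k)⁻¹⁻¹) := by group
      rw [h6]
      exact Subgroup.mul_mem _ h4 h5
  unfold J at hq
  induction hq using Subgroup.closure_induction_right with
  | one =>
    refine ⟨1, Subgroup.one_mem _, ?_⟩
    rw [theta_id, mul_one, inv_one]
    exact Subgroup.one_mem _
  | mul_right x hx y hy h8 =>
    obtain ⟨m, g, hm, hg, rfl⟩ := hy
    exact key m g hm hg x h8
  | mul_inv_cancel x hx y hy h8 =>
    obtain ⟨m, g, hm, hg, rfl⟩ := hy
    rw [theta_inv]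
    exact key m g⁻¹ hm (Subgroup.inv_mem _ hg) x h8

end Pool.Agent.LP
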