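import Pool.Agent.LP.Bas

/-!
# LP / Vdm: polynomials over finite abelian p-groups are determined by their values

`pev c t = Π_d c_d ^ (t ^ d)`.

PROOF of `VDM`: the Vandermonde matrix over `ℤ` has determinant prime to `p`; multiply by its
adjugate.

PROOF of `VCT`. For `T'` with `|T'| = n`, `T ⊆ T' ⊆ range p` (exists as `|T| ≤ n ≤ p`) the
homomorphism `(Fin n → Y) → (T' → Y)`, `c ↦ (pev c t)_t` is injective (`VDM` with `Q = ⊥`), hence
bijective as both sides have `|Y| ^ n` elements. So `c ↦ (pev c t)_{t ∈ T}` is surjective, and its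
kernel has `|Y| ^ n / |Y| ^ |T|` elements.
-/

set_option autoImplicit false

namespace Pool.Agent.LP

private theorem vd_coprime {p n : ℕ} (hp : p.Prime) (τ : Fin n → ℕ) (hτ : Function.Injective τ)
    (hlt : ∀ i, τ i < p) :
    IsCoprime (Matrix.vandermonde (fun i => (τ i : ℤ))).det (p : ℤ) := by
  rw [Matrix.det_vandermonde]
  refine IsCoprime.prod_left fun i _ => IsCoprime.prod_left fun j hj => ?_
  have hij : i ≠ j := (Finset.mem_Ioi.1 hj).ne
  have hne : (τ j : ℤ) - τ i ≠ 0 := by
    intro h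
    apply hij
    apply hτ
    have : (τ j : ℤ) = τ i := by linarith
    exact (by exact_mod_cast this.symm)
  rw [Int.isCoprime_iff_gcd_eq_one, Int.gcd_comm]
  have hp' : Prime (p : ℤ) := Nat.prime_iff_prime_int.1 hp
  have hnd : ¬ (p : ℤ) ∣ (τ j : ℤ) - τ i := by
    intro hd
    have h1 : |(τ j : ℤ) - τ i| < p := by
      have := hlt i
      have := hlt j
      rw [abs_lt]
      constructor <;> omega
    have h2 := Int.le_of_dvd (abs_pos.2 hne) ((dvd_abs _ _).2 hd)
    omega
  have := (hp'.irreducible.coprime_iff_not_dvd).2 hnd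
  exact Int.isCoprime_iff_gcd_eq_one.1 this

private theorem vd_zpow {Y ι : Type} [CommGroup Y] (s : Finset ι) (f : ι → ℤ) (a : Y) :
    ∏ i ∈ s, a ^ f i = a ^ ∑ i ∈ s, f i := by
  classical
  induction s using Finset.induction_on with
  | empty => simp
  | insert i s hi ih => rw [Finset.prod_insert hi, Finset.sum_insert hi, zpow_add, ih]

theorem VDM {Y : Type} [CommGroup Y] [Finite Y] {p : ℕ} (hp : p.Prime) (hY : IsPGroup p Y)
    (n : ℕ) (c : Fin n → Y) (Q : Subgroup Y) (T : Finset ℕ) (hT : ∀ t ∈ T, t < p)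
    (hn : n ≤ T.card) (h : ∀ t ∈ T, pev c t ∈ Q) : ∀ d, c d ∈ Q := by
  obtain ⟨T1, hT1, hc1⟩ := Finset.exists_subset_card_eq hn
  let τ : Fin n → ℕ := fun i => T1.orderEmbOfFin hc1 i
  have hτ : Function.Injective τ := (T1.orderEmbOfFin hc1).injective
  have hmem : ∀ i, τ i ∈ T := fun i => hT1 (Finset.orderEmbOfFin_mem T1 hc1 i)
  have hcop := vd_coprime hp τ hτ (fun i => hT _ (hmem i))
  set A := Matrix.vandermonde (fun i => (τ i : ℤ)) with hA
  intro e
  -- the power `c e ^ det`
  have key : ∏ i, (pev c (τ i)) ^ (A.adjugate e i) = c e ^ A.det := by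
    have h1 : ∀ i, (pev c (τ i)) ^ (A.adjugate e i) =
        ∏ d, c d ^ (A.adjugate e i * A i d) := by
      intro i
      rw [pev, ← Finset.prod_zpow]
      refine Finset.prod_congr rfl fun d _ => ?_
      rw [mul_comm, zpow_mul]
      congr 1
      rw [hA, Matrix.vandermonde_apply, ← Nat.cast_pow, zpow_natCast]
    simp only [h1]
    rw [Finset.prod_comm]
    have h2 : ∀ d, ∏ i, c d ^ (A.adjugate e i * A i d) = c d ^ ((A.adjugate * A) e d) := by
      intro d
      rw [Matrix.mul_apply]
      exact vd_zpow _ _ _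
    simp only [h2, Matrix.adjugate_mul, Matrix.smul_apply, Matrix.one_apply, smul_eq_mul]
    rw [Finset.prod_eq_single e]
    · simp
    · intro d _ hd
      simp [Ne.symm hd]
    · intro h
      exact absurd (Finset.mem_univ e) h
  have hmemQ : c e ^ A.det ∈ Q := by
    rw [← key]
    exact Q.prod_mem fun i _ => Q.zpow_mem (h _ (hmem i)) _
  obtain ⟨k, hk⟩ := hY (c e)
  obtain ⟨u, v, huv⟩ := (hcop.pow_right (n := k))
  have h3 : c e = (c e ^ A.det) ^ u := by
    have h4 : c e = c e ^ (u * A.det + v * (p : ℤ) ^ k) := by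
      rw [huv, zpow_one]
    rw [zpow_add, zpow_mul, mul_comm v, zpow_mul (c e) ((p : ℤ) ^ k) v] at h4
    have h5 : c e ^ ((p : ℤ) ^ k) = 1 := by
      rw [← Nat.cast_pow, zpow_natCast, hk]
    rw [h5, one_zpow, mul_one, ← zpow_mul, mul_comm u, zpow_mul] at h4
    exact h4
  rw [h3]
  exact Q.zpow_mem hmemQ u

private def pevHom {Y : Type} [CommGroup Y] (n : ℕ) (T : Finset ℕ) :
    (Fin n → Y) →* (T → Y) where
  toFun c t := pev c t
  map_one' := by
    funext t
    exact pev_one _
  map_mul' := by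
    intro a b
    funext t
    exact pev_mul a b _

theorem VCT {Y : Type} [CommGroup Y] [Finite Y] {p : ℕ} (hp : p.Prime) (hY : IsPGroup p Y)
    (n : ℕ) (T : Finset ℕ) (hT : ∀ t ∈ T, t < p) (hn : T.card ≤ n) (hnp : n ≤ p) :
    Nat.card {c : Fin n → Y // ∀ t ∈ T, pev c t = 1} * Nat.card Y ^ T.card =
      Nat.card Y ^ n := by
  classical
  have hsub : T ⊆ Finset.range p := fun t ht => Finset.mem_range.2 (hT t ht)
  obtain ⟨T', hTT', hT'p, hcard⟩ := Finset.exists_subsuperset_card_eq hsub hn
    (by rw [Finset.card_range]; exact hnp)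
  have hinj : Function.Injective (pevHom (Y := Y) n T') := by
    rw [injective_iff_map_eq_one]
    intro c hc
    have := VDM hp hY n c ⊥ T' (fun t ht => Finset.mem_range.1 (hT'p ht)) hcard.ge (by
      intro t ht
      rw [Subgroup.mem_bot]
      exact congrFun hc ⟨t, ht⟩)
    funext d
    exact Subgroup.mem_bot.1 (this d)
  have : Fintype Y := Fintype.ofFinite Y
  have hbij : Function.Bijective (pevHom (Y := Y) n T') := by
    rw [Fintype.bijective_iff_injective_and_card]
    refine ⟨hinj, ?_⟩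
    rw [Fintype.card_fun, Fintype.card_fun, Fintype.card_fin, Fintype.card_coe, hcard]
  have hsurj : Function.Surjective (pevHom (Y := Y) n T) := by
    intro y
    obtain ⟨c, hc⟩ := hbij.2 (fun t => if h : (t : ℕ) ∈ T then y ⟨t, h⟩ else 1)
    refine ⟨c, ?_⟩
    funext t
    have h1 := congrFun hc ⟨t, hTT' t.2⟩
    simp only [t.2, dif_pos, Subtype.coe_eta] at h1
    exact h1
  have hker : Nat.card {c : Fin n → Y // ∀ t ∈ T, pev c t = 1} =
      Nat.card (pevHom (Y := Y) n T).ker := by
    refine Nat.card_congr (Equiv.subtypeEquivRight fun c => ?_)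
    rw [MonoidHom.mem_ker]
    constructor
    · intro h
      funext t
      exact h t t.2
    · intro h t ht
      exact congrFun h ⟨t, ht⟩
  have h2 := Subgroup.card_eq_card_quotient_mul_card_subgroup (pevHom (Y := Y) n T).ker
  have h3 : Nat.card ((Fin n → Y) ⧸ (pevHom (Y := Y) n T).ker) = Nat.card Y ^ T.card := by
    rw [Nat.card_congr (QuotientGroup.quotientKerEquivOfSurjective _ hsurj).toEquiv]
    simp [Nat.card_eq_fintype_card]
  rw [hker, mul_comm, ← h3, ← h2]
  simp [Nat.card_eq_fintype_card]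

end Pool.Agent.LP
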