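import Pool.Agent.LP.Jr
import Pool.Agent.LP.Vdm

/-!
# LP / Ju: uniqueness of the representative

Every `z ∈ J F j` is an ordered product `theta (w j) j * theta (w (j + 1)) (j + 1) * ...` with
`w m ∈ F m` (`JuAux.rep`); by induction on `n`, `w⁻¹ * w'` and all `w m` are in `F n` (Vandermonde
in `F n / F (n + 1)`).
-/

set_option autoImplicit false

open scoped commutatorElement

namespace Pool.Agent.LP

variable {H : Type} [Group H] [Finite H] {F : ℕ → Subgroup H} {c p : ℕ}

namespace JuAux

/-- `theta (w j) j * theta (w (j + 1)) (j + 1) * ... ` with `l` factors -/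
def pr {H : Type} [Group H] (w : ℕ → H) : ℕ → ℕ → ℕ → H
  | _, 0 => 1
  | j, l + 1 => theta (w j) j * pr w (j + 1) l

theorem pr_congr {H : Type} [Group H] (w w' : ℕ → H) (l : ℕ) :
    ∀ j, (∀ m, j ≤ m → w m = w' m) → pr w j l = pr w' j l := by
  induction l with
  | zero => intro j _; rfl
  | succ l ih =>
    intro j h
    show theta (w j) j * pr w (j + 1) l = theta (w' j) j * pr w' (j + 1) l
    rw [h j le_rfl, ih (j + 1) (fun m hm => h m (by omega))]

theorem rep (hF : Fil F c) (hp : p.Prime) (hH : IsPGroup p H) (hc : c < p) (l : ℕ) :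
    ∀ j, 1 ≤ j → j + l = c + 1 → ∀ z ∈ J F j, ∃ w : ℕ → H, (∀ m, w m ∈ F m) ∧ z = pr w j l := by
  induction l with
  | zero =>
    intro j hj hjl z hz
    refine ⟨fun _ => 1, fun m => (F m).one_mem, ?_⟩
    rw [J_bot hF (by omega), Subgroup.mem_bot] at hz
    exact hz
  | succ l ih =>
    intro j hj hjl z hz
    obtain ⟨w0, hw0, h0⟩ := J_rep hF hp hH hc hj hz
    obtain ⟨w', hw', h'⟩ := ih (j + 1) (by omega) (by omega) _ h0
    refine ⟨Function.update w' j w0, ?_, ?_⟩
    · intro m
      by_cases hm : m = j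
      · subst hm
        rw [Function.update_self]
        exact hw0
      · rw [Function.update_of_ne hm]
        exact hw' m
    · show z = theta (Function.update w' j w0 j) j * pr (Function.update w' j w0) (j + 1) l
      rw [pr_congr (Function.update w' j w0) w' l (j + 1)
        (fun m hm => Function.update_of_ne (by omega) _ _), ← h', Function.update_self]
      group

theorem pr_mod {H Y : Type} [Group H] [CommGroup Y] (K : Subgroup H) (φ : K →* Y) (w : ℕ → H)
    (u : ℕ → Y) (t l : ℕ) :
    ∀ j, (∀ m, j ≤ m → ∃ h : w m ∈ K, φ ⟨w m, h⟩ = u m) →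
      ∃ h : pr w j l t ∈ K, φ ⟨pr w j l t, h⟩ = ∏ i ∈ Finset.range l, u (j + i) ^ (t ^ (j + i)) := by
  induction l with
  | zero =>
    intro j _
    refine ⟨K.one_mem, ?_⟩
    rw [Finset.range_zero, Finset.prod_empty]
    exact map_one φ
  | succ l ih =>
    intro j h
    obtain ⟨h1, h2⟩ := h j le_rfl
    obtain ⟨h3, h4⟩ := ih (j + 1) (fun m hm => h m (by omega))
    refine ⟨K.mul_mem (K.pow_mem h1 _) h3, ?_⟩
    have e : (⟨pr w j (l + 1) t, K.mul_mem (K.pow_mem h1 (t ^ j)) h3⟩ : K) =
      ⟨w j, h1⟩ ^ (t ^ j) * ⟨pr w (j + 1) l t, h3⟩ := rfl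
    rw [e, map_mul, map_pow, h2, h4, Finset.prod_range_succ', mul_comm]
    congr 1
    refine Finset.prod_congr rfl fun i _ => ?_
    rw [show j + 1 + i = j + (i + 1) by omega]

theorem exY (hH : IsPGroup p H) (K N : Subgroup H) (hN : N.Normal)
    (hcm : ∀ a ∈ K, ∀ b ∈ K, ⁅a, b⁆ ∈ N) :
    ∃ (Y : Type) (_ : CommGroup Y) (φ : K →* Y), Finite Y ∧ IsPGroup p Y ∧
      ∀ a : K, φ a = 1 ↔ (a : H) ∈ N := by
  have := hN
  have hcomm : ∀ a b : K ⧸ N.subgroupOf K, a * b = b * a := by
    intro a b
    induction a using QuotientGroup.induction_on with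
    | H a =>
    induction b using QuotientGroup.induction_on with
    | H b =>
    rw [← QuotientGroup.mk_mul, ← QuotientGroup.mk_mul, QuotientGroup.eq, Subgroup.mem_subgroupOf]
    have h := hcm _ (K.inv_mem b.2) _ (K.inv_mem a.2)
    rw [commutatorElement_def, inv_inv, inv_inv] at h
    have e : (((a * b)⁻¹ * (b * a) : K) : H) = (b : H)⁻¹ * (a : H)⁻¹ * b * a := by
      push_cast
      group
    rw [e]
    exact h
  refine ⟨K ⧸ N.subgroupOf K, { (inferInstance : Group (K ⧸ N.subgroupOf K)) with
    mul_comm := hcomm }, QuotientGroup.mk' _, inferInstance, ?_, ?_⟩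
  · exact (hH.to_subgroup K).to_quotient _
  · intro a
    exact (QuotientGroup.eq_one_iff a).trans Subgroup.mem_subgroupOf

end JuAux

open JuAux

theorem J_uniq (hF : Fil F c) (hp : p.Prime) (hH : IsPGroup p H) (hc : c < p) {k : ℕ}
    (hk : 1 ≤ k) {w w' : H} (hw : w ∈ F k) (hw' : w' ∈ F k)
    (h : (theta w k)⁻¹ * theta w' k ∈ J F (k + 1)) : w = w' := by
  by_cases hkc : c < k
  · rw [hF.bot hkc hw, hF.bot hkc hw']
  have hkc : k ≤ c := not_lt.1 hkc
  obtain ⟨wm, hwm, hz⟩ := rep hF hp hH hc (c - k) (k + 1) (by omega) (by omega) _ h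
  have key : ∀ d, k + d ≤ c + 1 → w⁻¹ * w' ∈ F (k + d) ∧ ∀ m, k < m → wm m ∈ F (k + d) := by
    intro d
    induction d with
    | zero =>
      intro _
      exact ⟨(F k).mul_mem ((F k).inv_mem hw) hw', fun m hm => hF.anti (by omega) (hwm m)⟩
    | succ d ih =>
      intro hd
      obtain ⟨hv, hum⟩ := ih (by omega)
      set n := k + d with hn
      have hnc : n ≤ c := by omega
      have hn1 : 1 ≤ n := by omega
      rw [show k + (d + 1) = n + 1 by omega]
      have hN : (F (n + 1)).Normal := hF.normal (n + 1)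
      obtain ⟨Y, _, φ, hYf, hYp, hφ⟩ := exY (p := p) hH (F n) (F (n + 1)) hN
        (fun a ha b hb => hF.anti (show n + 1 ≤ n + n by omega)
          (hF.comm n n (Subgroup.commutator_mem_commutator ha hb)))
      have hφeq : ∀ a b : F n, (a : H)⁻¹ * b ∈ F (n + 1) → φ a = φ b := by
        intro a b hab
        have := (hφ (a⁻¹ * b)).2 hab
        rw [map_mul, map_inv] at this
        exact inv_mul_eq_one.1 this
      -- powers
      have hpow : ∀ s : ℕ, ((w⁻¹ * w') ^ s)⁻¹ * ((w ^ s)⁻¹ * w' ^ s) ∈ F (n + 1) := by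
        intro s
        have hcm : Commute (QuotientGroup.mk w : H ⧸ F (n + 1)) (QuotientGroup.mk (w⁻¹ * w')) := by
          show (QuotientGroup.mk w : H ⧸ F (n + 1)) * QuotientGroup.mk (w⁻¹ * w') =
            QuotientGroup.mk (w⁻¹ * w') * QuotientGroup.mk w
          rw [← QuotientGroup.mk_mul, ← QuotientGroup.mk_mul, QuotientGroup.eq]
          have h1 := hF.anti (show n + 1 ≤ n + k by omega)
            (hF.comm n k (Subgroup.commutator_mem_commutator ((F n).inv_mem hv)
              ((F k).inv_mem hw)))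
          rw [commutatorElement_def, inv_inv, inv_inv] at h1
          have e : (w * (w⁻¹ * w'))⁻¹ * (w⁻¹ * w' * w) = (w⁻¹ * w')⁻¹ * w⁻¹ * (w⁻¹ * w') * w := by
            group
          rw [e]
          exact h1
        have h2 : (QuotientGroup.mk (w' ^ s) : H ⧸ F (n + 1)) =
            QuotientGroup.mk (w ^ s) * QuotientGroup.mk ((w⁻¹ * w') ^ s) := by
          have h3 := hcm.mul_pow s
          rw [← QuotientGroup.mk_mul, mul_inv_cancel_left] at h3
          exact h3
        rw [← QuotientGroup.mk_mul] at h2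
        have h4 := QuotientGroup.eq.1 h2.symm
        have e : (w ^ s * (w⁻¹ * w') ^ s)⁻¹ * w' ^ s =
          ((w⁻¹ * w') ^ s)⁻¹ * ((w ^ s)⁻¹ * w' ^ s) := by group
        rw [← e]
        exact h4
      -- the coefficients
      classical
      let v : F n := ⟨w⁻¹ * w', hv⟩
      let C : ℕ → Y := fun m => if m = k then (φ v)⁻¹ else
        if hm : k < m then φ ⟨wm m, hum m hm⟩ else 1
      have hCk : C k = (φ v)⁻¹ := if_pos rfl
      have hCm : ∀ m (hm : k < m), C m = φ ⟨wm m, hum m hm⟩ := by
        intro m hm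
        show (if m = k then (φ v)⁻¹ else if hm : k < m then φ ⟨wm m, hum m hm⟩ else 1) = _
        rw [if_neg (by omega), dif_pos hm]
      have hCl : ∀ m, m < k → C m = 1 := by
        intro m hm
        show (if m = k then (φ v)⁻¹ else if hm : k < m then φ ⟨wm m, hum m hm⟩ else 1) = _
        rw [if_neg (by omega), dif_neg (by omega)]
      have hCh : ∀ m, n < m → C m = 1 := by
        intro m hm
        rw [hCm m (by omega), hφ]
        exact hF.anti (show n + 1 ≤ m by omega) (hwm m)
      have hrel : ∀ t : ℕ, ∏ m ∈ Finset.range (c + 1), C m ^ (t ^ m) = 1 := by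
        intro t
        obtain ⟨h1, h2⟩ := pr_mod (F n) φ wm C t (c - k) (k + 1)
          (fun m hm => ⟨hum m (by omega), (hCm m (by omega)).symm⟩)
        have h3 : pr wm (k + 1) (c - k) t = (w ^ (t ^ k))⁻¹ * w' ^ (t ^ k) := by
          rw [← hz]
          rfl
        have h4 : φ ⟨pr wm (k + 1) (c - k) t, h1⟩ = φ (v ^ (t ^ k)) := by
          refine (hφeq _ _ ?_).symm
          show ((w⁻¹ * w') ^ (t ^ k))⁻¹ * pr wm (k + 1) (c - k) t ∈ F (n + 1)
          rw [h3]
          exact hpow (t ^ k)
        rw [h2, map_pow] at h4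
        rw [show c + 1 = (k + 1) + (c - k) by omega, Finset.prod_range_add, h4,
          Finset.prod_range_succ, hCk]
        rw [Finset.prod_eq_one (fun m hm => by rw [hCl m (Finset.mem_range.1 hm), one_pow]), one_mul,
          inv_pow, inv_mul_cancel]
      have hrel' : ∀ t : ℕ, pev (fun d : Fin (n + 1) => C d) t = 1 := by
        intro t
        rw [pev, Fin.prod_univ_eq_prod_range (fun m => C m ^ (t ^ m)) (n + 1)]
        have h5 := hrel t
        rw [show c + 1 = (n + 1) + (c - n) by omega, Finset.prod_range_add,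
          Finset.prod_eq_one (s := Finset.range (c - n)) (fun m _ => by
            rw [hCh (n + 1 + m) (by omega), one_pow]), mul_one] at h5
        exact h5
      have := hYf
      have hV := VDM hp hYp (n + 1) (fun d : Fin (n + 1) => C d) ⊥ (Finset.range (n + 1))
        (fun t ht => by have := Finset.mem_range.1 ht; omega) (by rw [Finset.card_range])
        (fun t _ => by rw [hrel' t]; exact Subgroup.one_mem _)
      refine ⟨?_, ?_⟩
      · have h6 := hV ⟨k, by omega⟩
        rw [Subgroup.mem_bot] at h6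
        have h7 : (φ v)⁻¹ = 1 := hCk ▸ h6
        rw [inv_eq_one, hφ] at h7
        exact h7
      · intro m hm
        by_cases hmn : n < m
        · exact hF.anti (show n + 1 ≤ m by omega) (hwm m)
        · have h6 := hV ⟨m, by omega⟩
          rw [Subgroup.mem_bot] at h6
          have h7 : φ ⟨wm m, hum m hm⟩ = 1 := (hCm m hm) ▸ h6
          rw [hφ] at h7
          exact h7
  have h8 := (key (c + 1 - k) (by omega)).1
  rw [show k + (c + 1 - k) = c + 1 by omega, hF.top, Subgroup.mem_bot] at h8
  exact inv_mul_eq_one.1 h8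

end Pool.Agent.LP
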