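import Pool.Agent.LP.Vdm

/-!
# LP / Kap: the coefficients of `t ↦ b1 (pev ξ t) * b0 (pev ξ t) ^ t`
-/

set_option autoImplicit false

namespace Pool.Agent.LP

variable {X Y : Type} [CommGroup X] [CommGroup Y]

/-- The coefficients `κ ξ d = b1 (ξ d) * b0 (ξ (d - 1))`, `d ≤ n`. -/
def kap (n : ℕ) (b0 b1 : X →* Y) : (Fin n → X) →* (Fin (n + 1) → Y) where
  toFun ξ := (Fin.snoc (fun d => b1 (ξ d)) 1 : Fin (n + 1) → Y) *
    (Fin.cons 1 (fun d => b0 (ξ d)) : Fin (n + 1) → Y)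
  map_one' := by
    have h1 : (Fin.snoc (fun d => b1 ((1 : Fin n → X) d)) 1 : Fin (n + 1) → Y) = 1 := by
      funext d
      refine Fin.lastCases ?_ (fun i => ?_) d
      · simp [Fin.snoc_last]
      · simp [Fin.snoc_castSucc]
    have h2 : (Fin.cons 1 (fun d => b0 ((1 : Fin n → X) d)) : Fin (n + 1) → Y) = 1 := by
      funext d
      refine Fin.cases ?_ (fun i => ?_) d
      · simp
      · simp
    rw [h1, h2, one_mul]
  map_mul' x y := by
    have h1 : (Fin.snoc (fun d => b1 ((x * y) d)) 1 : Fin (n + 1) → Y) =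
        (Fin.snoc (fun d => b1 (x d)) 1 : Fin (n + 1) → Y) *
        (Fin.snoc (fun d => b1 (y d)) 1 : Fin (n + 1) → Y) := by
      funext d
      refine Fin.lastCases ?_ (fun i => ?_) d
      · simp [Fin.snoc_last]
      · simp [Fin.snoc_castSucc]
    have h2 : (Fin.cons 1 (fun d => b0 ((x * y) d)) : Fin (n + 1) → Y) =
        (Fin.cons 1 (fun d => b0 (x d)) : Fin (n + 1) → Y) *
        (Fin.cons 1 (fun d => b0 (y d)) : Fin (n + 1) → Y) := by
      funext d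
      refine Fin.cases ?_ (fun i => ?_) d
      · simp
      · simp
    rw [h1, h2, mul_mul_mul_comm]

theorem pev_snoc {n : ℕ} (c : Fin n → Y) (t : ℕ) :
    pev (Fin.snoc c 1 : Fin (n + 1) → Y) t = pev c t := by
  rw [pev, Fin.prod_univ_castSucc]
  simp [pev, Fin.snoc_castSucc, Fin.snoc_last]

theorem pev_cons {n : ℕ} (c : Fin n → Y) (t : ℕ) :
    pev (Fin.cons 1 c : Fin (n + 1) → Y) t = pev c t ^ t := by
  rw [pev, Fin.prod_univ_succ]
  simp only [Fin.cons_zero, one_pow, one_mul, Fin.cons_succ, Fin.val_succ]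
  rw [pev, ← Finset.prod_pow]
  refine Finset.prod_congr rfl fun d _ => ?_
  rw [pow_succ, pow_mul]

theorem map_pev {n : ℕ} (b : X →* Y) (ξ : Fin n → X) (t : ℕ) :
    pev (fun d => b (ξ d)) t = b (pev ξ t) := by
  simp [pev, map_prod]

theorem pev_kap (n : ℕ) (b0 b1 : X →* Y) (ξ : Fin n → X) (t : ℕ) :
    pev (kap n b0 b1 ξ) t = b1 (pev ξ t) * b0 (pev ξ t) ^ t := by
  have : kap n b0 b1 ξ = (Fin.snoc (fun d => b1 (ξ d)) 1 : Fin (n + 1) → Y) *
    (Fin.cons 1 (fun d => b0 (ξ d)) : Fin (n + 1) → Y) := rfl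
  rw [this, pev_mul, pev_snoc, pev_cons, map_pev, map_pev]

/-- The top coefficient is `b0` of the last entry. -/
theorem kap_last (n : ℕ) (b0 b1 : X →* Y) (ξ : Fin (n + 1) → X) :
    kap (n + 1) b0 b1 ξ (Fin.last (n + 1)) = b0 (ξ (Fin.last n)) := by
  have : kap (n + 1) b0 b1 ξ = (Fin.snoc (fun d => b1 (ξ d)) 1 : Fin (n + 1 + 1) → Y) *
    (Fin.cons 1 (fun d => b0 (ξ d)) : Fin (n + 1 + 1) → Y) := rfl
  rw [this, Pi.mul_apply, Fin.snoc_last, one_mul, ← Fin.succ_last, Fin.cons_succ]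

/-- If the last entry is `1` the tuple may be shortened. -/
theorem kap_snoc_one (n : ℕ) (b0 b1 : X →* Y) (ξ : Fin n → X) :
    kap (n + 1) b0 b1 (Fin.snoc ξ 1) = (Fin.snoc (kap n b0 b1 ξ) 1 : Fin (n + 1 + 1) → Y) := by
  have h1 : kap (n + 1) b0 b1 (Fin.snoc ξ 1) =
    (Fin.snoc (fun d => b1 ((Fin.snoc ξ 1 : Fin (n + 1) → X) d)) 1 : Fin (n + 1 + 1) → Y) *
    (Fin.cons 1 (fun d => b0 ((Fin.snoc ξ 1 : Fin (n + 1) → X) d)) : Fin (n + 1 + 1) → Y) := rfl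
  have h2 : kap n b0 b1 ξ = (Fin.snoc (fun d => b1 (ξ d)) 1 : Fin (n + 1) → Y) *
    (Fin.cons 1 (fun d => b0 (ξ d)) : Fin (n + 1) → Y) := rfl
  rw [h1]
  funext d
  refine Fin.lastCases ?_ (fun i => ?_) d
  · rw [Pi.mul_apply, Fin.snoc_last, Fin.snoc_last, one_mul, ← Fin.succ_last, Fin.cons_succ,
      Fin.snoc_last, map_one]
  · rw [Pi.mul_apply, Fin.snoc_castSucc, Fin.snoc_castSucc, h2, Pi.mul_apply]
    congr 1
    · refine Fin.lastCases ?_ (fun j => ?_) i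
      · rw [Fin.snoc_last, map_one, Fin.snoc_last]
      · rw [Fin.snoc_castSucc, Fin.snoc_castSucc]
    · refine Fin.cases ?_ (fun j => ?_) i
      · rw [Fin.castSucc_zero, Fin.cons_zero, Fin.cons_zero]
      · rw [← Fin.succ_castSucc, Fin.cons_succ, Fin.snoc_castSucc, Fin.cons_succ]

theorem mem_PS_kap {p : ℕ} (hp : p.Prime) [Finite Y] (hY : IsPGroup p Y) (b0 b1 : X →* Y) (n : ℕ)
    (hn : n + 1 ≤ p) (Y2 : Subgroup Y) (ξ : Fin n → X) :
    ξ ∈ PS p n b0 b1 Y2 ↔ ∀ d, kap n b0 b1 ξ d ∈ Y2 := by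
  rw [mem_PS]
  constructor
  · intro h
    refine VDM hp hY (n + 1) _ Y2 (Finset.range p) (fun t ht => Finset.mem_range.1 ht)
      (by rw [Finset.card_range]; exact hn) (fun t ht => ?_)
    rw [pev_kap]
    exact h t (Finset.mem_range.1 ht)
  · intro h t _
    rw [← pev_kap]
    exact Subgroup.prod_mem _ (fun d _ => Y2.pow_mem (h d) _)

end Pool.Agent.LP
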