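import Pool.Agent.LP.Kd

/-!
# LP / Kb: the commutative case of Kirillov's correspondence

PROOFS.
`KB_ex` (commutative `H`): `m = 1`, `σ h` = the `1 × 1` matrix `f (toL p h)` (multiplicative:
`toL_mul_of_comm`), `rad f = ⊤` as `lbr = 1` (`lbr_commute`), index `1`. Eigenvector: `v = 1`.
`KB_up` (commutative `H`): an irreducible `σ` of degree `m > 0` of a commutative group has degree
`1`: every `σ h` is a scalar by `central_scalar` (CYC.lean), so every subspace is invariant and
`m = 1` (compare `SM_line`/`abel` in Helper74/MX). Then `σ h` is multiplication by a number;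
`f (toL p h)` = this number, multiplicative on `LG p H` since `ladd x y = x * y` (`ladd_commute`).
-/

set_option autoImplicit false

open scoped commutatorElement
open Pool.Agent.Helper89.MD (Irred)

namespace Pool.Agent.LP

variable {p : ℕ} {H : Type} [Group H] [h : Fact (Laz p H)]

theorem rad_top_of_comm (hc : ∀ x y : H, x * y = y * x) (f : LG p H →* ℂˣ) : rad f = ⊤ := by
  rw [Subgroup.eq_top_iff']
  intro x
  rw [mem_rad]
  intro y
  rw [lbr_commute h.out (hc _ _)]
  exact f.map_one

/-- The one-dimensional representation of a character. -/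
noncomputable def lineRep (g : H →* ℂˣ) : H →* Matrix.GeneralLinearGroup (Fin 1) ℂ :=
  (Units.map (Matrix.scalar (Fin 1) : ℂ →+* Matrix (Fin 1) (Fin 1) ℂ).toMonoidHom).comp g

theorem lineRep_mulVec (g : H →* ℂˣ) (x : H) (v : Fin 1 → ℂ) :
    Matrix.mulVec (lineRep g x).1 v = (g x : ℂ) • v := by
  have h1 : (lineRep g x).1 = Matrix.scalar (Fin 1) (g x : ℂ) := rfl
  rw [h1]
  funext i
  rw [Subsingleton.elim i 0]
  simp [Matrix.mulVec, dotProduct, Matrix.scalar_apply, Matrix.diagonal_apply]

theorem KB_ex (hc : ∀ x y : H, x * y = y * x) : KEXP p H := by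
  intro f A _ _
  let g : H →* ℂˣ :=
    { toFun := fun x => f (toL p x)
      map_one' := f.map_one
      map_mul' := fun x y => by rw [toL_mul_of_comm (hc x y), map_mul] }
  have hg : ∀ (x : H) (v : Fin 1 → ℂ),
      Matrix.mulVec (lineRep g x).1 v = (f (toL p x) : ℂ) • v := fun x v => lineRep_mulVec g x v
  refine ⟨1, lineRep g, one_pos, ?_, ?_, ⟨fun _ => 1, ?_, fun a _ => hg a _⟩, fun z _ v => hg z v⟩
  · intro W _
    by_cases hW : W = ⊥
    · exact Or.inl hW
    · right
      obtain ⟨v, hv, hv0⟩ := (Submodule.ne_bot_iff W).1 hW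
      have hv1 : v 0 ≠ 0 := by
        intro h0
        apply hv0
        funext i
        rw [Subsingleton.elim i 0, h0]
        rfl
      rw [Submodule.eq_top_iff']
      intro u
      have h2 : u = (u 0 / v 0) • v := by
        funext i
        rw [Subsingleton.elim i 0, Pi.smul_apply, smul_eq_mul, div_mul_cancel₀ _ hv1]
      rw [h2]
      exact W.smul_mem _ hv
  · rw [rad_top_of_comm hc f, Subgroup.index_top]
  · intro h0
    have := congrFun h0 0
    simp at this

theorem KB_up (hc : ∀ x y : H, x * y = y * x) : KUPP p H := by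
  intro m σ hm hσ
  have hsc : ∀ x : H, ∃ c : ℂ, ∀ v : Fin m → ℂ, Matrix.mulVec (σ x).1 v = c • v := by
    intro x
    exact Pool.Agent.Helper74.MX.central_scalar (Pool.Agent.Helper74.MX.lin σ)
      (Pool.Agent.Helper74.MX.Irr_lin hm σ hσ) x (fun y => hc y x)
  have hm1 : m = 1 := by
    have h1 : (Submodule.span ℂ {(Pi.single (⟨0, hm⟩ : Fin m) (1 : ℂ) : Fin m → ℂ)}) = ⊤ := by
      rcases hσ (Submodule.span ℂ {(Pi.single (⟨0, hm⟩ : Fin m) (1 : ℂ) : Fin m → ℂ)}) (by
        intro x v hv
        obtain ⟨c, hcv⟩ := hsc x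
        rw [hcv]
        exact Submodule.smul_mem _ _ hv) with h2 | h2
      · exfalso
        have h3 : (Pi.single (⟨0, hm⟩ : Fin m) (1 : ℂ) : Fin m → ℂ) = 0 := by
          have := Submodule.mem_span_singleton_self (R := ℂ)
            (Pi.single (⟨0, hm⟩ : Fin m) (1 : ℂ) : Fin m → ℂ)
          rw [h2] at this
          exact (Submodule.mem_bot ℂ).1 this
        have h4 := congrFun h3 ⟨0, hm⟩
        simp at h4
      · exact h2
    have h5 : Module.finrank ℂ (Fin m → ℂ) ≤ 1 := by
      rw [← finrank_top, ← h1]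
      refine (finrank_span_le_card (R := ℂ)
        ({(Pi.single (⟨0, hm⟩ : Fin m) (1 : ℂ) : Fin m → ℂ)} : Set (Fin m → ℂ))).trans ?_
      simp
    rw [Module.finrank_fin_fun] at h5
    omega
  subst hm1
  have hdet : ∀ (x : H) (v : Fin 1 → ℂ),
      Matrix.mulVec (σ x).1 v = ((Matrix.GeneralLinearGroup.det (σ x) : ℂˣ) : ℂ) • v := by
    intro x v
    funext i
    rw [Subsingleton.elim i 0]
    simp [Matrix.mulVec, dotProduct, Matrix.det_unique]
  refine ⟨{ toFun := fun x => Matrix.GeneralLinearGroup.det (σ (ofL p x))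
            map_one' := by
              rw [ofL_one, map_one, map_one]
            map_mul' := fun x y => by
              rw [ofL_mul, ladd_commute h.out (hc _ _), map_mul, map_mul] }, ?_, ?_⟩
  · rw [rad_top_of_comm hc _, Subgroup.index_top]
  · intro z _ v
    exact hdet z v

end Pool.Agent.LP
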