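import Pool.Agent.LP.Rad
import Pool.Agent.Helper74.MX.CYC

/-!
# LP / Kd: Kirillov's correspondence, definitions

`EXS f A σ` says: `σ` is an irreducible representation of `H` of degree `m` with
`m * m = (rad f).index`, an eigenvector for `A` with character `f`, and central character `f`.
`UPS σ f`: `m * m = (rad f).index` and central character `f`.
-/

set_option autoImplicit false

open scoped commutatorElement
open Pool.Agent.Helper89.MD (Irred)

namespace Pool.Agent.LP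

/-- `σ` belongs to `f`, with an `A`-eigenvector. -/
def EXS {p : ℕ} {H : Type} [Group H] [Fact (Laz p H)] (f : LG p H →* ℂˣ) (A : Subgroup H)
    {m : ℕ} (σ : H →* Matrix.GeneralLinearGroup (Fin m) ℂ) : Prop :=
  0 < m ∧ Irred σ ∧ m * m = (rad f).index ∧
    (∃ v : Fin m → ℂ, v ≠ 0 ∧ ∀ a ∈ A, Matrix.mulVec (σ a).1 v = (f (toL p a) : ℂ) • v) ∧
    ∀ z ∈ Subgroup.center H, ∀ v : Fin m → ℂ, Matrix.mulVec (σ z).1 v = (f (toL p z) : ℂ) • v

/-- `f` belongs to `σ`. -/
def UPS {p : ℕ} {H : Type} [Group H] [Fact (Laz p H)] {m : ℕ}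
    (σ : H →* Matrix.GeneralLinearGroup (Fin m) ℂ) (f : LG p H →* ℂˣ) : Prop :=
  m * m = (rad f).index ∧
    ∀ z ∈ Subgroup.center H, ∀ v : Fin m → ℂ, Matrix.mulVec (σ z).1 v = (f (toL p z) : ℂ) • v

/-- Existence for all `f` and `A`. -/
def KEXP (p : ℕ) (H : Type) [Group H] [Fact (Laz p H)] : Prop :=
  ∀ (f : LG p H →* ℂˣ) (A : Subgroup H), A.Normal → (∀ x ∈ A, ∀ y ∈ A, x * y = y * x) →
    ∃ (m : ℕ) (σ : H →* Matrix.GeneralLinearGroup (Fin m) ℂ), EXS f A σ

/-- Every irreducible representation belongs to some `f`. -/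
def KUPP (p : ℕ) (H : Type) [Group H] [Fact (Laz p H)] : Prop :=
  ∀ (m : ℕ) (σ : H →* Matrix.GeneralLinearGroup (Fin m) ℂ), 0 < m → Irred σ →
    ∃ f : LG p H →* ℂˣ, UPS σ f

end Pool.Agent.LP
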