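import Pool.Agent.LP.Rad
import Pool.Agent.Helper89.MD.EXT

/-!
# LP / Rdq: quotients and extension of characters

PROOF of `RADQ`. `rad (f' ∘ LGmap π) = (rad f').comap (LGmap π)` by naturality (`map_lbr`) and
surjectivity; the index of a preimage under a surjective homomorphism is the same
(`Subgroup.index_comap_of_surjective`).

PROOF of `FDESC`. For `k ∈ K` (central, `f k = 1`): `f (x * k) = f (ladd x k) = f x * f k = f x`
(`ladd_commute`), so `f` is constant on cosets of `K` and defines a function on `H ⧸ K`
(`Quotient.lift`/`Function.surjInv`); multiplicativity for `ladd`: write classes as images, use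
`map_ladd` for `QuotientGroup.mk' K`.

PROOF of `FEXT`: `Pool.Agent.Helper89.MD.EXT_abelian` (characters of a subgroup of a finite
commutative group extend) for the subgroup `(LGmap C.subtype).range`, to which the character
is transported by the injective map.
-/

set_option autoImplicit false

open scoped commutatorElement

namespace Pool.Agent.LP

variable {p : ℕ} {H : Type} [Group H] [h : Fact (Laz p H)]

theorem RADQ {Q : Type} [Group Q] [Fact (Laz p Q)] (π : H →* Q) (hπ : Function.Surjective π)
    (f' : LG p Q →* ℂˣ) : (rad (f'.comp (LGmap π))).index = (rad f').index := by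
  have hQ : Laz p Q := Fact.out
  have hs : Function.Surjective (LGmap (p := p) π) := by
    intro q
    obtain ⟨x, hx⟩ := hπ (ofL p q)
    refine ⟨toL p x, ?_⟩
    rw [LGmap_apply, ofL_toL, hx, toL_ofL]
  have h1 : rad (f'.comp (LGmap π)) = (rad f').comap (LGmap π) := by
    ext x
    rw [Subgroup.mem_comap, mem_rad, mem_rad]
    have key : ∀ y : H, (f'.comp (LGmap π)) (toL p (lbr (ofL p x) y)) =
        f' (toL p (lbr (ofL p (LGmap (p := p) π x)) (π y))) := by
      intro y
      rw [MonoidHom.comp_apply, LGmap_apply, LGmap_apply, ofL_toL, ofL_toL, map_lbr h.out hQ]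
    constructor
    · intro hx y
      obtain ⟨y, rfl⟩ := hπ y
      rw [← key]
      exact hx y
    · intro hx y
      rw [key]
      exact hx (π y)
  rw [h1, Subgroup.index_comap_of_surjective _ hs]

theorem FDESC (f : LG p H →* ℂˣ) (K : Subgroup H) [K.Normal] (hK : K ≤ Subgroup.center H)
    (hf : ∀ k ∈ K, f (toL p k) = 1) [Fact (Laz p (H ⧸ K))] :
    ∃ f' : LG p (H ⧸ K) →* ℂˣ, f = f'.comp (LGmap (QuotientGroup.mk' K)) := by
  have hs : Function.Surjective (LGmap (p := p) (QuotientGroup.mk' K)) := by
    intro q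
    obtain ⟨x, hx⟩ := QuotientGroup.mk'_surjective K (ofL p q)
    refine ⟨toL p x, ?_⟩
    rw [LGmap_apply, ofL_toL, hx, toL_ofL]
  have hker : (LGmap (p := p) (QuotientGroup.mk' K)).ker ≤ f.ker := by
    intro x hx
    rw [MonoidHom.mem_ker, LGmap_apply] at hx
    have h1 : QuotientGroup.mk' K (ofL p x) = 1 := hx
    rw [QuotientGroup.mk'_apply, QuotientGroup.eq_one_iff] at h1
    exact hf _ h1
  refine ⟨(LGmap (p := p) (QuotientGroup.mk' K)).liftOfSurjective hs ⟨f, hker⟩, ?_⟩
  refine MonoidHom.ext fun x => ?_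
  exact (MonoidHom.liftOfRightInverse_comp_apply _ _ (Function.rightInverse_surjInv hs)
    ⟨f, hker⟩ x).symm

theorem FEXT (C : Subgroup H) [Fact (Laz p C)] (g : LG p C →* ℂˣ) :
    ∃ f : LG p H →* ℂˣ, f.comp (LGmap C.subtype) = g := by
  have hi : Function.Injective (LGmap (p := p) C.subtype) := by
    intro x y hxy
    rw [LGmap_apply, LGmap_apply] at hxy
    have h1 : C.subtype (ofL p x) = C.subtype (ofL p y) := hxy
    exact C.subtype_injective h1
  obtain ⟨θ, hθ⟩ := Pool.Agent.Helper89.MD.EXT_abelian (LGmap (p := p) C.subtype).range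
    (g.comp (MonoidHom.ofInjective hi).symm.toMonoidHom)
  refine ⟨θ, MonoidHom.ext fun x => ?_⟩
  have h1 := hθ (MonoidHom.ofInjective hi x)
  rw [MonoidHom.comp_apply] at h1 ⊢
  have h2 : ((MonoidHom.ofInjective hi).symm.toMonoidHom) (MonoidHom.ofInjective hi x) = x :=
    (MonoidHom.ofInjective hi).symm_apply_apply x
  rw [h2] at h1
  exact h1

end Pool.Agent.LP
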