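import Pool.Agent.LP.Kd
import Pool.Agent.LP.Rdq

/-!
# LP / Kq: the quotient case of Kirillov's correspondence

PROOFS.
`KQ_ex`: `f = f' ∘ LGmap (mk' K)` (`FDESC` gives `f'`), `σ = σ' ∘ mk' K`; the image `A'` of `A` in
`H ⧸ K` is commutative and normal; central elements of `H` map to central elements; `RADQ` for the
index.
`KQ_up`: `σ` is trivial on `K`, so `σ = σ' ∘ mk' K` (`QuotientGroup.lift`), `σ'` is irreducible;
take `f'` from the hypothesis for `H ⧸ K`, and `f = f' ∘ LGmap (mk' K)`; `RADQ`.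
-/

set_option autoImplicit false

open scoped commutatorElement
open Pool.Agent.Helper89.MD (Irred)

namespace Pool.Agent.LP

variable {p : ℕ} {H : Type} [Group H] [h : Fact (Laz p H)]

private theorem kq_center (K : Subgroup H) [K.Normal] {z : H} (hz : z ∈ Subgroup.center H) :
    QuotientGroup.mk' K z ∈ Subgroup.center (H ⧸ K) := by
  rw [Subgroup.mem_center_iff]
  intro q
  obtain ⟨x, rfl⟩ := QuotientGroup.mk'_surjective K q
  rw [← map_mul, ← map_mul, Subgroup.mem_center_iff.1 hz x]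

theorem KQ_ex (K : Subgroup H) [K.Normal] (hK : K ≤ Subgroup.center H) [Fact (Laz p (H ⧸ K))]
    (hQ : KEXP p (H ⧸ K)) (f : LG p H →* ℂˣ) (hf : ∀ k ∈ K, f (toL p k) = 1) (A : Subgroup H)
    (hA : A.Normal) (hAc : ∀ x ∈ A, ∀ y ∈ A, x * y = y * x) :
    ∃ (m : ℕ) (σ : H →* Matrix.GeneralLinearGroup (Fin m) ℂ), EXS f A σ := by
  obtain ⟨f', hf'⟩ := FDESC f K hK hf
  have hfa : ∀ a : H, f (toL p a) = f' (toL p (QuotientGroup.mk' K a)) := by
    intro a
    rw [hf', MonoidHom.comp_apply, LGmap_apply, ofL_toL]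
  obtain ⟨m, σ', hm, hirr, hidx, ⟨v, hv0, hv⟩, hz⟩ := hQ f' (A.map (QuotientGroup.mk' K))
    (hA.map _ (QuotientGroup.mk'_surjective K)) (by
      rintro _ ⟨x, hx, rfl⟩ _ ⟨y, hy, rfl⟩
      rw [← map_mul, ← map_mul, hAc x hx y hy])
  refine ⟨m, σ'.comp (QuotientGroup.mk' K), hm, ?_, ?_, ⟨v, hv0, ?_⟩, ?_⟩
  · intro W hW
    refine hirr W fun q w hw => ?_
    obtain ⟨x, rfl⟩ := QuotientGroup.mk'_surjective K q
    exact hW x w hw
  · rw [hidx, ← RADQ (QuotientGroup.mk' K) (QuotientGroup.mk'_surjective K) f', ← hf']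
  · intro a ha
    rw [hfa]
    exact hv _ ⟨a, ha, rfl⟩
  · intro z hzc w
    rw [hfa]
    exact hz _ (kq_center K hzc) w

theorem KQ_up (K : Subgroup H) [K.Normal] [Fact (Laz p (H ⧸ K))]
    (hQ : KUPP p (H ⧸ K)) (m : ℕ) (σ : H →* Matrix.GeneralLinearGroup (Fin m) ℂ) (hm : 0 < m)
    (hσ : Irred σ) (hK : ∀ k ∈ K, σ k = 1) : ∃ f : LG p H →* ℂˣ, UPS σ f := by
  obtain ⟨σ', hσ'⟩ : ∃ σ' : H ⧸ K →* Matrix.GeneralLinearGroup (Fin m) ℂ,
      ∀ x, σ' (QuotientGroup.mk' K x) = σ x :=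
    ⟨QuotientGroup.lift K σ hK, fun x => QuotientGroup.lift_mk' K hK x⟩
  have hirr : Irred σ' := by
    intro W hW
    refine hσ W fun g w hw => ?_
    rw [← hσ' g]
    exact hW _ w hw
  obtain ⟨f', hidx, hz⟩ := hQ m σ' hm hirr
  refine ⟨f'.comp (LGmap (QuotientGroup.mk' K)), ?_, ?_⟩
  · rw [hidx, RADQ (QuotientGroup.mk' K) (QuotientGroup.mk'_surjective K) f']
  · intro z hzc w
    rw [← hσ' z, MonoidHom.comp_apply, LGmap_apply, ofL_toL]
    exact hz _ (kq_center K hzc) w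

end Pool.Agent.LP
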