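import Pool.Agent.LP.Rad

/-!
# LP / Rdc: the radical and a centraliser of index `p`

PROOF of `RADC`. Identify `LG p C` with the subgroup `LC = (LGmap C.subtype).range` of `LG p H`
(injective; as a set it is `C`; `lbr` and `ladd` are computed in `H`, `map_lbr`, `map_ladd`), which
has index `p` (cardinalities: `|LC| = |C|`). For `g ∈ H`: `ω(a, g) = f(⁅a, g⁆)` (`lbr_central`:
`⁅a, g⁆` is central), which is `1` iff `⁅a, g⁆ = 1` (`hf`) iff `g ∈ C`. So `LC = {g | ω(a, g) = 1}`.
Let `R = rad f`, `RC = rad (f ∘ LGmap)` seen in `LC`. `R ≤ LC` (`x ∈ R ⇒ ω(a, x) = 1`), and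
`R ≤ RC`. The map `RC → (LG p H ⧸ LC →* ℂˣ)` (or: `RC → (LG p H →* ℂˣ)`), `x ↦ ω(x, ·)`, is trivial
on `LC`, has kernel `R`, and `a ∈ RC` (`ω(a, ·)` is trivial on `C`) is mapped to a nontrivial
character (as `C ≠ H`). Its image is a nontrivial group of characters of `LG p H` trivial on `LC`,
i.e. of the group `LG p H ⧸ LC` of order `p`; there are exactly `p` of them (or: a character of a
cyclic group of order `p` is determined by the value at a generator `b`, a `p`-th root of unity of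
`ℂ`, at most `p` values; and a nontrivial group of exponent `p` has at least `p` elements). So
`|RC| = p |R|` and `|H : R| = |H : C| |C : RC| |RC : R| = p * |C : RC| * p`.
-/

set_option autoImplicit false

open scoped commutatorElement

namespace Pool.Agent.LP

variable {p : ℕ} {H : Type} [Group H] [h : Fact (Laz p H)]

theorem RADC (f : LG p H →* ℂˣ) (a : H) (ha : ∀ g : H, ⁅a, g⁆ ∈ Subgroup.center H)
    (C : Subgroup H) (hC : ∀ g : H, g ∈ C ↔ a * g = g * a) (hidx : C.index = p)
    (hf : ∀ z ∈ Subgroup.center H, f (toL p z) = 1 → z = 1) [Fact (Laz p C)] :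
    (rad f).index = p ^ 2 * (rad (f.comp (LGmap C.subtype))).index := by
  have hp := h.out.prime
  have hfp : Fact p.Prime := ⟨hp⟩
  have hfin := h.out.fin
  have hC' : Laz p C := Fact.out
  have hf1 : f (toL p (1 : H)) = 1 := f.map_one
  have h1 : ∀ g : H, f (toL p (lbr a g)) = 1 ↔ g ∈ C := by
    intro g
    have hz := Subgroup.mem_center_iff.1 (ha g)
    have h2 : lbr a g = ⁅a, g⁆ := lbr_central h.out (hz a).symm (hz g).symm
    rw [h2, hC g]
    constructor
    · intro h3
      exact commutatorElement_eq_one_iff_mul_comm.1 (hf _ (ha g) h3)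
    · intro h3
      rw [commutatorElement_eq_one_iff_mul_comm.2 h3]
      exact hf1
  have h1' : ∀ g : H, f (toL p (lbr g a)) = 1 ↔ g ∈ C := by
    intro g
    have h2 : f (toL p (lbr g a)) = (f (toL p (lbr a g)))⁻¹ := by
      rw [lbr_swap h.out a g, ← map_inv]
      rfl
    rw [h2, inv_eq_one]
    exact h1 g
  obtain ⟨b, hb⟩ : ∃ b : H, b ∉ C := by
    by_contra hcon
    push Not at hcon
    have h2 : C = ⊤ := (Subgroup.eq_top_iff' C).2 hcon
    rw [h2, Subgroup.index_top] at hidx
    exact hp.one_lt.ne hidx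
  have haC : a ∈ C := (hC a).2 rfl
  obtain ⟨ι, hι⟩ : ∃ ι : LG p C →* LG p H, ι = LGmap C.subtype := ⟨_, rfl⟩
  have hιa : ∀ x : LG p C, ι x = toL p ((ofL p x : C) : H) := by
    intro x
    rw [hι]
    rfl
  have hinj : Function.Injective ι := by
    intro x y hxy
    rw [hιa, hιa] at hxy
    exact Subtype.ext hxy
  have hLCcard : Nat.card ι.range = Nat.card C := by
    rw [← Nat.card_congr (MonoidHom.ofInjective hinj).toEquiv]
    rfl
  have hLCidx : ι.range.index = p := by
    have e1 := ι.range.card_mul_index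
    have e2 := C.card_mul_index
    rw [hLCcard, card_LG, ← e2, hidx] at e1
    exact Nat.eq_of_mul_eq_mul_left Nat.card_pos e1
  have hLCmem : ∀ x : H, toL p x ∈ ι.range ↔ x ∈ C := by
    intro x
    constructor
    · rintro ⟨y, hy⟩
      rw [hιa] at hy
      have h2 : ((ofL p y : C) : H) = x := hy
      rw [← h2]
      exact (ofL p y : C).2
    · intro hx
      exact ⟨toL p ⟨x, hx⟩, hιa _⟩
  have hdet : ∀ χ : LG p H →* ℂˣ, (∀ y ∈ ι.range, χ y = 1) → χ (toL p b) = 1 → χ = 1 := by
    intro χ hχ hb1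
    have hle : ι.range ≤ χ.ker := fun y hy => hχ y hy
    have hmul := Subgroup.relIndex_mul_index hle
    rw [hLCidx] at hmul
    have h2 : χ.ker.index = 1 := by
      rcases hp.eq_one_or_self_of_dvd _ ⟨_, (hmul.symm.trans (mul_comm _ _))⟩ with h3 | h3
      · exact h3
      · exfalso
        rw [h3] at hmul
        have h4 : ι.range.relIndex χ.ker = 1 :=
          Nat.eq_of_mul_eq_mul_right hp.pos (hmul.trans (one_mul p).symm)
        have h5 := Subgroup.relIndex_eq_one.1 h4
        exact hb ((hLCmem b).1 (h5 hb1))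
    have h3 := Subgroup.index_eq_one.1 h2
    refine MonoidHom.ext fun y => ?_
    have h4 : y ∈ χ.ker := by
      rw [h3]
      exact Subgroup.mem_top y
    exact h4
  have hpow : ∀ χ : LG p H →* ℂˣ, (∀ y ∈ ι.range, χ y = 1) →
      χ (toL p b) ∈ rootsOfUnity p ℂ := by
    intro χ hχ
    rw [mem_rootsOfUnity, ← map_pow]
    apply hχ
    have h2 := ι.range.pow_index_mem (toL p b)
    rwa [hLCidx] at h2
  rw [← hι]
  obtain ⟨g, hg⟩ : ∃ g : LG p C →* ℂˣ, g = f.comp ι := ⟨_, rfl⟩
  rw [← hg]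
  have hrad : ∀ x : LG p C, x ∈ rad g ↔
      ∀ y : C, f (toL p (lbr ((ofL p x : C) : H) (y : H))) = 1 := by
    intro x
    rw [mem_rad]
    have h2 : ∀ y : C, g (toL p (lbr (ofL p x) y)) =
        f (toL p (lbr ((ofL p x : C) : H) (y : H))) := by
      intro y
      rw [hg, MonoidHom.comp_apply, hιa, ofL_toL]
      have h3 := map_lbr hC' h.out C.subtype (ofL p x) y
      congr 2
    exact forall_congr' fun y => by rw [h2 y]
  obtain ⟨Φ, hΦ⟩ : ∃ Φ : rad g →* (LG p H →* ℂˣ), ∀ x : rad g, Φ x = radh f (ι (x : LG p C)) :=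
    ⟨((radh f).comp ι).comp (rad g).subtype, fun _ => rfl⟩
  have hΦLC : ∀ x : rad g, ∀ y ∈ ι.range, Φ x y = 1 := by
    rintro x y ⟨y', rfl⟩
    rw [hΦ, radh_apply, hιa, hιa]
    exact (hrad (x : LG p C)).1 x.2 (ofL p y')
  have hker : Nat.card Φ.ker = Nat.card (rad f) := by
    have hm : ∀ x : Φ.ker, ι ((x : rad g) : LG p C) ∈ rad f := by
      intro x
      rw [← radh_ker, MonoidHom.mem_ker, ← hΦ]
      exact x.2
    refine Nat.card_congr (Equiv.ofBijective
      (fun x : Φ.ker => (⟨ι ((x : rad g) : LG p C), hm x⟩ : rad f)) ⟨?_, ?_⟩)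
    · intro x y hxy
      have h2 : ι ((x : rad g) : LG p C) = ι ((y : rad g) : LG p C) := congrArg Subtype.val hxy
      exact Subtype.ext (Subtype.ext (hinj h2))
    · rintro ⟨y, hy⟩
      have h2 : ofL p y ∈ C := (h1' (ofL p y)).1 ((mem_rad f y).1 hy a)
      obtain ⟨x, hx⟩ := (hLCmem (ofL p y)).2 h2
      rw [toL_ofL] at hx
      have hxr : x ∈ rad g := by
        rw [hrad]
        intro z
        have h3 := (mem_rad f y).1 hy (z : H)
        rw [← hx, hιa, ofL_toL] at h3
        exact h3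
      refine ⟨⟨⟨x, hxr⟩, ?_⟩, Subtype.ext hx⟩
      rw [MonoidHom.mem_ker, hΦ]
      change radh f (ι x) = 1
      rw [hx, ← MonoidHom.mem_ker, radh_ker]
      exact hy
  have hrange : Nat.card Φ.range = p := by
    obtain ⟨ev, hev⟩ : ∃ ev : Φ.range →* ℂˣ, ∀ χ : Φ.range,
        ev χ = (χ : LG p H →* ℂˣ) (toL p b) :=
      ⟨(MonoidHom.eval (toL p b)).comp Φ.range.subtype, fun _ => rfl⟩
    have htriv : ∀ χ : Φ.range, ∀ y ∈ ι.range, (χ : LG p H →* ℂˣ) y = 1 := by
      rintro ⟨χ, x, rfl⟩ y hy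
      exact hΦLC x y hy
    have hevinj : Function.Injective ev := by
      rw [injective_iff_map_eq_one]
      intro χ hχ
      rw [hev] at hχ
      exact Subtype.ext (hdet _ (htriv χ) hχ)
    have hle : ev.range ≤ rootsOfUnity p ℂ := by
      rintro _ ⟨χ, rfl⟩
      rw [hev]
      exact hpow _ (htriv χ)
    have hcard : Nat.card Φ.range = Nat.card ev.range :=
      Nat.card_congr (MonoidHom.ofInjective hevinj).toEquiv
    have hdvd := Subgroup.card_dvd_of_le hle
    rw [Complex.card_rootsOfUnity p] at hdvd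
    rcases hp.eq_one_or_self_of_dvd _ hdvd with h2 | h2
    · exfalso
      have h3 : ev.range = ⊥ := Subgroup.card_eq_one.1 h2
      have haL : toL p (⟨a, haC⟩ : C) ∈ rad g := by
        rw [hrad]
        intro y
        exact (h1 (y : H)).2 y.2
      have h4 : ev ⟨Φ ⟨toL p (⟨a, haC⟩ : C), haL⟩, ⟨_, rfl⟩⟩ ∈ ev.range := ⟨_, rfl⟩
      rw [h3, Subgroup.mem_bot, hev] at h4
      change Φ ⟨toL p (⟨a, haC⟩ : C), haL⟩ (toL p b) = 1 at h4
      rw [hΦ, radh_apply, hιa] at h4
      exact hb ((h1 b).1 h4)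
    · rw [hcard, h2]
  have hfinC : Finite (LG p C) := inferInstance
  have c1 := (rad f).card_mul_index
  have c2 := (rad g).card_mul_index
  have c3 := Φ.ker.card_mul_index
  have c4 := C.card_mul_index
  rw [Subgroup.index_ker, hrange, hker] at c3
  rw [card_LG] at c1 c2
  rw [hidx] at c4
  have hpos : 0 < Nat.card (rad f) := Nat.card_pos
  apply Nat.eq_of_mul_eq_mul_left hpos
  rw [c1, ← c4, ← c2, ← c3]
  ring

end Pool.Agent.LP
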