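import Pool.Agent.LP.Defs

/-!
# LP / Zl: a centraliser of index `p`

PROOF. `H ⧸ center H` is a nontrivial finite `p`-group, so its center contains an element of order `p`
(Cauchy): there is `a ∉ center H` with `⁅a, g⁆ ∈ center H` for all `g` and `a ^ p ∈ center H`. The map
`g ↦ ⁅a, g⁆` is a homomorphism `H →* center H` (as the values are central), with kernel
`C = {g | a g = g a}` (normal), and `⁅a, g⁆ ^ p = ⁅a ^ p, g⁆ = 1`. Its image consists of central `z`
with `z ^ p = 1`; `lam` maps these injectively to `p`-th roots of unity in `ℂˣ`, so the image has at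
most `p` elements; it is not trivial since `a ∉ center H`, and it is a `p`-group, so it has exactly
`p` elements and `C.index = p` (`Subgroup.index_ker`).
-/

set_option autoImplicit false

open scoped commutatorElement

namespace Pool.Agent.LP

theorem ZLEM {p : ℕ} (hp : p.Prime) {H : Type} [Group H] [Finite H] (hH : IsPGroup p H)
    (hne : ∃ x y : H, x * y ≠ y * x) (lam : H → ℂˣ)
    (hlam : ∀ x ∈ Subgroup.center H, ∀ y ∈ Subgroup.center H, lam (x * y) = lam x * lam y)
    (hinj : ∀ z ∈ Subgroup.center H, lam z = 1 → z = 1) :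
    ∃ (a : H) (C : Subgroup H), C.Normal ∧ a ∉ Subgroup.center H ∧
      (∀ g : H, ⁅a, g⁆ ∈ Subgroup.center H) ∧ (∀ g : H, g ∈ C ↔ a * g = g * a) ∧ C.index = p := by
  classical
  have hpf : Fact p.Prime := ⟨hp⟩
  -- the quotient by the center
  have hQ : IsPGroup p (H ⧸ Subgroup.center H) := hH.to_quotient _
  have hnt : Nontrivial (H ⧸ Subgroup.center H) := by
    obtain ⟨x, y, hxy⟩ := hne
    refine ⟨⟨(x : H ⧸ Subgroup.center H), 1, fun h => ?_⟩⟩
    rw [QuotientGroup.eq_one_iff] at h
    exact hxy ((Subgroup.mem_center_iff.mp h y).symm)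
  have hcn : Nontrivial (Subgroup.center (H ⧸ Subgroup.center H)) := hQ.center_nontrivial
  have hcp : IsPGroup p (Subgroup.center (H ⧸ Subgroup.center H)) := hQ.to_subgroup _
  obtain ⟨n, hn⟩ := IsPGroup.iff_card.mp hcp
  have hn0 : n ≠ 0 := by
    rintro rfl
    rw [pow_zero] at hn
    have := Finite.one_lt_card_iff_nontrivial.mpr hcn
    omega
  have hdvd : p ∣ Nat.card (Subgroup.center (H ⧸ Subgroup.center H)) := by
    rw [hn]; exact dvd_pow_self p hn0
  obtain ⟨c, hc⟩ := exists_prime_orderOf_dvd_card' p hdvd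
  obtain ⟨a, ha⟩ := QuotientGroup.mk_surjective (c : H ⧸ Subgroup.center H)
  have haZ : a ∉ Subgroup.center H := by
    intro h
    rw [← QuotientGroup.eq_one_iff, ha] at h
    have h1 : c = 1 := Subtype.ext h
    rw [h1, orderOf_one] at hc
    exact hp.one_lt.ne hc
  have hcomm : ∀ g : H, ⁅a, g⁆ ∈ Subgroup.center H := by
    intro g
    rw [← QuotientGroup.eq_one_iff]
    have h1 : ((⁅a, g⁆ : H) : H ⧸ Subgroup.center H) =
        ⁅(a : H ⧸ Subgroup.center H), (g : H ⧸ Subgroup.center H)⁆ := rfl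
    rw [h1, commutatorElement_eq_one_iff_mul_comm, ha]
    exact (Subgroup.mem_center_iff.mp c.2 _).symm
  have hap : a ^ p ∈ Subgroup.center H := by
    rw [← QuotientGroup.eq_one_iff, QuotientGroup.mk_pow, ha]
    have h1 : c ^ p = 1 := by rw [← hc]; exact pow_orderOf_eq_one c
    have h2 := congrArg Subtype.val h1
    simpa using h2
  -- the homomorphism
  let f : H →* H :=
    { toFun := fun g => ⁅a, g⁆
      map_one' := by simp
      map_mul' := by
        intro g h
        have h1 := Subgroup.mem_center_iff.mp (hcomm h) g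
        have h2 : ⁅a, g * h⁆ = ⁅a, g⁆ * (g * ⁅a, h⁆ * g⁻¹) := by
          simp only [commutatorElement_def]; group
        rw [h2, h1]
        group }
  have hf : ∀ g, f g = ⁅a, g⁆ := fun g => rfl
  have hker : ∀ g : H, g ∈ f.ker ↔ a * g = g * a := by
    intro g
    rw [MonoidHom.mem_ker, hf, commutatorElement_eq_one_iff_mul_comm]
  -- powers
  have hpow : ∀ (g : H) (m : ℕ), ⁅a ^ m, g⁆ = ⁅a, g⁆ ^ m := by
    intro g m
    induction m with
    | zero => simp
    | succ m ih =>
      have h1 := Subgroup.mem_center_iff.mp (hcomm g) (a ^ m)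
      have h2 : ⁅a ^ (m + 1), g⁆ = a ^ m * ⁅a, g⁆ * (a ^ m)⁻¹ * ⁅a ^ m, g⁆ := by
        simp only [commutatorElement_def, pow_succ]; group
      rw [h2, h1, ih, pow_succ']
      group
  have hpow1 : ∀ g : H, ⁅a, g⁆ ^ p = 1 := by
    intro g
    rw [← hpow, commutatorElement_eq_one_iff_mul_comm]
    exact (Subgroup.mem_center_iff.mp hap g).symm
  -- `lam` on the center
  have hl1 : lam 1 = 1 := by
    have h := hlam 1 (one_mem _) 1 (one_mem _)
    rw [mul_one] at h
    exact (left_eq_mul.mp h)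
  have hlpow : ∀ z ∈ Subgroup.center H, ∀ m : ℕ, lam (z ^ m) = lam z ^ m := by
    intro z hz m
    induction m with
    | zero => simpa using hl1
    | succ m ih => rw [pow_succ, hlam _ (pow_mem hz m) _ hz, ih, pow_succ]
  have hlinj : ∀ x ∈ Subgroup.center H, ∀ y ∈ Subgroup.center H, lam x = lam y → x = y := by
    intro x hx y hy hxy
    have h1 : lam (x * y⁻¹) = 1 := by
      rw [hlam x hx _ (inv_mem hy), hxy, ← hlam y hy _ (inv_mem hy), mul_inv_cancel, hl1]
    have h2 := hinj _ (mul_mem hx (inv_mem hy)) h1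
    exact mul_inv_eq_one.mp h2
  have hrange : ∀ z ∈ f.range, z ∈ Subgroup.center H ∧ z ^ p = 1 := by
    rintro z ⟨g, rfl⟩
    exact ⟨hcomm g, hpow1 g⟩
  have hne0 : NeZero p := ⟨hp.ne_zero⟩
  have hcard : Nat.card f.range ≤ p := by
    let φ : f.range → rootsOfUnity p ℂ := fun z => ⟨lam z, by
      rw [mem_rootsOfUnity, ← hlpow _ (hrange _ z.2).1, (hrange _ z.2).2, hl1]⟩
    have hφ : Function.Injective φ := by
      intro x y hxy
      have h1 : lam x = lam y := congrArg Subtype.val hxy
      exact Subtype.ext (hlinj _ (hrange _ x.2).1 _ (hrange _ y.2).1 h1)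
    have h1 := Nat.card_le_card_of_injective φ hφ
    have h2 : Nat.card (rootsOfUnity p ℂ) ≤ p := card_rootsOfUnity ℂ p
    exact h1.trans h2
  have hrp : IsPGroup p f.range := hH.to_subgroup _
  obtain ⟨m, hm⟩ := IsPGroup.iff_card.mp hrp
  have hm0 : m ≠ 0 := by
    rintro rfl
    rw [pow_zero] at hm
    apply haZ
    rw [Subgroup.mem_center_iff]
    intro g
    have h1 : f g ∈ f.range := ⟨g, rfl⟩
    have h2 : f.range = ⊥ := Subgroup.card_eq_one.mp hm
    rw [h2, Subgroup.mem_bot, hf, commutatorElement_eq_one_iff_mul_comm] at h1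
    exact h1.symm
  have hm1 : m = 1 := by
    by_contra hcon
    have h2 : 2 ≤ m := by omega
    have h3 : p ^ 2 ≤ p ^ m := Nat.pow_le_pow_right hp.pos h2
    have h4 := hp.two_le
    rw [← hm] at h3
    have h5 : p ^ 2 ≤ p := h3.trans hcard
    nlinarith
  refine ⟨a, f.ker, inferInstance, haZ, hcomm, hker, ?_⟩
  rw [Subgroup.index_ker, hm, hm1, pow_one]

end Pool.Agent.LP
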