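import Pool.Agent.LP.Kd
import Pool.Agent.LP.Rdc
import Pool.Agent.LP.Rdq
import Pool.Agent.LP.Clp
import Pool.Agent.LP.Zl
import Pool.Agent.Helper74.MX.COIND

/-!
# LP / Ks: the induction step for existence (`f` faithful on the center)

PROOF. `H` is not commutative; `ZLEM` (`lam z = f (toL p z)`, multiplicative on the center by
`toL_mul_of_comm`) gives `a`, `C` (normal, index `p`, `C = {g | a g = g a}`), `⁅a, g⁆ ∈ center`.
Let `fC = f ∘ LGmap C.subtype`, `AC = A.subgroupOf C` (normal, commutative). `hC' : KEXP p C` gives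
`m'`, `σ'` with `EXS fC AC σ'`: `m' * m' = (rad fC).index`, `v' ≠ 0` with `σ' x v' = f x v'` for
`x ∈ A ∩ C`, and `σ' z = f z` for `z ∈ center C` (note `a ∈ center C`, and
`center H ≤ C`, elements of `center H` are in `center C`).
`COIND` for `N = C`, `η = lin σ'`: `n > 0`, irreducible `σ : H →* GL n`, `ev : ℂ^n → ℂ^m'` nonzero,
`ev (σ x v) = σ' x (ev v)` for `x ∈ C`. `ρ = lin σ`, `Irr ρ`.
* central elements: `ρ z` is a scalar `c` (`central_scalar`), `c ev v = ev (ρ z v) = f z ev v`, `ev ≠ 0`: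
  `c = f z`. So `hinj` of `CLP` holds (`hf`).
* Let `μ = f (toL p a)`, `V0 = eigenspace (ρ a) μ`. `V0 ≠ ⊥`: `ρ a` is diagonalisable (finite order):
  `ℂ^n` is the sum of its eigenspaces, and `ev` kills the eigenspace for `ν ≠ μ`
  (`ν ev v = ev (ρ a v) = σ' a (ev v) = μ ev v`); as `ev ≠ 0`, `V0 ≠ ⊥`, and `ev` is nonzero on `V0`.
  (Alternative without diagonalisability: `e = Σ_{k < N} μ^{-k} ρ (a^k)`, `N = orderOf a` (`μ^N = 1`),
  maps into `V0` and `ev (e v) = N ev v ≠ 0` for suitable `v`.)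
* `CLP`: `V0` is an irreducible `C`-space, `n = p * dim V0`. `ev : V0 → ℂ^m'` is `C`-equivariant and
  nonzero between irreducible spaces, so bijective (kernel and image are invariant): `dim V0 = m'`.
  So `n = p m'` and `n * n = p^2 (rad fC).index = (rad f).index` by `RADC`.
* eigenvector: let `v ∈ V0` with `ev v = v'`; for `x ∈ A ∩ C`, `ρ x v ∈ V0` and
  `ev (ρ x v) = f x v' = ev (f x v)`, so `ρ x v = f x v`. If `A ≤ C` we are done. Otherwise let
  `b ∈ A`, `b ∉ C`; as `C` has index `p`, every `x ∈ A` is `b ^ j y`, `y ∈ A ∩ C`, and `b ^ p ∈ A ∩ C`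
  (`H ⧸ C` has order `p`). Put `w = Σ_{j < p} f(b)^{-j} ρ (b ^ j) v`. Then `ρ b w = f(b) w` (telescoping;
  the term `j = p` is `f(b)^{-p} ρ (b^p) v = f(b)^{-p} f(b^p) v = v` as `f (toL p (b^p)) = f(b)^p`,
  `toL_pow`), and `ρ x w = f x w` for `x ∈ A ∩ C` (`x` commutes with `b`). For `x = b^j y` use
  `toL_mul_of_comm`. `w ≠ 0`: the vectors `ρ (b^j) v ≠ 0` are eigenvectors of `ρ a` for the distinct
  eigenvalues `f(⁅a, b⁆)^j μ`, `j < p` (`f(⁅a,b⁆)^j = f(⁅a, b^j⁆) ≠ 1` for `0 < j < p`), hence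
  linearly independent.
-/

set_option autoImplicit false

open scoped commutatorElement
open Pool.Agent.Helper89.MD (Irred)
open Pool.Agent.Helper74.MX

namespace Pool.Agent.LP

variable {p : ℕ} {H : Type} [Group H] [h : Fact (Laz p H)]

theorem KS_ex (hind : ∀ (C : Subgroup H) [Fact (Laz p C)], C ≠ ⊤ → KEXP p C)
    (hnc : ∃ x y : H, x * y ≠ y * x) (f : LG p H →* ℂˣ)
    (hf : ∀ z ∈ Subgroup.center H, f (toL p z) = 1 → z = 1) (A : Subgroup H) (hA : A.Normal)
    (hAc : ∀ x ∈ A, ∀ y ∈ A, x * y = y * x) :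
    ∃ (m : ℕ) (σ : H →* Matrix.GeneralLinearGroup (Fin m) ℂ), EXS f A σ := by
  classical
  have := h.out.fin
  have hp := h.out.prime
  have hmul : ∀ x ∈ Subgroup.center H, ∀ y ∈ Subgroup.center H,
      f (toL p (x * y)) = f (toL p x) * f (toL p y) := by
    intro x _ y hy
    rw [← map_mul, toL_mul_of_comm ((Subgroup.mem_center_iff.1 hy) x)]
  obtain ⟨a, C, hCn, ha, hcomm, hC, hidx⟩ := ZLEM hp h.out.pgroup hnc (fun z => f (toL p z))
    hmul hf
  have hCtop : C ≠ ⊤ := by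
    intro htop
    rw [htop, Subgroup.index_top] at hidx
    exact hp.one_lt.ne hidx
  have hLC : Fact (Laz p C) := ⟨h.out.subgroup C⟩
  have hfC : ∀ x : C, (f.comp (LGmap C.subtype)) (toL p x) = f (toL p (x : H)) := fun _ => rfl
  obtain ⟨m', σ', hm', hσ', hm'sq, ⟨v', hv'0, hv'⟩, hz'⟩ :=
    hind C hCtop (f.comp (LGmap C.subtype)) (A.subgroupOf C) inferInstance (by
      intro x hx y hy
      apply Subtype.ext
      exact hAc x hx y hy)
  have hntU : Nontrivial (Fin m' → ℂ) := (Irr_lin hm' σ' hσ').1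
  obtain ⟨n, σ, ev, hn, hσ, hev, hevN⟩ := COIND C (lin σ')
  set ρ : H →* Module.End ℂ (Fin n → ℂ) := lin σ with hρdef
  have hρ : Irr ρ := Irr_lin hn σ hσ
  have hevρ : ∀ (x : C) (v : Fin n → ℂ), ev (ρ x v) = Matrix.mulVec (σ' x).1 (ev v) :=
    fun x v => hevN x v
  obtain ⟨v1, hv1⟩ : ∃ v, ev v ≠ 0 := by
    by_contra hcon
    push Not at hcon
    exact hev (LinearMap.ext hcon)
  have hzC : ∀ z ∈ Subgroup.center H, z ∈ C := fun z hz =>
    (hC z).2 ((Subgroup.mem_center_iff.1 hz) a)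
  have hzC' : ∀ (z : H) (hz : z ∈ Subgroup.center H),
      (⟨z, hzC z hz⟩ : C) ∈ Subgroup.center C := by
    intro z hz
    rw [Subgroup.mem_center_iff]
    intro x
    apply Subtype.ext
    exact (Subgroup.mem_center_iff.1 hz) x
  -- central elements act by `f`
  have hcen : ∀ z ∈ Subgroup.center H, ∀ v, ρ z v = (f (toL p z) : ℂ) • v := by
    intro z hz
    obtain ⟨c, hc⟩ := central_scalar ρ hρ z (fun x => (Subgroup.mem_center_iff.1 hz) x)
    have h1 := hevρ ⟨z, hzC z hz⟩ v1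
    rw [hz' _ (hzC' z hz), hfC] at h1
    change ev (ρ z v1) = (f (toL p z) : ℂ) • ev v1 at h1
    rw [hc v1, map_smul] at h1
    have h2 : c = f (toL p z) := smul_left_injective ℂ hv1 h1
    rw [← h2]
    exact hc
  have hinj' : ∀ z ∈ Subgroup.center H, ρ z = 1 → z = 1 := by
    intro z hz h1
    apply hf z hz
    apply Units.ext
    have h2 := hcen z hz v1
    rw [h1, Module.End.one_apply] at h2
    have hv10 : v1 ≠ 0 := by
      rintro rfl
      exact hv1 (map_zero ev)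
    have h3 : ((f (toL p z) : ℂˣ) : ℂ) • v1 = (1 : ℂ) • v1 := by rw [one_smul]; exact h2.symm
    rw [Units.val_one]
    exact smul_left_injective ℂ hv10 h3
  -- the element `a`
  have haC : a ∈ C := (hC a).2 rfl
  have haC' : (⟨a, haC⟩ : C) ∈ Subgroup.center C := by
    rw [Subgroup.mem_center_iff]
    intro x
    apply Subtype.ext
    exact ((hC x).1 x.2).symm
  set μ : ℂˣ := f (toL p a) with hμdef
  have heva : ∀ v, ev (ρ a v) = (μ : ℂ) • ev v := by
    intro v
    have h1 := hevρ ⟨a, haC⟩ v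
    rw [hz' _ haC', hfC] at h1
    exact h1
  have hevak : ∀ (k : ℕ) (v : Fin n → ℂ), ev ((ρ a ^ k) v) = (μ : ℂ) ^ k • ev v := by
    intro k v
    induction k with
    | zero => simp
    | succ k ih => rw [pow_succ', Module.End.mul_apply, heva, ih, smul_smul, ← pow_succ']
  set N : ℕ := orderOf a with hN
  have hN0 : 0 < N := orderOf_pos a
  have hρN : ρ a ^ N = 1 := by rw [← map_pow, hN, pow_orderOf_eq_one, map_one]
  have hμN : (μ : ℂ) ^ N = 1 := by
    have h1 := hevak N v1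
    rw [hρN, Module.End.one_apply] at h1
    have h2 : (μ : ℂ) ^ N • ev v1 = (1 : ℂ) • ev v1 := by rw [one_smul]; exact h1.symm
    exact smul_left_injective ℂ hv1 h2
  have hNC : (N : ℂ) ≠ 0 := Nat.cast_ne_zero.2 hN0.ne'
  -- the projector
  let Pi : Module.End ℂ (Fin n → ℂ) := ∑ k ∈ Finset.range N, ((μ : ℂ)⁻¹) ^ k • ρ a ^ k
  have hPi : ∀ v, Pi v = ∑ k ∈ Finset.range N, ((μ : ℂ)⁻¹) ^ k • (ρ a ^ k) v := by
    intro v
    simp [Pi, LinearMap.sum_apply]
  have hμ0 : (μ : ℂ) ≠ 0 := μ.ne_zero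
  have hPieig : ∀ (ζ : ℂ) (x : Fin n → ℂ), ρ a x = (ζ * μ) • x →
      Pi x = (∑ k ∈ Finset.range N, ζ ^ k) • x := by
    intro ζ x hx
    have h1 : ∀ k : ℕ, (ρ a ^ k) x = (ζ * μ) ^ k • x := by
      intro k
      induction k with
      | zero => simp
      | succ k ih =>
        rw [pow_succ', Module.End.mul_apply, ih, map_smul, hx, smul_smul, ← pow_succ]
    rw [hPi, Finset.sum_smul]
    apply Finset.sum_congr rfl
    intro k _
    rw [h1, smul_smul, mul_pow]
    congr 1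
    rw [mul_comm (ζ ^ k), ← mul_assoc, ← mul_pow, inv_mul_cancel₀ hμ0, one_pow, one_mul]
  have hPimem : ∀ x, Pi x ∈ Module.End.eigenspace (ρ a) (μ : ℂ) := by
    intro x
    rw [Module.End.mem_eigenspace_iff, hPi, map_sum, Finset.smul_sum]
    have h1 : ∀ k ∈ Finset.range N, ρ a (((μ : ℂ)⁻¹) ^ k • (ρ a ^ k) x) =
        (μ : ℂ) • (((μ : ℂ)⁻¹) ^ (k + 1) • (ρ a ^ (k + 1)) x) := by
      intro k _
      rw [map_smul, ← Module.End.mul_apply, ← pow_succ', smul_smul]
      congr 1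
      rw [pow_succ, mul_comm (((μ : ℂ)⁻¹) ^ k), ← mul_assoc, mul_inv_cancel₀ hμ0, one_mul]
    rw [Finset.sum_congr rfl h1]
    have h2 : ∑ k ∈ Finset.range N, (μ : ℂ) • (((μ : ℂ)⁻¹) ^ (k + 1) • (ρ a ^ (k + 1)) x) +
        (μ : ℂ) • (((μ : ℂ)⁻¹) ^ 0 • (ρ a ^ 0) x) =
        ∑ k ∈ Finset.range N, (μ : ℂ) • (((μ : ℂ)⁻¹) ^ k • (ρ a ^ k) x) +
        (μ : ℂ) • (((μ : ℂ)⁻¹) ^ N • (ρ a ^ N) x) := by
      rw [← Finset.sum_range_succ' (fun k => (μ : ℂ) • (((μ : ℂ)⁻¹) ^ k • (ρ a ^ k) x)),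
        Finset.sum_range_succ]
    have h3 : ((μ : ℂ)⁻¹) ^ N • (ρ a ^ N) x = ((μ : ℂ)⁻¹) ^ 0 • (ρ a ^ 0) x := by
      rw [hρN, inv_pow, hμN, inv_one, pow_zero, pow_zero]
    rw [h3] at h2
    exact add_right_cancel h2
  set V0 := Module.End.eigenspace (ρ a) (μ : ℂ) with hV0
  have hevPi : ∀ x, ev (Pi x) = (N : ℂ) • ev x := by
    intro x
    rw [hPi, map_sum]
    have h1 : ∀ k ∈ Finset.range N, ev (((μ : ℂ)⁻¹) ^ k • (ρ a ^ k) x) = ev x := by
      intro k _
      rw [map_smul, hevak, smul_smul, ← mul_pow, inv_mul_cancel₀ hμ0, one_pow, one_smul]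
    rw [Finset.sum_congr rfl h1, Finset.sum_const, Finset.card_range, Nat.cast_smul_eq_nsmul]
  have hV0ne : V0 ≠ ⊥ := by
    intro hbot
    have h1 := hPimem v1
    rw [hbot, Submodule.mem_bot] at h1
    have h2 := hevPi v1
    rw [h1, map_zero] at h2
    rcases smul_eq_zero.1 h2.symm with h3 | h3
    · exact hNC h3
    · exact hv1 h3
  obtain ⟨hInv, hIrr0, hfin⟩ := CLP hp ρ hρ a C hC hcomm hidx hinj' μ hV0ne
  rw [Module.finrank_fin_fun] at hfin
  -- `ev` on `V0`
  let φ : V0 →ₗ[ℂ] (Fin m' → ℂ) := ev ∘ₗ V0.subtype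
  have hφ : ∀ w : V0, φ w = ev w := fun _ => rfl
  have hφinj : Function.Injective φ := by
    rw [← LinearMap.ker_eq_bot]
    rcases hIrr0.2 (LinearMap.ker φ) (by
      intro g w hw
      rw [LinearMap.mem_ker, hφ] at hw ⊢
      rw [sub_coe]
      change ev (ρ g w) = 0
      rw [hevρ g w, hw, Matrix.mulVec_zero]) with h1 | h1
    · exact h1
    · exfalso
      have h2 : (⟨Pi v1, hPimem v1⟩ : V0) ∈ LinearMap.ker φ := by
        rw [h1]; exact Submodule.mem_top
      rw [LinearMap.mem_ker, hφ] at h2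
      change ev (Pi v1) = 0 at h2
      rw [hevPi] at h2
      rcases smul_eq_zero.1 h2 with h3 | h3
      · exact hNC h3
      · exact hv1 h3
  have hφsurj : Function.Surjective φ := by
    rw [← LinearMap.range_eq_top]
    rcases hσ' (LinearMap.range φ) (by
      rintro g _ ⟨w, rfl⟩
      refine ⟨sub (ρ.comp C.subtype) V0 hInv g w, ?_⟩
      rw [hφ, sub_coe]
      exact hevρ g w) with h1 | h1
    · exfalso
      have h2 : φ ⟨Pi v1, hPimem v1⟩ ∈ LinearMap.range φ := ⟨_, rfl⟩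
      rw [h1, Submodule.mem_bot, hφ] at h2
      change ev (Pi v1) = 0 at h2
      rw [hevPi] at h2
      rcases smul_eq_zero.1 h2 with h3 | h3
      · exact hNC h3
      · exact hv1 h3
    · exact h1
  have hdim : Module.finrank ℂ V0 = m' := by
    rw [(LinearEquiv.ofBijective φ ⟨hφinj, hφsurj⟩).finrank_eq, Module.finrank_fin_fun]
  -- the vector `v`
  obtain ⟨v, hv⟩ := hφsurj v'
  have hv0 : (v : Fin n → ℂ) ≠ 0 := by
    intro h1
    apply hv'0
    rw [← hv, hφ, h1, map_zero]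
  have hva : ρ a v = (μ : ℂ) • (v : Fin n → ℂ) := Module.End.mem_eigenspace_iff.1 v.2
  have hvAC : ∀ x ∈ A, x ∈ C → ρ x v = (f (toL p x) : ℂ) • (v : Fin n → ℂ) := by
    intro x hxA hxC
    have h1 : sub (ρ.comp C.subtype) V0 hInv ⟨x, hxC⟩ v = (f (toL p x) : ℂ) • v := by
      apply hφinj
      rw [map_smul, hφ, sub_coe]
      change ev (ρ x v) = _
      have h2 := hevρ ⟨x, hxC⟩ v
      rw [← hφ v, hv, hv' ⟨x, hxC⟩ hxA, hfC] at h2
      rw [hv]
      exact h2
    have h2 := congrArg Subtype.val h1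
    rw [sub_coe] at h2
    exact h2
  -- averaging over `A`
  have : Fintype A := Fintype.ofFinite A
  let χ : A →* ℂˣ :=
    { toFun := fun x => f (toL p (x : H))
      map_one' := f.map_one
      map_mul' := by
        intro x y
        rw [← map_mul, ← toL_mul_of_comm (hAc x x.2 y y.2)]
        rfl }
  have hχ : ∀ x : A, χ x = f (toL p (x : H)) := fun _ => rfl
  set w : Fin n → ℂ := ∑ x : A, ((χ x)⁻¹ : ℂ) • ρ x v with hw
  have hwA : ∀ y : A, ρ y w = (χ y : ℂ) • w := by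
    intro y
    rw [hw, map_sum, Finset.smul_sum]
    refine Fintype.sum_equiv (Equiv.mulLeft y) _ _ (fun x => ?_)
    have h1 : (Equiv.mulLeft y) x = y * x := rfl
    have h2 : ρ y (ρ x v) = ρ ((y * x : A) : H) v := by
      rw [← Module.End.mul_apply, ← map_mul]
      rfl
    rw [h1, map_smul, h2, smul_smul]
    congr 1
    rw [map_mul χ, Units.val_mul, mul_inv, ← mul_assoc, mul_inv_cancel₀ (Units.ne_zero _),
      one_mul]
  have hPix : ∀ x : A, Pi (((χ x)⁻¹ : ℂ) • ρ x v) =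
      ((if (x : H) ∈ C then N else 0 : ℕ) : ℂ) • (v : Fin n → ℂ) := by
    intro x
    rw [map_smul]
    set ζ : ℂˣ := f (toL p ⁅a, (x : H)⁆) with hζ
    have h1 : ρ a (ρ x v) = ((ζ : ℂ) * μ) • ρ x v := by
      have h2 : a * (x : H) = ⁅a, (x : H)⁆ * ((x : H) * a) := by
        rw [commutatorElement_def]; group
      rw [← Module.End.mul_apply, ← map_mul, h2, map_mul, Module.End.mul_apply,
        hcen _ (hcomm x), map_mul, Module.End.mul_apply, hva, map_smul, smul_smul]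
    rw [hPieig _ _ h1]
    by_cases hxC : (x : H) ∈ C
    · rw [if_pos hxC]
      have h2 : ⁅a, (x : H)⁆ = 1 := by
        rw [commutatorElement_eq_one_iff_mul_comm]
        exact (hC x).1 hxC
      have h3 : ζ = 1 := by rw [hζ, h2]; exact f.map_one
      rw [h3, Units.val_one]
      simp only [one_pow, Finset.sum_const, Finset.card_range]
      have hx0 : ((χ x : ℂˣ) : ℂ) ≠ 0 := Units.ne_zero _
      rw [hvAC x x.2 hxC, ← hχ, smul_smul, smul_smul, nsmul_eq_mul, mul_one]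
      congr 1
      field_simp
    · rw [if_neg hxC, Nat.cast_zero, zero_smul]
      have hρx0 : ρ x v ≠ 0 := by
        intro h4
        have h5 : ρ (x : H)⁻¹ (ρ x v) = v := by
          rw [← Module.End.mul_apply, ← map_mul, inv_mul_cancel, map_one]; rfl
        rw [h4, map_zero] at h5
        exact hv0 h5.symm
      have h2 : (ζ : ℂ) ≠ 1 := by
        intro h3
        have h4 : ζ = 1 := Units.ext h3
        have h5 := hf _ (hcomm x) h4
        rw [commutatorElement_eq_one_iff_mul_comm] at h5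
        exact hxC ((hC x).2 h5)
      have h3 : (ζ : ℂ) ^ N = 1 := by
        have h4 : ∀ k : ℕ, (ρ a ^ k) (ρ x v) = ((ζ : ℂ) * μ) ^ k • ρ x v := by
          intro k
          induction k with
          | zero => simp
          | succ k ih =>
            rw [pow_succ', Module.End.mul_apply, ih, map_smul, h1, smul_smul, ← pow_succ]
        have h5 := h4 N
        rw [hρN, Module.End.one_apply, mul_pow, hμN, mul_one] at h5
        have h6 : (ζ : ℂ) ^ N • ρ x v = (1 : ℂ) • ρ x v := by rw [one_smul]; exact h5.symm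
        exact smul_left_injective ℂ hρx0 h6
      have h4 : ∑ k ∈ Finset.range N, (ζ : ℂ) ^ k = 0 := by
        have h5 := geom_sum_mul (ζ : ℂ) N
        rw [h3, sub_self] at h5
        rcases mul_eq_zero.1 h5 with h6 | h6
        · exact h6
        · exact absurd (sub_eq_zero.1 h6) h2
      rw [h4, zero_smul, smul_zero]
  have hw0 : w ≠ 0 := by
    intro h1
    have h2 : Pi w = ((∑ x : A, (if (x : H) ∈ C then N else 0) : ℕ) : ℂ) •
        (v : Fin n → ℂ) := by
      rw [hw, map_sum, Finset.sum_congr rfl fun x _ => hPix x, ← Finset.sum_smul]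
      congr 1
      push_cast
      rfl
    rw [h1, map_zero] at h2
    rcases smul_eq_zero.1 h2.symm with h3 | h3
    · rw [Nat.cast_eq_zero, Finset.sum_eq_zero_iff] at h3
      have h4 := h3 1 (Finset.mem_univ _)
      rw [Subgroup.coe_one, if_pos C.one_mem] at h4
      exact hN0.ne' h4
    · exact hv0 h3
  refine ⟨n, σ, hn, hσ, ?_, ⟨w, hw0, ?_⟩, ?_⟩
  · rw [RADC f a hcomm C hC hidx hf, ← hm'sq, hfin, hdim]
    ring
  · intro x hx
    exact hwA ⟨x, hx⟩
  · intro z hz x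
    exact hcen z hz x

end Pool.Agent.LP
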