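import Pool.Agent.LP.Kd
import Pool.Agent.LP.Rdc
import Pool.Agent.LP.Rdq
import Pool.Agent.LP.Clp
import Pool.Agent.LP.Zl
import Pool.Agent.Helper74.MX.MIN

/-!
# LP / Ku: the induction step for the upper bound (`σ` faithful on the center)

PROOF. `ρ = lin σ`, `Irr ρ`. For central `z`, `ρ z` is a scalar `lam z` (`central_scalar`),
multiplicative, `lam z = 1` only for `z = 1`. `ZLEM` gives `a`, `C`. Let `μ` be an eigenvalue of `ρ a`
(`Module.End.exists_eigenvalue`), `V0` the eigenspace; `CLP`: `V0` is an irreducible `C`-space and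
`m = p * dim V0`. `MAT` turns it into a matrix representation `σ'` of `C` of degree `m' = dim V0`,
with an equivalence `e`. `hind` for `C` gives `g : LG p C →* ℂˣ` with `m' * m' = (rad g).index` and
`σ' z = g z` on `center C`. `FEXT`: `f : LG p H →* ℂˣ` with `f ∘ LGmap C.subtype = g`. For
`z ∈ center H`: `z ∈ C`, `z ∈ center C`, and `lam z = g z = f z` (look at a nonzero vector of `V0`). So
`f` is faithful on `center H` and `RADC` gives `(rad f).index = p^2 (rad g).index = (p m')^2 = m * m`.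
-/

set_option autoImplicit false

open scoped commutatorElement
open Pool.Agent.Helper89.MD (Irred)
open Pool.Agent.Helper74.MX

namespace Pool.Agent.LP

variable {p : ℕ} {H : Type} [Group H] [h : Fact (Laz p H)]

theorem KS_up (hind : ∀ (C : Subgroup H) [Fact (Laz p C)], C ≠ ⊤ → KUPP p C)
    (hnc : ∃ x y : H, x * y ≠ y * x) (m : ℕ) (σ : H →* Matrix.GeneralLinearGroup (Fin m) ℂ)
    (hm : 0 < m) (hσ : Irred σ) (hinj : ∀ z ∈ Subgroup.center H, σ z = 1 → z = 1) :
    ∃ f : LG p H →* ℂˣ, UPS σ f := by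
  classical
  have := h.out.fin
  have hp := h.out.prime
  set ρ : H →* Module.End ℂ (Fin m → ℂ) := lin σ with hρdef
  have hρ : Irr ρ := Irr_lin hm σ hσ
  have hnt : Nontrivial (Fin m → ℂ) := hρ.1
  obtain ⟨v0, hv0⟩ := exists_ne (0 : Fin m → ℂ)
  have hsc : ∀ z : H, ∃ c : ℂˣ, z ∈ Subgroup.center H → ∀ v, ρ z v = (c : ℂ) • v := by
    intro z
    by_cases hz : z ∈ Subgroup.center H
    · obtain ⟨c, hc⟩ := central_scalar ρ hρ z (fun x => (Subgroup.mem_center_iff.1 hz) x)
      have hc0 : c ≠ 0 := by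
        rintro rfl
        have h1 := hc v0
        rw [zero_smul] at h1
        have h2 : ρ z⁻¹ (ρ z v0) = v0 := by
          rw [← Module.End.mul_apply, ← map_mul, inv_mul_cancel, map_one]; rfl
        rw [h1, map_zero] at h2
        exact hv0 h2.symm
      exact ⟨Units.mk0 c hc0, fun _ => hc⟩
    · exact ⟨1, fun hz' => absurd hz' hz⟩
  choose lam hlam using hsc
  have huniq : ∀ (c d : ℂˣ) {V : Type} [AddCommGroup V] [Module ℂ V] (v : V), v ≠ 0 →
      (c : ℂ) • v = (d : ℂ) • v → c = d := by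
    intro c d V _ _ v hv hcd
    apply Units.ext
    exact smul_left_injective ℂ hv hcd
  have hmul : ∀ x ∈ Subgroup.center H, ∀ y ∈ Subgroup.center H, lam (x * y) = lam x * lam y := by
    intro x hx y hy
    apply huniq _ _ v0 hv0
    rw [← hlam (x * y) (mul_mem hx hy) v0, map_mul, Module.End.mul_apply, hlam y hy, map_smul,
      hlam x hx, smul_smul, Units.val_mul, mul_comm]
  have hone : ∀ z ∈ Subgroup.center H, lam z = 1 → z = 1 := by
    intro z hz h1
    apply hinj z hz
    apply Units.ext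
    rw [Units.val_one]
    apply Matrix.toLin'.injective
    rw [Matrix.toLin'_one]
    apply LinearMap.ext
    intro v
    have h2 := hlam z hz v
    rw [h1, Units.val_one, one_smul] at h2
    exact h2
  obtain ⟨a, C, hCn, ha, hcomm, hC, hidx⟩ := ZLEM hp h.out.pgroup hnc lam hmul hone
  have hCtop : C ≠ ⊤ := by
    intro htop
    rw [htop, Subgroup.index_top] at hidx
    exact hp.one_lt.ne hidx
  have hLC : Fact (Laz p C) := ⟨h.out.subgroup C⟩
  obtain ⟨μ, hμ⟩ := Module.End.exists_eigenvalue (ρ a)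
  have hinj' : ∀ z ∈ Subgroup.center H, ρ z = 1 → z = 1 := by
    intro z hz h1
    apply hone z hz
    apply huniq _ _ v0 hv0
    rw [← hlam z hz, h1, Units.val_one, one_smul, Module.End.one_apply]
  obtain ⟨hInv, hIrr0, hfin⟩ := CLP hp ρ hρ a C hC hcomm hidx hinj' μ hμ
  obtain ⟨m', σ', e, hm', hσ', he⟩ := MAT _ hIrr0
  have hm'eq : Module.finrank ℂ (Module.End.eigenspace (ρ a) μ) = m' := by
    rw [← e.finrank_eq, Module.finrank_fin_fun]
  obtain ⟨g, hg1, hg2⟩ := hind C hCtop m' σ' hm' hσ'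
  obtain ⟨f, hf⟩ := FEXT C g
  have hfg : ∀ x : C, f (toL p (x : H)) = g (toL p x) := by
    intro x
    rw [← hf]
    rfl
  have hlf : ∀ z ∈ Subgroup.center H, lam z = f (toL p z) := by
    intro z hz
    have hzC : z ∈ C := (hC z).2 ((Subgroup.mem_center_iff.1 hz) a)
    have hzC' : (⟨z, hzC⟩ : C) ∈ Subgroup.center C := by
      rw [Subgroup.mem_center_iff]
      intro x
      apply Subtype.ext
      exact (Subgroup.mem_center_iff.1 hz) x
    have : Nonempty (Fin m') := ⟨⟨0, hm'⟩⟩
    obtain ⟨w, hw⟩ := exists_ne (0 : Fin m' → ℂ)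
    have h1 := he ⟨z, hzC⟩ w
    rw [hg2 _ hzC' w, map_smul] at h1
    have h2 := congrArg (Subtype.val) h1
    rw [sub_coe] at h2
    change (g (toL p (⟨z, hzC⟩ : C)) : ℂ) • ((e w : Module.End.eigenspace (ρ a) μ) : Fin m → ℂ) =
      ρ z (e w) at h2
    rw [hlam z hz, ← hfg] at h2
    refine (huniq _ _ ((e w : Module.End.eigenspace (ρ a) μ) : Fin m → ℂ) ?_ h2).symm
    intro h3
    apply hw
    apply e.injective
    rw [map_zero]
    exact Subtype.ext h3
  have hff : ∀ z ∈ Subgroup.center H, f (toL p z) = 1 → z = 1 := by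
    intro z hz h1
    exact hone z hz ((hlf z hz).trans h1)
  refine ⟨f, ?_, ?_⟩
  · have h1 := RADC f a hcomm C hC hidx hff
    rw [hf, ← hg1] at h1
    rw [Module.finrank_fin_fun, hm'eq] at hfin
    rw [h1, hfin]
    ring
  · intro z hz v
    rw [← hlf z hz, ← hlam z hz v]
    rfl

end Pool.Agent.LP
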