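import Pool.Agent.LP.Kb
import Pool.Agent.LP.Kq
import Pool.Agent.LP.Ks
import Pool.Agent.LP.Ku

/-!
# LP / Kex: Kirillov's correspondence for groups of class `< p` (helper73)
-/

set_option autoImplicit false

open scoped commutatorElement
open Pool.Agent.Helper89.MD (Irred)

namespace Pool.Agent.LP

theorem Laz.quot {p : ℕ} {H : Type} [Group H] (h : Laz p H) (K : Subgroup H) [K.Normal] :
    Laz p (H ⧸ K) := h.of_surj (QuotientGroup.mk' K) (QuotientGroup.mk'_surjective K)

theorem card_quot_lt {H : Type} [Group H] [Finite H] {z : H} (hz : z ≠ 1) :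
    Nat.card (H ⧸ Subgroup.zpowers z) < Nat.card H := by
  have h1 := Subgroup.card_eq_card_quotient_mul_card_subgroup (Subgroup.zpowers z)
  have h2 : 1 < Nat.card (Subgroup.zpowers z) := by
    rw [Nat.card_zpowers]
    have h3 : orderOf z ≠ 1 := fun h => hz (orderOf_eq_one_iff.1 h)
    have h4 : 0 < orderOf z := orderOf_pos z
    omega
  have h5 : 0 < Nat.card (H ⧸ Subgroup.zpowers z) := Nat.card_pos
  rw [h1]
  exact (Nat.lt_mul_iff_one_lt_right h5).2 h2

theorem card_sub_lt {H : Type} [Group H] [Finite H] {C : Subgroup H} (hC : C ≠ ⊤) :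
    Nat.card C < Nat.card H := by
  have h1 := Subgroup.card_le_card_group C
  refine lt_of_le_of_ne h1 fun h => hC ?_
  exact Subgroup.eq_top_of_card_eq C h

theorem zpowers_normal_of_central {H : Type} [Group H] {z : H} (hz : z ∈ Subgroup.center H) :
    (Subgroup.zpowers z).Normal := by
  have hle : Subgroup.zpowers z ≤ Subgroup.center H := by
    rw [Subgroup.zpowers_le]
    exact hz
  refine ⟨fun n hn g => ?_⟩
  have h1 := Subgroup.mem_center_iff.1 (hle hn) g
  rw [h1, mul_inv_cancel_right]
  exact hn

theorem KEX_all {p : ℕ} (n : ℕ) : ∀ (H : Type) [Group H] [Fact (Laz p H)], Nat.card H ≤ n →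
    KEXP p H ∧ KUPP p H := by
  induction n with
  | zero =>
    intro H _ hH hn
    have := hH.out.fin
    have : 0 < Nat.card H := Nat.card_pos
    omega
  | succ n ih =>
    intro H _ hH hn
    have hfin := hH.out.fin
    by_cases hc : ∀ x y : H, x * y = y * x
    · exact ⟨KB_ex hc, KB_up hc⟩
    · push Not at hc
      refine ⟨?_, ?_⟩
      · intro f A hA hAc
        by_cases hf : ∀ z ∈ Subgroup.center H, f (toL p z) = 1 → z = 1
        · refine KS_ex (fun C _ hC => ?_) hc f hf A hA hAc
          exact (ih C (by have := card_sub_lt hC; omega)).1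
        · push Not at hf
          obtain ⟨z, hz, hfz, hz1⟩ := hf
          have hn1 := zpowers_normal_of_central hz
          have hF : Fact (Laz p (H ⧸ Subgroup.zpowers z)) := ⟨hH.out.quot _⟩
          refine KQ_ex (Subgroup.zpowers z) ((Subgroup.zpowers_le).2 hz)
            (ih _ (by have := card_quot_lt hz1; omega)).1 f ?_ A hA hAc
          intro k hk
          obtain ⟨j, rfl⟩ := (mem_powers_iff_mem_zpowers (x := z)).2 hk
          change f (toL p (z ^ j)) = 1
          rw [toL_pow, map_pow, hfz, one_pow]
      · intro m σ hm hσ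
        by_cases hinj : ∀ z ∈ Subgroup.center H, σ z = 1 → z = 1
        · refine KS_up (fun C _ hC => ?_) hc m σ hm hσ hinj
          exact (ih C (by have := card_sub_lt hC; omega)).2
        · push Not at hinj
          obtain ⟨z, hz, hfz, hz1⟩ := hinj
          have hn1 := zpowers_normal_of_central hz
          have hF : Fact (Laz p (H ⧸ Subgroup.zpowers z)) := ⟨hH.out.quot _⟩
          refine KQ_up (Subgroup.zpowers z) (ih _ (by have := card_quot_lt hz1; omega)).2 m σ hm
            hσ ?_
          intro k hk
          obtain ⟨j, rfl⟩ := Subgroup.mem_zpowers_iff.1 hk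
          rw [map_zpow, hfz, one_zpow]

end Pool.Agent.LP
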