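import Pool.Agent.LP.Lz3

/-!
# LP / LG: the commutative group `LG p H` of a Lazard group `H`
-/

set_option autoImplicit false

open scoped commutatorElement

namespace Pool.Agent.LP

/-- The Lazard group: `H` with the operation `ladd`. -/
def LG (_p : ℕ) (H : Type) : Type := H

/-- `H → LG p H` -/
def toL (p : ℕ) {H : Type} (x : H) : LG p H := x

/-- `LG p H → H` -/
def ofL (p : ℕ) {H : Type} (x : LG p H) : H := x

@[simp] theorem ofL_toL (p : ℕ) {H : Type} (x : H) : ofL p (toL p x) = x := rfl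

@[simp] theorem toL_ofL (p : ℕ) {H : Type} (x : LG p H) : toL p (ofL p x) = x := rfl

noncomputable instance {p : ℕ} {H : Type} [Group H] [h : Fact (Laz p H)] : CommGroup (LG p H) where
  mul x y := toL p (ladd (ofL p x) (ofL p y))
  mul_assoc x y z := ladd_assoc h.out (ofL p x) (ofL p y) (ofL p z)
  one := toL p 1
  one_mul x := one_ladd h.out (ofL p x)
  mul_one x := (ladd_comm h.out (ofL p x) 1).trans (one_ladd h.out (ofL p x))
  inv x := toL p (ofL p x)⁻¹
  inv_mul_cancel x := inv_ladd h.out (ofL p x)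
  mul_comm x y := ladd_comm h.out (ofL p x) (ofL p y)

theorem ofL_mul {p : ℕ} {H : Type} [Group H] [Fact (Laz p H)] (x y : LG p H) :
    ofL p (x * y) = ladd (ofL p x) (ofL p y) := rfl

theorem toL_ladd {p : ℕ} {H : Type} [Group H] [Fact (Laz p H)] (x y : H) :
    toL p (ladd x y) = toL p x * toL p y := rfl

theorem ofL_one {p : ℕ} {H : Type} [Group H] [Fact (Laz p H)] :
    ofL p (1 : LG p H) = (1 : H) := rfl

theorem ofL_inv {p : ℕ} {H : Type} [Group H] [Fact (Laz p H)] (x : LG p H) :
    ofL p x⁻¹ = (ofL p x)⁻¹ := rfl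

instance {p : ℕ} {H : Type} [Group H] [h : Fact (Laz p H)] : Finite (LG p H) := h.out.fin

theorem card_LG (p : ℕ) (H : Type) : Nat.card (LG p H) = Nat.card H := rfl

theorem toL_mul_of_comm {p : ℕ} {H : Type} [Group H] [h : Fact (Laz p H)] {x y : H}
    (hxy : x * y = y * x) : toL p (x * y) = toL p x * toL p y := by
  rw [← toL_ladd, ladd_commute h.out hxy]

theorem toL_pow {p : ℕ} {H : Type} [Group H] [h : Fact (Laz p H)] (x : H) (n : ℕ) :
    toL p (x ^ n) = toL p x ^ n := by
  induction n with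
  | zero => rw [pow_zero, pow_zero]; rfl
  | succ n ih =>
    rw [pow_succ, pow_succ, ← ih]
    exact toL_mul_of_comm ((pow_succ x n).symm.trans (pow_succ' x n))

theorem LG_pgroup {p : ℕ} {H : Type} [Group H] [h : Fact (Laz p H)] : IsPGroup p (LG p H) := by
  intro x
  obtain ⟨k, hk⟩ := h.out.pgroup (ofL p x)
  refine ⟨k, ?_⟩
  have h1 := toL_pow (p := p) (ofL p x) (p ^ k)
  rw [hk, toL_ofL] at h1
  exact h1.symm

theorem lev_eq {p : ℕ} {H : Type} [Group H] [h : Fact (Laz p H)] {n : ℕ} (x : Fin n → H)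
    (t : ℕ) : toL p (lev x t) = pev (fun d => toL p (x d)) t := by
  have key : ∀ l : List (Fin n),
      toL p ((l.map (fun d => x d ^ (t ^ (d : ℕ)))).foldr ladd 1) =
      (l.map (fun d => toL p (x d) ^ (t ^ (d : ℕ)))).prod := by
    intro l
    induction l with
    | nil => rfl
    | cons a l ih =>
      rw [List.map_cons, List.foldr_cons, List.map_cons, List.prod_cons, ← ih, toL_ladd, toL_pow]
  rw [lev, key, pev, ← List.prod_ofFn, List.ofFn_eq_map]

/-- Functoriality of `LG`. -/
noncomputable def LGmap {p : ℕ} {H H' : Type} [Group H] [Group H'] [h : Fact (Laz p H)]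
    [h' : Fact (Laz p H')] (φ : H →* H') : LG p H →* LG p H' where
  toFun x := toL p (φ (ofL p x))
  map_one' := φ.map_one
  map_mul' x y := map_ladd h.out h'.out φ (ofL p x) (ofL p y)

theorem LGmap_apply {p : ℕ} {H H' : Type} [Group H] [Group H'] [Fact (Laz p H)]
    [Fact (Laz p H')] (φ : H →* H') (x : LG p H) : LGmap (p := p) φ x = toL p (φ (ofL p x)) := rfl

/-- The radical of `(x, y) ↦ f (lbr x y)`. -/
def rad {p : ℕ} {H : Type} [Group H] [h : Fact (Laz p H)] (f : LG p H →* ℂˣ) :
    Subgroup (LG p H) where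
  carrier := {x | ∀ y : H, f (toL p (lbr (ofL p x) y)) = 1}
  one_mem' := by
    intro y
    have h1 : lbr (ofL p (1 : LG p H)) y = 1 := lbr_commute h.out (by rw [ofL_one]; simp)
    rw [h1]
    exact f.map_one
  mul_mem' := by
    intro a b ha hb y
    rw [ofL_mul, lbr_add_left h.out, toL_ladd, map_mul, ha y, hb y, one_mul]
  inv_mem' := by
    intro a ha y
    have h1 : lbr (ofL p (a⁻¹ * a)) y = 1 := by
      rw [inv_mul_cancel, ofL_one]
      exact lbr_commute h.out (by simp)
    rw [ofL_mul, lbr_add_left h.out] at h1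
    have h2 : f (toL p (lbr (ofL p a⁻¹) y)) * f (toL p (lbr (ofL p a) y)) = 1 := by
      rw [← map_mul, ← toL_ladd, h1]
      exact f.map_one
    rw [ha y, mul_one] at h2
    exact h2

theorem mem_rad {p : ℕ} {H : Type} [Group H] [Fact (Laz p H)] (f : LG p H →* ℂˣ) (x : LG p H) :
    x ∈ rad f ↔ ∀ y : H, f (toL p (lbr (ofL p x) y)) = 1 := Iff.rfl

end Pool.Agent.LP
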