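import Pool.Agent.LP.Je
import Pool.Agent.LP.Gam

/-!
# LP / Lz1: the Lazard sum

Notation: `F = gam H`, a filtration of length `c = p - 1 < p` (`gam_fil`), `F 1 = ⊤`.
PROOFS. `ladd_spec`: `theta x 1 * theta y 1 ∈ J F 1`; `J_rep` gives existence, then
`Classical.epsilon_spec`. `ladd_uniq`: `J_uniq` (`(theta w 1)⁻¹ q`, `(theta w' 1)⁻¹ q ∈ J F 2` give
`(theta w 1)⁻¹ * theta w' 1 ∈ J F 2`). In what follows `q ~ q'` means `q⁻¹ * q' ∈ J F 2` for
`q, q' ∈ J F 1`; it is a congruence on the group `J F 1` because `J F 2` is normalised by `J F 1`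
(`J_conj`), and `q r ~ r q` (`J_comm`).
`ladd_comm`: `theta x * theta y ~ theta y * theta x`. `ladd_assoc`: both sides are
`~ theta x * theta y * theta z`. `ladd_one`, `one_ladd`: `theta 1 = 1`. `ladd_inv`:
`theta x * theta x⁻¹ = 1 = theta 1`. `ladd_commute`: if `x y = y x` then
`theta x 1 * theta y 1 = theta (x * y) 1`.
`ladd_mem`: for `x, y ∈ F k`, `J_exp` gives `ladd x y ∈ F k`.
`ladd_spec_k`: `J_exp`.
-/

set_option autoImplicit false

open scoped commutatorElement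

namespace Pool.Agent.LP

variable {p : ℕ} {H : Type} [Group H]

private theorem plt (h : Laz p H) : p - 1 < p := by
  have := h.prime.pos
  omega

private theorem mem1 (x : H) : x ∈ gam H 1 := Subgroup.mem_top x

private theorem th1 (x : H) : theta x 1 ∈ J (gam H) 1 := theta_mem le_rfl (mem1 x)

private theorem cg_mul (h : Laz p H) {k : ℕ} (hk : 1 ≤ k) {q q' r r' : ℕ → H}
    (hr : r ∈ J (gam H) 1) (h1 : q⁻¹ * q' ∈ J (gam H) k) (h2 : r⁻¹ * r' ∈ J (gam H) k) :
    (q * r)⁻¹ * (q' * r') ∈ J (gam H) k := by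
  have := h.fin
  have h3 := J_conj (gam_fil h) h.prime h.pgroup (plt h) hk (inv_mem hr) h1
  have h4 := mul_mem h3 h2
  have e : (q * r)⁻¹ * (q' * r') = r⁻¹ * (q⁻¹ * q') * r⁻¹⁻¹ * (r⁻¹ * r') := by group
  rw [e]
  exact h4

private theorem cg_symm {k : ℕ} {q q' : ℕ → H} (h1 : q⁻¹ * q' ∈ J (gam H) k) :
    q'⁻¹ * q ∈ J (gam H) k := by
  have h2 := inv_mem h1
  rwa [mul_inv_rev, inv_inv] at h2

private theorem cg_trans {k : ℕ} {q q' q'' : ℕ → H} (h1 : q⁻¹ * q' ∈ J (gam H) k)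
    (h2 : q'⁻¹ * q'' ∈ J (gam H) k) : q⁻¹ * q'' ∈ J (gam H) k := by
  have h3 := mul_mem h1 h2
  have e : q⁻¹ * q'' = q⁻¹ * q' * (q'⁻¹ * q'') := by group
  rw [e]
  exact h3

private theorem cg_refl {k : ℕ} (q : ℕ → H) : q⁻¹ * q ∈ J (gam H) k := by
  rw [inv_mul_cancel]
  exact one_mem _

theorem ladd_spec (h : Laz p H) (x y : H) :
    (theta (ladd x y) 1)⁻¹ * (theta x 1 * theta y 1) ∈ J (gam H) 2 := by
  have := h.fin
  obtain ⟨w, -, hw⟩ := J_rep (gam_fil h) h.prime h.pgroup (plt h) (k := 1) le_rfl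
    (mul_mem (th1 x) (th1 y))
  exact Classical.epsilon_spec
    (p := fun w : H => (theta w 1)⁻¹ * (theta x 1 * theta y 1) ∈ J (gam H) 2) ⟨w, hw⟩

theorem ladd_uniq (h : Laz p H) {x y w : H}
    (hw : (theta w 1)⁻¹ * (theta x 1 * theta y 1) ∈ J (gam H) 2) : ladd x y = w := by
  have := h.fin
  refine J_uniq (gam_fil h) h.prime h.pgroup (plt h) (k := 1) le_rfl (mem1 _) (mem1 _) ?_
  exact cg_trans (ladd_spec h x y) (cg_symm hw)

theorem ladd_comm (h : Laz p H) (x y : H) : ladd x y = ladd y x := by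
  have := h.fin
  refine ladd_uniq h (cg_trans (ladd_spec h y x) ?_)
  have h1 : ⁅(theta x 1)⁻¹, (theta y 1)⁻¹⁆ ∈ J (gam H) 2 :=
    J_comm (gam_fil h) h.prime h.pgroup (plt h) (i := 1) (j := 1) le_rfl le_rfl
      (Subgroup.commutator_mem_commutator (inv_mem (th1 x)) (inv_mem (th1 y)))
  have e : (theta y 1 * theta x 1)⁻¹ * (theta x 1 * theta y 1) =
      ⁅(theta x 1)⁻¹, (theta y 1)⁻¹⁆ := by
    rw [commutatorElement_def]
    group
  rw [e]
  exact h1

theorem ladd_assoc (h : Laz p H) (x y z : H) : ladd (ladd x y) z = ladd x (ladd y z) := by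
  refine ladd_uniq h (cg_trans (ladd_spec h x (ladd y z)) ?_)
  have h1 := cg_mul h (k := 2) (by norm_num) (th1 z) (ladd_spec h x y) (cg_refl (theta z 1))
  have h2 := cg_mul h (k := 2) (by norm_num) (th1 (ladd y z)) (cg_refl (theta x 1))
    (ladd_spec h y z)
  rw [← mul_assoc (theta x 1) (theta y 1) (theta z 1)] at h2
  exact cg_trans h2 (cg_symm h1)

theorem one_ladd (h : Laz p H) (x : H) : ladd 1 x = x := by
  refine ladd_uniq h ?_
  rw [theta_id, one_mul, inv_mul_cancel]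
  exact one_mem _

theorem inv_ladd (h : Laz p H) (x : H) : ladd x⁻¹ x = 1 := by
  refine ladd_uniq h ?_
  rw [← theta_inv, inv_mul_cancel, theta_id, mul_one, inv_one]
  exact one_mem _

theorem ladd_commute (h : Laz p H) {x y : H} (hxy : x * y = y * x) : ladd x y = x * y := by
  refine ladd_uniq h ?_
  have e : theta x 1 * theta y 1 = theta (x * y) 1 := by
    funext t
    rw [Pi.mul_apply, theta_apply, theta_apply, theta_apply]
    exact (Commute.mul_pow hxy _).symm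
  rw [e, inv_mul_cancel]
  exact one_mem _

theorem ladd_spec_k (h : Laz p H) {k : ℕ} (hk : 1 ≤ k) {x y : H} (hx : x ∈ gam H k)
    (hy : y ∈ gam H k) : ladd x y ∈ gam H k ∧
    (theta (ladd x y) k)⁻¹ * (theta x k * theta y k) ∈ J (gam H) (k + 1) := by
  have := h.fin
  exact J_exp (gam_fil h) h.prime h.pgroup (plt h) hk hx hy (mem1 _) (ladd_spec h x y)

end Pool.Agent.LP
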