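import Pool.Agent.LP.Lz1

/-!
# LP / Lz2: the Lazard bracket

Notation: `F = gam H`, `F 1 = ⊤`.
PROOFS. `lbr_spec`: `⁅theta x 1, theta y 1⁆ ∈ J F 2` by `J_comm`; `J_rep` (k = 2) and
`Classical.epsilon_spec`. `lbr_uniq`: `J_uniq` (k = 2).
`lbr_add_left`: let `a = theta (ladd x y) 1`; `a = theta x 1 * theta y 1 * j` with `j ∈ J F 2`
(`ladd_spec`). With `z' = theta z 1` and `q ≡ q'` for `q⁻¹ q' ∈ J F 3` (a congruence on `J F 1`,
`J_conj`): `⁅a, z'⁆ ≡ ⁅theta x 1, z'⁆ * ⁅theta y 1, z'⁆` from `⁅uv, z⁆ = u ⁅v, z⁆ u⁻¹ ⁅u, z⁆`,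
`⁅J F 2, J F 1⁆ ≤ J F 3` and `⁅J F 1, J F 2⁆ ≤ J F 3` (so elements of `J F 2` are central modulo
`J F 3`). This is `≡ theta (lbr x z) 2 * theta (lbr y z) 2 ≡ theta (ladd (lbr x z) (lbr y z)) 2`
(`ladd_spec_k` with `k = 2`). Conclude by `lbr_uniq`.
`lbr_swap`: `⁅v, u⁆ = ⁅u, v⁆⁻¹` and `(theta w 2)⁻¹ = theta w⁻¹ 2`; note that from
`q = theta w 2 * j`, `j ∈ J F 3`: `q⁻¹ = j⁻¹ * theta w⁻¹ 2`, and
`(theta w⁻¹ 2)⁻¹ * q⁻¹ = theta w 2 * j⁻¹ * (theta w 2)⁻¹ ∈ J F 3` (`J_conj`).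
`lbr_add_right`: from `lbr_add_left`, `lbr_swap` and `(ladd x y)⁻¹ = ladd x⁻¹ y⁻¹`
(the inverse of the commutative group law is `x ↦ x⁻¹`; use `inv_ladd`, assoc, comm).
`lbr_central`: if `⁅x, y⁆` commutes with `x` and `y` then `⁅x ^ s, y ^ t⁆ = ⁅x, y⁆ ^ (s * t)`, so
`⁅theta x 1, theta y 1⁆ = theta ⁅x, y⁆ 2` and `⁅x, y⁆ ∈ gam H 2`.
`lbr_commute`: the special case `⁅x, y⁆ = 1`. `lbr_self`: special case.
-/

set_option autoImplicit false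

open scoped commutatorElement

namespace Pool.Agent.LP

variable {p : ℕ} {H : Type} [Group H]

private theorem plt (h : Laz p H) : p - 1 < p := by
  have := h.prime.pos
  omega

private theorem mem1 (x : H) : x ∈ gam H 1 := Subgroup.mem_top x

private theorem th1 (x : H) : theta x 1 ∈ J (gam H) 1 := theta_mem le_rfl (mem1 x)

private theorem cj (h : Laz p H) {k : ℕ} (hk : 1 ≤ k) {x y : ℕ → H} (hx : x ∈ J (gam H) 1)
    (hy : y ∈ J (gam H) k) : x * y * x⁻¹ ∈ J (gam H) k := by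
  have := h.fin
  exact J_conj (gam_fil h) h.prime h.pgroup (plt h) hk hx hy

private theorem cm (h : Laz p H) (i j k : ℕ) (hi : 1 ≤ i) (hj : 1 ≤ j) (hk : i + j = k)
    {x y : ℕ → H} (hx : x ∈ J (gam H) i) (hy : y ∈ J (gam H) j) : ⁅x, y⁆ ∈ J (gam H) k := by
  have := h.fin
  subst hk
  exact J_comm (gam_fil h) h.prime h.pgroup (plt h) hi hj
    (Subgroup.commutator_mem_commutator hx hy)

private theorem cg_mul (h : Laz p H) {k : ℕ} (hk : 1 ≤ k) {q q' r r' : ℕ → H}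
    (hr : r ∈ J (gam H) 1) (h1 : q⁻¹ * q' ∈ J (gam H) k) (h2 : r⁻¹ * r' ∈ J (gam H) k) :
    (q * r)⁻¹ * (q' * r') ∈ J (gam H) k := by
  have h3 := cj h hk (inv_mem hr) h1
  have h4 := mul_mem h3 h2
  have e : (q * r)⁻¹ * (q' * r') = r⁻¹ * (q⁻¹ * q') * r⁻¹⁻¹ * (r⁻¹ * r') := by group
  rw [e]
  exact h4

private theorem cg_trans {k : ℕ} {q q' q'' : ℕ → H} (h1 : q⁻¹ * q' ∈ J (gam H) k)
    (h2 : q'⁻¹ * q'' ∈ J (gam H) k) : q⁻¹ * q'' ∈ J (gam H) k := by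
  have h3 := mul_mem h1 h2
  have e : q⁻¹ * q'' = q⁻¹ * q' * (q'⁻¹ * q'') := by group
  rw [e]
  exact h3

private theorem grp_id {K : Type} [Group K] (s a b c : K) :
    (⁅a, c⁆ * ⁅b, c⁆)⁻¹ * ⁅s, c⁆ = (⁅a, c⁆ * ⁅b, c⁆)⁻¹ *
      (a * b * ⁅(s⁻¹ * (a * b))⁻¹, c⁆ * (a * b)⁻¹ * ⁅a, ⁅b, c⁆⁆ * ⁅⁅b, c⁆, ⁅a, c⁆⁆) *
      (⁅a, c⁆ * ⁅b, c⁆)⁻¹⁻¹ := by
  simp only [commutatorElement_def, mul_inv_rev, inv_inv, mul_assoc, mul_inv_cancel_left,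
    inv_mul_cancel_left, mul_inv_cancel, inv_mul_cancel, mul_one, one_mul]

private theorem inv_ladd_dist (h : Laz p H) (a b : H) : (ladd a b)⁻¹ = ladd a⁻¹ b⁻¹ := by
  have h1 : ladd (ladd a⁻¹ b⁻¹) (ladd a b) = 1 := by
    rw [ladd_assoc h, ladd_comm h a b, ← ladd_assoc h b⁻¹ b a, inv_ladd h, one_ladd h,
      inv_ladd h]
  have h2 : ladd (ladd a b) (ladd a b)⁻¹ = 1 := by
    rw [ladd_comm h, inv_ladd h]
  calc (ladd a b)⁻¹ = ladd 1 (ladd a b)⁻¹ := (one_ladd h _).symm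
    _ = ladd (ladd (ladd a⁻¹ b⁻¹) (ladd a b)) (ladd a b)⁻¹ := by rw [h1]
    _ = ladd (ladd a⁻¹ b⁻¹) 1 := by rw [ladd_assoc h, h2]
    _ = ladd a⁻¹ b⁻¹ := by rw [ladd_comm h, one_ladd h]

private theorem comm_pow {x y : H} (h1 : ⁅x, y⁆ * x = x * ⁅x, y⁆)
    (h2 : ⁅x, y⁆ * y = y * ⁅x, y⁆) (s t : ℕ) : ⁅x ^ s, y ^ t⁆ = ⁅x, y⁆ ^ (s * t) := by
  set z := ⁅x, y⁆ with hz
  have e1 : x * y * x⁻¹ = z * y := by
    rw [hz, commutatorElement_def]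
    group
  have e2 : x * y ^ t * x⁻¹ = z ^ t * y ^ t := by
    have h3 : Commute z y := h2
    rw [← h3.mul_pow, ← e1, conj_pow]
  have hc : ∀ n : ℕ, x * z ^ n * x⁻¹ = z ^ n := by
    intro n
    have h3 : Commute z x := h1
    rw [(h3.pow_left n).symm.eq]
    group
  have e3 : ∀ s : ℕ, x ^ s * y ^ t * (x ^ s)⁻¹ = z ^ (s * t) * y ^ t := by
    intro s
    induction s with
    | zero => simp
    | succ s ih =>
      calc x ^ (s + 1) * y ^ t * (x ^ (s + 1))⁻¹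
          = x * (x ^ s * y ^ t * (x ^ s)⁻¹) * x⁻¹ := by
            rw [pow_succ' x s]
            group
        _ = x * (z ^ (s * t) * y ^ t) * x⁻¹ := by rw [ih]
        _ = (x * z ^ (s * t) * x⁻¹) * (x * y ^ t * x⁻¹) := by group
        _ = z ^ (s * t) * (z ^ t * y ^ t) := by rw [hc, e2]
        _ = z ^ ((s + 1) * t) * y ^ t := by rw [← mul_assoc, ← pow_add, Nat.succ_mul]
  rw [commutatorElement_def, e3 s, mul_assoc, mul_inv_cancel, mul_one]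

theorem lbr_spec (h : Laz p H) (x y : H) : lbr x y ∈ gam H 2 ∧
    (theta (lbr x y) 2)⁻¹ * ⁅theta x 1, theta y 1⁆ ∈ J (gam H) 3 := by
  have := h.fin
  obtain ⟨w, hw1, hw2⟩ := J_rep (gam_fil h) h.prime h.pgroup (plt h) (k := 2) (by norm_num)
    (cm h 1 1 2 le_rfl le_rfl rfl (th1 x) (th1 y))
  exact Classical.epsilon_spec
    (p := fun w : H => w ∈ gam H 2 ∧ (theta w 2)⁻¹ * ⁅theta x 1, theta y 1⁆ ∈ J (gam H) 3)
    ⟨w, hw1, hw2⟩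

theorem lbr_uniq (h : Laz p H) {x y w : H} (hw : w ∈ gam H 2)
    (hw' : (theta w 2)⁻¹ * ⁅theta x 1, theta y 1⁆ ∈ J (gam H) 3) : lbr x y = w := by
  have := h.fin
  refine J_uniq (gam_fil h) h.prime h.pgroup (plt h) (k := 2) (by norm_num)
    (lbr_spec h x y).1 hw ?_
  refine cg_trans (lbr_spec h x y).2 ?_
  have h2 := inv_mem hw'
  rwa [mul_inv_rev, inv_inv] at h2

theorem lbr_add_left (h : Laz p H) (x y z : H) :
    lbr (ladd x y) z = ladd (lbr x z) (lbr y z) := by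
  have hk := ladd_spec_k h (k := 2) (by norm_num) (lbr_spec h x z).1 (lbr_spec h y z).1
  refine lbr_uniq h hk.1 ?_
  refine cg_trans hk.2 ?_
  have h2 := cg_mul h (k := 3) (by norm_num)
    (J_anti (gam H) (by norm_num : 1 ≤ 2) (theta_mem (le_refl 2) (lbr_spec h y z).1))
    (lbr_spec h x z).2 (lbr_spec h y z).2
  refine cg_trans h2 ?_
  have hj := ladd_spec h x y
  have ha := th1 x
  have hb := th1 y
  have hc := th1 z
  generalize theta (ladd x y) 1 = s at *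
  generalize theta x 1 = a at *
  generalize theta y 1 = b at *
  generalize theta z 1 = c at *
  have hA : ⁅a, c⁆ ∈ J (gam H) 2 := cm h 1 1 2 le_rfl le_rfl rfl ha hc
  have hB : ⁅b, c⁆ ∈ J (gam H) 2 := cm h 1 1 2 le_rfl le_rfl rfl hb hc
  have hA1 := J_anti (gam H) (by norm_num : 1 ≤ 2) hA
  have hB1 := J_anti (gam H) (by norm_num : 1 ≤ 2) hB
  have k1 : ⁅(s⁻¹ * (a * b))⁻¹, c⁆ ∈ J (gam H) 3 :=
    cm h 2 1 3 (by norm_num) le_rfl rfl (inv_mem hj) hc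
  have k2 := cj h (k := 3) (by norm_num) (mul_mem ha hb) k1
  have k3 : ⁅a, ⁅b, c⁆⁆ ∈ J (gam H) 3 := cm h 1 2 3 le_rfl (by norm_num) rfl ha hB
  have k4 : ⁅⁅b, c⁆, ⁅a, c⁆⁆ ∈ J (gam H) 3 := cm h 2 1 3 (by norm_num) le_rfl rfl hB hA1
  have k5 := cj h (k := 3) (by norm_num) (inv_mem (mul_mem hA1 hB1))
    (mul_mem (mul_mem k2 k3) k4)
  have e : (⁅a, c⁆ * ⁅b, c⁆)⁻¹ * ⁅s, c⁆ = (⁅a, c⁆ * ⁅b, c⁆)⁻¹ *
      (a * b * ⁅(s⁻¹ * (a * b))⁻¹, c⁆ * (a * b)⁻¹ * ⁅a, ⁅b, c⁆⁆ * ⁅⁅b, c⁆, ⁅a, c⁆⁆) *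
      (⁅a, c⁆ * ⁅b, c⁆)⁻¹⁻¹ := grp_id s a b c
  rw [e]
  exact k5

private theorem lbr_swap_aux (h : Laz p H) (x y : H) : lbr y x = (lbr x y)⁻¹ := by
  have h1 := lbr_spec h x y
  refine lbr_uniq h (inv_mem h1.1) ?_
  rw [← theta_inv, inv_inv, ← commutatorElement_inv (theta x 1) (theta y 1)]
  have h2 := cj h (k := 3) (by norm_num) (J_anti (gam H) (by norm_num : 1 ≤ 2)
    (theta_mem (le_refl 2) h1.1)) (inv_mem h1.2)
  have e : theta (lbr x y) 2 * ⁅theta x 1, theta y 1⁆⁻¹ = theta (lbr x y) 2 *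
      ((theta (lbr x y) 2)⁻¹ * ⁅theta x 1, theta y 1⁆)⁻¹ * (theta (lbr x y) 2)⁻¹ := by
    rw [mul_inv_rev, inv_inv]
    group
  rw [e]
  exact h2

theorem lbr_add_right (h : Laz p H) (x y z : H) :
    lbr x (ladd y z) = ladd (lbr x y) (lbr x z) := by
  rw [lbr_swap_aux h (ladd y z) x, lbr_add_left h, inv_ladd_dist h, ← lbr_swap_aux h y x,
    ← lbr_swap_aux h z x]

theorem lbr_swap (h : Laz p H) (x y : H) : lbr y x = (lbr x y)⁻¹ := lbr_swap_aux h x y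

theorem lbr_central (h : Laz p H) {x y : H} (h1 : ⁅x, y⁆ * x = x * ⁅x, y⁆)
    (h2 : ⁅x, y⁆ * y = y * ⁅x, y⁆) : lbr x y = ⁅x, y⁆ := by
  have hm : ⁅x, y⁆ ∈ gam H 2 :=
    Subgroup.commutator_mem_commutator (Subgroup.mem_top x) (Subgroup.mem_top y)
  refine lbr_uniq h hm ?_
  have e : ⁅theta x 1, theta y 1⁆ = theta ⁅x, y⁆ 2 := by
    funext t
    rw [theta_apply]
    have e1 : ⁅theta x 1, theta y 1⁆ t = ⁅x ^ t, y ^ t⁆ := by
      simp only [commutatorElement_def, Pi.mul_apply, Pi.inv_apply, theta_one_apply]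
    rw [e1, comm_pow h1 h2, pow_two]
  rw [e, inv_mul_cancel]
  exact one_mem _

theorem lbr_commute (h : Laz p H) {x y : H} (hxy : x * y = y * x) : lbr x y = 1 := by
  have h1 : ⁅x, y⁆ = 1 := commutatorElement_eq_one_iff_mul_comm.2 hxy
  rw [lbr_central h (by rw [h1, one_mul, mul_one]) (by rw [h1, one_mul, mul_one]), h1]

theorem lbr_self (h : Laz p H) (x : H) : lbr x x = 1 := lbr_commute h rfl

end Pool.Agent.LP
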