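import Pool.Agent.LP.Lz2

/-!
# LP / Lz3: naturality

PROOFS. Let `φ : H →* H'`, both Lazard groups. Composition with `φ` is a group homomorphism
`(ℕ → H) →* (ℕ → H')` which sends `theta g m` to `theta (φ g) m`, hence `J (gam H) k` into
`J (gam H') k` (`gam_map`, closure induction). So `ladd_uniq`, `lbr_uniq` for `H'` give
`map_ladd`, `map_lbr`.
`lbr_eq_one`: if `x y = y x` then `lbr x y = 1` (`lbr_commute`). Conversely suppose `z = ⁅x, y⁆ ≠ 1`.
Let `K = closure {x, y}`, a Lazard group (`Laz.subgroup`), `γ = (⊤ : Subgroup K).lowerCentralSeries 2`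
(normal in `K`), `K' = K ⧸ γ` (`Laz.of_surj`). Claim: `z ∉ γ`. In general
`lowerCentralSeries ⊤ 1 = commutator K` is the normal closure of `z` (the quotient by the normal
closure of `z` is generated by two commuting elements), so if `z ∈ γ` (normal) then
`lowerCentralSeries ⊤ 1 ≤ lowerCentralSeries ⊤ 2`, hence all `lowerCentralSeries ⊤ n` (`n ≥ 1`) are
equal; as `K` is nilpotent they are `⊥` and `z = 1`, contradiction. In `K'` the image of `z` is
central (`⁅lcs 1, ⊤⁆ = γ`), so `lbr x' y' = ⁅x', y'⁆ ≠ 1` (`lbr_central`), and by naturality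
(`K → H` and `K → K'`) `lbr x y ≠ 1` (`map_lbr` for `K.subtype` which is injective and for the
quotient map).
`map_lev`: `foldr` and `map_ladd`, `map_pow`, `map_one`.
`lev_mem`: `lev` of a tuple of elements of a subgroup `K` lies in `K` (apply `map_lev` to
`K.subtype`).
-/

set_option autoImplicit false

open scoped commutatorElement

namespace Pool.Agent.LP

variable {p : ℕ} {H H' : Type} [Group H] [Group H']

private theorem lz3_theta (φ : H →* H') (g : H) (m : ℕ) :
    φ.compLeft ℕ (theta g m) = theta (φ g) m := by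
  funext t
  simp [theta, MonoidHom.compLeft_apply, Function.comp_apply]

private theorem lz3_J (φ : H →* H') (k : ℕ) {q : ℕ → H} (hq : q ∈ J (gam H) k) :
    φ.compLeft ℕ q ∈ J (gam H') k := by
  have h1 : J (gam H) k ≤ (J (gam H') k).comap (φ.compLeft ℕ) := by
    rw [J, Subgroup.closure_le]
    rintro _ ⟨m, g, hm, hg, rfl⟩
    show φ.compLeft ℕ (theta g m) ∈ J (gam H') k
    rw [lz3_theta]
    exact Subgroup.subset_closure ⟨m, φ g, hm, gam_map φ m hg, rfl⟩
  exact h1 hq

theorem map_ladd (h : Laz p H) (h' : Laz p H') (φ : H →* H') (x y : H) :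
    φ (ladd x y) = ladd (φ x) (φ y) := by
  have h1 := lz3_J φ 2 (ladd_spec h x y)
  rw [map_mul, map_inv, map_mul, lz3_theta, lz3_theta, lz3_theta] at h1
  exact (ladd_uniq h' h1).symm

theorem map_lbr (h : Laz p H) (h' : Laz p H') (φ : H →* H') (x y : H) :
    φ (lbr x y) = lbr (φ x) (φ y) := by
  obtain ⟨h0, h1⟩ := lbr_spec h x y
  have h2 := lz3_J φ 3 h1
  rw [map_mul, map_inv, map_commutatorElement, lz3_theta, lz3_theta, lz3_theta] at h2
  exact (lbr_uniq h' (gam_map φ 2 h0) h2).symm

/-- In a group generated by `x, y`, if `⁅x, y⁆` lies in the third term of the lower central series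
then all terms of the series from the second on are equal. -/
private theorem lz3_stab {Q : Type} [Group Q] (x y : Q) (hgen : Subgroup.closure {x, y} = ⊤)
    (hz : ⁅x, y⁆ ∈ (⊤ : Subgroup Q).lowerCentralSeries 2) :
    (⊤ : Subgroup Q).lowerCentralSeries 1 ≤ (⊤ : Subgroup Q).lowerCentralSeries 2 := by
  set N := (⊤ : Subgroup Q).lowerCentralSeries 2 with hN
  have hNn : N.Normal := by rw [hN]; infer_instance
  have hmk : ∀ g h : Q, ⁅g, h⁆ ∈ N ↔
      Commute (QuotientGroup.mk' N g) (QuotientGroup.mk' N h) := by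
    intro g h
    rw [← commutatorElement_eq_one_iff_commute, ← map_commutatorElement,
      QuotientGroup.mk'_apply, QuotientGroup.eq_one_iff]
  have hxy : Commute (QuotientGroup.mk' N x) (QuotientGroup.mk' N y) := (hmk x y).1 hz
  have key : ∀ a : Q, (∀ b ∈ ({x, y} : Set Q),
      Commute (QuotientGroup.mk' N a) (QuotientGroup.mk' N b)) →
      ∀ b : Q, Commute (QuotientGroup.mk' N a) (QuotientGroup.mk' N b) := by
    intro a ha b
    have h1 : Subgroup.closure {x, y} ≤
        (Subgroup.centralizer {QuotientGroup.mk' N a}).comap (QuotientGroup.mk' N) := by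
      rw [Subgroup.closure_le]
      intro b hb
      show QuotientGroup.mk' N b ∈ Subgroup.centralizer {QuotientGroup.mk' N a}
      rw [Subgroup.mem_centralizer_singleton_iff]
      exact (ha b hb).symm
    have h2 : b ∈ Subgroup.closure ({x, y} : Set Q) := by rw [hgen]; trivial
    have h3 : QuotientGroup.mk' N b ∈ Subgroup.centralizer {QuotientGroup.mk' N a} := h1 h2
    rw [Subgroup.mem_centralizer_singleton_iff] at h3
    exact (Commute.symm h3)
  have hx : ∀ b : Q, Commute (QuotientGroup.mk' N x) (QuotientGroup.mk' N b) := by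
    refine key x ?_
    rintro b (rfl | rfl)
    · exact Commute.refl _
    · exact hxy
  have hy : ∀ b : Q, Commute (QuotientGroup.mk' N y) (QuotientGroup.mk' N b) := by
    refine key y ?_
    rintro b (rfl | rfl)
    · exact hxy.symm
    · exact Commute.refl _
  have hall : ∀ a b : Q, Commute (QuotientGroup.mk' N a) (QuotientGroup.mk' N b) := by
    intro a
    refine key a ?_
    rintro b (rfl | rfl)
    · exact (hx a).symm
    · exact (hy a).symm
  rw [Subgroup.lowerCentralSeries_succ, Subgroup.lowerCentralSeries_zero,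
    Subgroup.commutator_le]
  intro a _ b _
  exact (hmk a b).2 (hall a b)

theorem lbr_eq_one (h : Laz p H) (x y : H) : lbr x y = 1 ↔ x * y = y * x := by
  refine ⟨?_, fun hxy => lbr_commute h hxy⟩
  intro hl
  by_contra hne
  set K := Subgroup.closure ({x, y} : Set H) with hK
  have hKL : Laz p K := h.subgroup K
  have hxK : x ∈ K := Subgroup.subset_closure (by simp)
  have hyK : y ∈ K := Subgroup.subset_closure (by simp)
  set x' : K := ⟨x, hxK⟩ with hx'
  set y' : K := ⟨y, hyK⟩ with hy'
  have hz' : ⁅x', y'⁆ ≠ 1 := by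
    intro h1
    apply hne
    rw [commutatorElement_eq_one_iff_mul_comm] at h1
    exact congrArg Subtype.val h1
  have hgen : Subgroup.closure ({x', y'} : Set K) = ⊤ := by
    have h1 := Subgroup.closure_closure_coe_preimage (k := ({x, y} : Set H))
    rw [← h1]
    congr 1
    ext ⟨a, ha⟩
    simp [hx', hy', Subtype.ext_iff]
  set γ := (⊤ : Subgroup K).lowerCentralSeries 2 with hγ
  have hγn : γ.Normal := by rw [hγ]; infer_instance
  have hzγ : ⁅x', y'⁆ ∉ γ := by
    intro hz
    have h1 := lz3_stab x' y' hgen hz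
    have h2 : ∀ n, (⊤ : Subgroup K).lowerCentralSeries 1 ≤
        (⊤ : Subgroup K).lowerCentralSeries (n + 1) := by
      intro n
      induction n with
      | zero => exact le_rfl
      | succ n ih =>
        refine h1.trans ?_
        rw [Subgroup.lowerCentralSeries_succ, Subgroup.lowerCentralSeries_succ _ (n + 1)]
        exact Subgroup.commutator_mono ih le_rfl
    have hp2 := hKL.prime.two_le
    have h3 := h2 (p - 2)
    rw [show p - 2 + 1 = p - 1 by omega, hKL.cls] at h3
    apply hz'
    have h4 : ⁅x', y'⁆ ∈ (⊤ : Subgroup K).lowerCentralSeries 1 := by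
      rw [Subgroup.lowerCentralSeries_succ, Subgroup.lowerCentralSeries_zero]
      exact Subgroup.commutator_mem_commutator (Subgroup.mem_top _) (Subgroup.mem_top _)
    exact Subgroup.mem_bot.1 (h3 h4)
  have hQL : Laz p (K ⧸ γ) := hKL.of_surj (QuotientGroup.mk' γ) (QuotientGroup.mk'_surjective γ)
  have hcen : ∀ a : K, ⁅⁅x', y'⁆, a⁆ ∈ γ := by
    intro a
    rw [hγ, Subgroup.lowerCentralSeries_succ]
    refine Subgroup.commutator_mem_commutator ?_ (Subgroup.mem_top _)
    rw [Subgroup.lowerCentralSeries_succ, Subgroup.lowerCentralSeries_zero]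
    exact Subgroup.commutator_mem_commutator (Subgroup.mem_top _) (Subgroup.mem_top _)
  have hcen2 : ∀ a : K, ⁅QuotientGroup.mk' γ x', QuotientGroup.mk' γ y'⁆ * QuotientGroup.mk' γ a =
      QuotientGroup.mk' γ a * ⁅QuotientGroup.mk' γ x', QuotientGroup.mk' γ y'⁆ := by
    intro a
    rw [← commutatorElement_eq_one_iff_mul_comm, ← map_commutatorElement, ← map_commutatorElement,
      QuotientGroup.mk'_apply, QuotientGroup.eq_one_iff]
    exact hcen a
  have h5 := lbr_central hQL (hcen2 x') (hcen2 y')
  have h6 : lbr (QuotientGroup.mk' γ x') (QuotientGroup.mk' γ y') ≠ 1 := by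
    rw [h5, ← map_commutatorElement]
    intro h7
    rw [QuotientGroup.mk'_apply, QuotientGroup.eq_one_iff] at h7
    exact hzγ h7
  rw [← map_lbr hKL hQL] at h6
  apply h6
  have h7 : lbr x' y' = 1 := by
    apply Subtype.ext
    have h8 := map_lbr hKL h K.subtype x' y'
    have h9 : ((lbr x' y' : K) : H) = lbr x y := h8
    rw [h9, hl]
    rfl
  rw [h7, map_one]

theorem map_lev (h : Laz p H) (h' : Laz p H') (φ : H →* H') {n : ℕ} (x : Fin n → H) (t : ℕ) :
    φ (lev x t) = lev (fun d => φ (x d)) t := by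
  have key : ∀ l : List (Fin n), φ ((l.map (fun d => x d ^ (t ^ (d : ℕ)))).foldr ladd 1) =
      (l.map (fun d => φ (x d) ^ (t ^ (d : ℕ)))).foldr ladd 1 := by
    intro l
    induction l with
    | nil => simp
    | cons a l ih =>
      rw [List.map_cons, List.foldr_cons, List.map_cons, List.foldr_cons, map_ladd h h', ih,
        map_pow]
  exact key _

theorem ladd_mem (h : Laz p H) (K : Subgroup H) {x y : H} (hx : x ∈ K) (hy : y ∈ K) :
    ladd x y ∈ K := by
  have h1 := map_ladd (h.subgroup K) h K.subtype ⟨x, hx⟩ ⟨y, hy⟩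
  have h2 : ((ladd (⟨x, hx⟩ : K) ⟨y, hy⟩ : K) : H) = ladd x y := h1
  rw [← h2]
  exact (ladd (⟨x, hx⟩ : K) ⟨y, hy⟩).2

end Pool.Agent.LP
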