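import Pool.Agent.LP.Defs
import Pool.Agent.Helper89.MD.CENT

/-!
# LP / Mab: a finite p-group has a self-centralising abelian normal subgroup

PROOF. Let `A` be a maximal element (finite set of subgroups) among the normal subgroups `B` with
`∀ x ∈ B, ∀ y ∈ B, x * y = y * x` (`⊥` is one). Let `C = {g | ∀ a ∈ A, g a = a g}`
(`Subgroup.centralizer A`), a normal subgroup of `G` containing `A`. Suppose `g ∈ C`, `g ∉ A`. In the
finite `p`-group `G ⧸ A` the image of `C` is a nontrivial normal subgroup, so it contains a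
nontrivial central element (apply `Pool.Agent.Helper89.MD.CENT` to the image of `g`: there is a
central `z ≠ 1` of `G ⧸ A` in the normal closure of the image of `g`, which is contained in the
image of `C`). So there is `x ∈ C`, `x ∉ A`, with `⁅y, x⁆ ∈ A` for all `y ∈ G`. Then
`B = A ⊔ zpowers x` (or `{a * x ^ n}`) is commutative (`x` commutes with `A` and with its powers)
and normal (`y x y⁻¹ = ⁅y, x⁆ x ∈ B`), and `B > A`: contradiction.
-/

set_option autoImplicit false

open scoped commutatorElement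

namespace Pool.Agent.LP

open scoped Pointwise in
theorem MAXAB {p : ℕ} (hp : p.Prime) {G : Type} [Group G] [Finite G] (hG : IsPGroup p G) :
    ∃ A : Subgroup G, A.Normal ∧ (∀ x ∈ A, ∀ y ∈ A, x * y = y * x) ∧
      ∀ g : G, (∀ a ∈ A, g * a = a * g) → g ∈ A := by
  have : Fact p.Prime := ⟨hp⟩
  obtain ⟨A, ⟨hAn, hAc⟩, hmax⟩ :=
    (wellFounded_gt : WellFounded ((· > ·) : Subgroup G → Subgroup G → Prop)).has_min
      {B : Subgroup G | B.Normal ∧ ∀ x ∈ B, ∀ y ∈ B, x * y = y * x}
      ⟨⊥, inferInstance, fun x hx y hy => by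
        rw [Subgroup.mem_bot] at hx hy
        rw [hx, hy]⟩
  refine ⟨A, hAn, hAc, fun g hg => ?_⟩
  by_contra hgA
  have hg1 : (QuotientGroup.mk g : G ⧸ A) ≠ 1 := fun h => hgA ((QuotientGroup.eq_one_iff g).1 h)
  obtain ⟨z, hz1, _, hzc, hzn⟩ := Pool.Agent.Helper89.MD.CENT (p := p) (hG.to_quotient A)
    (QuotientGroup.mk g : G ⧸ A) hg1
  have hgC : g ∈ Subgroup.centralizer (A : Set G) := by
    rw [Subgroup.mem_centralizer_iff]
    intro a ha
    exact (hg a ha).symm
  have hCn : (Subgroup.centralizer (A : Set G)).Normal := inferInstance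
  have hC'n : ((Subgroup.centralizer (A : Set G)).map (QuotientGroup.mk' A)).Normal :=
    hCn.map _ (QuotientGroup.mk'_surjective A)
  have hle : Subgroup.normalClosure {(QuotientGroup.mk g : G ⧸ A)} ≤
      (Subgroup.centralizer (A : Set G)).map (QuotientGroup.mk' A) := by
    refine Subgroup.normalClosure_le_normal ?_
    rw [Set.singleton_subset_iff]
    exact ⟨g, hgC, rfl⟩
  obtain ⟨x, hxC, rfl⟩ := hle hzn
  have hxA : x ∉ A := fun h => hz1 ((QuotientGroup.eq_one_iff x).2 h)
  have hxa : ∀ a ∈ A, Commute a x := fun a ha => (Subgroup.mem_centralizer_iff.1 hxC) a ha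
  have hconj : ∀ y : G, y * x * y⁻¹ * x⁻¹ ∈ A := by
    intro y
    rw [← QuotientGroup.eq_one_iff]
    have h1 : (QuotientGroup.mk y : G ⧸ A) * QuotientGroup.mk x =
        QuotientGroup.mk x * QuotientGroup.mk y := hzc (QuotientGroup.mk y)
    rw [QuotientGroup.mk_mul, QuotientGroup.mk_mul, QuotientGroup.mk_mul, h1,
      QuotientGroup.mk_inv, QuotientGroup.mk_inv, mul_inv_cancel_right, mul_inv_cancel]
  have hmem : ∀ b, b ∈ A ⊔ Subgroup.zpowers x ↔ ∃ a ∈ A, ∃ n : ℤ, a * x ^ n = b := by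
    intro b
    have h1 := Subgroup.normal_mul A (Subgroup.zpowers x)
    have h2 : b ∈ A ⊔ Subgroup.zpowers x ↔ b ∈ ((A : Set G) * (Subgroup.zpowers x : Set G)) := by
      rw [← h1]
      rfl
    rw [h2, Set.mem_mul]
    constructor
    · rintro ⟨a, ha, _, ⟨n, rfl⟩, hb⟩
      exact ⟨a, ha, n, hb⟩
    · rintro ⟨a, ha, n, hb⟩
      exact ⟨a, ha, _, ⟨n, rfl⟩, hb⟩
  refine hmax (A ⊔ Subgroup.zpowers x) ⟨?_, ?_⟩ ?_
  · refine ⟨fun b hb y => ?_⟩
    obtain ⟨a, ha, n, rfl⟩ := (hmem b).1 hb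
    have h1 : y * (a * x ^ n) * y⁻¹ = (y * a * y⁻¹) * (y * x * y⁻¹) ^ n := by
      rw [conj_zpow]
      group
    rw [h1]
    refine Subgroup.mul_mem _ (Subgroup.mem_sup_left (hAn.conj_mem a ha y)) ?_
    refine Subgroup.zpow_mem _ ?_ n
    have h2 : y * x * y⁻¹ = (y * x * y⁻¹ * x⁻¹) * x := by rw [inv_mul_cancel_right]
    rw [h2]
    exact Subgroup.mul_mem _ (Subgroup.mem_sup_left (hconj y))
      (Subgroup.mem_sup_right (Subgroup.mem_zpowers x))
  · intro b hb b' hb'
    obtain ⟨a, ha, n, rfl⟩ := (hmem b).1 hb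
    obtain ⟨a', ha', n', rfl⟩ := (hmem b').1 hb'
    have c1 : Commute a a' := hAc a ha a' ha'
    have c2 : Commute a (x ^ n') := (hxa a ha).zpow_right n'
    have c3 : Commute (x ^ n) a' := ((hxa a' ha').zpow_right n).symm
    have c4 : Commute (x ^ n) (x ^ n') := (Commute.refl x).zpow_zpow n n'
    exact (c1.mul_right c2).mul_left (c3.mul_right c4)
  · refine lt_of_le_of_ne le_sup_left (fun h => hxA ?_)
    rw [h]
    exact Subgroup.mem_sup_right (Subgroup.mem_zpowers x)

end Pool.Agent.LP
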