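import Pool.Agent.LP.Vv
import Pool.Agent.Helper74.MX.COIND

/-!
# LP / R1: orbits of `G` on the characters of `A` are bounded by the largest degree

PROOF. `COIND` for `N = A` and `η a` = multiplication by `u.ev a` on `ℂ` (`chr` in
Helper74/MX/CYC.lean, or directly) gives an irreducible `σ` of degree `n > 0` and a nonzero functional
`ev` with `ev (σ a v) = u.ev a * ev v` for `a ∈ A`. For `g : G` let `ev_g v = ev (σ g⁻¹ v)`. Then
`ev_g (σ a v) = ev (σ (g⁻¹ a g) (σ g⁻¹ v)) = (g • u).ev a * ev_g v`. Functionals `ev_g ≠ 0` for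
pairwise different characters `g • u` are linearly independent (eigenvectors of the commuting
operators `φ ↦ φ ∘ σ a`; standard induction: if `Σ c_i φ_i = 0` is a shortest relation with distinct
characters `χ_i`, choose `a` with `χ_1 a ≠ χ_2 a` and subtract `χ_1 a` times the relation from its
image under `a`). So the number of elements of the orbit of `u`, i.e.
`(MulAction.stabilizer G u).index`, is at most `n ≤ B`, and
`|G| = |stabilizer| * index` (`Subgroup.card_mul_index`).
-/

set_option autoImplicit false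

open Pool.Agent.Helper89.MD (Irred)

namespace Pool.Agent.LP

/-- the character as a homomorphism to `ℂ` -/
def r1chi {G : Type} [Group G] {A : Subgroup G} (u : VV A) : ↥A →* ℂ :=
  (Units.coeHom ℂ).comp u.ev

theorem r1chi_apply {G : Type} [Group G] {A : Subgroup G} (u : VV A) (a : A) :
    r1chi u a = ((u.ev a : ℂˣ) : ℂ) := rfl

theorem r1chi_inj {G : Type} [Group G] {A : Subgroup G} :
    Function.Injective (r1chi (G := G) (A := A)) := by
  intro u v h
  refine VV.ext fun a => Units.ext ?_
  exact DFunLike.congr_fun h a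

theorem ORBB {G : Type} [Group G] [Finite G] (A : Subgroup G) [A.Normal]
    (hA : ∀ x ∈ A, ∀ y ∈ A, x * y = y * x) (B : ℕ)
    (hB : ∀ n : ℕ, 0 < n → ∀ ρ : G →* Matrix.GeneralLinearGroup (Fin n) ℂ, Irred ρ → n ≤ B)
    (u : VV A) : Nat.card G ≤ Nat.card (MulAction.stabilizer G u) * B := by
  classical
  let η : ↥A →* Module.End ℂ ℂ :=
    ((algebraMap ℂ (Module.End ℂ ℂ)) : ℂ →* Module.End ℂ ℂ).comp (r1chi u)
  have hη : ∀ (a : A) (c : ℂ), η a c = r1chi u a * c := fun a c => rfl
  obtain ⟨n, σ, ev, hn, hσ, hev0, hev⟩ := Pool.Agent.Helper74.MX.COIND A η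
  have hnB := hB n hn σ hσ
  -- the translated functionals
  let φ : G → ((Fin n → ℂ) →ₗ[ℂ] ℂ) := fun g => ev ∘ₗ Matrix.mulVecLin (σ g⁻¹).1
  have hφ : ∀ g v, φ g v = ev (Matrix.mulVec (σ g⁻¹).1 v) := fun g v => rfl
  have hmul : ∀ (g h : G) (v : Fin n → ℂ),
      Matrix.mulVec (σ g).1 (Matrix.mulVec (σ h).1 v) = Matrix.mulVec (σ (g * h)).1 v := by
    intro g h v
    rw [Matrix.mulVec_mulVec, map_mul]
    rfl
  have hφeig : ∀ (g : G) (a : A) (v : Fin n → ℂ),
      φ g (Matrix.mulVec (σ a).1 v) = r1chi (g • u) a * φ g v := by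
    intro g a v
    have h1 : (((MulAut.conjNormal g⁻¹ : MulAut A) a : A) : G) * g⁻¹ = g⁻¹ * (a : G) := by
      rw [MulAut.conjNormal_apply]
      group
    rw [hφ, hφ, hmul, ← h1, ← hmul, hev, hη, r1chi_apply, r1chi_apply, VV.smul_ev]
  have hφne : ∀ g : G, φ g ≠ 0 := by
    intro g h
    apply hev0
    ext1 i
    ext1
    have h1 := LinearMap.congr_fun h (Matrix.mulVec (σ g).1 (Pi.single i 1))
    rw [hφ, hmul, inv_mul_cancel, map_one, Units.val_one, Matrix.one_mulVec,
      LinearMap.zero_apply] at h1
    simpa using h1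
  -- independence over the orbit
  have hfin : Finite (MulAction.orbit G u) := by
    have : Finite (G ⧸ MulAction.stabilizer G u) := inferInstance
    exact Finite.of_equiv _ (MulAction.orbitEquivQuotientStabilizer G u).symm
  have := Fintype.ofFinite (MulAction.orbit G u)
  choose r hr using fun w : MulAction.orbit G u => w.2
  have hr' : ∀ w : MulAction.orbit G u, r w • u = (w : VV A) := hr
  have hli : LinearIndependent ℂ fun w : MulAction.orbit G u => φ (r w) := by
    rw [linearIndependent_iff']
    intro s c hc w hw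
    have hind : LinearIndependent ℂ
        (fun w : MulAction.orbit G u => (r1chi (w : VV A) : ↥A → ℂ)) :=
      (linearIndependent_monoidHom ↥A ℂ).comp (fun w : MulAction.orbit G u => r1chi (w : VV A))
        (fun w w' h => Subtype.ext (r1chi_inj h))
    have hzero : ∀ v : Fin n → ℂ, c w * φ (r w) v = 0 := by
      intro v
      refine linearIndependent_iff'.1 hind s (fun w => c w * φ (r w) v) ?_ w hw
      funext a
      have h1 := LinearMap.congr_fun hc (Matrix.mulVec (σ a).1 v)
      rw [LinearMap.sum_apply, LinearMap.zero_apply] at h1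
      rw [Finset.sum_apply, Pi.zero_apply, ← h1]
      refine Finset.sum_congr rfl fun w' _ => ?_
      rw [Pi.smul_apply, smul_eq_mul, LinearMap.smul_apply, smul_eq_mul, hφeig, hr' w']
      ring
    by_contra hcw
    exact hφne (r w) (LinearMap.ext fun v => (mul_eq_zero.1 (hzero v)).resolve_left hcw)
  have hcard : Fintype.card (MulAction.orbit G u) ≤ n := by
    have h1 := hli.fintype_card_le_finrank
    have h2 : Module.finrank ℂ ((Fin n → ℂ) →ₗ[ℂ] ℂ) = n := by
      rw [Module.finrank_linearMap]
      simp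
    rwa [h2] at h1
  have h3 := Subgroup.card_eq_card_quotient_mul_card_subgroup (MulAction.stabilizer G u)
  have h4 : Nat.card (G ⧸ MulAction.stabilizer G u) = Fintype.card (MulAction.orbit G u) := by
    rw [Nat.card_congr (MulAction.orbitEquivQuotientStabilizer G u).symm, Nat.card_eq_fintype_card]
  rw [h3, h4, mul_comm]
  exact Nat.mul_le_mul_left _ (hcard.trans hnB)

end Pool.Agent.LP
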