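import Pool.Agent.Helper74.MX.COIND

/-!
# LP / R2: restriction to a subgroup, and irreducible representations containing a given one

PROOF of `RES`. `ρ = lin σ` restricted to `Γ`; `MIN` (Helper74/MX/MIN.lean) gives a minimal nonzero
`Γ`-invariant subspace `W` (irreducible), `MAT` a matrix representation `τ` of `Γ` of degree
`m = dim W`. `V = ℂ^n` is the sum of the subspaces `ρ g W`, `g` in a set of representatives of the
left cosets `G ⧸ Γ` (the sum over all `g : G` is invariant and nonzero, so it is `⊤`, and `ρ g W`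
depends only on `g Γ`), so `n ≤ Γ.index * m`.

PROOF of `CONT`. `COIND` for `N = Γ`, `η = lin τ`: irreducible `σ` of degree `n > 0` and
`ev : ℂ^n → ℂ^m` nonzero with `ev (σ x v) = τ x (ev v)`, `x ∈ Γ`. The range of `ev` is invariant under
`τ`, so `ev` is surjective. Let `s0` be a linear section (`LinearMap.exists_rightInverse_of_surjective`)
and `j w = |Γ|⁻¹ • Σ_{x : Γ} σ x (s0 (τ x⁻¹ w))`. Then `j (τ y w) = σ y (j w)` (reindex the sum) and
`ev (j w) = |Γ|⁻¹ Σ_x τ x (ev (s0 (τ x⁻¹ w))) = w`: `j` is injective.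
-/

set_option autoImplicit false

open Pool.Agent.Helper89.MD (Irred)
open Pool.Agent.Helper74.MX

namespace Pool.Agent.LP

private lemma finrank_sup_le {V ι : Type} [AddCommGroup V] [Module ℂ V] [FiniteDimensional ℂ V]
    (S : ι → Submodule ℂ V) (m : ℕ) (hS : ∀ i, Module.finrank ℂ (S i) ≤ m) (s : Finset ι) :
    Module.finrank ℂ (s.sup S : Submodule ℂ V) ≤ s.card * m := by
  classical
  induction s using Finset.induction_on with
  | empty => simp
  | insert a s ha ih =>
    rw [Finset.sup_insert, Finset.card_insert_of_notMem ha]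
    have h1 := Submodule.finrank_add_le_finrank_add_finrank (S a) (s.sup S)
    have h2 := hS a
    calc _ ≤ _ := h1
      _ ≤ m + s.card * m := by omega
      _ = (s.card + 1) * m := by ring

theorem RES {G : Type} [Group G] [Finite G] (Γ : Subgroup G) {n : ℕ} (hn : 0 < n)
    (σ : G →* Matrix.GeneralLinearGroup (Fin n) ℂ) (hσ : Irred σ) :
    ∃ (m : ℕ) (τ : Γ →* Matrix.GeneralLinearGroup (Fin m) ℂ), 0 < m ∧ Irred τ ∧
      n ≤ Γ.index * m := by
  classical
  have : Nonempty (Fin n) := ⟨⟨0, hn⟩⟩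
  have hnt : Nontrivial (Fin n → ℂ) := inferInstance
  set ρ : Γ →* Module.End ℂ (Fin n → ℂ) := (lin σ).comp Γ.subtype with hρ
  obtain ⟨W, hW, -, hWne, hirr⟩ := MIN ρ ⊤ (by
    intro h
    exact top_ne_bot h) (fun _ _ _ => Submodule.mem_top)
  obtain ⟨m, τ, e, hm, hτ, -⟩ := MAT (sub ρ W hW) hirr
  refine ⟨m, τ, hm, hτ, ?_⟩
  have hWm : Module.finrank ℂ W = m := by
    rw [← e.finrank_eq, Module.finrank_fin_fun]
  set S : G ⧸ Γ → Submodule ℂ (Fin n → ℂ) := fun q => W.map (lin σ q.out) with hS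
  have hfin : Fintype (G ⧸ Γ) := Fintype.ofFinite _
  have hSm : ∀ q, Module.finrank ℂ (S q) ≤ m := by
    intro q
    rw [← hWm]
    exact Submodule.finrank_map_le _ _
  have hinv : ∀ g : G, ∀ v ∈ (⨆ q, S q), Matrix.mulVec (σ g).1 v ∈ (⨆ q, S q) := by
    intro g v hv
    rw [← lin_apply]
    have : (⨆ q, S q) ≤ (⨆ q, S q).comap (lin σ g) := by
      refine iSup_le fun q => ?_
      rintro _ ⟨w, hw, rfl⟩
      rw [Submodule.mem_comap]
      set q' : G ⧸ Γ := QuotientGroup.mk (g * q.out) with hq'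
      have h1 : (q'.out)⁻¹ * (g * q.out) ∈ Γ := by
        rw [← QuotientGroup.eq, QuotientGroup.out_eq']
      refine Submodule.mem_iSup_of_mem q' ⟨ρ ⟨_, h1⟩ w, hW _ w hw, ?_⟩
      show lin σ q'.out (lin σ ((q'.out)⁻¹ * (g * q.out)) w) = lin σ g (lin σ q.out w)
      rw [← Module.End.mul_apply, ← Module.End.mul_apply, ← map_mul, ← map_mul]
      congr 2
      group
    exact this hv
  rcases hσ _ hinv with h | h
  · exfalso
    obtain ⟨w, hw, hw0⟩ := Submodule.exists_mem_ne_zero_of_ne_bot hWne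
    have q : G ⧸ Γ := QuotientGroup.mk 1
    have h1 : lin σ q.out w ∈ (⨆ q, S q) := Submodule.mem_iSup_of_mem q ⟨w, hw, rfl⟩
    rw [h, Submodule.mem_bot] at h1
    apply hw0
    have h2 : lin σ (q.out)⁻¹ (lin σ q.out w) = w := by
      rw [← Module.End.mul_apply, ← map_mul, inv_mul_cancel, map_one]
      rfl
    rw [← h2, h1, map_zero]
  · have h1 := finrank_sup_le S m hSm Finset.univ
    rw [Finset.sup_univ_eq_iSup, h, finrank_top, Module.finrank_fin_fun, Finset.card_univ,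
      ← Nat.card_eq_fintype_card] at h1
    exact h1

theorem CONT {G : Type} [Group G] [Finite G] (Γ : Subgroup G) {m : ℕ} (hm : 0 < m)
    (τ : Γ →* Matrix.GeneralLinearGroup (Fin m) ℂ) (hτ : Irred τ) :
    ∃ (n : ℕ) (σ : G →* Matrix.GeneralLinearGroup (Fin n) ℂ)
      (j : (Fin m → ℂ) →ₗ[ℂ] (Fin n → ℂ)), 0 < n ∧ Irred σ ∧ Function.Injective j ∧
      ∀ (x : Γ) (w : Fin m → ℂ), j (Matrix.mulVec (τ x).1 w) = Matrix.mulVec (σ x).1 (j w) := by
  classical
  have : Nonempty (Fin m) := ⟨⟨0, hm⟩⟩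
  have hnt : Nontrivial (Fin m → ℂ) := inferInstance
  have hfin : Fintype Γ := Fintype.ofFinite _
  obtain ⟨n, σ, ev, hn, hσ, hev, hevx⟩ := COIND Γ (lin τ)
  have hrange : LinearMap.range ev = ⊤ := by
    rcases hτ (LinearMap.range ev) (by
      rintro g _ ⟨v, rfl⟩
      exact ⟨Matrix.mulVec (σ g).1 v, hevx g v⟩) with h | h
    · exact absurd (LinearMap.range_eq_bot.mp h) hev
    · exact h
  obtain ⟨s0, hs0⟩ := ev.exists_rightInverse_of_surjective hrange
  have hs : ∀ w, ev (s0 w) = w := fun w => LinearMap.congr_fun hs0 w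
  set j0 : (Fin m → ℂ) →ₗ[ℂ] (Fin n → ℂ) :=
    ∑ x : Γ, (lin σ x) ∘ₗ s0 ∘ₗ (lin τ x⁻¹) with hj0
  have hj0a : ∀ w, j0 w = ∑ x : Γ, lin σ x (s0 (lin τ x⁻¹ w)) := by
    intro w
    rw [hj0, LinearMap.sum_apply]
    rfl
  have hc : (Fintype.card Γ : ℂ) ≠ 0 := by
    exact_mod_cast Fintype.card_ne_zero
  have hevj : ∀ w, ev (j0 w) = (Fintype.card Γ : ℂ) • w := by
    intro w
    rw [hj0a, map_sum]
    have : ∀ x : Γ, ev (lin σ x (s0 (lin τ x⁻¹ w))) = w := by
      intro x
      rw [lin_apply, hevx, hs, ← Module.End.mul_apply, ← map_mul, mul_inv_cancel, map_one]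
      rfl
    rw [Finset.sum_congr rfl fun x _ => this x, Finset.sum_const, Finset.card_univ,
      ← Nat.cast_smul_eq_nsmul ℂ]
  refine ⟨n, σ, (Fintype.card Γ : ℂ)⁻¹ • j0, hn, hσ, ?_, ?_⟩
  · intro w w' h
    have h1 := congrArg ev h
    rw [LinearMap.smul_apply, LinearMap.smul_apply, map_smul, map_smul, hevj, hevj, smul_smul,
      smul_smul, inv_mul_cancel₀ hc, one_smul, one_smul] at h1
    exact h1
  · intro y w
    rw [LinearMap.smul_apply, LinearMap.smul_apply, Matrix.mulVec_smul]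
    congr 1
    rw [← lin_apply, ← lin_apply, hj0a, hj0a, map_sum]
    rw [← Equiv.sum_comp (Equiv.mulLeft y)]
    refine Finset.sum_congr rfl fun x _ => ?_
    have e1 : lin τ (Equiv.mulLeft y x)⁻¹ (lin τ y w) = lin τ x⁻¹ w := by
      rw [← Module.End.mul_apply, ← map_mul]
      congr 2
      simp
    have e2 : lin σ ((Equiv.mulLeft y x : Γ) : G) = lin σ y * lin σ x := by
      rw [← map_mul]
      rfl
    rw [e1, e2, Module.End.mul_apply]

end Pool.Agent.LP
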