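import Pool.Agent.LP.Vv
import Pool.Agent.Helper74.MX.COIND

/-!
# LP / R3: Clifford's lower bound

PROOF. `V = ℂ^n`, `ρ = lin σ`, `W = range j` (dimension `m`, `Γ`-invariant). For a character
`χ : VV A` let `E χ = {v : V | ∀ a ∈ A, ρ a v = χ.ev a • v}`, a subspace; the `E χ` are independent for
distinct `χ` (`iSupIndep E`: simultaneous eigenspaces of commuting operators; standard: shortest
relation, or Mathlib's `Module.End.independent_iInf_maxGenEigenspace...`/induction).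
`ρ g (E χ) ≤ E (g • χ)`: `ρ a (ρ g v) = ρ g (ρ (g⁻¹ a g) v) = χ.ev (g⁻¹ a g) • ρ g v`.
(1) `W ≤ ⨆ γ ∈ Γ, E (γ • u)`: the subspace `W' = W ⊓ ...`: let `W' = ⨆ γ ∈ Γ, (W ⊓ E (γ • u))`; it is
`Γ`-invariant (`ρ γ' (W ⊓ E χ) ≤ W ⊓ E (γ' • χ)`) and nonzero (it contains `j v`), so its preimage under
`j` is `⊤` by irreducibility of `τ`, `W' = W`.
(2) For `g : G`, `ρ g W ≤ S g := ⨆ γ ∈ Γ, E (g • γ • u)`. If `g Γ ≠ g' Γ` the sets of characters
`{g • γ • u}` and `{g' • γ' • u}` are disjoint: `g γ • u = g' γ' • u` gives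
`γ'⁻¹ g'⁻¹ g γ ∈ stabilizer u ≤ Γ`, so `g'⁻¹ g ∈ Γ`. Hence the subspaces `ρ (g_i) W`, for
representatives `g_i` of `G ⧸ Γ`, are independent (coarsening of the independent family `E`:
`iSupIndep` of partial sums over disjoint index sets), each of dimension `m`. So
`Γ.index * m ≤ n`.
-/

set_option autoImplicit false

open Pool.Agent.Helper89.MD (Irred)

namespace Pool.Agent.LP

namespace Rt

/-- simultaneous eigenspace of `A` -/
def EA {G : Type} [Group G] (A : Subgroup G) {V : Type} [AddCommGroup V] [Module ℂ V]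
    (ρ : G →* Module.End ℂ V) (χ : VV A) : Submodule ℂ V where
  carrier := {x | ∀ a : A, ρ a x = (χ.ev a : ℂ) • x}
  add_mem' := by
    intro x y hx hy a
    rw [map_add, hx a, hy a, smul_add]
  zero_mem' := by
    intro a
    rw [map_zero, smul_zero]
  smul_mem' := by
    intro c x hx a
    rw [map_smul, hx a, smul_comm]

theorem mem_EA {G : Type} [Group G] (A : Subgroup G) {V : Type} [AddCommGroup V] [Module ℂ V]
    (ρ : G →* Module.End ℂ V) (χ : VV A) (x : V) :
    x ∈ EA A ρ χ ↔ ∀ a : A, ρ a x = (χ.ev a : ℂ) • x := Iff.rfl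

theorem map_EA {G : Type} [Group G] (A : Subgroup G) [A.Normal] {V : Type} [AddCommGroup V]
    [Module ℂ V] (ρ : G →* Module.End ℂ V) (χ : VV A) (g : G) {x : V} (hx : x ∈ EA A ρ χ) :
    ρ g x ∈ EA A ρ (g • χ) := by
  intro a
  have h1 : (a : G) * g = g * ((MulAut.conjNormal g⁻¹ a : A) : G) := by
    rw [MulAut.conjNormal_apply]
    group
  rw [← Module.End.mul_apply, ← map_mul, h1, map_mul, Module.End.mul_apply, hx _, map_smul,
    VV.smul_ev]

/-- averaging projector -/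
noncomputable def PA {G : Type} [Group G] (A : Subgroup G) [Fintype A] {V : Type}
    [AddCommGroup V] [Module ℂ V] (ρ : G →* Module.End ℂ V) (χ : VV A) : Module.End ℂ V :=
  (Fintype.card A : ℂ)⁻¹ • ∑ a : A, ((χ.ev a)⁻¹ : ℂ) • ρ a

theorem PA_apply {G : Type} [Group G] (A : Subgroup G) [Fintype A] {V : Type}
    [AddCommGroup V] [Module ℂ V] (ρ : G →* Module.End ℂ V) (χ : VV A) (x : V) :
    PA A ρ χ x = (Fintype.card A : ℂ)⁻¹ • ∑ a : A, ((χ.ev a)⁻¹ : ℂ) • ρ a x := by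
  simp [PA, LinearMap.sum_apply]

theorem PA_self {G : Type} [Group G] (A : Subgroup G) [Fintype A] {V : Type}
    [AddCommGroup V] [Module ℂ V] (ρ : G →* Module.End ℂ V) (χ : VV A) {x : V}
    (hx : x ∈ EA A ρ χ) : PA A ρ χ x = x := by
  rw [PA_apply]
  have h1 : ∀ a ∈ (Finset.univ : Finset A), ((χ.ev a)⁻¹ : ℂ) • ρ a x = x := by
    intro a _
    rw [hx a, smul_smul, inv_mul_cancel₀ (Units.ne_zero _), one_smul]
  have h2 : (Fintype.card A : ℂ) ≠ 0 := Nat.cast_ne_zero.2 Fintype.card_ne_zero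
  rw [Finset.sum_congr rfl h1, Finset.sum_const, Finset.card_univ, ← Nat.cast_smul_eq_nsmul ℂ,
    smul_smul, inv_mul_cancel₀ h2, one_smul]

theorem PA_other {G : Type} [Group G] (A : Subgroup G) [Fintype A] {V : Type}
    [AddCommGroup V] [Module ℂ V] (ρ : G →* Module.End ℂ V) (χ χ' : VV A) (hne : χ ≠ χ') {x : V}
    (hx : x ∈ EA A ρ χ') : PA A ρ χ x = 0 := by
  rw [PA_apply]
  have h1 : ∀ a ∈ (Finset.univ : Finset A), ((χ.ev a)⁻¹ : ℂ) • ρ a x =
      ((Units.coeHom ℂ).comp (χ⁻¹ * χ').ev) a • x := by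
    intro a _
    rw [hx a, smul_smul]
    congr 1
    change _ = (((χ⁻¹ * χ').ev a : ℂˣ) : ℂ)
    rw [VV.ev_mul, VV.ev_inv, Units.val_mul, Units.val_inv_eq_inv_val]
  have h2 : (Units.coeHom ℂ).comp (χ⁻¹ * χ').ev ≠ 1 := by
    intro h
    apply hne
    apply VV.ext
    intro a
    have h3 := DFunLike.congr_fun h a
    have h4 : (((χ⁻¹ * χ').ev a : ℂˣ) : ℂ) = 1 := h3
    rw [Units.val_eq_one, VV.ev_mul, VV.ev_inv, inv_mul_eq_one] at h4
    exact h4
  rw [Finset.sum_congr rfl h1, ← Finset.sum_smul, sum_hom_units_eq_zero _ h2, zero_smul,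
    smul_zero]

end Rt

open Rt Pool.Agent.Helper74.MX in
theorem CLIF {G : Type} [Group G] [Finite G] (A : Subgroup G) [A.Normal] (Γ : Subgroup G)
    (hAΓ : A ≤ Γ) (u : VV A) (hu : MulAction.stabilizer G u ≤ Γ) {m n : ℕ}
    (τ : Γ →* Matrix.GeneralLinearGroup (Fin m) ℂ) (hτ : Irred τ)
    (v : Fin m → ℂ) (hv : v ≠ 0)
    (hva : ∀ a : A, Matrix.mulVec (τ ⟨a, hAΓ a.2⟩).1 v = (u.ev a : ℂ) • v)
    (σ : G →* Matrix.GeneralLinearGroup (Fin n) ℂ) (j : (Fin m → ℂ) →ₗ[ℂ] (Fin n → ℂ))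
    (hj : Function.Injective j)
    (hjτ : ∀ (x : Γ) (w : Fin m → ℂ),
      j (Matrix.mulVec (τ x).1 w) = Matrix.mulVec (σ x).1 (j w)) :
    Γ.index * m ≤ n := by
  classical
  have : Fintype G := Fintype.ofFinite G
  have : Fintype A := Fintype.ofFinite A
  have : Fintype Γ := Fintype.ofFinite Γ
  have : Fintype (G ⧸ Γ) := Fintype.ofFinite _
  set ρ : G →* Module.End ℂ (Fin n → ℂ) := lin σ with hρ
  have hjρ : ∀ (x : Γ) (w : Fin m → ℂ), j (Matrix.mulVec (τ x).1 w) = ρ x (j w) := hjτ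
  let S : Submodule ℂ (Fin n → ℂ) := ⨆ γ : Γ, EA A ρ ((γ : G) • u)
  -- the image of `j` lies in `S`
  have hSinv : ∀ γ' : Γ, S ≤ S.comap (ρ γ') := by
    intro γ'
    apply iSup_le
    intro γ x hx
    have h1 := map_EA A ρ _ (γ' : G) hx
    rw [← mul_smul] at h1
    exact (le_iSup (fun γ : Γ => EA A ρ ((γ : G) • u)) (γ' * γ)) h1
  have hjv : j v ∈ S := by
    have h1 : j v ∈ EA A ρ (((1 : Γ) : G) • u) := by
      rw [Subgroup.coe_one, one_smul]
      intro a
      have h2 := hjρ ⟨a, hAΓ a.2⟩ v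
      rw [hva a, map_smul] at h2
      exact h2.symm
    exact (le_iSup (fun γ : Γ => EA A ρ ((γ : G) • u)) 1) h1
  have hjS : ∀ w, j w ∈ S := by
    rcases hτ (S.comap j) (by
      intro γ w hw
      rw [Submodule.mem_comap] at hw ⊢
      rw [hjρ]
      exact hSinv γ hw) with h | h
    · exfalso
      have h1 : v ∈ S.comap j := hjv
      rw [h, Submodule.mem_bot] at h1
      exact hv h1
    · intro w
      have h1 : w ∈ S.comap j := by rw [h]; exact Submodule.mem_top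
      exact h1
  -- the projector
  let O : Finset (VV A) := Finset.univ.image (fun γ : Γ => (γ : G) • u)
  let P : Module.End ℂ (Fin n → ℂ) := ∑ χ ∈ O, PA A ρ χ
  have hPin : ∀ χ' ∈ O, ∀ x ∈ EA A ρ χ', P x = x := by
    intro χ' hχ' x hx
    change (∑ χ ∈ O, PA A ρ χ) x = x
    rw [LinearMap.sum_apply, Finset.sum_eq_single χ']
    · exact PA_self A ρ χ' hx
    · intro χ _ hne
      exact PA_other A ρ χ χ' hne hx
    · intro h
      exact absurd hχ' h
  have hPout : ∀ χ' ∉ O, ∀ x ∈ EA A ρ χ', P x = 0 := by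
    intro χ' hχ' x hx
    change (∑ χ ∈ O, PA A ρ χ) x = 0
    rw [LinearMap.sum_apply]
    apply Finset.sum_eq_zero
    intro χ hχ
    apply PA_other A ρ χ χ' _ hx
    rintro rfl
    exact hχ' hχ
  have hP1 : ∀ x ∈ S, P x = x := by
    have h1 : S ≤ LinearMap.ker (P - 1) := by
      apply iSup_le
      intro γ x hx
      rw [LinearMap.mem_ker, LinearMap.sub_apply, hPin ((γ : G) • u)
        (Finset.mem_image_of_mem _ (Finset.mem_univ _)) x hx, Module.End.one_apply, sub_self]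
    intro x hx
    have h2 := h1 hx
    rw [LinearMap.mem_ker, LinearMap.sub_apply, Module.End.one_apply, sub_eq_zero] at h2
    exact h2
  have hP0 : ∀ g : G, g ∉ Γ → ∀ x ∈ S, P (ρ g x) = 0 := by
    intro g hg
    have h1 : S ≤ LinearMap.ker (P * ρ g) := by
      apply iSup_le
      intro γ x hx
      rw [LinearMap.mem_ker, Module.End.mul_apply]
      apply hPout (g • (γ : G) • u) _ _ (map_EA A ρ _ g hx)
      intro hmem
      obtain ⟨γ', -, hγ'⟩ := Finset.mem_image.1 hmem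
      apply hg
      have h2 : (γ' : G)⁻¹ * (g * γ) ∈ MulAction.stabilizer G u := by
        rw [MulAction.mem_stabilizer_iff, mul_smul, mul_smul, ← hγ', inv_smul_smul]
      have h3 := hu h2
      have h4 : g = (γ' : G) * ((γ' : G)⁻¹ * (g * γ)) * (γ : G)⁻¹ := by group
      rw [h4]
      exact Γ.mul_mem (Γ.mul_mem γ'.2 h3) (Γ.inv_mem γ.2)
    intro x hx
    exact h1 hx
  -- the injective map
  let Φ : (G ⧸ Γ → (Fin m → ℂ)) →ₗ[ℂ] (Fin n → ℂ) :=
    ∑ i : G ⧸ Γ, (ρ i.out) ∘ₗ j ∘ₗ LinearMap.proj (R := ℂ) (φ := fun _ : G ⧸ Γ => Fin m → ℂ) i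
  have hΦ : ∀ w, Φ w = ∑ i : G ⧸ Γ, ρ i.out (j (w i)) := by
    intro w
    simp [Φ, LinearMap.sum_apply]
  have hinj : Function.Injective Φ := by
    rw [← LinearMap.ker_eq_bot, LinearMap.ker_eq_bot']
    intro w hw
    rw [hΦ] at hw
    funext k
    apply hj
    rw [Pi.zero_apply, map_zero]
    have h1 := congrArg (fun x => P (ρ (k.out)⁻¹ x)) hw
    simp only [map_sum, map_zero] at h1
    rw [Finset.sum_eq_single k] at h1
    · rw [← Module.End.mul_apply (ρ (k.out)⁻¹), ← map_mul, inv_mul_cancel, map_one,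
        Module.End.one_apply, hP1 _ (hjS _)] at h1
      exact h1
    · intro i _ hik
      rw [← Module.End.mul_apply (ρ (k.out)⁻¹), ← map_mul]
      apply hP0 _ _ _ (hjS _)
      intro hmem
      apply hik
      rw [← QuotientGroup.eq, QuotientGroup.out_eq', QuotientGroup.out_eq'] at hmem
      exact hmem.symm
    · intro h
      exact absurd (Finset.mem_univ k) h
  have hfr := LinearMap.finrank_le_finrank_of_injective hinj
  rw [Module.finrank_pi_fintype, Module.finrank_fin_fun] at hfr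
  simp only [Module.finrank_fin_fun, Finset.sum_const, Finset.card_univ, smul_eq_mul] at hfr
  rw [Subgroup.index, Nat.card_eq_fintype_card]
  exact hfr

end Pool.Agent.LP
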