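import Pool.Agent.LP.Cnt
import Pool.Agent.LP.Kex
import Pool.Agent.LP.Mab
import Pool.Agent.LP.Cls
import Pool.Agent.LP.R1
import Pool.Agent.LP.R2
import Pool.Agent.LP.R3
import Pool.Agent.LP.Fc
import Pool.Agent.Helper89.MD.CENT

/-!
# LP / Main: the theorem (helper73)
-/

set_option autoImplicit false

open scoped commutatorElement
open Pool.Agent.Helper89.MD (Irred)

namespace Pool.Agent.LP

/-- If the bad sets have total density less than `1`, some element avoids all of them. -/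
theorem avoid {F ι : Type} [Finite F] {p b c n : ℕ} (hF : 0 < Nat.card F) (P : F → Prop)
    (Q : F → Prop) (S : Finset ι) (T : ι → F → Prop)
    (hP : p * Nat.card {f : F // P f} ≤ b * Nat.card F)
    (hQ : p * Nat.card {f : F // Q f} ≤ c * Nat.card F)
    (hT : ∀ s ∈ S, p * Nat.card {f : F // T s f} ≤ Nat.card F) (hn : S.card = n)
    (h : b + c + n < p) : ∃ f : F, ¬ P f ∧ ¬ Q f ∧ ∀ s ∈ S, ¬ T s f := by
  classical
  have := Fintype.ofFinite F
  by_contra hcon
  push Not at hcon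
  have hcov : (Finset.univ : Finset F) ⊆ (Finset.univ.filter P) ∪ (Finset.univ.filter Q) ∪
      S.biUnion (fun s => Finset.univ.filter (T s)) := by
    intro f _
    simp only [Finset.mem_union, Finset.mem_filter, Finset.mem_univ, true_and,
      Finset.mem_biUnion]
    by_cases h1 : P f
    · exact Or.inl (Or.inl h1)
    · by_cases h2 : Q f
      · exact Or.inl (Or.inr h2)
      · exact Or.inr (hcon f h1 h2)
  have h1 := Finset.card_le_card hcov
  have h2 : (S.biUnion (fun s => Finset.univ.filter (T s))).card ≤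
      ∑ s ∈ S, (Finset.univ.filter (T s)).card := Finset.card_biUnion_le
  have h3 := Finset.card_union_le ((Finset.univ.filter P) ∪ (Finset.univ.filter Q))
    (S.biUnion (fun s => Finset.univ.filter (T s)))
  have h4 := Finset.card_union_le (Finset.univ.filter P) (Finset.univ.filter Q)
  have hc : ∀ R : F → Prop, Nat.card {f : F // R f} = (Finset.univ.filter R).card := by
    intro R
    rw [Nat.card_eq_fintype_card, Fintype.card_subtype]
  rw [hc] at hP hQ
  have hT' : p * ∑ s ∈ S, (Finset.univ.filter (T s)).card ≤ n * Nat.card F := by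
    rw [Finset.mul_sum, ← hn, ← smul_eq_mul, ← Finset.sum_const]
    refine Finset.sum_le_sum fun s hs => ?_
    rw [← hc]
    exact hT s hs
  have hcard : (Finset.univ : Finset F).card = Nat.card F := by
    rw [Nat.card_eq_fintype_card]
    rfl
  rw [hcard] at h1
  have h5 : p * Nat.card F ≤ (b + c + n) * Nat.card F := by
    calc p * Nat.card F ≤ p * ((Finset.univ.filter P).card + (Finset.univ.filter Q).card +
          ∑ s ∈ S, (Finset.univ.filter (T s)).card) := Nat.mul_le_mul_left _ (by omega)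
      _ = p * (Finset.univ.filter P).card + p * (Finset.univ.filter Q).card +
          p * ∑ s ∈ S, (Finset.univ.filter (T s)).card := by ring
      _ ≤ b * Nat.card F + c * Nat.card F + n * Nat.card F := by omega
      _ = (b + c + n) * Nat.card F := by ring
  have h6 := Nat.le_of_mul_le_mul_right h5 hF
  omega

theorem MAIN {p : ℕ} (hp : p.Prime) {G : Type} [Group G] [Finite G] (hG : IsPGroup p G) (e : ℕ)
    (hex : ∃ ρ : G →* Matrix.GeneralLinearGroup (Fin (p ^ e)) ℂ, Irred ρ)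
    (hmax : ∀ n : ℕ, 0 < n → ∀ ρ : G →* Matrix.GeneralLinearGroup (Fin n) ℂ, Irred ρ →
      n ≤ p ^ e)
    (S : Finset G) (hS : ∀ s ∈ S, s ≠ 1) (hcard : 3 * e + S.card + 2 ≤ p) :
    ∃ ρ : G →* Matrix.GeneralLinearGroup (Fin (p ^ e)) ℂ, Irred ρ ∧ ∀ s ∈ S, ρ s ≠ 1 := by
  classical
  have hpF : Fact p.Prime := ⟨hp⟩
  rcases S.eq_empty_or_nonempty with rfl | hne
  · obtain ⟨ρ, hρ⟩ := hex
    exact ⟨ρ, hρ, by simp⟩
  have hS1 : 1 ≤ S.card := Finset.card_pos.2 hne
  obtain ⟨K, hK⟩ : ∃ K, 2 * K + 1 = p := by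
    obtain ⟨K, hK⟩ := hp.odd_of_ne_two (by omega)
    exact ⟨K, hK.symm⟩
  obtain ⟨A, hAn, hA, hself⟩ := MAXAB hp hG
  have hHyp : Hyp p e K G (VV A) :=
    { prime := hp
      finG := inferInstance
      finV := VV_finite A hA
      pG := hG
      pV := VV_pgroup A hG
      orb := ORBB A hA (p ^ e) hmax
      three := by omega
      hK := hK }
  obtain ⟨Γ, Good, hΓn, ⟨u0, hu0⟩, hstab, hcmn, hfew⟩ := CNT hHyp
  have hLaz : Laz p Γ := CLSG hp hK hG A hA hself Γ hcmn
  have hLazF : Fact (Laz p Γ) := ⟨hLaz⟩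
  have hAΓ : A ≤ Γ := fun a ha => hstab u0 hu0 (VV_fix A hA a ha u0)
  -- the index of `Γ`
  obtain ⟨ν, hν⟩ : ∃ ν, Γ.index = p ^ ν := hG.index Γ
  have hνe : ν ≤ e := by
    have h1 := ORBB A hA (p ^ e) hmax u0
    have h2 : Nat.card (MulAction.stabilizer G u0) ≤ Nat.card Γ :=
      Subgroup.card_le_of_le (hstab u0 hu0)
    have h3 : Nat.card Γ * Γ.index = Nat.card G := Subgroup.card_mul_index Γ
    have h4 : Nat.card Γ * Γ.index ≤ Nat.card Γ * p ^ e := by
      rw [h3]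
      exact h1.trans (Nat.mul_le_mul_right _ h2)
    have h5 : Γ.index ≤ p ^ e := Nat.le_of_mul_le_mul_left h4 Nat.card_pos
    rw [hν] at h5
    exact (Nat.pow_le_pow_iff_right hp.one_lt).1 h5
  obtain ⟨hKEX, hKUP⟩ := KEX_all (p := p) (Nat.card Γ) Γ le_rfl
  -- a character with large radical index
  obtain ⟨f0, hf0⟩ : ∃ f0 : LG p Γ →* ℂˣ, p ^ (2 * (e - ν)) ≤ (rad f0).index := by
    obtain ⟨ρ, hρ⟩ := hex
    obtain ⟨m, τ, hm, hτ, hle⟩ := RES Γ (Nat.pow_pos hp.pos) ρ hρ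
    obtain ⟨f0, hf0, -⟩ := hKUP m τ hm hτ
    refine ⟨f0, ?_⟩
    rw [hν] at hle
    have h1 : p ^ (e - ν) ≤ m := by
      have h2 : p ^ ν * p ^ (e - ν) = p ^ e := by rw [← pow_add]; congr 1; omega
      rw [← h2] at hle
      exact Nat.le_of_mul_le_mul_left hle (Nat.pow_pos hp.pos)
    rw [← hf0, two_mul, pow_add]
    exact Nat.mul_le_mul h1 h1
  -- central elements
  have hz : ∀ s : G, ∃ z : G, s ∈ S → (z ≠ 1 ∧ (∀ x, x * z = z * x) ∧
      z ∈ Subgroup.normalClosure {s}) := by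
    intro s
    by_cases hs : s ∈ S
    · obtain ⟨z, hz1, -, hz2, hz3⟩ := Pool.Agent.Helper89.MD.CENT hG s (hS s hs)
      exact ⟨z, fun _ => ⟨hz1, hz2, hz3⟩⟩
    · exact ⟨1, fun h => absurd h hs⟩
  choose z hz using hz
  have hzΓ : ∀ s ∈ S, z s ∈ Γ := fun s hs => hAΓ (hself (z s) fun a _ => ((hz s hs).2.1 a).symm)
  let zz : G → Γ := fun s => if h : z s ∈ Γ then ⟨z s, h⟩ else 1
  have hzz : ∀ s ∈ S, (zz s : G) = z s := by
    intro s hs
    simp only [zz, hzΓ s hs, dif_pos]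
  have hzz1 : ∀ s ∈ S, zz s ≠ 1 := by
    intro s hs h
    apply (hz s hs).1
    rw [← hzz s hs, h]
    rfl
  -- the choice of `f`
  have hFfin : Finite (LG p Γ →* ℂˣ) := F_finite (p := p) Γ
  have hVfin : Finite (VV A) := VV_finite A hA
  have hB1 := FC_rad (p := p) Γ (2 * (e - ν)) f0 hf0
  have hB3 : p * Nat.card {f : LG p Γ →* ℂˣ // res Γ A hAΓ hA f ∉ Good} ≤
      e * Nat.card (LG p Γ →* ℂˣ) := by
    have h1 := FC_res (p := p) Γ A hAΓ hA Good
    have h2 : 0 < Nat.card (VV A) := Nat.card_pos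
    refine Nat.le_of_mul_le_mul_right ?_ h2
    calc p * Nat.card {f : LG p Γ →* ℂˣ // res Γ A hAΓ hA f ∉ Good} * Nat.card (VV A)
        = p * (Nat.card {f : LG p Γ →* ℂˣ // res Γ A hAΓ hA f ∉ Good} * Nat.card (VV A)) := by
          ring
      _ = p * Nat.card ↥(Goodᶜ) * Nat.card (LG p Γ →* ℂˣ) := by rw [h1]; ring
      _ ≤ e * Nat.card (VV A) * Nat.card (LG p Γ →* ℂˣ) := Nat.mul_le_mul_right _ hfew
      _ = e * Nat.card (LG p Γ →* ℂˣ) * Nat.card (VV A) := by ring
  obtain ⟨f, hf1, hf2, hf3⟩ := avoid (F := LG p Γ →* ℂˣ) Nat.card_pos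
    (fun f => (rad f).index < p ^ (2 * (e - ν))) (fun f => res Γ A hAΓ hA f ∉ Good) S
    (fun s f => f (toL p (zz s)) = 1) hB1 hB3 (fun s hs => FC_one (p := p) Γ (zz s) (hzz1 s hs)) rfl
    (by omega)
  -- the representation of `Γ`
  have hA'n : (A.subgroupOf Γ).Normal := hAn.subgroupOf Γ
  obtain ⟨m, τ, hm, hτ, hmm, ⟨v, hv, hva⟩, hcen⟩ := hKEX f (A.subgroupOf Γ) hA'n
    (by
      intro x hx y hy
      apply Subtype.ext
      exact hA x hx y hy)
  have hm2 : p ^ (e - ν) ≤ m := by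
    have h1 : p ^ (2 * (e - ν)) ≤ m * m := by
      rw [hmm]
      exact not_lt.1 hf1
    rw [two_mul, pow_add] at h1
    exact Nat.mul_self_le_mul_self_iff.1 h1
  obtain ⟨n, σ, j, hn, hσ, hj, hjτ⟩ := CONT Γ hm τ hτ
  have hn1 : n ≤ p ^ e := hmax n hn σ hσ
  have hn2 : Γ.index * m ≤ n := by
    refine CLIF A Γ hAΓ (res Γ A hAΓ hA f) (hstab _ (not_not.1 hf2)) τ hτ v hv ?_ σ j hj hjτ
    intro a
    rw [res_ev]
    exact hva ⟨a, hAΓ a.2⟩ a.2
  have hn3 : n = p ^ e := by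
    apply le_antisymm hn1
    refine le_trans ?_ hn2
    have h2 : p ^ ν * p ^ (e - ν) = p ^ e := by rw [← pow_add]; congr 1; omega
    rw [← h2, hν]
    exact Nat.mul_le_mul_left _ hm2
  subst hn3
  refine ⟨σ, hσ, fun s hs hσs => ?_⟩
  have h1 : z s ∈ σ.ker := by
    have h2 : Subgroup.normalClosure {s} ≤ σ.ker :=
      Subgroup.normalClosure_le_normal (by simpa using! hσs)
    exact h2 (hz s hs).2.2
  have h3 : σ (zz s : G) = 1 := by
    rw [hzz s hs]
    exact h1
  have h4 := hjτ (zz s) v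
  rw [h3] at h4
  have h5 : zz s ∈ Subgroup.center Γ := by
    rw [Subgroup.mem_center_iff]
    intro g
    apply Subtype.ext
    rw [Subgroup.coe_mul, Subgroup.coe_mul, hzz s hs]
    exact (hz s hs).2.1 g
  rw [hcen (zz s) h5 v] at h4
  have h6 : Matrix.mulVec (1 : Matrix.GeneralLinearGroup (Fin (p ^ e)) ℂ).1 (j v) = j v := by
    rw [Units.val_one, Matrix.one_mulVec]
  rw [h6] at h4
  have h7 : ((f (toL p (zz s)) : ℂˣ) : ℂ) • v = v := hj h4
  apply hf3 s hs
  obtain ⟨i, hi⟩ : ∃ i, v i ≠ 0 := by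
    by_contra hno
    push Not at hno
    exact hv (funext hno)
  have h8 := congrFun h7 i
  rw [Pi.smul_apply, smul_eq_mul] at h8
  have h9 : ((f (toL p (zz s)) : ℂˣ) : ℂ) = 1 := by
    have := mul_right_cancel₀ hi (h8.trans (one_mul (v i)).symm)
    exact this
  exact Units.ext h9

end Pool.Agent.LP
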