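import Pool.Agent.LP.Defs

/-!
# LP / Pd0: translation between tuples in `N` and tuples in `X`

PROOF of `PD_card`. `x ↦ π ∘ x` maps `{x : Fin m → G | (∀ d, x d ∈ N) ∧ (fun d => π (x d)) ∈ P}`
onto `P` (`hPD.surj` coordinatewise), and every fibre has `|C| ^ m` elements: if `x0` is a fixed
element of the fibre, the others are `x d = x0 d * c d`, `c d ∈ C` (`hPD.fib`, `C ≤ N`). So the set is
in bijection with `P × (Fin m → C)`.
PROOF of `PD_cardD`. The case `m = 1` with the set `{ξ | ...}`: for a subgroup `D` with `C ≤ D ≤ N`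
and a subgroup `Z` of `X` such that `∀ x ∈ N, (π x ∈ Z ↔ x ∈ D)`: `|D| = |Z| * |C|`.
-/

set_option autoImplicit false

namespace Pool.Agent.LP

variable {p : ℕ} {G V : Type} [Group G] [CommGroup V] [MulDistribMulAction G V] [Finite G]
  {N : Subgroup G} {W : Subgroup V} {C : Subgroup G} {X : Type} [CommGroup X] {π : G → X}
  {β : X →* V →* V ⧸ W}

theorem PD_card (hPD : PD p N W C π β) (hCN : C ≤ N) (m : ℕ) (P : Set (Fin m → X)) :
    Nat.card {x : Fin m → G // (∀ d, x d ∈ N) ∧ (fun d => π (x d)) ∈ P} =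
      Nat.card P * Nat.card C ^ m := by
  classical
  choose s hsN hsπ using hPD.surj
  have hkey : ∀ (ξ : X) (c : C), π (s ξ * c) = ξ := by
    intro ξ c
    have h1 : π (s ξ) = π (s ξ * c) := by
      rw [hPD.fib _ (hsN ξ) _ (N.mul_mem (hsN ξ) (hCN c.2))]
      simp
    rw [← h1, hsπ]
  let φ : {x : Fin m → G // (∀ d, x d ∈ N) ∧ (fun d => π (x d)) ∈ P} ≃ P × (Fin m → C) :=
    { toFun := fun x => (⟨fun d => π (x.1 d), x.2.2⟩,
        fun d => ⟨(s (π (x.1 d)))⁻¹ * x.1 d,
          (hPD.fib _ (hsN _) _ (x.2.1 d)).1 (hsπ _)⟩)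
      invFun := fun y => ⟨fun d => s (y.1.1 d) * y.2 d, by
        refine ⟨fun d => N.mul_mem (hsN _) (hCN (y.2 d).2), ?_⟩
        have h2 : (fun d => π (s (y.1.1 d) * (y.2 d : G))) = y.1.1 := by
          funext d
          exact hkey _ _
        rw [h2]
        exact y.1.2⟩
      left_inv := by
        intro x
        apply Subtype.ext
        funext d
        simp
      right_inv := by
        rintro ⟨⟨ξ, hξ⟩, c⟩
        refine Prod.ext ?_ ?_
        · apply Subtype.ext
          funext d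
          exact hkey _ _
        · funext d
          apply Subtype.ext
          simp [hkey] }
  rw [Nat.card_congr φ, Nat.card_prod, Nat.card_fun, Nat.card_fin]

theorem PD_cardD (hPD : PD p N W C π β) (D : Subgroup G) (hCD : C ≤ D) (hDN : D ≤ N)
    (Z : Subgroup X) (hZ : ∀ x ∈ N, (π x ∈ Z ↔ x ∈ D)) :
    Nat.card D = Nat.card Z * Nat.card C := by
  have h := PD_card hPD (hCD.trans hDN) 1 {ξ : Fin 1 → X | ξ 0 ∈ Z}
  have e1 : {x : Fin 1 → G // (∀ d, x d ∈ N) ∧ (fun d => π (x d)) ∈ {ξ : Fin 1 → X | ξ 0 ∈ Z}} ≃ D :=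
    { toFun := fun x => ⟨x.1 0, (hZ _ (x.2.1 0)).1 x.2.2⟩
      invFun := fun y => ⟨fun _ => y.1, fun _ => hDN y.2, (hZ _ (hDN y.2)).2 y.2⟩
      left_inv := by
        intro x
        apply Subtype.ext
        funext d
        rw [Subsingleton.elim d 0]
      right_inv := by
        intro y
        rfl }
  have e2 : {ξ : Fin 1 → X | ξ 0 ∈ Z} ≃ Z :=
    { toFun := fun x => ⟨x.1 0, x.2⟩
      invFun := fun y => ⟨fun _ => y.1, y.2⟩
      left_inv := by
        intro x
        apply Subtype.ext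
        funext d
        rw [Subsingleton.elim d 0]
      right_inv := by
        intro y
        rfl }
  rw [Nat.card_congr e1, Nat.card_congr e2, pow_one] at h
  exact h

end Pool.Agent.LP
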