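import Pool.Agent.LP.Aac
import Pool.Agent.LP.Aam
import Pool.Agent.LP.LG

/-!
# LP / Pdx: existence of Lie data

PROOF. Let `H = AA N W hW`, a Lazard group by `AA_laz`, `RN = (pN N W hW).range`, also a Lazard group
(`Laz.subgroup`). Put `X = LG p RN` (commutative group structure given by `ladd`), and for `x ∈ N`
let `π x` be the class of `pN x`, `π x = 1` for `x ∉ N` (classical `if`). `X` is finite, of order
`|RN|`, so a `p`-group (`IsPGroup.of_card`, or `LG_pgroup`).
* surj: clear. fib: `pN_eq` (`C = CW W hW`).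
* sub: for `C ≤ D ≤ N` let `RD ≤ RN` be the subgroup of the elements `pN x`, `x ∈ D`; it is closed
  under `ladd` (`ladd_mem`) and inverses: a subgroup `DX` of `X`. For `x ∈ N`, `π x ∈ DX` iff
  `pN x = pN y` with `y ∈ D` iff `x ∈ D C = D`.
* `β`: for `ξ ∈ X` (seen in `H` through `RN ≤ H`) and `u : V`, `lbr ξ (pV u) ∈ (pV).range`: this is a
  normal subgroup (`range_pV_normal`), in the quotient `H ⧸ range` the image of `pV u` is `1` and
  `lbr _ 1 = 1` (`lbr_commute`), by naturality (`map_lbr`). `pV` induces an injective homomorphism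
  `V ⧸ W → H` (`pV_eq_one`) with range `pV.range`: define `β ξ u` as the element of `V ⧸ W` with
  image `lbr ξ (pV u)`. Additive in `u`: `pV (u u') = pV u * pV u' = ladd (pV u) (pV u')`
  (`ladd_commute`), `lbr_add_right`, and the values lie in the commutative subgroup `pV.range`, on
  which `ladd` is the product (`ladd_commute`). Additive in `ξ`: `lbr_add_left` (naturality of `ladd`
  for `RN ≤ H`).
* act: let `W ≤ W2`, `f : AA N W → AA N W2` from `AAmap` (`AA N W2` is a Lazard group too, as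
  `cmn N m ≤ W ≤ W2`). `β (π x) u ∈ W2 / W ↔ f (lbr (pN x) (pV u)) = 1` (as `f (pV v) = pV v` is `1`
  iff `v ∈ W2`) `↔ lbr (pN2 x) (pV2 u) = 1 ↔` they commute (`lbr_eq_one`) `↔ (x • u) u⁻¹ ∈ W2`
  (`pN_comm_pV`).
* `Sec` for `W2 ≥ W`: `f (lev (pN ∘ x) t) = lev (pN2 ∘ x) t` (`map_lev`), `lev` of a tuple in `RN` is
  the product `pev (π ∘ x) t` of `LG` (`lev_eq`), which is `π y` for some `y ∈ N` (`surj`). So
  `Commute (lev (pN2 ∘ x) t) (pV2 u) ↔ f (lbr (pN y) (pV u)) = 1 ↔ β (pev (π ∘ x) t) u ∈ W2 / W`.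
* `Sec` for `N' ≤ N` with `W` fixed: `f : AA N' W → AA N W` from `AAmap` is injective, `map_lev`,
  and `Commute (f a) (f b) ↔ Commute a b`. (`AA N' W` is a Lazard group: `cmn N' m ≤ cmn N m ≤ W`.)
-/

set_option autoImplicit false

open scoped commutatorElement

namespace Pool.Agent.LP

section aux

variable {p : ℕ} {G V : Type} [Group G] [CommGroup V] [MulDistribMulAction G V]
  {N : Subgroup G} {W : Subgroup V} {hW : GInv G W}

/-- the embedding of `V ⧸ W` -/
private def iot (N : Subgroup G) (W : Subgroup V) (hW : GInv G W) : V ⧸ W →* AA N W hW :=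
  QuotientGroup.lift W (pV N W hW) (fun v hv => (pV_eq_one N W hW v).2 hv)

private theorem iot_mk (v : V) : iot N W hW (QuotientGroup.mk' W v) = pV N W hW v := rfl

private theorem iot_inj : Function.Injective (iot N W hW) := by
  rw [injective_iff_map_eq_one]
  intro a ha
  obtain ⟨v, rfl⟩ := QuotientGroup.mk'_surjective W a
  rw [iot_mk, pV_eq_one] at ha
  exact (QuotientGroup.eq_one_iff v).2 ha

private theorem lbr_range (hH : Laz p (AA N W hW)) (a : AA N W hW) (u : V) :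
    ∃ b : V ⧸ W, iot N W hW b = lbr a (pV N W hW u) := by
  have hn := range_pV_normal N W hW
  have hQ : Laz p (AA N W hW ⧸ (pV N W hW).range) :=
    hH.of_surj (QuotientGroup.mk' _) (QuotientGroup.mk'_surjective _)
  have h1 := map_lbr hH hQ (QuotientGroup.mk' (pV N W hW).range) a (pV N W hW u)
  have h2 : QuotientGroup.mk' (pV N W hW).range (pV N W hW u) = 1 :=
    (QuotientGroup.eq_one_iff _).2 ⟨u, rfl⟩
  rw [h2, lbr_commute hQ (by rw [mul_one, one_mul])] at h1
  obtain ⟨v, hv⟩ := (QuotientGroup.eq_one_iff _).1 h1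
  exact ⟨QuotientGroup.mk' W v, by rw [iot_mk, hv]⟩

private noncomputable def bq (hH : Laz p (AA N W hW)) (a : AA N W hW) (u : V) : V ⧸ W :=
  (lbr_range hH a u).choose

private theorem bq_spec (hH : Laz p (AA N W hW)) (a : AA N W hW) (u : V) :
    iot N W hW (bq hH a u) = lbr a (pV N W hW u) := (lbr_range hH a u).choose_spec

private theorem ladd_iot (hH : Laz p (AA N W hW)) (a b : V ⧸ W) :
    ladd (iot N W hW a) (iot N W hW b) = iot N W hW (a * b) := by
  rw [ladd_commute hH, map_mul]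
  rw [← map_mul, ← map_mul, mul_comm]

private theorem bq_mul_right (hH : Laz p (AA N W hW)) (a : AA N W hW) (u u' : V) :
    bq hH a (u * u') = bq hH a u * bq hH a u' := by
  apply iot_inj (hW := hW) (N := N)
  rw [bq_spec, ← ladd_iot hH, bq_spec, bq_spec, ← lbr_add_right hH]
  congr 1
  rw [ladd_commute hH, map_mul]
  rw [← map_mul, ← map_mul, mul_comm]

private theorem bq_mul_left (hH : Laz p (AA N W hW)) (a b : AA N W hW) (u : V) :
    bq hH (ladd a b) u = bq hH a u * bq hH b u := by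
  apply iot_inj (hW := hW) (N := N)
  rw [bq_spec, ← ladd_iot hH, bq_spec, bq_spec, ← lbr_add_left hH]

private theorem mem_map_mk (W W2 : Subgroup V) (hle : W ≤ W2) (v : V) :
    QuotientGroup.mk' W v ∈ W2.map (QuotientGroup.mk' W) ↔ v ∈ W2 := by
  constructor
  · rintro ⟨w, hw, hwv⟩
    have h1 : w⁻¹ * v ∈ W := QuotientGroup.eq.1 hwv
    have h2 := W2.mul_mem hw (hle h1)
    rwa [mul_inv_cancel_left] at h2
  · intro hv
    exact ⟨v, hv, rfl⟩

private theorem bq_mem (hH : Laz p (AA N W hW)) {W2 : Subgroup V} (hW2 : GInv G W2)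
    (hle : W ≤ W2) (hH2 : Laz p (AA N W2 hW2)) (f : AA N W hW →* AA N W2 hW2)
    (hf : ∀ v : V, f (pV N W hW v) = pV N W2 hW2 v) (a : AA N W hW) (u : V) :
    bq hH a u ∈ W2.map (QuotientGroup.mk' W) ↔ Commute (f a) (pV N W2 hW2 u) := by
  obtain ⟨v, hv⟩ := QuotientGroup.mk'_surjective W (bq hH a u)
  have h1 : pV N W hW v = lbr a (pV N W hW u) := by
    rw [← bq_spec hH, ← hv, iot_mk]
  rw [← hv, mem_map_mk W W2 hle, ← pV_eq_one N W2 hW2, ← hf, h1, map_lbr hH hH2, hf,
    lbr_eq_one hH2]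
  rfl

end aux

theorem PDX {p : ℕ} {G V : Type} [Group G] [CommGroup V] [MulDistribMulAction G V] (hp : p.Prime)
    [Finite G] [Finite V] (hG : IsPGroup p G) (hV : IsPGroup p V)
    (N : Subgroup G) (W : Subgroup V) (hW : GInv G W) (m : ℕ) (hm : m ≤ p - 1)
    (h : cmn N m ≤ W) (hC : CW W hW ≤ N) :
    ∃ (X : Type) (_ : CommGroup X) (π : G → X) (β : X →* V →* V ⧸ W),
      PD p N W (CW W hW) π β ∧
      (∀ (D : ℕ) (W2 : Subgroup V) (hW2 : GInv G W2), W ≤ W2 → ∀ (u0 u1 : V)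
        (x : Fin (D + 1) → G), x ∈ Sec p D N W2 hW2 u0 u1 ↔
          (∀ d, x d ∈ N) ∧ ∀ t < p,
            β (pev (fun d => π (x d)) t) (u1 * u0 ^ t) ∈ W2.map (QuotientGroup.mk' W)) ∧
      (∀ N' : Subgroup G, N' ≤ N → ∀ (D : ℕ) (u0 u1 : V) (x : Fin (D + 1) → G),
        x ∈ Sec p D N' W hW u0 u1 ↔ (∀ d, x d ∈ N') ∧ x ∈ Sec p D N W hW u0 u1) := by
  classical
  have hH : Laz p (AA N W hW) := AA_laz hp hG hV N W hW m hm h
  have hR : Laz p ↥(pN N W hW).range := hH.subgroup _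
  have hF : Fact (Laz p ↥(pN N W hW).range) := ⟨hR⟩
  -- the maps
  let π : G → LG p ↥(pN N W hW).range := fun x =>
    if hx : x ∈ N then toL p ⟨pN N W hW ⟨x, hx⟩, ⟨⟨x, hx⟩, rfl⟩⟩ else 1
  have hπ : ∀ (x : G) (hx : x ∈ N),
      π x = toL p ⟨pN N W hW ⟨x, hx⟩, ⟨⟨x, hx⟩, rfl⟩⟩ := fun x hx => dif_pos hx
  let cv : LG p ↥(pN N W hW).range → AA N W hW := fun ξ =>
    ((ofL p ξ : ↥(pN N W hW).range) : AA N W hW)
  have hcv : ∀ ξ ξ', cv (ξ * ξ') = ladd (cv ξ) (cv ξ') := fun ξ ξ' =>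
    map_ladd hR hH (pN N W hW).range.subtype (ofL p ξ) (ofL p ξ')
  let β : LG p ↥(pN N W hW).range →* V →* V ⧸ W :=
    MonoidHom.mk' (fun ξ => MonoidHom.mk' (fun u => bq hH (cv ξ) u)
      (fun u u' => bq_mul_right hH (cv ξ) u u')) (fun ξ ξ' => by
        apply MonoidHom.ext
        intro u
        change bq hH (cv (ξ * ξ')) u = bq hH (cv ξ) u * bq hH (cv ξ') u
        rw [hcv, bq_mul_left])
  have hβ : ∀ ξ u, β ξ u = bq hH (cv ξ) u := fun _ _ => rfl
  have hpi : ∀ (x : G) (hx : x ∈ N), cv (π x) = pN N W hW ⟨x, hx⟩ := by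
    intro x hx
    have := hπ x hx
    change ((ofL p (π x) : ↥(pN N W hW).range) : AA N W hW) = _
    rw [this, ofL_toL]
  have hcvinj : Function.Injective cv := fun a b hab => Subtype.ext hab
  -- the larger subgroups
  have hW2 : ∀ (W2 : Subgroup V) (hW2 : GInv G W2), W ≤ W2 → Laz p (AA N W2 hW2) := by
    intro W2 hW2 hle
    exact AA_laz hp hG hV N W2 hW2 m hm (h.trans hle)
  refine ⟨LG p ↥(pN N W hW).range, inferInstance, π, β, ?_, ?_, ?_⟩
  · refine ⟨inferInstance, LG_pgroup, ?_, ?_, ?_, ?_⟩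
    · intro ξ
      obtain ⟨y, hy⟩ := (ofL p ξ : ↥(pN N W hW).range).2
      refine ⟨y, y.2, hcvinj ?_⟩
      rw [hpi y y.2]
      exact hy
    · intro x hx y hy
      rw [← hcvinj.eq_iff, hpi x hx, hpi y hy, pN_eq]
    · intro D hCD hDN
      let RD : Subgroup ↥(pN N W hW).range := (D.subgroupOf N).map (pN N W hW).rangeRestrict
      let DX : Subgroup (LG p ↥(pN N W hW).range) :=
        { carrier := {ξ | ofL p ξ ∈ RD}
          one_mem' := RD.one_mem
          mul_mem' := fun {a b} ha hb => ladd_mem hR RD ha hb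
          inv_mem' := fun {a} ha => RD.inv_mem ha }
      refine ⟨DX, fun x hx => ?_⟩
      have h1 : π x ∈ DX ↔ (⟨pN N W hW ⟨x, hx⟩, ⟨⟨x, hx⟩, rfl⟩⟩ : ↥(pN N W hW).range) ∈ RD := by
        have := hπ x hx
        change ofL p (π x) ∈ RD ↔ _
        rw [this, ofL_toL]
      rw [h1]
      constructor
      · rintro ⟨y, hy, hyx⟩
        have h2 : pN N W hW y = pN N W hW ⟨x, hx⟩ := congrArg Subtype.val hyx
        rw [pN_eq] at h2
        have h3 := D.mul_mem (Subgroup.mem_subgroupOf.1 hy) (hCD h2)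
        rwa [mul_inv_cancel_left] at h3
      · intro hxD
        exact ⟨⟨x, hx⟩, Subgroup.mem_subgroupOf.2 hxD, rfl⟩
    · intro W2 hGW2 hle x hx u
      obtain ⟨f, hf1, hf2, -⟩ := AAmap N N W W2 hW hGW2 le_rfl hle
      rw [hβ, bq_mem hH hGW2 hle (hW2 W2 hGW2 hle) f hf2, hpi x hx, hf1, pN_comm_pV]
  · intro D W2 hGW2 hle u0 u1 x
    obtain ⟨f, hf1, hf2, -⟩ := AAmap N N W W2 hW hGW2 le_rfl hle
    have key : ∀ (hx : ∀ d, x d ∈ N) (t : ℕ),
        f (cv (pev (fun d => π (x d)) t)) =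
          lev (fun d => pN N W2 hGW2 ⟨x d, hx d⟩) t := by
      intro hx t
      have e1 : pev (fun d => π (x d)) t = toL p (lev (fun d =>
          (⟨pN N W hW ⟨x d, hx d⟩, ⟨⟨x d, hx d⟩, rfl⟩⟩ : ↥(pN N W hW).range)) t) := by
        rw [lev_eq]
        congr 1
        funext d
        exact hπ (x d) (hx d)
      have e2 : cv (pev (fun d => π (x d)) t) =
          lev (fun d => pN N W hW ⟨x d, hx d⟩) t := by
        rw [e1]
        exact map_lev hR hH (pN N W hW).range.subtype _ t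
      rw [e2, map_lev hH (hW2 W2 hGW2 hle)]
      congr 1
      funext d
      exact hf1 ⟨x d, hx d⟩
    constructor
    · rintro ⟨hx, hxt⟩
      refine ⟨hx, fun t ht => ?_⟩
      rw [hβ, bq_mem hH hGW2 hle (hW2 W2 hGW2 hle) f hf2, key hx t]
      exact hxt t ht
    · rintro ⟨hx, hxt⟩
      refine ⟨hx, fun t ht => ?_⟩
      have h1 := hxt t ht
      rw [hβ, bq_mem hH hGW2 hle (hW2 W2 hGW2 hle) f hf2, key hx t] at h1
      exact h1
  · intro N' hN' D u0 u1 x
    obtain ⟨f, hf1, hf2, hf3⟩ := AAmap N' N W W hW hW hN' le_rfl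
    have hinj := hf3 rfl
    have hH' : Laz p (AA N' W hW) := hH.of_inj f hinj
    have key : ∀ (hx : ∀ d, x d ∈ N') (t : ℕ),
        f (lev (fun d => pN N' W hW ⟨x d, hx d⟩) t) =
          lev (fun d => pN N W hW ⟨x d, hN' (hx d)⟩) t := by
      intro hx t
      rw [map_lev hH' hH]
      congr 1
      funext d
      exact hf1 ⟨x d, hx d⟩
    have key2 : ∀ (hx : ∀ d, x d ∈ N') (t : ℕ) (u : V),
        Commute (lev (fun d => pN N' W hW ⟨x d, hx d⟩) t) (pV N' W hW u) ↔
          Commute (lev (fun d => pN N W hW ⟨x d, hN' (hx d)⟩) t) (pV N W hW u) := by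
      intro hx t u
      rw [← key hx t, ← hf2 u]
      constructor
      · intro hc
        exact hc.map f
      · intro hc
        apply hinj
        rw [map_mul, map_mul]
        exact hc
    constructor
    · rintro ⟨hx, hxt⟩
      exact ⟨hx, fun d => hN' (hx d), fun t ht => (key2 hx t _).1 (hxt t ht)⟩
    · rintro ⟨hx, hx', hxt⟩
      exact ⟨hx, fun t ht => (key2 hx t _).2 (hxt t ht)⟩

end Pool.Agent.LP
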