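import Pool.Agent.LP.Bas

/-!
# LP / Pol1: polynomial maps form a group and are closed under commutators (Leibman)

`⁅a, b⁆ = a b a⁻¹ b⁻¹`. Write `D q` for `x ↦ q (sh d x) * (q x)⁻¹`.

`Pol_le`, `Pol_pred`: induction on `n` (use `hF.anti`; for `Pol_pred` the case `n = 0` is `.1`).
`Pol_one`: induction on `n`.

`Pol_comm` (T), `Pol_mul` (U), `Pol_inv` (V) are proved TOGETHER by induction on `n`; for `n = 0`
they hold by `hF.comm` and because `F k` is a subgroup. Step `n → n + 1`: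
* (U) `D(p q) = D p * ⁅p, D q⁆ * D q`: check: `p(sh) q(sh) q⁻¹ p⁻¹ = Dp p Dq p⁻¹ = Dp ⁅p,Dq⁆ Dq`.
  Here `D p, D q ∈ Pol n (k+w)`, `p ∈ Pol n k` (Pol_pred), so `⁅p, D q⁆ ∈ Pol n (k + (k+w))` by
  T(n), which is in `Pol n (k+w)` by `Pol_le`; then U(n) twice.
* (V) `D(p⁻¹) = ⁅p⁻¹, (D p)⁻¹⁆ * (D p)⁻¹` (indeed `D(p⁻¹) = p(sh)⁻¹ p = p⁻¹ (Dp)⁻¹ p`).
  Use V(n) for `p⁻¹ ∈ Pol n k` and `(D p)⁻¹ ∈ Pol n (k+w)`, then T(n), `Pol_le`, U(n).
* (T) with `a = D p`, `b = p`, `c = D q`, `e = q`, `z = ⁅b, e⁆`, `y = ⁅a, c⁆ * (c * ⁅a, e⁆ * c⁻¹)`: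
  `D ⁅p, q⁆ = ⁅a b, c e⁆ * z⁻¹ = (a * ⁅b, c⁆ * a⁻¹) * ⁅a * c, z⁆ * ⁅z, y⁆ * y` (identity in groups,
  from `⁅ab,x⁆ = a⁅b,x⁆a⁻¹⁅a,x⁆`, `⁅x,ce⁆ = ⁅x,c⁆ c⁅x,e⁆c⁻¹`; the `group` tactic should check it
  after unfolding `commutatorElement_def`).
  Levels (`p ∈ Pol (n+1) j`, `q ∈ Pol (n+1) k`, weight `w` of `d`): `a ∈ Pol n (j+w)`,
  `b ∈ Pol n j`, `c ∈ Pol n (k+w)`, `e ∈ Pol n k`. A conjugate `x * y * x⁻¹ = ⁅x, y⁆ * y` of
  `y ∈ Pol n l` by `x ∈ Pol n l'` is in `Pol n l` (T(n), `Pol_le`, U(n)). So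
  `a ⁅b,c⁆ a⁻¹ ∈ Pol n (j+k+w)`; `z ∈ Pol n (j+k)`; `a c ∈ Pol n w` (`Pol_le`), so
  `⁅a c, z⁆ ∈ Pol n (j+k+w)`; `⁅a,c⁆, c⁅a,e⁆c⁻¹ ∈ Pol n (j+k+w)`, so `y ∈ Pol n (j+k+w)` and
  `⁅z, y⁆ ∈ Pol n (j+k+w)`. Values: `⁅p, q⁆ x ∈ F (j+k)` by `hF.comm`.
All functions are in the group `X → H` (Pi group), `⁅p, q⁆ x = ⁅p x, q x⁆` by `rfl`.
-/

set_option autoImplicit false

open scoped commutatorElement

namespace Pool.Agent.LP

variable {H X ι : Type} [Group H] {F : ℕ → Subgroup H} {c : ℕ} {sh : ι → X → X} {w : ι → ℕ}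

theorem Pol_le (hF : Fil F c) {n k k' : ℕ} (h : k' ≤ k) {q : X → H} (hq : Pol F sh w n k q) :
    Pol F sh w n k' q := by
  induction n generalizing k k' q with
  | zero => exact fun x => hF.anti h (hq x)
  | succ n ih =>
    exact ⟨fun x => hF.anti h (hq.1 x), fun d => ih (Nat.add_le_add_right h _) (hq.2 d)⟩

theorem Pol_pred (hF : Fil F c) {n k : ℕ} {q : X → H} (hq : Pol F sh w (n + 1) k q) :
    Pol F sh w n k q := by
  have _ := hF
  induction n generalizing k q with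
  | zero => exact hq.1
  | succ n ih => exact ⟨hq.1, fun d => ih (hq.2 d)⟩

theorem Pol_one (n k : ℕ) : Pol F sh w n k (1 : X → H) := by
  induction n generalizing k with
  | zero => exact fun x => (F k).one_mem
  | succ n ih =>
    refine ⟨fun x => (F k).one_mem, fun d => ?_⟩
    have h : (fun x => (1 : X → H) (sh d x) * ((1 : X → H) x)⁻¹) = 1 := by
      funext x
      simp
    rw [h]
    exact ih _

private theorem joint (hF : Fil F c) (n : ℕ) :
    (∀ (j k : ℕ) (q r : X → H), Pol F sh w n j q → Pol F sh w n k r →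
      Pol F sh w n (j + k) ⁅q, r⁆) ∧
    (∀ (k : ℕ) (q r : X → H), Pol F sh w n k q → Pol F sh w n k r → Pol F sh w n k (q * r)) ∧
    (∀ (k : ℕ) (q : X → H), Pol F sh w n k q → Pol F sh w n k q⁻¹) := by
  induction n with
  | zero =>
    exact ⟨fun j k q r hq hr x =>
      hF.comm j k (Subgroup.commutator_mem_commutator (hq x) (hr x)),
      fun k q r hq hr x => (F k).mul_mem (hq x) (hr x),
      fun k q hq x => (F k).inv_mem (hq x)⟩
  | succ n ih =>
    obtain ⟨T, U, V⟩ := ih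
    have conj : ∀ (l l' : ℕ) (x y : X → H), Pol F sh w n l' x → Pol F sh w n l y →
        Pol F sh w n l (x * y * x⁻¹) := by
      intro l l' x y hx hy
      have e : x * y * x⁻¹ = ⁅x, y⁆ * y := by
        rw [commutatorElement_def]
        group
      rw [e]
      exact U _ _ _ (Pol_le hF (Nat.le_add_left _ _) (T _ _ _ _ hx hy)) hy
    refine ⟨?_, ?_, ?_⟩
    · intro j k q r hq hr
      refine ⟨fun x => hF.comm j k (Subgroup.commutator_mem_commutator (hq.1 x) (hr.1 x)),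
        fun d => ?_⟩
      let a : X → H := fun x => q (sh d x) * (q x)⁻¹
      let e : X → H := fun x => r (sh d x) * (r x)⁻¹
      have ha : Pol F sh w n (j + w d) a := hq.2 d
      have hb : Pol F sh w n j q := Pol_pred hF hq
      have hc : Pol F sh w n (k + w d) e := hr.2 d
      have he : Pol F sh w n k r := Pol_pred hF hr
      have hz : Pol F sh w n (j + k) ⁅q, r⁆ := T _ _ _ _ hb he
      have h1 : Pol F sh w n (j + k + w d) (a * ⁅q, e⁆ * a⁻¹) :=
        conj _ _ _ _ ha (Pol_le hF (by omega) (T _ _ _ _ hb hc))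
      have hac : Pol F sh w n (w d) (a * e) :=
        U _ _ _ (Pol_le hF (Nat.le_add_left _ _) ha) (Pol_le hF (Nat.le_add_left _ _) hc)
      have h2 : Pol F sh w n (j + k + w d) ⁅a * e, ⁅q, r⁆⁆ :=
        Pol_le hF (by omega) (T _ _ _ _ hac hz)
      have hy1 : Pol F sh w n (j + k + w d) ⁅a, e⁆ := Pol_le hF (by omega) (T _ _ _ _ ha hc)
      have hy2 : Pol F sh w n (j + k + w d) (e * ⁅a, r⁆ * e⁻¹) :=
        conj _ _ _ _ hc (Pol_le hF (by omega) (T _ _ _ _ ha he))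
      have hy : Pol F sh w n (j + k + w d) (⁅a, e⁆ * (e * ⁅a, r⁆ * e⁻¹)) := U _ _ _ hy1 hy2
      have h3 : Pol F sh w n (j + k + w d) ⁅⁅q, r⁆, ⁅a, e⁆ * (e * ⁅a, r⁆ * e⁻¹)⁆ :=
        Pol_le hF (by omega) (T _ _ _ _ hz hy)
      have key : (fun x => ⁅q, r⁆ (sh d x) * (⁅q, r⁆ x)⁻¹) =
          a * ⁅q, e⁆ * a⁻¹ * ⁅a * e, ⁅q, r⁆⁆ * ⁅⁅q, r⁆, ⁅a, e⁆ * (e * ⁅a, r⁆ * e⁻¹)⁆ *
            (⁅a, e⁆ * (e * ⁅a, r⁆ * e⁻¹)) := by
        funext x
        have e1 : q (sh d x) = a x * q x := by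
          change _ = q (sh d x) * (q x)⁻¹ * q x
          group
        have e2 : r (sh d x) = e x * r x := by
          change _ = r (sh d x) * (r x)⁻¹ * r x
          group
        simp only [commutatorElement_def, Pi.mul_apply, Pi.inv_apply]
        rw [e1, e2]
        group
      rw [key]
      exact U _ _ _ (U _ _ _ (U _ _ _ h1 h2) h3) hy
    · intro k q r hq hr
      refine ⟨fun x => (F k).mul_mem (hq.1 x) (hr.1 x), fun d => ?_⟩
      let a : X → H := fun x => q (sh d x) * (q x)⁻¹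
      let e : X → H := fun x => r (sh d x) * (r x)⁻¹
      have ha : Pol F sh w n (k + w d) a := hq.2 d
      have hb : Pol F sh w n k q := Pol_pred hF hq
      have hc : Pol F sh w n (k + w d) e := hr.2 d
      have h1 : Pol F sh w n (k + w d) ⁅q, e⁆ := Pol_le hF (by omega) (T _ _ _ _ hb hc)
      have key : (fun x => (q * r) (sh d x) * ((q * r) x)⁻¹) = a * ⁅q, e⁆ * e := by
        funext x
        have e1 : q (sh d x) = a x * q x := by
          change _ = q (sh d x) * (q x)⁻¹ * q x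
          group
        have e2 : r (sh d x) = e x * r x := by
          change _ = r (sh d x) * (r x)⁻¹ * r x
          group
        simp only [commutatorElement_def, Pi.mul_apply, Pi.inv_apply]
        rw [e1, e2]
        group
      rw [key]
      exact U _ _ _ (U _ _ _ ha h1) hc
    · intro k q hq
      refine ⟨fun x => (F k).inv_mem (hq.1 x), fun d => ?_⟩
      let a : X → H := fun x => q (sh d x) * (q x)⁻¹
      have ha : Pol F sh w n (k + w d) a := hq.2 d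
      have hb : Pol F sh w n k q := Pol_pred hF hq
      have h1 : Pol F sh w n (k + w d) ⁅q⁻¹, a⁻¹⁆ :=
        Pol_le hF (by omega) (T _ _ _ _ (V _ _ hb) (V _ _ ha))
      have key : (fun x => q⁻¹ (sh d x) * (q⁻¹ x)⁻¹) = ⁅q⁻¹, a⁻¹⁆ * a⁻¹ := by
        funext x
        have e1 : q (sh d x) = a x * q x := by
          change _ = q (sh d x) * (q x)⁻¹ * q x
          group
        simp only [commutatorElement_def, Pi.mul_apply, Pi.inv_apply]
        rw [e1]
        group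
      rw [key]
      exact U _ _ _ h1 (V _ _ ha)

theorem Pol_comm (hF : Fil F c) {n j k : ℕ} {q r : X → H} (hq : Pol F sh w n j q)
    (hr : Pol F sh w n k r) : Pol F sh w n (j + k) ⁅q, r⁆ :=
  (joint hF n).1 _ _ _ _ hq hr

theorem Pol_mul (hF : Fil F c) {n k : ℕ} {q r : X → H} (hq : Pol F sh w n k q)
    (hr : Pol F sh w n k r) : Pol F sh w n k (q * r) :=
  (joint hF n).2.1 _ _ _ hq hr

theorem Pol_inv (hF : Fil F c) {n k : ℕ} {q : X → H} (hq : Pol F sh w n k q) :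
    Pol F sh w n k q⁻¹ :=
  (joint hF n).2.2 _ _ hq

end Pool.Agent.LP
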