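import Pool.Agent.LP.Kap

/-!
# LP / Ps1: upper bound for the number of polynomial sections

Notation: `κ = kap n b0 b1 : (Fin n → X) →* (Fin (n + 1) → Y)` (Kap.lean, proved): the coefficients of
`t ↦ b1 (pev ξ t) * b0 (pev ξ t) ^ t = pev (κ ξ) t` (`pev_kap`); `mem_PS_kap`:
`ξ ∈ PS p n b0 b1 Y2 ↔ ∀ d, κ ξ d ∈ Y2` if `n + 1 ≤ p`; `kap_last`, `kap_snoc_one`.

PROOF of `PSU` (induction on `n`): the map `ξ ↦ ξ (Fin.last n)` from
`PS p (n+1) b0 b1 ⊥ ⊓ XP (n+1) XD` goes to `b0.ker ⊓ XD` (`kap_last`: the top coefficient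
is `b0 (ξ (last n)) = 1`), and its kernel is isomorphic (drop the last entry, which is `1`;
`Fin.snoc ξ 1`, `kap_snoc_one`) to `PS p n b0 b1 ⊥ ⊓ XP n XD`. So the cardinality is at most
`|kernel| * |b0.ker ⊓ XD|`. For `n = 0` both sides are `1` (`Fin 0 → X` is a singleton).
-/

set_option autoImplicit false

namespace Pool.Agent.LP

variable {p : ℕ} {X Y : Type} [CommGroup X] [CommGroup Y] [Finite X] [Finite Y]

theorem PSU (hp : p.Prime) (hY : IsPGroup p Y) (b0 b1 : X →* Y) (XD : Subgroup X) (n : ℕ)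
    (hn : n + 1 ≤ p) :
    Nat.card ↥(PS p n b0 b1 ⊥ ⊓ XP n XD) ≤ Nat.card ↥(b0.ker ⊓ XD) ^ n := by
  induction n with
  | zero =>
    rw [pow_zero]
    haveI : Subsingleton ↥(PS p 0 b0 b1 ⊥ ⊓ XP 0 XD) :=
      ⟨fun a b => Subtype.ext (Subsingleton.elim _ _)⟩
    exact Finite.card_le_one_iff_subsingleton.2 inferInstance
  | succ n ih =>
    have hmem : ∀ ξ : ↥(PS p (n + 1) b0 b1 ⊥ ⊓ XP (n + 1) XD),
        ξ.1 (Fin.last n) ∈ b0.ker ⊓ XD := by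
      rintro ⟨ξ, h1, h2⟩
      refine ⟨?_, h2 (Fin.last n)⟩
      have h3 := (mem_PS_kap hp hY b0 b1 (n + 1) hn ⊥ ξ).1 h1 (Fin.last (n + 1))
      rw [kap_last, Subgroup.mem_bot] at h3
      exact h3
    let f : ↥(PS p (n + 1) b0 b1 ⊥ ⊓ XP (n + 1) XD) →* ↥(b0.ker ⊓ XD) :=
      { toFun := fun ξ => ⟨ξ.1 (Fin.last n), hmem ξ⟩
        map_one' := rfl
        map_mul' := fun _ _ => rfl }
    have hker : ∀ ξ : f.ker, ξ.1.1 (Fin.last n) = 1 := by
      rintro ⟨ξ, hξ⟩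
      have := congrArg Subtype.val (MonoidHom.mem_ker.1 hξ)
      exact this
    have hsnoc : ∀ ξ : f.ker, (Fin.snoc (fun i : Fin n => ξ.1.1 (Fin.castSucc i)) 1 : Fin (n + 1) → X) =
        ξ.1.1 := by
      intro ξ
      funext d
      refine Fin.lastCases ?_ (fun i => ?_) d
      · rw [Fin.snoc_last, hker ξ]
      · rw [Fin.snoc_castSucc]
    have hg : ∀ ξ : f.ker, (fun i : Fin n => ξ.1.1 (Fin.castSucc i)) ∈
        PS p n b0 b1 ⊥ ⊓ XP n XD := by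
      intro ξ
      refine ⟨(mem_PS_kap hp hY b0 b1 n (by omega) ⊥ _).2 ?_, fun d => ξ.1.2.2 (Fin.castSucc d)⟩
      intro d
      have h3 := (mem_PS_kap hp hY b0 b1 (n + 1) hn ⊥ ξ.1.1).1 ξ.1.2.1 (Fin.castSucc d)
      rw [← hsnoc ξ, kap_snoc_one, Fin.snoc_castSucc] at h3
      exact h3
    have h1 : Nat.card f.ker ≤ Nat.card ↥(PS p n b0 b1 ⊥ ⊓ XP n XD) := by
      apply Nat.card_le_card_of_injective (fun ξ : f.ker =>
        (⟨fun i : Fin n => ξ.1.1 (Fin.castSucc i), hg ξ⟩ : ↥(PS p n b0 b1 ⊥ ⊓ XP n XD)))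
      intro ξ ξ' h
      have h4 : (fun i : Fin n => ξ.1.1 (Fin.castSucc i)) =
          (fun i : Fin n => ξ'.1.1 (Fin.castSucc i)) := congrArg Subtype.val h
      apply Subtype.ext
      apply Subtype.ext
      rw [← hsnoc ξ, ← hsnoc ξ', h4]
    have h2 : Nat.card ↥(PS p (n + 1) b0 b1 ⊥ ⊓ XP (n + 1) XD) =
        Nat.card (↥(PS p (n + 1) b0 b1 ⊥ ⊓ XP (n + 1) XD) ⧸ f.ker) * Nat.card f.ker :=
      Subgroup.card_eq_card_quotient_mul_card_subgroup f.ker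
    have h3 : Nat.card (↥(PS p (n + 1) b0 b1 ⊥ ⊓ XP (n + 1) XD) ⧸ f.ker) ≤
        Nat.card ↥(b0.ker ⊓ XD) := by
      rw [Nat.card_congr (QuotientGroup.quotientKerEquivRange f).toEquiv]
      exact Subgroup.card_le_card_group _
    rw [h2, pow_succ, mul_comm]
    exact Nat.mul_le_mul (h1.trans (ih (by omega))) h3

end Pool.Agent.LP
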