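import Pool.Agent.LP.Kap

/-!
# LP / Ps2: lower bound for the number of polynomial sections

Notation: `κ = kap n b0 b1 : (Fin n → X) →* (Fin (n + 1) → Y)` (Kap.lean, proved): the coefficients of
`t ↦ b1 (pev ξ t) * b0 (pev ξ t) ^ t = pev (κ ξ) t` (`pev_kap`); `mem_PS_kap`:
`ξ ∈ PS p n b0 b1 Y2 ↔ ∀ d, κ ξ d ∈ Y2` if `n + 1 ≤ p`; `kap_last`, `kap_snoc_one`.

PROOF of `PSL`. `κ` maps `PS p n b0 b1 Y2` into `{c : Fin (n+1) → Y2 | ∀ t ∈ B, pev c t = 1}`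
(for `ξ ∈ PS Y2`, `t ∈ B`, `pev (κ ξ) t = b1 (pev ξ t) * b0 (pev ξ t) ^ t ∈ Y2` (`B ⊆ range p`), so
it is `1` by `hB`), with kernel `PS p n b0 b1 ⊥`. The target has `p ^ (n + 1 - B.card)` elements
(`VCT` for the group `Y2` of order `p`).

PROOF of `PSE`. For `ξ ∈ PS Y2`, `pev (κ ξ) t = 1` for all `t ∈ T` by `hT`; `VDM` (`Q = ⊥`) gives
`κ ξ = 1`, hence `b1 (pev ξ t) * b0 (pev ξ t) ^ t = pev (κ ξ) t = 1` for all `t`.
-/

set_option autoImplicit false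

namespace Pool.Agent.LP

variable {p : ℕ} {X Y : Type} [CommGroup X] [CommGroup Y] [Finite X] [Finite Y]

theorem PSE_aux (hp : p.Prime) (hY : IsPGroup p Y) (b0 b1 : X →* Y) (n : ℕ) (ξ : Fin n → X)
    (h : ∀ d, kap n b0 b1 ξ d ∈ (⊥ : Subgroup Y)) : ξ ∈ PS p n b0 b1 ⊥ := by
  rw [mem_PS]
  intro t _
  rw [← pev_kap, pev]
  exact Subgroup.prod_mem _ (fun d _ => Subgroup.pow_mem _ (h d) _)

theorem PSL (hp : p.Prime) (hY : IsPGroup p Y) (b0 b1 : X →* Y) (n : ℕ) (hn : n + 1 ≤ p)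
    (Y2 : Subgroup Y) (hY2 : Nat.card Y2 = p) (B : Finset ℕ) (hBp : ∀ t ∈ B, t < p)
    (hBn : B.card ≤ n + 1) (hB : ∀ t ∈ B, ∀ ξ : X, b1 ξ * b0 ξ ^ t ∈ Y2 → b1 ξ * b0 ξ ^ t = 1) :
    Nat.card ↥(PS p n b0 b1 Y2) ≤ Nat.card ↥(PS p n b0 b1 ⊥) * p ^ (n + 1 - B.card) := by
  classical
  let f : ↥(PS p n b0 b1 Y2) →* (Fin (n + 1) → Y) := (kap n b0 b1).comp (PS p n b0 b1 Y2).subtype
  have hf : ∀ x, f x = kap n b0 b1 (x : Fin n → X) := fun _ => rfl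
  have h1 : Nat.card ↥(PS p n b0 b1 Y2) = Nat.card f.ker * Nat.card f.range := by
    have := Subgroup.card_eq_card_quotient_mul_card_subgroup f.ker
    rw [this, mul_comm]
    congr 1
    exact Nat.card_congr (QuotientGroup.quotientKerEquivRange f).toEquiv
  have h2 : Nat.card f.ker ≤ Nat.card ↥(PS p n b0 b1 ⊥) := by
    refine Nat.card_le_card_of_injective
      (fun x => (⟨((x : ↥(PS p n b0 b1 Y2)) : Fin n → X), ?_⟩ : ↥(PS p n b0 b1 ⊥))) ?_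
    · refine PSE_aux hp hY b0 b1 n _ (fun d => ?_)
      have h3 : f x = 1 := x.2
      rw [← hf, h3]
      exact Subgroup.one_mem _
    · intro x y hxy
      have h3 := congrArg Subtype.val hxy
      exact Subtype.ext (Subtype.ext h3)
  have hY2p : IsPGroup p Y2 := hY.to_subgroup Y2
  have h4 : Nat.card {c : Fin (n + 1) → Y2 // ∀ t ∈ B, pev c t = 1} = p ^ (n + 1 - B.card) := by
    have h5 := VCT hp hY2p (n + 1) B hBp hBn hn
    rw [hY2] at h5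
    have h6 : p ^ (n + 1) = p ^ (n + 1 - B.card) * p ^ B.card := by
      rw [← pow_add, Nat.sub_add_cancel hBn]
    rw [h6] at h5
    exact Nat.eq_of_mul_eq_mul_right (pow_pos hp.pos _) h5
  have h7 : Nat.card f.range ≤ Nat.card {c : Fin (n + 1) → Y2 // ∀ t ∈ B, pev c t = 1} := by
    have hmem : ∀ y : f.range, ∀ d, (y : Fin (n + 1) → Y) d ∈ Y2 := by
      rintro ⟨_, x, rfl⟩ d
      exact (mem_PS_kap hp hY b0 b1 n hn Y2 _).1 x.2 d
    have hval : ∀ (c : Fin (n + 1) → Y2) (t : ℕ),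
        ((pev c t : Y2) : Y) = pev (fun d => (c d : Y)) t := by
      intro c t
      rw [pev, pev, Subgroup.val_finset_prod]
      rfl
    refine Nat.card_le_card_of_injective
      (fun y => (⟨fun d => ⟨(y : Fin (n + 1) → Y) d, hmem y d⟩, ?_⟩ :
        {c : Fin (n + 1) → Y2 // ∀ t ∈ B, pev c t = 1})) ?_
    · intro t ht
      apply Subtype.ext
      rw [hval]
      obtain ⟨_, x, rfl⟩ := y
      have h8 : pev (kap n b0 b1 (x : Fin n → X)) t = 1 := by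
        rw [pev_kap]
        exact hB t ht _ ((mem_PS p n b0 b1 Y2 _).1 x.2 t (hBp t ht))
      exact h8
    · intro x y hxy
      have h9 := congrArg Subtype.val hxy
      apply Subtype.ext
      funext d
      exact congrArg Subtype.val (congrFun h9 d)
  rw [h1, ← h4]
  exact Nat.mul_le_mul h2 h7

theorem PSE (hp : p.Prime) (hY : IsPGroup p Y) (b0 b1 : X →* Y) (n : ℕ) (Y2 : Subgroup Y)
    (T : Finset ℕ) (hTp : ∀ t ∈ T, t < p) (hTn : n + 1 ≤ T.card)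
    (hT : ∀ t ∈ T, ∀ ξ : X, b1 ξ * b0 ξ ^ t ∈ Y2 → b1 ξ * b0 ξ ^ t = 1) :
    PS p n b0 b1 Y2 ≤ PS p n b0 b1 ⊥ := by
  intro ξ hξ
  rw [mem_PS] at hξ
  refine PSE_aux hp hY b0 b1 n ξ ?_
  refine VDM hp hY (n + 1) _ ⊥ T hTp hTn (fun t ht => ?_)
  rw [pev_kap, Subgroup.mem_bot]
  exact hT t ht _ (hξ t (hTp t ht))

end Pool.Agent.LP
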