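import Pool.Agent.LP.LG

/-!
# LP / Rad: the radical of a character of the Lazard group

Notation: `ω(x, y) = f (toL p (lbr x y))`, an alternating bicharacter of `LG p H`
(`lbr_add_left`, `lbr_add_right`, `lbr_self`, `lbr_swap`). `radh f : LG p H →* (LG p H →* ℂˣ)`,
`radh f x y = ω(x, y)`.

PROOF of `radh_ker`: definition (`mem_rad`). `card_range_radh`: `|range| = index of the kernel`
(`Subgroup.index_ker`, `MonoidHom.range`). `radh_mul_pow`: pointwise.
-/

set_option autoImplicit false

open scoped commutatorElement

namespace Pool.Agent.LP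

variable {p : ℕ} {H : Type} [Group H] [h : Fact (Laz p H)]

/-- `x ↦ (y ↦ f (lbr x y))` -/
noncomputable def radh (f : LG p H →* ℂˣ) : LG p H →* (LG p H →* ℂˣ) where
  toFun x :=
    { toFun := fun y => f (toL p (lbr (ofL p x) (ofL p y)))
      map_one' := by
        have h1 : lbr (ofL p x) (ofL p (1 : LG p H)) = 1 :=
          lbr_commute h.out (by rw [ofL_one]; simp)
        rw [h1]
        exact f.map_one
      map_mul' := by
        intro y z
        rw [ofL_mul, lbr_add_right h.out, toL_ladd, map_mul] }
  map_one' := by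
    refine MonoidHom.ext fun y => ?_
    have h1 : lbr (ofL p (1 : LG p H)) (ofL p y) = 1 :=
      lbr_commute h.out (by rw [ofL_one]; simp)
    change f (toL p (lbr (ofL p (1 : LG p H)) (ofL p y))) = 1
    rw [h1]
    exact f.map_one
  map_mul' x x' := by
    refine MonoidHom.ext fun y => ?_
    change f (toL p (lbr (ofL p (x * x')) (ofL p y))) =
      f (toL p (lbr (ofL p x) (ofL p y))) * f (toL p (lbr (ofL p x') (ofL p y)))
    rw [ofL_mul, lbr_add_left h.out, toL_ladd, map_mul]

theorem radh_apply (f : LG p H →* ℂˣ) (x y : LG p H) :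
    radh f x y = f (toL p (lbr (ofL p x) (ofL p y))) := rfl

theorem radh_ker (f : LG p H →* ℂˣ) : (radh f).ker = rad f := by
  ext x
  rw [MonoidHom.mem_ker, mem_rad]
  constructor
  · intro hx y
    have := DFunLike.congr_fun hx (toL p y)
    exact this
  · intro hx
    exact MonoidHom.ext fun y => hx (ofL p y)

theorem radh_mul_pow (f g : LG p H →* ℂˣ) (t : ℕ) : radh (f * g ^ t) = radh f * radh g ^ t := by
  refine MonoidHom.ext fun x => MonoidHom.ext fun y => ?_
  rw [MonoidHom.mul_apply, MonoidHom.pow_apply, MonoidHom.mul_apply, MonoidHom.pow_apply,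
    radh_apply, radh_apply, radh_apply, MonoidHom.mul_apply, MonoidHom.pow_apply]

theorem card_range_radh (f : LG p H →* ℂˣ) : Nat.card (radh f).range = (rad f).index := by
  rw [← radh_ker, Subgroup.index_ker]

end Pool.Agent.LP
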