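import Pool.Agent.LP.St0

/-!
# LP / Rk: ranks of elements of `N` on `V / W`

Notation `F i = cmn N i ⊔ W`.
`F_anti`: `cmn N (i+1) ≤ cmn N i` by induction. `F_smul`: for `g ∈ N`, `v ∈ F i`:
`(g • v) v⁻¹ ∈ F (i + 1)` (the set of such `v` is a subgroup containing `cmn N i` and `W`;
`g • v * v⁻¹` is multiplicative in `v`).

PROOF of `RANK`. `δ : V →* V ⧸ W`, `δ v = (x • v) v⁻¹` mod `W`, is a homomorphism, with kernel
`{u | (x • u) u⁻¹ ∈ W}`, so `|V| = |ker δ| |im δ|` and it suffices that `p ^ |S| ≤ |im δ|`. Let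
`I j = im δ ⊓ (F j).map (mk' W)`. For `i ∈ S` there is `v ∈ F i` with `(x • v) v⁻¹ ∈ F (i + 1)`
(`F_smul`) not in `F (i + 2)`: as `W ≤ F (i + 2)`, `δ v ∈ I (i + 1)`, `δ v ∉ I (i + 2)`. So
`|I (i + 1)| ≥ p |I (i + 2)|` for `i ∈ S` and `|I (i+1)| ≥ |I (i+2)|` always; hence
`|I 1| ≥ p ^ #{i ∈ S | i < m} |I (m + 1)|` for all `m` (induction).

-/

set_option autoImplicit false

namespace Pool.Agent.LP

variable {p : ℕ} {G V : Type} [Group G] [CommGroup V] [MulDistribMulAction G V]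

/-- The elements of `N` which map `F i` into `F (i + 2)`, `F i = cmn N i ⊔ W`. -/
def Dset (N : Subgroup G) (W : Subgroup V) (i : ℕ) : Set G :=
  {x | x ∈ N ∧ ∀ v ∈ cmn N i ⊔ W, (x • v) * v⁻¹ ∈ cmn N (i + 2) ⊔ W}

theorem cmn_anti_Rk (N : Subgroup G) (i : ℕ) : (cmn N (i + 1) : Subgroup V) ≤ cmn N i := by
  induction i with
  | zero => exact le_top
  | succ i ih =>
    apply Subgroup.closure_mono
    rintro w ⟨g, hg, v, hv, rfl⟩
    exact ⟨g, hg, v, ih hv, rfl⟩

theorem F_smul_Rk {N : Subgroup G} {W : Subgroup V} (hW : GInv G W) {i : ℕ} {g : G} (hg : g ∈ N)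
    {v : V} (hv : v ∈ cmn N i ⊔ W) : (g • v) * v⁻¹ ∈ cmn N (i + 1) ⊔ W := by
  let S : Subgroup V :=
    { carrier := {v | (g • v) * v⁻¹ ∈ cmn N (i + 1) ⊔ W}
      one_mem' := by simp
      mul_mem' := by
        intro a b ha hb
        simp only [Set.mem_ofPred_eq] at ha hb ⊢
        have h1 : (g • (a * b)) * (a * b)⁻¹ = ((g • a) * a⁻¹) * ((g • b) * b⁻¹) := by
          rw [smul_mul', mul_inv, mul_mul_mul_comm]
        rw [h1]
        exact Subgroup.mul_mem _ ha hb
      inv_mem' := by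
        intro a ha
        simp only [Set.mem_ofPred_eq] at ha ⊢
        have h1 : (g • a⁻¹) * (a⁻¹)⁻¹ = ((g • a) * a⁻¹)⁻¹ := by
          rw [smul_inv', mul_inv]
        rw [h1]
        exact Subgroup.inv_mem _ ha }
  have h1 : cmn N i ⊔ W ≤ S := by
    refine sup_le ?_ ?_
    · intro v hv
      exact (le_sup_left : cmn N (i + 1) ≤ cmn N (i + 1) ⊔ W)
        (Subgroup.subset_closure ⟨g, hg, v, hv, rfl⟩)
    · intro v hv
      exact (le_sup_right : W ≤ cmn N (i + 1) ⊔ W) (W.mul_mem (hW g v hv) (W.inv_mem hv))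
  exact h1 hv

theorem F_inv_Rk {N : Subgroup G} {W : Subgroup V} (hW : GInv G W) {i : ℕ} {g : G} (hg : g ∈ N)
    {v : V} (hv : v ∈ cmn N i ⊔ W) : g • v ∈ cmn N i ⊔ W := by
  have h1 := F_smul_Rk hW hg hv
  have h2 : (g • v) * v⁻¹ ∈ cmn N i ⊔ W := sup_le_sup_right (cmn_anti_Rk N i) W h1
  have h3 := Subgroup.mul_mem _ h2 hv
  rwa [inv_mul_cancel_right] at h3

theorem Dset_subgroup (N : Subgroup G) (W : Subgroup V) (hW : GInv G W) (i : ℕ) :
    ∃ D : Subgroup G, (D : Set G) = Dset N W i := by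
  refine ⟨{ carrier := Dset N W i, one_mem' := ?_, mul_mem' := ?_, inv_mem' := ?_ }, rfl⟩
  · rintro a b ⟨ha, ha'⟩ ⟨hb, hb'⟩
    refine ⟨N.mul_mem ha hb, fun v hv => ?_⟩
    have h : ((a * b) • v) * v⁻¹ = (a • ((b • v) * v⁻¹)) * ((a • v) * v⁻¹) := by
      rw [smul_mul', smul_inv', mul_smul]
      group
    rw [h]
    exact Subgroup.mul_mem _ (F_inv_Rk hW ha (hb' v hv)) (ha' v hv)
  · refine ⟨N.one_mem, fun v _ => ?_⟩
    rw [one_smul, mul_inv_cancel]
    exact Subgroup.one_mem _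
  · rintro a ⟨ha, ha'⟩
    refine ⟨N.inv_mem ha, fun v hv => ?_⟩
    have h : (a⁻¹ • v) * v⁻¹ = (a⁻¹ • ((a • v) * v⁻¹))⁻¹ := by
      rw [smul_mul', smul_inv', inv_smul_smul]
      group
    rw [h]
    exact Subgroup.inv_mem _ (F_inv_Rk hW (N.inv_mem ha) (ha' v hv))

theorem RANK (hp : p.Prime) [Finite G] [Finite V] (hV : IsPGroup p V) (N : Subgroup G)
    (W : Subgroup V) (hW : GInv G W) (x : G) (hx : x ∈ N) (S : Finset ℕ)
    (hS : ∀ i ∈ S, x ∉ Dset N W i) :
    p ^ S.card * Nat.card {u : V // (x • u) * u⁻¹ ∈ W} ≤ Nat.card V := by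
  classical
  have : Fact p.Prime := ⟨hp⟩
  let δ : V →* V ⧸ W :=
    { toFun := fun v => QuotientGroup.mk' W ((x • v) * v⁻¹)
      map_one' := by simp
      map_mul' := by
        intro a b
        rw [← map_mul, smul_mul', mul_inv, mul_mul_mul_comm] }
  have hδ : ∀ v, δ v = QuotientGroup.mk' W ((x • v) * v⁻¹) := fun _ => rfl
  have hcard : Nat.card V = Nat.card δ.ker * Nat.card δ.range := by
    rw [← Subgroup.index_ker δ]
    exact (Subgroup.card_mul_index δ.ker).symm
  have hker : Nat.card δ.ker = Nat.card {u : V // (x • u) * u⁻¹ ∈ W} := by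
    apply Nat.card_congr
    refine Equiv.subtypeEquivRight (fun u => ?_)
    rw [MonoidHom.mem_ker, hδ, QuotientGroup.mk'_apply, QuotientGroup.eq_one_iff]
  let I : ℕ → Subgroup (V ⧸ W) := fun j => δ.range ⊓ (cmn N j ⊔ W).map (QuotientGroup.mk' W)
  have hIanti : ∀ j, I (j + 1) ≤ I j := fun j =>
    inf_le_inf_left _ (Subgroup.map_mono (sup_le_sup_right (cmn_anti_Rk N j) W))
  have hPQ : IsPGroup p (V ⧸ W) := hV.to_quotient W
  have hstep : ∀ i ∈ S, p * Nat.card (I (i + 2)) ≤ Nat.card (I (i + 1)) := by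
    intro i hi
    have h1 : ∃ v ∈ cmn N i ⊔ W, (x • v) * v⁻¹ ∉ cmn N (i + 2) ⊔ W := by
      by_contra hcon
      push Not at hcon
      exact hS i hi ⟨hx, hcon⟩
    obtain ⟨v, hv, hv'⟩ := h1
    have hne : I (i + 2) ≠ I (i + 1) := by
      intro heq
      have h2 : δ v ∈ I (i + 1) := ⟨⟨v, rfl⟩, ⟨_, F_smul_Rk hW hx hv, rfl⟩⟩
      rw [← heq] at h2
      obtain ⟨_, ⟨w, hw, hw'⟩⟩ := h2
      rw [hδ, QuotientGroup.mk'_apply, QuotientGroup.mk'_apply, QuotientGroup.eq] at hw'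
      apply hv'
      have h3 : w * (w⁻¹ * ((x • v) * v⁻¹)) ∈ cmn N (i + 2) ⊔ W :=
        Subgroup.mul_mem _ hw ((le_sup_right : W ≤ cmn N (i + 2) ⊔ W) hw')
      rwa [mul_inv_cancel_left] at h3
    obtain ⟨a, ha⟩ := (IsPGroup.iff_card).1 (hPQ.to_subgroup (I (i + 2)))
    obtain ⟨b, hb⟩ := (IsPGroup.iff_card).1 (hPQ.to_subgroup (I (i + 1)))
    have hlt : Nat.card (I (i + 2)) < Nat.card (I (i + 1)) := by
      rcases lt_or_ge (Nat.card (I (i + 2))) (Nat.card (I (i + 1))) with h | h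
      · exact h
      · exact absurd (Subgroup.eq_of_le_of_card_ge (hIanti (i + 1)) h) hne
    rw [ha, hb] at hlt ⊢
    have hab : a < b := (Nat.pow_lt_pow_iff_right hp.one_lt).1 hlt
    calc p * p ^ a = p ^ (a + 1) := by ring
      _ ≤ p ^ b := Nat.pow_le_pow_right hp.pos hab
  have hind : ∀ m, p ^ (S.filter (fun i => i < m)).card * Nat.card (I (m + 1)) ≤
      Nat.card (I 1) := by
    intro m
    induction m with
    | zero => simp
    | succ m ih =>
      by_cases hm : m ∈ S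
      · have h1 : S.filter (fun i => i < m + 1) = insert m (S.filter (fun i => i < m)) := by
          ext i
          simp only [Finset.mem_filter, Finset.mem_insert]
          constructor
          · rintro ⟨h1, h2⟩
            rcases Nat.lt_succ_iff_lt_or_eq.1 h2 with h3 | h3
            · exact Or.inr ⟨h1, h3⟩
            · exact Or.inl h3
          · rintro (h1 | ⟨h1, h2⟩)
            · subst h1; exact ⟨hm, Nat.lt_succ_self _⟩
            · exact ⟨h1, by omega⟩
        rw [h1, Finset.card_insert_of_notMem (by simp), pow_succ, mul_assoc]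
        exact (Nat.mul_le_mul_left _ (hstep m hm)).trans ih
      · have h1 : S.filter (fun i => i < m + 1) = S.filter (fun i => i < m) := by
          ext i
          simp only [Finset.mem_filter]
          constructor
          · rintro ⟨h1, h2⟩
            refine ⟨h1, ?_⟩
            rcases Nat.lt_succ_iff_lt_or_eq.1 h2 with h3 | h3
            · exact h3
            · subst h3; exact absurd h1 hm
          · rintro ⟨h1, h2⟩
            exact ⟨h1, by omega⟩
        rw [h1]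
        refine (Nat.mul_le_mul_left _ ?_).trans ih
        exact Nat.le_of_dvd Nat.card_pos (Subgroup.card_dvd_of_le (hIanti (m + 1)))
  have hall : S.filter (fun i => i < S.sup id + 1) = S := by
    apply Finset.filter_true_of_mem
    intro i hi
    exact Nat.lt_succ_of_le (Finset.le_sup (f := id) hi)
  have h1 := hind (S.sup id + 1)
  rw [hall] at h1
  have h2 : p ^ S.card ≤ Nat.card δ.range := by
    calc p ^ S.card ≤ p ^ S.card * Nat.card (I (S.sup id + 1 + 1)) :=
          Nat.le_mul_of_pos_right _ Nat.card_pos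
      _ ≤ Nat.card (I 1) := h1
      _ ≤ Nat.card δ.range :=
          Nat.le_of_dvd Nat.card_pos (Subgroup.card_dvd_of_le inf_le_left)
  rw [hcard, ← hker, mul_comm]
  exact Nat.mul_le_mul_left _ h2

end Pool.Agent.LP
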