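import Pool.Agent.LP.St0
import Pool.Agent.LP.Pdx
import Pool.Agent.LP.Pd0
import Pool.Agent.LP.Ps1

/-!
# LP / Sle: the upper bound for the number of sections

PROOF. Lie data `X, π, β` from `PDX` for `N, W` (`m = K + 1 ≤ p - 1`, as `2 K + 1 = p ≥ 3`), `C = CW W hW`.
`b0 = β.flip u0`, `b1 = β.flip u1 : X →* V ⧸ W`; `β ξ (u1 * u0 ^ t) = b1 ξ * b0 ξ ^ t`. By `PDX` with
`W2 = W` (`W.map (mk' W) = ⊥`), `x ∈ Sec p r N W u0 u1 ↔ (∀ d, x d ∈ N) ∧ π ∘ x ∈ PS p (r+1) b0 b1 ⊥`,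
so by `PD_card` `|Sec| = |PS p (r+1) b0 b1 ⊥| * |C| ^ (r+1)`. `PSU` with `XD = ⊤`, `n = r + 1`
(`r + 2 ≤ p`): `|PS ⊥| ≤ |ker b0| ^ (r+1)`, and `|ker b0| * |C| = |TS W u0|` (`PD_cardD` with
`D = TS W u0`, `Z = ker b0`; `PD.act` with `W2 = W`; `C ≤ TS W u0`).
-/

set_option autoImplicit false

namespace Pool.Agent.LP

variable {p r K : ℕ} {G V : Type} [Group G] [CommGroup V] [MulDistribMulAction G V]

/-- The upper bound for the number of sections. -/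
theorem Sec_le (H : Hyp p r K G V) {N : Subgroup G} {W : Subgroup V} (hW : GInv G W)
    (h : cmn N (K + 1) ≤ W) (hC : CW W hW ≤ N) (u0 u1 : V) (hu0 : TS W hW u0 ≤ N) :
    Nat.card (Sec p r N W hW u0 u1) ≤ Nat.card (TS W hW u0) ^ (r + 1) := by
  have := H.finG
  have := H.finV
  have h3 := H.three
  have hK := H.hK
  obtain ⟨X, iX, π, β, hPD, hSec, -⟩ := PDX H.prime H.pG H.pV N W hW (K + 1) (by omega) h hC
  have := hPD.fin
  have hbot : W.map (QuotientGroup.mk' W) = ⊥ := QuotientGroup.map_mk'_self W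
  let b0 : X →* V ⧸ W := β.flip u0
  let b1 : X →* V ⧸ W := β.flip u1
  have hb0 : ∀ ξ, b0 ξ = β ξ u0 := fun _ => rfl
  have hb1 : ∀ ξ, b1 ξ = β ξ u1 := fun _ => rfl
  have h1 : Nat.card (Sec p r N W hW u0 u1) =
      Nat.card {x : Fin (r + 1) → G // (∀ d, x d ∈ N) ∧
        (fun d => π (x d)) ∈ (PS p (r + 1) b0 b1 ⊥ : Set (Fin (r + 1) → X))} := by
    apply Nat.card_congr
    refine Equiv.subtypeEquivRight (fun x => ?_)
    rw [hSec r W hW le_rfl u0 u1 x, hbot]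
    apply and_congr_right
    intro _
    rw [SetLike.mem_coe, mem_PS]
    refine forall_congr' (fun t => forall_congr' (fun _ => ?_))
    rw [hb0, hb1, map_mul, map_pow]
  have h2 := PD_card hPD hC (r + 1) (PS p (r + 1) b0 b1 ⊥ : Set (Fin (r + 1) → X))
  have h4 := PSU (X := X) (Y := V ⧸ W) H.prime (H.pV.to_quotient W) b0 b1 ⊤ (r + 1) (by omega)
  have h5 : PS p (r + 1) b0 b1 ⊥ ⊓ XP (r + 1) ⊤ = PS p (r + 1) b0 b1 ⊥ := by
    apply inf_eq_left.2
    intro ξ _ d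
    exact Subgroup.mem_top _
  rw [h5, inf_top_eq] at h4
  have h6 := PD_cardD hPD (TS W hW u0) (iInf_le _ u0) hu0 b0.ker (by
    intro x hx
    have := hPD.act W hW le_rfl x hx u0
    rw [hbot, Subgroup.mem_bot] at this
    rw [MonoidHom.mem_ker, hb0, this]
    rfl)
  rw [h1, h2, h6, mul_pow]
  exact Nat.mul_le_mul_right _ h4

end Pool.Agent.LP
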