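import Pool.Agent.LP.Defs

/-!
# LP / St0: elementary facts on stabilisers modulo `W`

PROOFS.
`smul_W`: `G` acts on `W ⧸ W'` (order `p`); a `p`-group acts trivially on a group of order `p`
(the number of fixed points is `≡ p ≡ 0` mod `p`, and `1` is fixed, so at least `p` fixed points:
`IsPGroup.card_modEq_card_fixedPoints`). Alternatively: the subgroup
`W'' = closure {(g • v) v⁻¹ | g, v ∈ W} ⊔ W' ≤ W` is `W'` or `W` (index `p`), and it is not `W` since
otherwise, by iteration, the nilpotent action (a finite `p`-group acting on a finite `p`-group)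
would give `W = W'`.
`TS_mono`, `TS_stab`, `TS_bot`: immediate from `mem_TS`.
`TS_index`: for `x, y ∈ TS W hW u`, `((x y) • u) u⁻¹ = x • ((y • u) u⁻¹) * ((x • u) u⁻¹)` and `x` acts
trivially on `W / W'` (`smul_W`), so `x ↦ (x • u) u⁻¹ ∈ W ⧸ W'` is a homomorphism on `TS W hW u` with
kernel `TS W' hW' u`, into a group of order `p`: the index of the kernel is `1` or `p`.
`TS_conj`: `TS W hW (g • u) = g (TS W hW u) g⁻¹`: `x ↦ g x g⁻¹` is a bijection
(`((g x g⁻¹) • (g • u)) (g • u)⁻¹ = g • ((x • u) u⁻¹)`).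
`State_R_le`: take `u ∈ Good`: `|TS| p^R = |G| ≤ |stabilizer| p^r ≤ |TS| p^r`, so `p^R ≤ p^r`.
`CW_le`: `CW W' hW' ≤ TS W' hW' u` (`iInf_le`), so `CW W' hW' ≤ N` for a state with `u ∈ Good`,
`W' ≤ W`: `CW W' ≤ TS W' u ≤ TS W u ≤ N`.
`cmn_mono`: induction on `i`. `cmn_succ_le`: if `cmn N K ≤ W` and `(g • v) v⁻¹ ∈ W'` for all `v ∈ W`
then `cmn N (K + 1) ≤ W'`.
-/

set_option autoImplicit false

namespace Pool.Agent.LP

variable {p : ℕ} {G V : Type} [Group G] [CommGroup V] [MulDistribMulAction G V]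

theorem smul_W (hp : p.Prime) [Finite G] [Finite V] (hG : IsPGroup p G) (W' W : Subgroup V)
    (hW' : GInv G W') (hW : GInv G W) (hle : W' ≤ W) (hcard : Nat.card W = p * Nat.card W')
    (g : G) (v : V) (hv : v ∈ W) : (g • v) * v⁻¹ ∈ W' := by
  have : Fact p.Prime := ⟨hp⟩
  let iA : MulAction G ↥W :=
    { smul := fun g w => ⟨g • (w : V), hW g _ w.2⟩
      one_smul := fun w => Subtype.ext (one_smul G (w : V))
      mul_smul := fun a b w => Subtype.ext (mul_smul a b (w : V)) }
  have hsm : ∀ (g : G) (w : ↥W), ((g • w : ↥W) : V) = g • (w : V) := fun _ _ => rfl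
  have iQ : MulAction.QuotientAction G (W'.subgroupOf W) := by
    refine ⟨fun b a a' h => ?_⟩
    rw [Subgroup.mem_subgroupOf] at h ⊢
    have h1 := hW' b _ h
    simp only [Subgroup.coe_mul, InvMemClass.coe_inv, hsm, smul_mul', smul_inv'] at h1 ⊢
    exact h1
  have hcQ : Nat.card (↥W ⧸ W'.subgroupOf W) = p := by
    have h1 := Subgroup.card_eq_card_quotient_mul_card_subgroup (W'.subgroupOf W)
    have h2 : Nat.card (W'.subgroupOf W) = Nat.card W' :=
      Nat.card_congr (Subgroup.subgroupOfEquivOfLe hle).toEquiv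
    rw [h2, hcard] at h1
    exact (Nat.eq_of_mul_eq_mul_right Nat.card_pos h1).symm
  have hmod := hG.card_modEq_card_fixedPoints (↥W ⧸ W'.subgroupOf W)
  rw [hcQ] at hmod
  have hdvd : p ∣ Nat.card (MulAction.fixedPoints G (↥W ⧸ W'.subgroupOf W)) :=
    (Nat.modEq_zero_iff_dvd).1 (hmod.symm.trans ((Nat.modEq_zero_iff_dvd).2 dvd_rfl))
  have hone : (QuotientGroup.mk (1 : ↥W) : ↥W ⧸ W'.subgroupOf W) ∈
      MulAction.fixedPoints G (↥W ⧸ W'.subgroupOf W) := by
    intro b
    have h1 : b • (1 : ↥W) = 1 := by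
      apply Subtype.ext
      rw [hsm]
      simp
    rw [MulAction.Quotient.smul_mk, h1]
  have hpos : 0 < Nat.card (MulAction.fixedPoints G (↥W ⧸ W'.subgroupOf W)) := by
    have : Nonempty (MulAction.fixedPoints G (↥W ⧸ W'.subgroupOf W)) := ⟨⟨_, hone⟩⟩
    exact Nat.card_pos
  have hge : p ≤ Nat.card (MulAction.fixedPoints G (↥W ⧸ W'.subgroupOf W)) :=
    Nat.le_of_dvd hpos hdvd
  have huniv : MulAction.fixedPoints G (↥W ⧸ W'.subgroupOf W) = Set.univ := by
    apply Set.eq_of_subset_of_ncard_le (Set.subset_univ _) _ (Set.toFinite _)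
    rw [Set.ncard_univ, hcQ]
    exact hge
  have hfix : (QuotientGroup.mk (⟨v, hv⟩ : ↥W) : ↥W ⧸ W'.subgroupOf W) ∈
      MulAction.fixedPoints G (↥W ⧸ W'.subgroupOf W) := by rw [huniv]; exact Set.mem_univ _
  have h3 := hfix g
  rw [MulAction.Quotient.smul_mk, eq_comm, QuotientGroup.eq, Subgroup.mem_subgroupOf] at h3
  simp only [Subgroup.coe_mul, InvMemClass.coe_inv, hsm] at h3
  rw [mul_comm]
  exact h3

theorem TS_mono {W' W : Subgroup V} (hW' : GInv G W') (hW : GInv G W) (hle : W' ≤ W) (u : V) :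
    TS W' hW' u ≤ TS W hW u := fun _ hg => hle hg

theorem TS_stab (W : Subgroup V) (hW : GInv G W) (u : V) :
    MulAction.stabilizer G u ≤ TS W hW u := by
  intro g hg
  rw [MulAction.mem_stabilizer_iff] at hg
  rw [mem_TS, hg, mul_inv_cancel]
  exact W.one_mem

theorem TS_bot (hW : GInv G (⊥ : Subgroup V)) (u : V) :
    TS ⊥ hW u = MulAction.stabilizer G u := by
  ext g
  rw [mem_TS, Subgroup.mem_bot, MulAction.mem_stabilizer_iff, mul_inv_eq_one]

theorem TS_index (hp : p.Prime) [Finite G] [Finite V] (hG : IsPGroup p G) (W' W : Subgroup V)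
    (hW' : GInv G W') (hW : GInv G W) (hle : W' ≤ W) (hcard : Nat.card W = p * Nat.card W')
    (u : V) : Nat.card (TS W hW u) = Nat.card (TS W' hW' u) ∨
      Nat.card (TS W hW u) = p * Nat.card (TS W' hW' u) := by
  have hker : ∀ (A B : Type) [Group A] [Group B] (f : A →* B),
      Nat.card A = Nat.card f.ker * Nat.card f.range := by
    intro A B _ _ f
    rw [← Subgroup.index_ker f]
    exact (Subgroup.card_mul_index f.ker).symm
  let f : TS W hW u →* V ⧸ W' :=
    { toFun := fun x => QuotientGroup.mk' W' (((x : G) • u) * u⁻¹)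
      map_one' := by simp
      map_mul' := by
        intro x y
        rw [← map_mul]
        rw [QuotientGroup.mk'_apply, QuotientGroup.mk'_apply, QuotientGroup.eq]
        have hy : ((y : G) • u) * u⁻¹ ∈ W := y.2
        have h1 := smul_W hp hG W' W hW' hW hle hcard (x : G) _ hy
        have h2 : ((((x * y : TS W hW u) : G) • u) * u⁻¹)⁻¹ *
            ((((x : G) • u) * u⁻¹) * (((y : G) • u) * u⁻¹)) =
            (((x : G) • (((y : G) • u) * u⁻¹)) * (((y : G) • u) * u⁻¹)⁻¹)⁻¹ := by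
          rw [Subgroup.coe_mul, mul_smul, smul_mul', smul_inv']
          generalize (x : G) • (y : G) • u = a
          generalize (x : G) • u = b
          generalize (y : G) • u = c
          have key : ∀ a b c u : Additive V,
              -(a + -u) + ((b + -u) + (c + -u)) = -((a + -b) + -(c + -u)) := by
            intros; abel
          exact key (Additive.ofMul a) (Additive.ofMul b) (Additive.ofMul c) (Additive.ofMul u)
        rw [h2]
        exact W'.inv_mem h1 }
  have hf : ∀ x : TS W hW u, f x = QuotientGroup.mk' W' (((x : G) • u) * u⁻¹) := fun _ => rfl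
  have hkerf : f.ker = (TS W' hW' u).subgroupOf (TS W hW u) := by
    ext x
    rw [MonoidHom.mem_ker, hf, Subgroup.mem_subgroupOf, QuotientGroup.mk'_apply,
      QuotientGroup.eq_one_iff]
    rfl
  have hck : Nat.card f.ker = Nat.card (TS W' hW' u) := by
    rw [hkerf]
    exact Nat.card_congr (Subgroup.subgroupOfEquivOfLe (TS_mono hW' hW hle u)).toEquiv
  have hrange : f.range ≤ W.map (QuotientGroup.mk' W') := by
    rintro _ ⟨x, rfl⟩
    exact ⟨_, x.2, rfl⟩
  have hcm : Nat.card (W.map (QuotientGroup.mk' W')) = p := by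
    have h1 := hker _ _ ((QuotientGroup.mk' W').comp W.subtype)
    have h2 : ((QuotientGroup.mk' W').comp W.subtype).range = W.map (QuotientGroup.mk' W') := by
      rw [MonoidHom.range_comp, Subgroup.range_subtype]
    have h3 : ((QuotientGroup.mk' W').comp W.subtype).ker = W'.subgroupOf W := by
      ext x
      rw [MonoidHom.mem_ker, Subgroup.mem_subgroupOf, MonoidHom.comp_apply,
        QuotientGroup.mk'_apply, QuotientGroup.eq_one_iff]
      rfl
    have h4 : Nat.card (W'.subgroupOf W) = Nat.card W' :=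
      Nat.card_congr (Subgroup.subgroupOfEquivOfLe hle).toEquiv
    rw [h2, h3, h4, hcard, mul_comm] at h1
    exact (Nat.eq_of_mul_eq_mul_left Nat.card_pos h1).symm
  have hd : Nat.card f.range ∣ p := by
    have := Subgroup.card_dvd_of_le hrange
    rwa [hcm] at this
  have hmain := hker _ _ f
  rw [hck] at hmain
  rcases (Nat.dvd_prime hp).1 hd with h | h
  · left; rw [hmain, h, mul_one]
  · right; rw [hmain, h, mul_comm]

theorem TS_conj_mem (W : Subgroup V) (hW : GInv G W) (g x : G) (u : V)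
    (hx : x ∈ TS W hW u) : g * x * g⁻¹ ∈ TS W hW (g • u) := by
  rw [mem_TS] at hx ⊢
  have h1 : ((g * x * g⁻¹) • (g • u)) * (g • u)⁻¹ = g • ((x • u) * u⁻¹) := by
    rw [smul_mul', smul_inv', mul_smul, mul_smul, inv_smul_smul]
  rw [h1]
  exact hW g _ hx

theorem TS_conj (W : Subgroup V) (hW : GInv G W) (g : G) (u : V) :
    Nat.card (TS W hW (g • u)) = Nat.card (TS W hW u) := by
  refine Nat.card_congr ⟨fun x => ⟨g⁻¹ * (x : G) * g⁻¹⁻¹, ?_⟩, fun x => ⟨g * (x : G) * g⁻¹, ?_⟩,
    ?_, ?_⟩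
  · have := TS_conj_mem W hW g⁻¹ x (g • u) x.2
    rwa [inv_smul_smul] at this
  · exact TS_conj_mem W hW g x u x.2
  · intro x
    apply Subtype.ext
    simp [mul_assoc]
  · intro x
    apply Subtype.ext
    simp [mul_assoc]

theorem State_R_le {r K L R : ℕ} (H : Hyp p r K G V) {W : Subgroup V} {hW : GInv G W}
    {N : Subgroup G} {Good : Set V} (hS : State p r L W hW R N Good) : R ≤ r := by
  have := H.finG
  obtain ⟨u, hu⟩ := hS.nonempty
  have h1 := hS.card u hu
  have h2 := H.orb u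
  have h3 : Nat.card (MulAction.stabilizer G u) ≤ Nat.card (TS W hW u) :=
    Nat.le_of_dvd Nat.card_pos (Subgroup.card_dvd_of_le (TS_stab W hW u))
  have h4 : Nat.card (TS W hW u) * p ^ R ≤ Nat.card (TS W hW u) * p ^ r := by
    rw [h1]
    exact h2.trans (Nat.mul_le_mul_right _ h3)
  have h5 : p ^ R ≤ p ^ r := Nat.le_of_mul_le_mul_left h4 Nat.card_pos
  exact (Nat.pow_le_pow_iff_right H.prime.one_lt).1 h5

theorem CW_le {D L R : ℕ} {W' W : Subgroup V} {hW' : GInv G W'} {hW : GInv G W} (hle : W' ≤ W)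
    {N : Subgroup G} {Good : Set V} (hS : State p D L W hW R N Good) : CW W' hW' ≤ N := by
  obtain ⟨u, hu⟩ := hS.nonempty
  exact (iInf_le _ u).trans ((TS_mono hW' hW hle u).trans (hS.le u hu))

theorem cmn_mono {N' N : Subgroup G} (h : N' ≤ N) (i : ℕ) :
    (cmn N' i : Subgroup V) ≤ cmn N i := by
  induction i with
  | zero => exact le_rfl
  | succ i ih =>
    apply Subgroup.closure_mono
    rintro w ⟨g, hg, v, hv, rfl⟩
    exact ⟨g, h hg, v, ih hv, rfl⟩

theorem cmn_succ_le {N : Subgroup G} {K : ℕ} {W' W : Subgroup V} (h : cmn N K ≤ W)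
    (hWW : ∀ (g : G), ∀ v ∈ W, (g • v) * v⁻¹ ∈ W') : cmn N (K + 1) ≤ W' := by
  change Subgroup.closure _ ≤ W'
  rw [Subgroup.closure_le]
  rintro w ⟨g, _, v, hv, rfl⟩
  exact hWW g v (h hv)

end Pool.Agent.LP
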