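import Pool.Agent.LP.Sle
import Pool.Agent.LP.Ps2

/-!
# LP / St1: from `W` to `W'`, same group `N`

`H : Hyp p r K G V`. Numbers: `R ≤ r` (`State_R_le`), `3 r + 3 ≤ p`, `2 K + 1 = p`, so `K + 1 ≤ p - 1`
(`p ≥ 3`), `r + 2 ≤ p`, `r + 2 ≤ p - R`.

PROOF. Put `C = CW W' hW' ≤ N` (`CW_le`), `cmn N (K + 1) ≤ W'` (`cmn_succ_le`, `smul_W`), and take the
Lie data `X, π, β` of `PDX` for `N, W'` (`m = K + 1`). For `u0, u1` let `b0 = β.flip u0`,
`b1 = β.flip u1 : X →* V ⧸ W'`; `β ξ (u1 * u0 ^ t) = b1 ξ * b0 ξ ^ t`. For `W2 = W` or `W2 = W'`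
let `Y2 = W2.map (mk' W')` (`= ⊥` for `W2 = W'`, of order `p` for `W2 = W`). By `PDX`
`x ∈ Sec p r N W2 u0 u1 ↔ (∀ d, x d ∈ N) ∧ π ∘ x ∈ PS p (r+1) b0 b1 Y2`, so by `PD_card`
(S) `|Sec p r N W2 u0 u1| = |PS p (r+1) b0 b1 Y2| * |C| ^ (r+1)`.
(A) For `t < p`, `u = u1 * u0 ^ t`, with `TS W u = TS W' u`: for all `ξ ∈ X`,
`b1 ξ * b0 ξ ^ t ∈ Y2(W) → b1 ξ * b0 ξ ^ t = 1`: write `ξ = π x`, `x ∈ N`; by `PD.act`
`(x • u) u⁻¹ ∈ W`, so `x ∈ TS W u = TS W' u`, and by `PD.act` for `W'`, `β ξ u ∈ ⊥`.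

Case r' = 0: for all `u ∈ Good`, `TS W' u = TS W u`. Put `Good' = Good`, `R' = R`. All fields except
`sec` are clear (`card`: `|TS W' u| = |TS W u|`; `le`: `TS_mono`). `sec`: by (A) for
`t ∉ badT p Good u0 u1`, i.e. for `T = range p \ badT`, `|T| ≥ p - R ≥ r + 2`; `PSE` (n = r + 1) gives
`PS Y2(W) ≤ PS ⊥`, so `|Sec N W| ≤ |Sec N W'|` by (S), and `sec` for `W'` follows from `sec` for `W`.

Case r' = 1: some `u ∈ Good` has `TS W' u ≠ TS W u`. Put
`Good' = {u ∈ Good | |TS W u| = p |TS W' u|}`, `R' = R + 1`. Nonempty by `TS_index`. `inv`: `TS_conj`.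
`card`: `|TS W' u| p^(R+1) = |TS W u| p^R = |G|`. `le`: `TS_mono`. `small`: above. 
`sec`: `u0 ∈ Good'`, `u1`, `B' ⊆ badT p Good' u0 u1`, `|B'| ≤ r + 2`. Let
`B = B' ∩ badT p Good u0 u1`, `B'' = B' \ B`; for `t ∈ B''`, `u1 u0^t ∈ Good \ Good'`, so
`TS W = TS W'` there (`TS_index`, `TS_mono`) and (A) holds. `PSL` (n = r + 1, `Y2 = Y2(W)`, `B''`) and (S):
`|Sec N W| ≤ |Sec N W'| p^(r + 2 - |B''|)`. With `sec` for `W` and `B`:
`|G|^(r+1) p^|B| ≤ |Sec N W| p^((r+2)R) ≤ |Sec N W'| p^(r+2-|B''|+(r+2)R)`; multiply by `p^|B''|`.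
`few`: `u0 ∈ Good'`, `u1`. Upper bound: `|Sec N W'| ≤ |TS W' u0| ^ (r+1)` (`Sec_le`). As `|TS W' u0| p^R' = |G|`:
`|Sec N W'| p^((r+1)R') ≤ |G|^(r+1)`. With `sec` for `W'`: `p^|B'| ≤ p^R'` for every
`B' ⊆ badT p Good' u0 u1` with `|B'| ≤ r + 2`. If `|badT| > R'` take `|B'| = R' + 1 ≤ r + 2`
(for `R' ≤ r + 1`; here `R' = R + 1 ≤ r + 1`): contradiction.
(`few` in the case r' = 0 is `few` for `W`.)
-/

set_option autoImplicit false

namespace Pool.Agent.LP

variable {p r K : ℕ} {G V : Type} [Group G] [CommGroup V] [MulDistribMulAction G V]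

private theorem card_Y2 [Finite V] (W' W : Subgroup V) (hle : W' ≤ W)
    (hcard : Nat.card W = p * Nat.card W') :
    Nat.card ↥(W.map (QuotientGroup.mk' W')) = p := by
  have h1 := Subgroup.index_ker ((QuotientGroup.mk' W').comp W.subtype)
  have h2 : ((QuotientGroup.mk' W').comp W.subtype).range = W.map (QuotientGroup.mk' W') := by
    rw [MonoidHom.range_comp, Subgroup.range_subtype]
  have h3 : ((QuotientGroup.mk' W').comp W.subtype).ker = W'.subgroupOf W := by
    rw [← MonoidHom.comap_ker, QuotientGroup.ker_mk']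
    rfl
  have h4 := Subgroup.card_mul_index (W'.subgroupOf W)
  have h5 : Nat.card ↥(W'.subgroupOf W) = Nat.card W' :=
    Nat.card_congr (Subgroup.subgroupOfEquivOfLe hle).toEquiv
  rw [h3, h2] at h1
  rw [h5, h1, hcard, mul_comm p] at h4
  exact Nat.eq_of_mul_eq_mul_left Nat.card_pos h4

private theorem map_self_bot (W' : Subgroup V) : W'.map (QuotientGroup.mk' W') = ⊥ := by
  rw [Subgroup.map_eq_bot_iff, QuotientGroup.ker_mk']

private theorem flip_eq {W' : Subgroup V} {X : Type} [CommGroup X] (β : X →* V →* V ⧸ W')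
    (u0 u1 : V) (ξ : X) (t : ℕ) :
    β.flip u1 ξ * β.flip u0 ξ ^ t = β ξ (u1 * u0 ^ t) := by
  rw [MonoidHom.flip_apply, MonoidHom.flip_apply, map_mul, map_pow]

private theorem sec_card [Finite G] {W' : Subgroup V} {hW' : GInv G W'} {N : Subgroup G}
    {X : Type} [CommGroup X] {π : G → X} {β : X →* V →* V ⧸ W'}
    (hPD : PD p N W' (CW W' hW') π β) (hCN : CW W' hW' ≤ N) (W2 : Subgroup V)
    (hW2 : GInv G W2) (u0 u1 : V)
    (hSec : ∀ x : Fin (r + 1) → G, x ∈ Sec p r N W2 hW2 u0 u1 ↔ (∀ d, x d ∈ N) ∧ ∀ t < p,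
      β (pev (fun d => π (x d)) t) (u1 * u0 ^ t) ∈ W2.map (QuotientGroup.mk' W')) :
    Nat.card (Sec p r N W2 hW2 u0 u1) =
      Nat.card ↥(PS p (r + 1) (β.flip u0) (β.flip u1) (W2.map (QuotientGroup.mk' W'))) *
        Nat.card (CW W' hW') ^ (r + 1) := by
  have h1 := PD_card hPD hCN (r + 1)
    (PS p (r + 1) (β.flip u0) (β.flip u1) (W2.map (QuotientGroup.mk' W')) : Set (Fin (r + 1) → X))
  have h2 : Sec p r N W2 hW2 u0 u1 = {x : Fin (r + 1) → G | (∀ d, x d ∈ N) ∧
      (fun d => π (x d)) ∈ (PS p (r + 1) (β.flip u0) (β.flip u1)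
        (W2.map (QuotientGroup.mk' W')) : Set (Fin (r + 1) → X))} := by
    ext x
    rw [hSec x, Set.mem_ofPred_eq, SetLike.mem_coe, mem_PS]
    simp only [flip_eq]
  rw [h2]
  exact h1

private theorem step_A {W' W : Subgroup V} {hW' : GInv G W'} {hW : GInv G W} {N : Subgroup G}
    {X : Type} [CommGroup X] {π : G → X} {β : X →* V →* V ⧸ W'}
    (hPD : PD p N W' (CW W' hW') π β) (hle : W' ≤ W) (u0 u1 : V) (t : ℕ)
    (hT : TS W hW (u1 * u0 ^ t) ≤ TS W' hW' (u1 * u0 ^ t)) (ξ : X)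
    (h : β.flip u1 ξ * β.flip u0 ξ ^ t ∈ W.map (QuotientGroup.mk' W')) :
    β.flip u1 ξ * β.flip u0 ξ ^ t = 1 := by
  obtain ⟨x, hx, rfl⟩ := hPD.surj ξ
  rw [flip_eq] at h ⊢
  have h1 := (hPD.act W hW hle x hx (u1 * u0 ^ t)).1 h
  have h2 := (hPD.act W' hW' le_rfl x hx (u1 * u0 ^ t)).2 (hT h1)
  rwa [map_self_bot, Subgroup.mem_bot] at h2

theorem STEP1 (H : Hyp p r K G V) {W' W : Subgroup V} (hW' : GInv G W') (hW : GInv G W)
    (hle : W' ≤ W) (hcard : Nat.card W = p * Nat.card W') {R : ℕ} {N : Subgroup G}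
    {Good : Set V} (hS : State p r K W hW R N Good) :
    ∃ (R' : ℕ) (Good' : Set V), State p r (K + 1) W' hW' R' N Good' := by
  classical
  have hfG := H.finG
  have hfV := H.finV
  have hp := H.prime
  have h3 := H.three
  have hK := H.hK
  have hR := State_R_le H hS
  have hCN : CW W' hW' ≤ N := CW_le hle hS
  have hsmall : cmn N (K + 1) ≤ W' :=
    cmn_succ_le hS.small (fun g v hv => smul_W hp H.pG W' W hW' hW hle hcard g v hv)
  have hK1 : K + 1 ≤ p - 1 := by
    have := hp.two_le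
    omega
  obtain ⟨X, _, π, β, hPD, hSec, -⟩ := PDX hp H.pG H.pV N W' hW' (K + 1) hK1 hsmall hCN
  have hfX := hPD.fin
  have hVp : IsPGroup p (V ⧸ W') := H.pV.to_quotient W'
  have hY2 := card_Y2 W' W hle hcard
  have hcW := fun u0 u1 => sec_card (r := r) hPD hCN W hW u0 u1 (hSec r W hW hle u0 u1)
  have hcW' := fun u0 u1 => sec_card (r := r) hPD hCN W' hW' u0 u1 (hSec r W' hW' le_rfl u0 u1)
  simp only [map_self_bot] at hcW'
  by_cases hcase : ∀ u ∈ Good, TS W hW u ≤ TS W' hW' u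
  · -- no change of the rank
    have heq : ∀ u ∈ Good, TS W' hW' u = TS W hW u := fun u hu =>
      le_antisymm (TS_mono hW' hW hle u) (hcase u hu)
    refine ⟨R, Good, hS.nonempty, hS.normal, hS.inv, fun u hu => ?_, fun u hu => ?_, hsmall,
      hS.few, ?_⟩
    · rw [heq u hu]
      exact hS.card u hu
    · rw [heq u hu]
      exact hS.le u hu
    · intro u0 hu0 u1 B hB hBc
      refine (hS.sec u0 hu0 u1 B hB hBc).trans (Nat.mul_le_mul_right _ ?_)
      rw [hcW, hcW']
      refine Nat.mul_le_mul_right _ ?_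
      have hPSE := PSE hp hVp (β.flip u0) (β.flip u1) (r + 1)
        (W.map (QuotientGroup.mk' W')) (Finset.range p \ badT p Good u0 u1)
        (fun t ht => Finset.mem_range.1 (Finset.mem_sdiff.1 ht).1)
        (by
          have h1 := Finset.le_card_sdiff (badT p Good u0 u1) (Finset.range p)
          have h2 := hS.few u0 hu0 u1
          rw [Finset.card_range] at h1
          omega)
        (by
          intro t ht ξ hξ
          obtain ⟨ht1, ht2⟩ := Finset.mem_sdiff.1 ht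
          have hgood : u1 * u0 ^ t ∈ Good := by
            by_contra h
            exact ht2 ((mem_badT p Good u0 u1 t).2 ⟨Finset.mem_range.1 ht1, h⟩)
          exact step_A hPD hle u0 u1 t (hcase _ hgood) ξ hξ)
      exact Nat.card_mono (Set.toFinite _) hPSE
  · -- the rank goes up by one
    push Not at hcase
    obtain ⟨w, hwG, hw⟩ := hcase
    have hdich : ∀ u, TS W hW u ≤ TS W' hW' u ∨
        Nat.card (TS W hW u) = p * Nat.card (TS W' hW' u) := by
      intro u
      rcases TS_index hp H.pG W' W hW' hW hle hcard u with h | h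
      · left
        exact (Subgroup.eq_of_le_of_card_ge (TS_mono hW' hW hle u) h.le).ge
      · exact Or.inr h
    set Good' : Set V := {u | u ∈ Good ∧ Nat.card (TS W hW u) = p * Nat.card (TS W' hW' u)}
      with hGood'
    have hcard' : ∀ u ∈ Good', Nat.card (TS W' hW' u) * p ^ (R + 1) = Nat.card G := by
      rintro u ⟨hu1, hu2⟩
      rw [← hS.card u hu1, hu2, pow_succ]
      ring
    have hle' : ∀ u ∈ Good', TS W' hW' u ≤ N := fun u hu =>
      (TS_mono hW' hW hle u).trans (hS.le u hu.1)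
    have hsec' : ∀ u0 ∈ Good', ∀ u1 : V, ∀ B ⊆ badT p Good' u0 u1, B.card ≤ r + 2 →
        Nat.card G ^ (r + 1) * p ^ B.card ≤
          Nat.card (Sec p r N W' hW' u0 u1) * p ^ ((r + 2) * (R + 1)) := by
      intro u0 hu0 u1 B hB hBc
      set B1 := B ∩ badT p Good u0 u1 with hB1
      set B2 := B \ badT p Good u0 u1 with hB2
      have hcc : B1.card + B2.card = B.card := Finset.card_inter_add_card_sdiff B _
      have hs := hS.sec u0 hu0.1 u1 B1 Finset.inter_subset_right (by omega)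
      have hPSL := PSL hp hVp (β.flip u0) (β.flip u1) (r + 1) (by omega)
        (W.map (QuotientGroup.mk' W')) hY2 B2
        (fun t ht => ((mem_badT p Good' u0 u1 t).1 (hB (Finset.mem_sdiff.1 ht).1)).1)
        (by omega)
        (by
          intro t ht ξ hξ
          obtain ⟨ht1, ht2⟩ := Finset.mem_sdiff.1 ht
          obtain ⟨htp, hng⟩ := (mem_badT p Good' u0 u1 t).1 (hB ht1)
          have hgood : u1 * u0 ^ t ∈ Good := by
            by_contra h
            exact ht2 ((mem_badT p Good u0 u1 t).2 ⟨htp, h⟩)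
          rcases hdich (u1 * u0 ^ t) with h | h
          · exact step_A hPD hle u0 u1 t h ξ hξ
          · exact absurd ⟨hgood, h⟩ hng)
      have hc1 : Nat.card (Sec p r N W hW u0 u1) ≤
          Nat.card (Sec p r N W' hW' u0 u1) * p ^ (r + 1 + 1 - B2.card) := by
        rw [hcW, hcW', mul_right_comm]
        exact Nat.mul_le_mul_right _ hPSL
      have hB2c : B2.card ≤ r + 2 := by omega
      calc Nat.card G ^ (r + 1) * p ^ B.card
          = Nat.card G ^ (r + 1) * p ^ B1.card * p ^ B2.card := by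
            rw [← hcc, pow_add p, ← mul_assoc]
        _ ≤ (Nat.card (Sec p r N W hW u0 u1) * p ^ ((r + 2) * R)) * p ^ B2.card :=
            Nat.mul_le_mul_right _ hs
        _ ≤ (Nat.card (Sec p r N W' hW' u0 u1) * p ^ (r + 1 + 1 - B2.card) *
              p ^ ((r + 2) * R)) * p ^ B2.card :=
            Nat.mul_le_mul_right _ (Nat.mul_le_mul_right _ hc1)
        _ = Nat.card (Sec p r N W' hW' u0 u1) * p ^ ((r + 2) * (R + 1)) := by
            rw [mul_assoc, mul_assoc, ← pow_add, ← pow_add]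
            congr 2
            have : r + 1 + 1 - B2.card + B2.card = r + 2 := by omega
            rw [mul_add, mul_one]
            omega
    refine ⟨R + 1, Good', ⟨w, hwG, (hdich w).resolve_left hw⟩, hS.normal, ?_, hcard', hle',
      hsmall, ?_, hsec'⟩
    · rintro g u ⟨hu1, hu2⟩
      refine ⟨hS.inv g u hu1, ?_⟩
      rw [TS_conj, TS_conj, hu2]
    · intro u0 hu0 u1
      by_contra hcon
      push Not at hcon
      obtain ⟨B, hB, hBc⟩ := Finset.exists_subset_card_eq (Nat.succ_le_of_lt hcon)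
      have hBc' : B.card = R + 2 := hBc
      have hs := hsec' u0 hu0 u1 B hB (by omega)
      have hub := Sec_le H hW' hsmall hCN u0 u1 (hle' u0 hu0)
      have hc := hcard' u0 hu0
      have hpos : 0 < Nat.card G := Nat.card_pos
      have h1 : Nat.card (Sec p r N W' hW' u0 u1) * p ^ ((r + 2) * (R + 1)) ≤
          Nat.card G ^ (r + 1) * p ^ (R + 1) := by
        calc Nat.card (Sec p r N W' hW' u0 u1) * p ^ ((r + 2) * (R + 1))
            ≤ Nat.card (TS W' hW' u0) ^ (r + 1) * p ^ ((r + 2) * (R + 1)) :=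
              Nat.mul_le_mul_right _ hub
          _ = (Nat.card (TS W' hW' u0) * p ^ (R + 1)) ^ (r + 1) * p ^ (R + 1) := by
              rw [mul_pow, ← pow_mul, mul_assoc, ← pow_add]
              congr 2
              ring
          _ = Nat.card G ^ (r + 1) * p ^ (R + 1) := by rw [hc]
      rw [hBc'] at hs
      have h2 := hs.trans h1
      have h4 : p ^ (R + 2) ≤ p ^ (R + 1) := Nat.le_of_mul_le_mul_left h2 (pow_pos hpos _)
      have h5 : p ^ (R + 1) < p ^ (R + 2) := Nat.pow_lt_pow_right hp.one_lt (by omega)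
      omega

end Pool.Agent.LP
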